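import Pool.Agent.Helper60.GP.St
import Pool.Agent.Helper28.PC.Mert

/-! Project GP (MP_b454d1_nt), module M1 -/

set_option autoImplicit false

namespace Pool.Agent.Helper60.GP

open Finset ArithmeticFunction

namespace GPM1

/-- telescoping bound for `∑ log n / (n (n - 1))` -/
lemma tail (n : ℕ) : ∑ k ∈ Icc 2 (n + 1), Real.log k / ((k : ℝ) * (k - 1)) ≤
    2 - (Real.log ((n + 1 : ℕ) : ℝ) + 2) / ((n + 1 : ℕ) : ℝ) := by
  induction n with
  | zero => simp
  | succ n ih =>
    rw [Finset.sum_Icc_succ_top (by omega)]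
    have hn : (0 : ℝ) < ((n + 1 : ℕ) : ℝ) := by positivity
    have hn1 : (1 : ℝ) ≤ ((n + 1 : ℕ) : ℝ) := by exact_mod_cast (by omega : 1 ≤ n + 1)
    set a : ℝ := ((n + 1 : ℕ) : ℝ) with ha
    have hc : ((n + 1 + 1 : ℕ) : ℝ) = a + 1 := by rw [ha]; push_cast; ring
    rw [hc]
    have hl : Real.log (a + 1) ≤ Real.log a + 1 / a := by
      have h1 : Real.log ((a + 1) / a) ≤ (a + 1) / a - 1 := Real.log_le_sub_one_of_pos (by positivity)
      rw [Real.log_div (by positivity) (by positivity)] at h1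
      have h2 : (a + 1) / a - 1 = 1 / a := by field_simp; ring
      linarith
    have key : Real.log (a + 1) / ((a + 1) * (a + 1 - 1)) ≤
        (Real.log a + 2) / a - (Real.log (a + 1) + 2) / (a + 1) := by
      have h3 : (Real.log a + 2) / a - (Real.log (a + 1) + 2) / (a + 1) -
          Real.log (a + 1) / ((a + 1) * (a + 1 - 1)) =
          ((a + 1) * (Real.log a - Real.log (a + 1)) + 2) / (a * (a + 1)) := by
        rw [add_sub_cancel_right]
        field_simp
        ring
      have h4 : 0 ≤ (a + 1) * (Real.log a - Real.log (a + 1)) + 2 := by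
        have h5 : (a + 1) * (Real.log (a + 1) - Real.log a) ≤ (a + 1) * (1 / a) :=
          mul_le_mul_of_nonneg_left (by linarith) (by positivity)
        have h6 : (a + 1) * (1 / a) ≤ 2 := by
          rw [mul_one_div, div_le_iff₀ hn]
          linarith
        nlinarith
      have h5 : 0 ≤ ((a + 1) * (Real.log a - Real.log (a + 1)) + 2) / (a * (a + 1)) := by
        positivity
      linarith
    linarith

lemma fact_le (n : ℕ) : Real.log (n.factorial : ℕ) ≤
    n * ∑ p ∈ n.primesLE, Real.log p / ((p : ℝ) - 1) := by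
  rw [Real.log_nat_eq_sum_factorization, Finsupp.sum, Finset.mul_sum]
  have hsub : (n.factorial).factorization.support ⊆ n.primesLE := by
    intro p hp
    rw [Nat.support_factorization, Nat.mem_primeFactors] at hp
    rw [Nat.mem_primesLE]
    exact ⟨(hp.1.dvd_factorial).1 hp.2.1, hp.1⟩
  refine (Finset.sum_le_sum_of_subset_of_nonneg hsub
    (fun p _ _ => mul_nonneg (Nat.cast_nonneg _) (Real.log_natCast_nonneg p))).trans ?_
  refine Finset.sum_le_sum fun p hp => ?_
  rw [Nat.mem_primesLE] at hp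
  have hp2 : (2 : ℝ) ≤ p := by exact_mod_cast hp.2.two_le
  have h1 : (0 : ℝ) < (p : ℝ) - 1 := by linarith
  have h2 : (n.factorial.factorization p : ℝ) * ((p : ℝ) - 1) ≤ n := by
    have h3 := Nat.sub_one_mul_factorization_factorial (n := n) hp.2
    have h4 : (p - 1) * (n.factorial.factorization p) ≤ n := by rw [h3]; exact Nat.sub_le _ _
    have h5 : (((p - 1) * (n.factorial.factorization p) : ℕ) : ℝ) ≤ n := by exact_mod_cast h4
    rw [Nat.cast_mul, Nat.cast_sub hp.2.one_lt.le, Nat.cast_one] at h5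
    linarith
  have h3 : (n.factorial.factorization p : ℝ) ≤ n / ((p : ℝ) - 1) := by
    rw [le_div_iff₀ h1]; exact h2
  calc (n.factorial.factorization p : ℝ) * Real.log p ≤ n / ((p : ℝ) - 1) * Real.log p :=
        mul_le_mul_of_nonneg_right h3 (Real.log_natCast_nonneg p)
    _ = n * (Real.log p / ((p : ℝ) - 1)) := by ring

lemma fact_ge (n : ℕ) (hn : 1 ≤ n) : n * Real.log n - n ≤ Real.log (n.factorial : ℕ) := by
  have h1 : (n : ℝ) ^ n / (n.factorial : ℕ) ≤ Real.exp n :=
    Real.pow_div_factorial_le_exp _ (Nat.cast_nonneg n) n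
  have hn0 : (0 : ℝ) < n := by exact_mod_cast hn
  have hf : (0 : ℝ) < (n.factorial : ℕ) := by exact_mod_cast Nat.factorial_pos n
  have h2 := Real.log_le_log (by positivity) h1
  rw [Real.log_exp, Real.log_div (by positivity) hf.ne', Real.log_pow] at h2
  linarith

lemma lower (n : ℕ) (hn : 1 ≤ n) :
    Real.log n - 3 ≤ ∑ p ∈ n.primesLE, Real.log p / p := by
  have hn0 : (0 : ℝ) < n := by exact_mod_cast hn
  have h1 : Real.log n - 1 ≤ ∑ p ∈ n.primesLE, Real.log p / ((p : ℝ) - 1) := by
    have h2 := (fact_ge n hn).trans (fact_le n)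
    have h3 : (n : ℝ) * (Real.log n - 1) ≤
        n * ∑ p ∈ n.primesLE, Real.log p / ((p : ℝ) - 1) := by linarith
    exact le_of_mul_le_mul_left h3 hn0
  have h2 : ∑ p ∈ n.primesLE, Real.log p / ((p : ℝ) - 1) - ∑ p ∈ n.primesLE, Real.log p / p ≤ 2 := by
    rw [← Finset.sum_sub_distrib]
    have h3 : ∀ p ∈ n.primesLE, Real.log p / ((p : ℝ) - 1) - Real.log p / p =
        Real.log p / ((p : ℝ) * (p - 1)) := by
      intro p hp
      rw [Nat.mem_primesLE] at hp
      have hp2 : (2 : ℝ) ≤ p := by exact_mod_cast hp.2.two_le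
      have h1 : (p : ℝ) - 1 ≠ 0 := by linarith
      have h2 : (p : ℝ) ≠ 0 := by linarith
      field_simp
      ring
    rw [Finset.sum_congr rfl h3]
    have hsub : n.primesLE ⊆ Icc 2 (n - 1 + 1) := by
      intro p hp
      rw [Nat.mem_primesLE] at hp
      rw [Finset.mem_Icc]
      exact ⟨hp.2.two_le, by omega⟩
    refine (Finset.sum_le_sum_of_subset_of_nonneg hsub ?_).trans ((tail (n - 1)).trans ?_)
    · intro k hk _
      rw [Finset.mem_Icc] at hk
      have hk2 : (2 : ℝ) ≤ k := by exact_mod_cast hk.1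
      exact div_nonneg (Real.log_natCast_nonneg k) (mul_nonneg (by linarith) (by linarith))
    · have : 0 ≤ (Real.log ((n - 1 + 1 : ℕ) : ℝ) + 2) / ((n - 1 + 1 : ℕ) : ℝ) :=
        div_nonneg (add_nonneg (Real.log_natCast_nonneg _) (by norm_num)) (Nat.cast_nonneg _)
      linarith
  linarith

end GPM1

open GPM1 in
theorem hM1 : StM1 := by
  refine ⟨4, fun x hx => ?_⟩
  have hset : (Icc 1 ⌊x⌋₊).filter Nat.Prime = (⌊x⌋₊).primesLE := by
    ext p
    rw [Finset.mem_filter, Finset.mem_Icc, Nat.mem_primesLE]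
    exact ⟨fun h => ⟨h.1.2, h.2⟩, fun h => ⟨⟨h.2.one_lt.le, h.1⟩, h.2⟩⟩
  rw [hset]
  have hn : 1 ≤ ⌊x⌋₊ := (Nat.one_le_floor_iff x).2 hx
  set n := ⌊x⌋₊ with hnn
  have hn1 : (1 : ℝ) ≤ n := by exact_mod_cast hn
  have h1 : (n : ℝ) ≤ x := Nat.floor_le (by linarith)
  have h2 : x < n + 1 := Nat.lt_floor_add_one x
  have h3 : Real.log n ≤ Real.log x := Real.log_le_log (by linarith) h1
  have h4 : Real.log x ≤ Real.log n + Real.log 2 := by
    rw [← Real.log_mul (by linarith) (by norm_num)]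
    exact Real.log_le_log (by linarith) (by linarith)
  have h5 := lower n hn
  have h6 := Pool.Agent.Helper28.PC.mertens_upper n hn
  have h7 : Real.log 4 = 2 * Real.log 2 := by
    rw [show (4 : ℝ) = 2 ^ 2 by norm_num, Real.log_pow]; norm_num
  have h8 := Real.log_two_lt_d9
  rw [abs_le]
  constructor
  · linarith
  · linarith

end Pool.Agent.Helper60.GP
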