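import Pool.Agent.Helper60.GP.St

/-! Project GP (MP_b454d1_nt), module B0 -/

set_option autoImplicit false

namespace Pool.Agent.Helper60.GP

open Finset ArithmeticFunction

private theorem abel_B0 (c : ℕ → ℂ) (g : ℕ → ℝ) (N : ℕ) :
    ∑ n ∈ Ioc 0 N, ((g n : ℝ) : ℂ) * c n = (g N : ℂ) * (∑ n ∈ Ioc 0 N, c n) -
      ∑ n ∈ Ico 0 N, ((g (n + 1) - g n : ℝ) : ℂ) * (∑ m ∈ Ioc 0 n, c m) := by
  induction N with
  | zero => simp
  | succ N ih =>
    rw [Finset.sum_Ioc_succ_top (Nat.zero_le N), Finset.sum_Ioc_succ_top (Nat.zero_le N),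
      Finset.sum_Ico_succ_top (Nat.zero_le N), ih]
    push_cast
    ring

theorem hPSum : StPSum := by
  intro w hw hsupp
  have hcs : HasCompactSupport w := by
    refine HasCompactSupport.intro (isCompact_Icc (a := (0 : ℝ)) (b := 1)) fun t ht => hsupp t ht
  obtain ⟨W, hW⟩ := hw.continuous.bounded_above_of_compact_support hcs
  obtain ⟨L, hL⟩ := (hw.continuous_deriv le_rfl).bounded_above_of_compact_support hcs.deriv
  have hW0 : 0 ≤ W := (norm_nonneg _).trans (hW 0)
  have hL0 : 0 ≤ L := (norm_nonneg _).trans (hL 0)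
  have hlip : ∀ s t : ℝ, |w s - w t| ≤ L * |s - t| := by
    intro s t
    exact Convex.norm_image_sub_le_of_norm_deriv_le (s := Set.univ)
      (fun x _ => (hw.differentiable one_ne_zero).differentiableAt) (fun x _ => hL x) convex_univ
      (Set.mem_univ t) (Set.mem_univ s)
  have hw0 : ∀ t ≤ 0, w t = 0 := by
    have h1 : Set.EqOn w (fun _ => 0) (Set.Iio 0) := fun t ht => hsupp t (fun h => by
      have := Set.mem_Iio.1 ht
      linarith [h.1])
    have h2 := h1.closure hw.continuous continuous_const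
    rw [closure_Iio] at h2
    intro t ht
    exact h2 ht
  refine ⟨W + 2 * L + 1, by positivity, fun x R f hx hR hf => ?_⟩
  have hx0 : 0 < x := by linarith
  set N : ℕ := ⌊3 * x⌋₊ with hN
  have hII : II x = Ioc 0 N := by
    unfold II
    rw [← hN]
    rfl
  set v : ℕ → ℝ := fun n => max (Real.log (n / x)) 0 with hv
  have hgv : ∀ n : ℕ, w (Real.log (n / x)) = w (v n) := by
    intro n
    rcases le_total (Real.log (n / x)) 0 with h | h
    · rw [hw0 _ h, hv]
      simp only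
      rw [max_eq_right h, hw0 0 le_rfl]
    · rw [hv]
      simp only
      rw [max_eq_left h]
  have hvm : ∀ n : ℕ, v n ≤ v (n + 1) := by
    intro n
    rcases Nat.eq_zero_or_pos n with h | h
    · subst h
      rw [hv]
      simp
    · rw [hv]
      refine max_le_max_right 0 (Real.log_le_log (by positivity) ?_)
      gcongr
      simp
  have hv0 : 0 ≤ v 0 := le_max_right _ _
  have hvN : v N ≤ 2 := by
    rw [hv]
    refine max_le ?_ (by norm_num)
    rcases Nat.eq_zero_or_pos N with h | h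
    · rw [h]
      simp
    · have h1 : (N : ℝ) ≤ 3 * x := Nat.floor_le (by positivity)
      have h2 : (N : ℝ) / x ≤ 3 := by
        rw [div_le_iff₀ hx0]
        exact h1
      have h3 := Real.log_le_log (by positivity) h2
      have h4 : Real.log 3 ≤ 2 := by
        have := Real.log_le_sub_one_of_pos (show (0 : ℝ) < 3 by norm_num)
        linarith
      linarith
  have hS : ∀ y ≤ N, ‖∑ n ∈ Ioc 0 y, f n‖ ≤ R := by
    intro y hy
    exact hf y hy
  rw [hII]
  have key : ∑ n ∈ Ioc 0 N, ((w (Real.log (n / x)) : ℝ) : ℂ) * f n =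
      ((w (v N) : ℝ) : ℂ) * (∑ n ∈ Ioc 0 N, f n) -
      ∑ n ∈ Ico 0 N, ((w (v (n + 1)) - w (v n) : ℝ) : ℂ) * (∑ m ∈ Ioc 0 n, f m) := by
    rw [← abel_B0 f (fun n => w (v n)) N]
    exact Finset.sum_congr rfl fun n _ => by rw [hgv n]
  rw [key]
  refine (norm_sub_le _ _).trans ?_
  have h1 : ‖((w (v N) : ℝ) : ℂ) * (∑ n ∈ Ioc 0 N, f n)‖ ≤ W * R := by
    rw [norm_mul, Complex.norm_real]
    exact mul_le_mul (hW _) (hS N le_rfl) (norm_nonneg _) hW0
  have h2 : ‖∑ n ∈ Ico 0 N, ((w (v (n + 1)) - w (v n) : ℝ) : ℂ) * (∑ m ∈ Ioc 0 n, f m)‖ ≤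
      2 * L * R := by
    refine (norm_sum_le _ _).trans ?_
    have h3 : ∀ n ∈ Ico 0 N, ‖((w (v (n + 1)) - w (v n) : ℝ) : ℂ) * (∑ m ∈ Ioc 0 n, f m)‖ ≤
        L * R * (v (n + 1) - v n) := by
      intro n hn
      have hn' := (mem_Ico.1 hn).2
      rw [norm_mul, Complex.norm_real, Real.norm_eq_abs]
      have h4 := hlip (v (n + 1)) (v n)
      rw [abs_of_nonneg (sub_nonneg.2 (hvm n))] at h4
      have h5 := hS n hn'.le
      calc |w (v (n + 1)) - w (v n)| * ‖∑ m ∈ Ioc 0 n, f m‖ ≤ (L * (v (n + 1) - v n)) * R :=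
            mul_le_mul h4 h5 (norm_nonneg _) (mul_nonneg hL0 (sub_nonneg.2 (hvm n)))
        _ = L * R * (v (n + 1) - v n) := by ring
    refine (Finset.sum_le_sum h3).trans ?_
    rw [← Finset.mul_sum, Finset.sum_Ico_sub v (Nat.zero_le N)]
    have h6 : v N - v 0 ≤ 2 := by linarith
    have h7 : 0 ≤ L * R := by positivity
    nlinarith
  nlinarith

end Pool.Agent.Helper60.GP
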