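import Pool.Agent.Helper60.GP.St

/-! Project GP (MP_b454d1_nt), module B1 -/

set_option autoImplicit false

namespace Pool.Agent.Helper60.GP

open Finset ArithmeticFunction
open Pool.Agent.Helper48.BK (th)
open Pool.Agent.Helper15.AB (IsW TT)

/-- sums of `th ψ` for a nonprincipal character -/
theorem sum_th_B1 {r : ℕ} [NeZero r] (ψ : DirichletCharacter ℂ r) (hψ : ψ ≠ 1) (y : ℕ) (E : ℝ)
    (hE : ∀ u : ℕ, |∑ n ∈ (Ioc 0 y).filter (fun n => n ≡ u [MOD r]), th n -
      (if Nat.Coprime u r then (y : ℝ) / Nat.totient r else 0)| ≤ E) :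
    ‖∑ n ∈ Ioc 0 y, (th n : ℂ) * ψ (n : ZMod r)‖ ≤ r * E := by
  have hq : 0 < r := Nat.pos_of_ne_zero (NeZero.ne r)
  have h1 : ∑ n ∈ Ioc 0 y, (th n : ℂ) * ψ (n : ZMod r) =
      ∑ u ∈ range r, ψ (u : ZMod r) *
        ((∑ n ∈ (Ioc 0 y).filter (fun n => n ≡ u [MOD r]), th n : ℝ) : ℂ) := by
    rw [← sum_fiberwise_of_maps_to (s := Ioc 0 y) (t := range r) (g := fun n => n % r)
      (fun n _ => mem_range.2 (Nat.mod_lt _ hq))]
    refine sum_congr rfl fun u hu => ?_
    have hu' : u % r = u := Nat.mod_eq_of_lt (mem_range.1 hu)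
    push_cast
    rw [mul_sum]
    have hf : (Ioc 0 y).filter (fun n => n % r = u) =
        (Ioc 0 y).filter (fun n => n ≡ u [MOD r]) := by
      refine filter_congr fun n _ => ?_
      rw [Nat.ModEq, hu']
    rw [hf]
    refine sum_congr rfl fun n hn => ?_
    have : (n : ZMod r) = (u : ZMod r) := (ZMod.natCast_eq_natCast_iff _ _ _).2 (mem_filter.1 hn).2
    rw [this]
    ring
  have h2 : ∑ u ∈ range r, ψ (u : ZMod r) *
      (((if Nat.Coprime u r then (y : ℝ) / Nat.totient r else 0) : ℝ) : ℂ) = 0 := by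
    have h3 : ∀ u ∈ range r, ψ (u : ZMod r) *
        (((if Nat.Coprime u r then (y : ℝ) / Nat.totient r else 0) : ℝ) : ℂ) =
        ψ (u : ZMod r) * (((y : ℝ) / Nat.totient r : ℝ) : ℂ) := by
      intro u _
      split_ifs with hc
      · rfl
      · have : ψ (u : ZMod r) = 0 := by
          apply ψ.map_nonunit
          rwa [ZMod.isUnit_iff_coprime]
        rw [this]; simp
    rw [sum_congr rfl h3, ← sum_mul]
    have h4 : ∑ u ∈ range r, ψ (u : ZMod r) = ∑ a : ZMod r, ψ a := by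
      symm
      refine sum_bij' (fun a _ => a.val) (fun u _ => (u : ZMod r)) ?_ ?_ ?_ ?_ ?_
      · intro a _; exact mem_range.2 (ZMod.val_lt a)
      · intro u _; exact mem_univ _
      · intro a _; exact ZMod.natCast_zmod_val a
      · intro u hu; exact ZMod.val_cast_of_lt (mem_range.1 hu)
      · intro a _; rw [ZMod.natCast_zmod_val]
    rw [h4, MulChar.sum_eq_zero_of_ne_one hψ, zero_mul]
  have h5 : ∑ n ∈ Ioc 0 y, (th n : ℂ) * ψ (n : ZMod r) =
      ∑ u ∈ range r, ψ (u : ZMod r) *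
        (((∑ n ∈ (Ioc 0 y).filter (fun n => n ≡ u [MOD r]), th n) -
          (if Nat.Coprime u r then (y : ℝ) / Nat.totient r else 0) : ℝ) : ℂ) := by
    rw [h1]
    have : ∑ u ∈ range r, ψ (u : ZMod r) *
        (((∑ n ∈ (Ioc 0 y).filter (fun n => n ≡ u [MOD r]), th n) -
          (if Nat.Coprime u r then (y : ℝ) / Nat.totient r else 0) : ℝ) : ℂ) =
        ∑ u ∈ range r, ψ (u : ZMod r) *
          ((∑ n ∈ (Ioc 0 y).filter (fun n => n ≡ u [MOD r]), th n : ℝ) : ℂ) -
        ∑ u ∈ range r, ψ (u : ZMod r) *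
          (((if Nat.Coprime u r then (y : ℝ) / Nat.totient r else 0) : ℝ) : ℂ) := by
      rw [← sum_sub_distrib]
      refine sum_congr rfl fun u _ => ?_
      rw [Complex.ofReal_sub]
      ring
    rw [this, h2, sub_zero]
  rw [h5]
  refine (norm_sum_le _ _).trans ?_
  calc ∑ u ∈ range r, ‖ψ (u : ZMod r) *
        (((∑ n ∈ (Ioc 0 y).filter (fun n => n ≡ u [MOD r]), th n) -
          (if Nat.Coprime u r then (y : ℝ) / Nat.totient r else 0) : ℝ) : ℂ)‖
      ≤ ∑ _u ∈ range r, E := by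
        refine sum_le_sum fun u _ => ?_
        rw [norm_mul, Complex.norm_real, Real.norm_eq_abs]
        calc _ ≤ 1 * |(∑ n ∈ (Ioc 0 y).filter (fun n => n ≡ u [MOD r]), th n) -
            (if Nat.Coprime u r then (y : ℝ) / Nat.totient r else 0)| :=
              mul_le_mul_of_nonneg_right (DirichletCharacter.norm_le_one ψ _) (abs_nonneg _)
          _ ≤ E := by rw [one_mul]; exact hE u
    _ = r * E := by simp

theorem hSCc (h1 : StPSum) (h2 : Pool.Agent.Helper48.BK.StSW) (h3 : Pool.Agent.Helper48.BK.StTh) : StSCc := by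
  intro w hw A B
  obtain ⟨C, hC, hPS⟩ := h1 w (hw.smooth.of_le (by norm_num)) hw.supp
  obtain ⟨x1, hSW⟩ := h2 (A + B + 1) B
  obtain ⟨hth, C', hC', hTh⟩ := h3
  have hlog : ∀ᶠ y : ℝ in Filter.atTop, Real.log y ^ ((A + 2 : ℕ) : ℝ) ≤
      (1 / (6 * C * C')) * y ^ (1 / 2 : ℝ) := by
    have := (isLittleO_log_rpow_rpow_atTop (s := 1 / 2) ((A + 2 : ℕ) : ℝ) (by norm_num)).bound
      (c := 1 / (6 * C * C')) (by positivity)
    filter_upwards [this, Filter.eventually_ge_atTop (1 : ℝ)] with y hy h1y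
    rw [Real.norm_of_nonneg (by have := Real.log_nonneg h1y; positivity),
      Real.norm_of_nonneg (by positivity)] at hy
    exact hy
  obtain ⟨y1, hy1⟩ := Filter.eventually_atTop.1 hlog
  refine ⟨max (max (x1 + 1) 3) (max (Real.exp (6 * C + 1)) y1), ?_⟩
  intro x hx r _ ψ hr _ hψ
  have hxx1 : (x1 : ℝ) + 1 ≤ x := le_trans (le_trans (le_max_left _ _) (le_max_left _ _)) hx
  have hx3 : (3 : ℝ) ≤ x := le_trans (le_trans (le_max_right _ _) (le_max_left _ _)) hx
  have hxe : Real.exp (6 * C + 1) ≤ x := le_trans (le_trans (le_max_left _ _) (le_max_right _ _)) hx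
  have hxy : y1 ≤ x := le_trans (le_trans (le_max_right _ _) (le_max_right _ _)) hx
  have hx0 : 0 < x := by linarith
  have hlx : 6 * C + 1 ≤ Real.log x := by
    rw [Real.le_log_iff_exp_le hx0]; exact hxe
  have hlx0 : 0 < Real.log x := by linarith
  have hlx1 : 1 ≤ Real.log x := by linarith
  set X : ℕ := ⌊3 * x⌋₊ with hX
  have hXle : (X : ℝ) ≤ 3 * x := Nat.floor_le (by linarith)
  have hXge : x ≤ (X : ℝ) := by
    have : 3 * x < X + 1 := Nat.lt_floor_add_one _
    linarith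
  have hX3 : 3 ≤ X := by
    have : (3 : ℝ) ≤ (X : ℝ) := hx3.trans hXge
    exact_mod_cast this
  have hXx1 : x1 ≤ X := by
    have : (x1 : ℝ) ≤ (X : ℝ) := by linarith
    exact_mod_cast this
  have hX0 : (0 : ℝ) < X := by linarith
  have hlX : Real.log x ≤ Real.log X := Real.log_le_log hx0 hXge
  set R : ℝ := x / Real.log x ^ A / C with hR
  have hkey : ∀ y ≤ X, ‖∑ n ∈ Icc 1 y, ((Λ n : ℝ) : ℂ) * ψ (n : ZMod r)‖ ≤ R := by
    intro y hy
    have hIcc : Icc 1 y = Ioc 0 y := by ext n; simp only [mem_Icc, mem_Ioc]; omega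
    rw [hIcc]
    have hsplit : ∑ n ∈ Ioc 0 y, ((Λ n : ℝ) : ℂ) * ψ (n : ZMod r) =
        ∑ n ∈ Ioc 0 y, ((th n : ℝ) : ℂ) * ψ (n : ZMod r) +
        ∑ n ∈ Ioc 0 y, ((Λ n - th n : ℝ) : ℂ) * ψ (n : ZMod r) := by
      rw [← sum_add_distrib]
      refine sum_congr rfl fun n _ => ?_
      push_cast; ring
    have b1 : ‖∑ n ∈ Ioc 0 y, ((th n : ℝ) : ℂ) * ψ (n : ZMod r)‖ ≤
        r * (X / Real.log X ^ (A + B + 1)) := by
      refine sum_th_B1 ψ hψ y _ fun u => ?_
      refine hSW X y r u hXx1 hy (Nat.pos_of_ne_zero (NeZero.ne r)) ?_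
      exact hr.trans (pow_le_pow_left₀ hlx0.le hlX _)
    have b2 : ‖∑ n ∈ Ioc 0 y, ((Λ n - th n : ℝ) : ℂ) * ψ (n : ZMod r)‖ ≤
        C' * √X * Real.log X ^ 2 := by
      calc ‖∑ n ∈ Ioc 0 y, ((Λ n - th n : ℝ) : ℂ) * ψ (n : ZMod r)‖
          ≤ ∑ n ∈ Ioc 0 y, ‖((Λ n - th n : ℝ) : ℂ) * ψ (n : ZMod r)‖ := norm_sum_le _ _
        _ ≤ ∑ n ∈ Ioc 0 y, (Λ n - th n) := by
            refine sum_le_sum fun n _ => ?_
            have hn : 0 ≤ Λ n - th n := by linarith [(hth n).2.1]
            rw [norm_mul, Complex.norm_real, Real.norm_of_nonneg hn]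
            calc (Λ n - th n) * ‖ψ (n : ZMod r)‖ ≤ (Λ n - th n) * 1 :=
                  mul_le_mul_of_nonneg_left (DirichletCharacter.norm_le_one ψ _) hn
              _ = Λ n - th n := mul_one _
        _ ≤ ∑ n ∈ Ioc 0 X, (Λ n - th n) := by
            refine sum_le_sum_of_subset_of_nonneg (Ioc_subset_Ioc_right hy) fun n _ _ => ?_
            linarith [(hth n).2.1]
        _ ≤ C' * √X * Real.log X ^ 2 := hTh X hX3
    have b3 : (r : ℝ) * (X / Real.log X ^ (A + B + 1)) ≤ R / 2 := by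
      have e1 : (X : ℝ) / Real.log X ^ (A + B + 1) ≤ 3 * x / Real.log x ^ (A + B + 1) := by
        refine div_le_div₀ (by positivity) hXle (by positivity) ?_
        exact pow_le_pow_left₀ hlx0.le hlX _
      calc (r : ℝ) * (X / Real.log X ^ (A + B + 1))
          ≤ Real.log x ^ B * (3 * x / Real.log x ^ (A + B + 1)) :=
            mul_le_mul hr e1 (by positivity) (by positivity)
        _ = x / Real.log x ^ A * (3 / Real.log x) := by
            rw [pow_add, pow_add, pow_one]; field_simp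
        _ ≤ x / Real.log x ^ A * (1 / (2 * C)) := by
            refine mul_le_mul_of_nonneg_left ?_ (by positivity)
            rw [div_le_div_iff₀ hlx0 (by positivity)]
            linarith
        _ = R / 2 := by rw [hR]; field_simp
    have b4 : C' * √X * Real.log X ^ 2 ≤ R / 2 := by
      have e1 := hy1 X (hxy.trans hXge)
      rw [Real.rpow_natCast, ← Real.sqrt_eq_rpow] at e1
      have e2 : Real.log x ^ A ≤ Real.log X ^ A := pow_le_pow_left₀ hlx0.le hlX _
      have e3 : C' * √X * Real.log X ^ 2 * Real.log x ^ A ≤ x / (2 * C) := by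
        calc C' * √X * Real.log X ^ 2 * Real.log x ^ A
            ≤ C' * √X * Real.log X ^ 2 * Real.log X ^ A := by
              refine mul_le_mul_of_nonneg_left e2 (by positivity)
          _ = C' * √X * Real.log X ^ (A + 2) := by ring
          _ ≤ C' * √X * ((1 / (6 * C * C')) * √X) := by
              refine mul_le_mul_of_nonneg_left e1 (by positivity)
          _ = (√X * √X) / (6 * C) := by field_simp
          _ = X / (6 * C) := by rw [Real.mul_self_sqrt hX0.le]
          _ ≤ 3 * x / (6 * C) := div_le_div_of_nonneg_right hXle (by positivity)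
          _ = x / (2 * C) := by field_simp; norm_num
      have e4 : 0 < Real.log x ^ A := by positivity
      calc C' * √X * Real.log X ^ 2 = C' * √X * Real.log X ^ 2 * Real.log x ^ A / Real.log x ^ A := by
            field_simp
        _ ≤ x / (2 * C) / Real.log x ^ A := div_le_div_of_nonneg_right e3 e4.le
        _ = R / 2 := by rw [hR]; field_simp
    rw [hsplit]
    refine (norm_add_le _ _).trans ?_
    linarith
  have hfin := hPS x R (fun n => ((Λ n : ℝ) : ℂ) * ψ (n : ZMod r)) (by linarith) (by positivity) hkey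
  have hTT : TT w x (fun n => ψ (n : ZMod r)) =
      ∑ n ∈ II x, ((w (Real.log (n / x)) : ℝ) : ℂ) * (((Λ n : ℝ) : ℂ) * ψ (n : ZMod r)) := by
    unfold TT II
    refine sum_congr rfl fun n _ => ?_
    push_cast; ring
  rw [hTT]
  refine hfin.trans (le_of_eq ?_)
  rw [hR]; field_simp

end Pool.Agent.Helper60.GP
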