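import Pool.Agent.Helper60.GP.St
import Pool.Agent.Helper15.AB.M_BV

/-! Project GP (MP_b454d1_nt), module B2 -/

set_option autoImplicit false

namespace Pool.Agent.Helper60.GP

open Finset ArithmeticFunction

open Pool.Agent.Helper15.AB (Th TT IsW EE SN SP) in
open Pool.Agent.Helper15.AB.hBV in
theorem hBVw (h1 : StSCc) (h2 : Pool.Agent.Helper15.AB.StBL) (h3 : Pool.Agent.Helper15.AB.StPH)
    (h4 : Pool.Agent.Helper15.AB.StRG) (h5 : Pool.Agent.Helper15.AB.StNP)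
    (h6 : Pool.Agent.Helper15.AB.StOR) : StBVw := by
  classical
  intro w hw A
  obtain ⟨C1, hC1, NP⟩ := h5 w hw
  obtain ⟨C2, hC2, PH⟩ := h3
  obtain ⟨C3, hC3, BL⟩ := h2 w hw
  obtain ⟨b', hb'⟩ : ∃ b' : ℕ, b' = A + 10 := ⟨_, rfl⟩
  obtain ⟨x₁, SC⟩ := h1 w hw (A + b' + 3) b'
  obtain ⟨K, hK⟩ : ∃ K : ℝ, K = 4 * C2 * (1 + 6 * C3) + 2 * C1 + 3 := ⟨_, rfl⟩
  have hK3 : 3 ≤ K := by
    rw [hK]
    have : 0 < 4 * C2 * (1 + 6 * C3) := by positivity
    linarith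
  obtain ⟨x₂, hx₂⟩ := ev_log K (2 * b')
  refine ⟨3 * b', max x₁ (max x₂ (Real.exp K)), ?_⟩
  intro x hx
  have hx1 : x₁ ≤ x := (le_max_left _ _).trans hx
  have hx2 : x₂ ≤ x := ((le_max_left _ _).trans (le_max_right _ _)).trans hx
  have hxe : Real.exp K ≤ x := ((le_max_right _ _).trans (le_max_right _ _)).trans hx
  have hx0 : 0 < x := lt_of_lt_of_le (Real.exp_pos K) hxe
  have hx3 : 3 ≤ x := by
    have := Real.add_one_le_exp K
    linarith
  have hsc := SC x hx1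
  obtain ⟨r₁, hr₁x, hr₁p⟩ := Nat.exists_infinite_primes (⌈x⌉₊ + 1)
  have hxr : x < r₁ := by
    have e1 : x ≤ ⌈x⌉₊ := Nat.le_ceil x
    have e2 : ((⌈x⌉₊ + 1 : ℕ) : ℝ) ≤ r₁ := by exact_mod_cast hr₁x
    push_cast at e2
    linarith
  have hr₁ : NeZero r₁ := ⟨hr₁p.ne_zero⟩
  obtain ⟨ψ₁, _⟩ : ∃ ψ₁ : DirichletCharacter ℂ r₁, True := ⟨1, trivial⟩
  have hcase : (ψ₁.IsPrimitive ∧ ψ₁ ≠ 1) ∨ (r₁.Prime ∧ x < r₁) := Or.inr ⟨hr₁p, hxr⟩
  intro b hb
  have hKs : K * Real.log x ^ (2 * b') ≤ √x := hx₂ x hx2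
  have hKL : K ≤ Real.log x := (Real.le_log_iff_exp_le hx0).2 hxe
  obtain ⟨L, hL⟩ : ∃ L : ℝ, L = Real.log x := ⟨_, rfl⟩
  rw [← hL] at hKs hKL ⊢
  have hL1 : 1 ≤ L := by linarith
  have hL0 : 0 < L := by linarith
  have hs0 : 0 < √x := Real.sqrt_pos.2 hx0
  have hss : √x * √x = x := Real.mul_self_sqrt hx0.le
  obtain ⟨Q, hQd⟩ : ∃ Q : ℕ, Q = ⌊√x / L ^ (3 * b')⌋₊ := ⟨_, rfl⟩
  rw [← hQd]
  have hQ : (Q : ℝ) ≤ √x / L ^ (3 * b') := by
    rw [hQd]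
    exact Nat.floor_le (by positivity)
  have hQs : (Q : ℝ) ≤ √x := hQ.trans (div_le_self hs0.le (one_le_pow₀ hL1))
  have hs1 : 1 ≤ √x := by
    refine le_trans ?_ hKs
    have : (1 : ℝ) ≤ L ^ (2 * b') := one_le_pow₀ hL1
    nlinarith
  have hQx : (Q : ℝ) ≤ x := by nlinarith
  set F : (ℕ → ℂ) → ℝ := FF1 w x ψ₁ with hF
  have hF0 : ∀ f, 0 ≤ F f := FF1_nonneg w x ψ₁
  -- one modulus
  have step1 : ∀ q ∈ Icc 1 Q, ‖EE w x ψ₁ q (b q)‖ ≤
      1 / (Nat.totient q : ℝ) * SN F q + C1 * L ^ 2 := by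
    intro q hq
    rw [mem_Icc] at hq
    have : NeZero q := ⟨by omega⟩
    have hqx : (q : ℝ) ≤ x := le_trans (by exact_mod_cast hq.2) hQx
    refine one_q h6 ?_ ψ₁ hcase q hqx (b q) (hb q hq.1)
    intro q' _ χ hq'
    rw [hL]
    exact NP q' χ x hx3 hq'
  have step2 : ∑ q ∈ Icc 1 Q, ‖EE w x ψ₁ q (b q)‖ ≤
      (∑ q ∈ Icc 1 Q, 1 / (Nat.totient q : ℝ) * SN F q) + Q * (C1 * L ^ 2) := by
    refine (Finset.sum_le_sum step1).trans (le_of_eq ?_)
    rw [Finset.sum_add_distrib, Finset.sum_const, nsmul_eq_mul, Nat.card_Icc]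
    simp
  set g : ℕ → ℝ := fun r => 1 / (Nat.totient r : ℝ) * SP F r with hg
  have hg0 : ∀ r, 0 ≤ g r := fun r => mul_nonneg (by positivity) (SP_nonneg F hF0 r)
  have step3 : ∑ q ∈ Icc 1 Q, 1 / (Nat.totient q : ℝ) * SN F q ≤
      C2 * (2 * L) * ∑ r ∈ Ioc 1 Q, g r := by
    refine (h4 F Q hF0).trans ?_
    rw [Finset.mul_sum]
    refine Finset.sum_le_sum fun r hr => ?_
    rw [mem_Ioc] at hr
    have hQ1 : 1 ≤ Q := by omega
    have e1 := PH Q r hQ1 (by omega)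
    have e2 : Real.log Q ≤ L := by
      rw [hL]
      exact Real.log_le_log (by exact_mod_cast (by omega : 0 < Q)) hQx
    have hr0 : (0 : ℝ) < (Nat.totient r : ℝ) := by
      exact_mod_cast Nat.totient_pos.2 (by omega)
    have e3 : C2 * (1 + Real.log Q) / (Nat.totient r : ℝ) ≤
        C2 * (2 * L) / (Nat.totient r : ℝ) := by
      gcongr
      linarith
    calc _ ≤ C2 * (2 * L) / (Nat.totient r : ℝ) * SP F r :=
          mul_le_mul_of_nonneg_right (e1.trans e3) (SP_nonneg F hF0 r)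
      _ = C2 * (2 * L) * g r := by
          rw [hg]
          ring
  obtain ⟨hR1, hRle, hRge⟩ := half_floor (L ^ b') (one_le_pow₀ hL1)
  obtain ⟨hU1, hUle, hUge⟩ := half_floor (L ^ (2 * b')) (one_le_pow₀ hL1)
  obtain ⟨R, hR⟩ : ∃ R : ℕ, R = ⌊L ^ b'⌋₊ := ⟨_, rfl⟩
  obtain ⟨U, hU⟩ : ∃ U : ℕ, U = ⌊L ^ (2 * b')⌋₊ := ⟨_, rfl⟩
  rw [← hR] at hR1 hRle hRge
  rw [← hU] at hU1 hUle hUge
  -- small conductors
  have small : ∑ r ∈ Ioc 1 R, g r ≤ x / L ^ (A + 3) := by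
    have hX : 0 ≤ x / L ^ (A + b' + 3) := by positivity
    have e1 : ∀ r ∈ Ioc 1 R, g r ≤ x / L ^ (A + b' + 3) := by
      intro r hr
      rw [mem_Ioc] at hr
      have : NeZero r := ⟨by omega⟩
      refine SP_le F _ hX r fun ψ hψ => ?_
      rw [hF]
      unfold FF1
      split_ifs with h
      · exact hX
      · rw [hL]
        refine hsc r ψ ?_ hψ ?_
        · rw [← hL]
          exact le_trans (by exact_mod_cast hr.2) hRle
        · intro h1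
          have h2 : ψ.conductor = r := hψ
          rw [h1, DirichletCharacter.conductor_one] at h2
          omega
    calc ∑ r ∈ Ioc 1 R, g r ≤ ∑ r ∈ Ioc 1 R, x / L ^ (A + b' + 3) := Finset.sum_le_sum e1
      _ = ((R - 1 : ℕ) : ℝ) * (x / L ^ (A + b' + 3)) := by
          rw [Finset.sum_const, nsmul_eq_mul, Nat.card_Ioc]
      _ ≤ L ^ b' * (x / L ^ (A + b' + 3)) := by
          apply mul_le_mul_of_nonneg_right _ hX
          refine le_trans ?_ hRle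
          exact_mod_cast Nat.sub_le R 1
      _ = x / L ^ (A + 3) := by
          have e2 : L ^ (A + b' + 3) = L ^ (A + 3) * L ^ b' := by
            rw [← pow_add]
            congr 1
            omega
          rw [e2]
          field_simp
  -- large conductors
  have large : ∑ r ∈ Ioc R Q, g r ≤ 6 * C3 * (x / L ^ (A + 3)) := by
    rcases le_or_gt R Q with hRQ | hRQ
    · have hU2 : (U : ℝ) ^ 2 ≤ x := by
        have e1 : (U : ℝ) ≤ √x := by
          refine le_trans (hUle.trans ?_) hKs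
          have : (0 : ℝ) ≤ L ^ (2 * b') := by positivity
          nlinarith
        calc (U : ℝ) ^ 2 ≤ √x ^ 2 := by gcongr
          _ = x := by rw [sq, hss]
      have e1 := BL x U R Q hx3 hU1 hU2 hR1 hRQ hQx
      rw [← hL] at e1
      refine le_trans (Finset.sum_le_sum fun r _ => ?_) (e1.trans
        (large_par hC3 hL1 hx0 A b' hb' R U Q hRge hUge hUle hQ))
      exact mul_le_mul_of_nonneg_left (SP_mono _ _ (FF1_le w x ψ₁) r) (by positivity)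
    · rw [Finset.Ioc_eq_empty (by omega), Finset.sum_empty]
      positivity
  have step4 : ∑ r ∈ Ioc 1 Q, g r ≤ (1 + 6 * C3) * (x / L ^ (A + 3)) := by
    have hsub : Ioc 1 Q ⊆ Ioc 1 R ∪ Ioc R Q := by
      intro r hr
      rw [mem_union, mem_Ioc, mem_Ioc]
      rw [mem_Ioc] at hr
      omega
    have hdis : Disjoint (Ioc 1 R) (Ioc R Q) := by
      rw [Finset.disjoint_left]
      intro r h1 h2
      rw [mem_Ioc] at h1 h2
      omega
    calc ∑ r ∈ Ioc 1 Q, g r ≤ ∑ r ∈ Ioc 1 R ∪ Ioc R Q, g r :=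
          Finset.sum_le_sum_of_subset_of_nonneg hsub fun r _ _ => hg0 r
      _ = ∑ r ∈ Ioc 1 R, g r + ∑ r ∈ Ioc R Q, g r := Finset.sum_union hdis
      _ ≤ x / L ^ (A + 3) + 6 * C3 * (x / L ^ (A + 3)) := add_le_add small large
      _ = _ := by ring
  have hErr : ∀ q ∈ Icc 1 Q, Err w x q (b q) = ‖EE w x ψ₁ q (b q)‖ := by
    intro q hq
    rw [mem_Icc] at hq
    have hnd : ¬ r₁ ∣ q := by
      intro hd
      have e1 : (r₁ : ℝ) ≤ q := by exact_mod_cast Nat.le_of_dvd (by omega) hd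
      have e2 : (q : ℝ) ≤ x := le_trans (by exact_mod_cast hq.2) hQx
      linarith
    unfold EE Err
    rw [if_neg hnd, add_zero]
    have e3 : (∑ n ∈ (Icc 1 ⌊3 * x⌋₊).filter (fun n : ℕ => (q : ℤ) ∣ (n : ℤ) - b q),
        ((Λ n * w (Real.log (n / x)) : ℝ) : ℂ)) - 1 / (Nat.totient q : ℂ) * (Th w x : ℂ) =
        (((∑ n ∈ (II x).filter (fun n : ℕ => (q : ℤ) ∣ (n : ℤ) - b q),
          Λ n * w (Real.log (n / x))) - Th w x / (Nat.totient q : ℝ) : ℝ) : ℂ) := by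
      unfold II
      push_cast
      ring
    rw [e3, Complex.norm_real, Real.norm_eq_abs]
  rw [Finset.sum_congr rfl hErr]
  calc ∑ q ∈ Icc 1 Q, ‖EE w x ψ₁ q (b q)‖ ≤
        (∑ q ∈ Icc 1 Q, 1 / (Nat.totient q : ℝ) * SN F q) + Q * (C1 * L ^ 2) := step2
    _ ≤ C2 * (2 * L) * (∑ r ∈ Ioc 1 Q, g r) + Q * (C1 * L ^ 2) := by gcongr
    _ ≤ x / L ^ A := final_par hC1 hC2 hC3 hL1 hx0 A b' hb' hK hKL hKs Q hQ step4


end Pool.Agent.Helper60.GP
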