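import Pool.Agent.Helper60.GP.St

/-! Project GP (MP_b454d1_nt), module B3 -/

set_option autoImplicit false

namespace Pool.Agent.Helper60.GP

open Finset ArithmeticFunction
open Pool.Agent.Helper15.AB (Th TT IsW)

namespace GPB3

/-- the auxiliary weight -/
noncomputable def w2 (t : ℝ) : ℝ :=
  1 / 2 * (Real.smoothTransition (10 * t) * Real.smoothTransition (10 * (1 - t)))

theorem w2_smooth : ContDiff ℝ 4 w2 := by
  unfold w2
  refine contDiff_const.mul (ContDiff.mul ?_ ?_)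
  · exact (Real.smoothTransition.contDiff (n := 4)).comp (by fun_prop)
  · exact (Real.smoothTransition.contDiff (n := 4)).comp (by fun_prop)

theorem w2_nonneg (t : ℝ) : 0 ≤ w2 t := by
  unfold w2
  have h1 := Real.smoothTransition.nonneg (10 * t)
  have h2 := Real.smoothTransition.nonneg (10 * (1 - t))
  positivity

theorem w2_le (t : ℝ) : w2 t ≤ 1 / 2 := by
  unfold w2
  have h1 := Real.smoothTransition.nonneg (10 * t)
  have h2 := Real.smoothTransition.nonneg (10 * (1 - t))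
  have h3 := Real.smoothTransition.le_one (10 * t)
  have h4 := Real.smoothTransition.le_one (10 * (1 - t))
  nlinarith [mul_le_one₀ h3 h2 h4]

theorem w2_supp (t : ℝ) (ht : t ∉ Set.Icc (0 : ℝ) 1) : w2 t = 0 := by
  unfold w2
  rw [Set.mem_Icc, not_and_or, not_le, not_le] at ht
  rcases ht with h | h
  · rw [Real.smoothTransition.zero_of_nonpos (by linarith)]
    ring
  · rw [Real.smoothTransition.zero_of_nonpos (x := 10 * (1 - t)) (by linarith)]
    ring

theorem w2_lower (t : ℝ) (ht : t ∈ Set.Icc (0.1 : ℝ) 0.9) : (0.001 : ℝ) ≤ w2 t := by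
  unfold w2
  have h1 : (0.1 : ℝ) ≤ t := ht.1
  have h2 : t ≤ (0.9 : ℝ) := ht.2
  rw [Real.smoothTransition.one_of_one_le (by norm_num at h1 ⊢; linarith),
    Real.smoothTransition.one_of_one_le (by norm_num at h2 ⊢; linarith)]
  norm_num

theorem isW2 : IsW w2 where
  smooth := w2_smooth
  nonneg := w2_nonneg
  le_one t := (w2_le t).trans (by norm_num)
  supp := w2_supp
  lower := w2_lower

theorem isW1 {ω : ℝ → ℝ} (h : IsB ω) : IsW (fun t => w2 t + ω t) where
  smooth := w2_smooth.add h.smooth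
  nonneg t := add_nonneg (w2_nonneg t) (h.nonneg t)
  le_one t := by
    have h1 := w2_le t
    have h2 := h.le_half t
    linarith
  supp t ht := by rw [w2_supp t ht, h.supp t ht, add_zero]
  lower t ht := by
    have h1 := w2_lower t ht
    have h2 := h.nonneg t
    linarith

theorem Th_add (u v : ℝ → ℝ) (x : ℝ) : Th (fun t => u t + v t) x = Th u x + Th v x := by
  unfold Th
  rw [← Finset.sum_add_distrib]
  exact Finset.sum_congr rfl fun n _ => by ring

/-- the error terms are subadditive -/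
theorem err_le (u v : ℝ → ℝ) (x : ℝ) (q : ℕ) (b : ℤ) :
    Err v x q b ≤ Err (fun t => u t + v t) x q b + Err u x q b := by
  unfold Err
  rw [Th_add]
  have h1 : ∑ n ∈ (II x).filter (fun n : ℕ => (q : ℤ) ∣ (n : ℤ) - b),
      Λ n * (u (Real.log (n / x)) + v (Real.log (n / x))) =
      ∑ n ∈ (II x).filter (fun n : ℕ => (q : ℤ) ∣ (n : ℤ) - b), Λ n * u (Real.log (n / x)) +
      ∑ n ∈ (II x).filter (fun n : ℕ => (q : ℤ) ∣ (n : ℤ) - b), Λ n * v (Real.log (n / x)) := by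
    rw [← Finset.sum_add_distrib]
    exact Finset.sum_congr rfl fun n _ => by ring
  rw [h1]
  set A := ∑ n ∈ (II x).filter (fun n : ℕ => (q : ℤ) ∣ (n : ℤ) - b), Λ n * u (Real.log (n / x))
  set B := ∑ n ∈ (II x).filter (fun n : ℕ => (q : ℤ) ∣ (n : ℤ) - b), Λ n * v (Real.log (n / x))
  have h2 : B - Th v x / (Nat.totient q : ℝ) =
      (A + B - (Th u x + Th v x) / (Nat.totient q : ℝ)) - (A - Th u x / (Nat.totient q : ℝ)) := by
    ring
  rw [h2]
  exact abs_sub _ _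

theorem err_nonneg (u : ℝ → ℝ) (x : ℝ) (q : ℕ) (b : ℤ) : 0 ≤ Err u x q b := abs_nonneg _

/-- the level -/
theorem level (θ : ℝ) (hθ : θ < 1 / 2) (B : ℕ) : ∃ x₀ : ℝ, ∀ x : ℝ, x₀ ≤ x →
    x ^ θ ≤ √x / Real.log x ^ B := by
  have h1 := isLittleO_log_rpow_rpow_atTop (s := 1 / 2 - θ) (B : ℝ) (by linarith)
  have h2 := h1.bound (c := 1) one_pos
  rw [Filter.eventually_atTop] at h2
  obtain ⟨x₁, hx₁⟩ := h2
  refine ⟨max x₁ 2, fun x hx => ?_⟩
  have hx1 : x₁ ≤ x := (le_max_left _ _).trans hx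
  have hx2 : 2 ≤ x := (le_max_right _ _).trans hx
  have hx0 : 0 < x := by linarith
  have hlog : 0 < Real.log x := Real.log_pos (by linarith)
  have h3 := hx₁ x hx1
  rw [one_mul, Real.norm_of_nonneg (by positivity), Real.norm_of_nonneg (by positivity),
    Real.rpow_natCast] at h3
  rw [le_div_iff₀ (by positivity), Real.sqrt_eq_rpow]
  calc x ^ θ * Real.log x ^ B ≤ x ^ θ * x ^ (1 / 2 - θ) := by gcongr
    _ = x ^ (1 / 2 : ℝ) := by
      rw [← Real.rpow_add hx0]
      congr 1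
      ring

end GPB3

open GPB3

theorem hBVc (h1 : StBVw) : StBVc := by
  intro ω hω A θ hθ
  obtain ⟨B₁, x₁, hx₁⟩ := h1 _ (isW1 hω) (A + 1)
  obtain ⟨B₂, x₂, hx₂⟩ := h1 _ isW2 (A + 1)
  obtain ⟨y₁, hy₁⟩ := level θ hθ B₁
  obtain ⟨y₂, hy₂⟩ := level θ hθ B₂
  refine ⟨max (max (max x₁ x₂) (max y₁ y₂)) (Real.exp 2), fun x hx b hb => ?_⟩
  have hxx : max (max x₁ x₂) (max y₁ y₂) ≤ x := (le_max_left _ _).trans hx
  have e1 : x₁ ≤ x := ((le_max_left _ _).trans (le_max_left _ _)).trans hxx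
  have e2 : x₂ ≤ x := ((le_max_right _ _).trans (le_max_left _ _)).trans hxx
  have e3 : y₁ ≤ x := ((le_max_left _ _).trans (le_max_right _ _)).trans hxx
  have e4 : y₂ ≤ x := ((le_max_right _ _).trans (le_max_right _ _)).trans hxx
  have e5 : Real.exp 2 ≤ x := (le_max_right _ _).trans hx
  have hx0 : 0 < x := (Real.exp_pos 2).trans_le e5
  have hlog : 2 ≤ Real.log x := (Real.le_log_iff_exp_le hx0).2 e5
  have key : ∀ (u : ℝ → ℝ) (B : ℕ), x ^ θ ≤ √x / Real.log x ^ B →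
      ∑ q ∈ Icc 1 ⌊√x / Real.log x ^ B⌋₊, Err u x q (b q) ≤ x / Real.log x ^ (A + 1) →
      ∑ q ∈ Icc 1 ⌊x ^ θ⌋₊, Err u x q (b q) ≤ x / Real.log x ^ (A + 1) := by
    intro u B hB hs
    refine le_trans ?_ hs
    exact Finset.sum_le_sum_of_subset_of_nonneg
      (Icc_subset_Icc_right (Nat.floor_le_floor hB)) fun q _ _ => err_nonneg u x q (b q)
  have k1 := key _ B₁ (hy₁ x e3) (hx₁ x e1 b hb)
  have k2 := key _ B₂ (hy₂ x e4) (hx₂ x e2 b hb)
  have hfin : x / Real.log x ^ (A + 1) + x / Real.log x ^ (A + 1) ≤ x / Real.log x ^ A := by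
    have hp : 0 < Real.log x ^ A := by positivity
    have h3 : x / Real.log x ^ (A + 1) + x / Real.log x ^ (A + 1) =
        (x / Real.log x ^ A) * (2 / Real.log x) := by
      rw [pow_succ]
      field_simp
      ring
    rw [h3]
    refine mul_le_of_le_one_right (by positivity) ?_
    rw [div_le_one (by linarith)]
    exact hlog
  calc ∑ q ∈ Icc 1 ⌊x ^ θ⌋₊, Err ω x q (b q)
      ≤ ∑ q ∈ Icc 1 ⌊x ^ θ⌋₊, (Err (fun t => w2 t + ω t) x q (b q) + Err w2 x q (b q)) :=
        Finset.sum_le_sum fun q _ => err_le w2 ω x q (b q)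
    _ = ∑ q ∈ Icc 1 ⌊x ^ θ⌋₊, Err (fun t => w2 t + ω t) x q (b q) +
        ∑ q ∈ Icc 1 ⌊x ^ θ⌋₊, Err w2 x q (b q) := Finset.sum_add_distrib
    _ ≤ x / Real.log x ^ (A + 1) + x / Real.log x ^ (A + 1) := add_le_add k1 k2
    _ ≤ x / Real.log x ^ A := hfin

end Pool.Agent.Helper60.GP
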