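import Pool.Agent.Helper60.GP.St

/-! Project GP (MP_b454d1_nt), module B4 -/

set_option autoImplicit false

namespace Pool.Agent.Helper60.GP

open Finset ArithmeticFunction
open Filter Topology Asymptotics
open Pool.Agent.Helper48.BK (th)

private theorem psi_B4 (h3 : Pool.Agent.Helper48.BK.StSW) (h4 : Pool.Agent.Helper48.BK.StTh)
    (δ : ℝ) (hδ : 0 < δ) : ∀ᶠ x : ℝ in atTop, ∀ y ≤ ⌊3 * x⌋₊,
      |∑ n ∈ Icc 1 y, (Λ n - 1)| ≤ δ * x := by
  obtain ⟨x₁, hx₁⟩ := h3 1 0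
  obtain ⟨hth, C, hC, hCb⟩ := h4
  have hX : Tendsto (fun x : ℝ => ⌊3 * x⌋₊) atTop atTop :=
    tendsto_nat_floor_atTop.comp (tendsto_id.const_mul_atTop (by norm_num))
  have hXr : Tendsto (fun x : ℝ => ((⌊3 * x⌋₊ : ℕ) : ℝ)) atTop atTop :=
    tendsto_natCast_atTop_atTop.comp hX
  have hlog : Tendsto (fun x : ℝ => Real.log ((⌊3 * x⌋₊ : ℕ) : ℝ)) atTop atTop :=
    Real.tendsto_log_atTop.comp hXr
  have hsq : Tendsto (fun x : ℝ => √((⌊3 * x⌋₊ : ℕ) : ℝ)) atTop atTop :=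
    Real.tendsto_sqrt_atTop.comp hXr
  have hc : (0 : ℝ) < δ / (24 * C) := by positivity
  have hlo : ∀ᶠ t : ℝ in atTop, ‖Real.log t ^ 2‖ ≤ δ / (24 * C) * ‖id t‖ :=
    (Real.isLittleO_pow_log_id_atTop (n := 2)).def hc
  filter_upwards [hX.eventually_ge_atTop x₁, hX.eventually_ge_atTop 3,
    hlog.eventually_ge_atTop (6 / δ), hsq.eventually hlo, eventually_ge_atTop (1 : ℝ)]
    with x e1 e2 e3 e4 e5 y hy
  set X : ℕ := ⌊3 * x⌋₊ with hXdef
  have hX0 : (0 : ℝ) < X := by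
    have : (3 : ℝ) ≤ X := by exact_mod_cast e2
    linarith
  have hXle : (X : ℝ) ≤ 3 * x := Nat.floor_le (by linarith)
  have hs0 : 0 < √(X : ℝ) := Real.sqrt_pos.2 hX0
  have hss : √(X : ℝ) * √(X : ℝ) = X := Real.mul_self_sqrt hX0.le
  have hlog0 : 0 < Real.log (X : ℝ) := lt_of_lt_of_le (by positivity) e3
  -- first term
  have a1 : (X : ℝ) / Real.log X ^ 1 ≤ δ / 6 * X := by
    rw [pow_one, div_le_iff₀ hlog0]
    have : 1 ≤ δ / 6 * Real.log (X : ℝ) := by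
      calc (1 : ℝ) = δ / 6 * (6 / δ) := by field_simp
        _ ≤ δ / 6 * Real.log (X : ℝ) := mul_le_mul_of_nonneg_left e3 (by positivity)
    nlinarith
  -- second term
  have a2 : C * √(X : ℝ) * Real.log (X : ℝ) ^ 2 ≤ δ / 6 * X := by
    have b1 : Real.log (X : ℝ) = 2 * Real.log √(X : ℝ) := by
      rw [Real.log_sqrt hX0.le]; ring
    have b2 : Real.log √(X : ℝ) ^ 2 ≤ δ / (24 * C) * √(X : ℝ) := by
      have := e4
      simp only [id, Real.norm_eq_abs] at this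
      rw [abs_of_nonneg (sq_nonneg _), abs_of_pos hs0] at this
      exact this
    calc C * √(X : ℝ) * Real.log (X : ℝ) ^ 2
        = 4 * C * √(X : ℝ) * (Real.log √(X : ℝ) ^ 2) := by rw [b1]; ring
      _ ≤ 4 * C * √(X : ℝ) * (δ / (24 * C) * √(X : ℝ)) :=
          mul_le_mul_of_nonneg_left b2 (by positivity)
      _ = δ / 6 * (√(X : ℝ) * √(X : ℝ)) := by field_simp; ring
      _ = δ / 6 * X := by rw [hss]
  have hIcc : ∀ z : ℕ, Icc 1 z = Ioc 0 z := by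
    intro z
    ext n
    simp only [Finset.mem_Icc, Finset.mem_Ioc]
    omega
  -- Siegel-Walfisz modulo 1
  have a3 : |∑ n ∈ Ioc 0 y, th n - y| ≤ (X : ℝ) / Real.log X ^ 1 := by
    have b1 := hx₁ X y 1 0 e1 hy le_rfl (by simp)
    have b2 : (Ioc 0 y).filter (fun n => n ≡ 0 [MOD 1]) = Ioc 0 y :=
      Finset.filter_true_of_mem fun n _ => Nat.modEq_one
    rw [b2] at b1
    simpa using b1
  -- prime powers
  have a4 : 0 ≤ ∑ n ∈ Ioc 0 y, (Λ n - th n) :=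
    Finset.sum_nonneg fun n _ => sub_nonneg.2 (hth n).2.1
  have a5 : ∑ n ∈ Ioc 0 y, (Λ n - th n) ≤ C * √(X : ℝ) * Real.log (X : ℝ) ^ 2 := by
    refine (Finset.sum_le_sum_of_subset_of_nonneg ?_ ?_).trans (hCb X e2)
    · exact Finset.Ioc_subset_Ioc_right hy
    · intro n _ _
      exact sub_nonneg.2 (hth n).2.1
  have a6 : ∑ n ∈ Icc 1 y, (Λ n - 1) =
      ∑ n ∈ Ioc 0 y, (Λ n - th n) + (∑ n ∈ Ioc 0 y, th n - y) := by
    rw [hIcc, Finset.sum_sub_distrib, Finset.sum_sub_distrib]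
    simp
  rw [a6]
  have a7 := abs_le.1 a3
  rw [abs_le]
  constructor
  · nlinarith [a7.1]
  · nlinarith [a7.2]

theorem hPNT (h1 : StPSum) (h2 : StAP) (h3 : Pool.Agent.Helper48.BK.StSW)
    (h4 : Pool.Agent.Helper48.BK.StTh) : StPNT := by
  intro ω hω ε hε
  obtain ⟨C1, hC1, hps⟩ := h1 ω (hω.smooth.of_le (by norm_num)) hω.supp
  obtain ⟨C2, hC2, hap⟩ := h2 ω hω
  have hδ : 0 < ε / (2 * C1) := by positivity
  refine eventually_atTop.1 ?_
  filter_upwards [psi_B4 h3 h4 (ε / (2 * C1)) hδ, eventually_ge_atTop (1 : ℝ),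
    eventually_ge_atTop (2 * C2 / ε)] with x e1 e2 e3
  have a1 := hps x (ε / (2 * C1) * x) (fun n => ((Λ n - 1 : ℝ) : ℂ)) e2 (by positivity) (by
    intro y hy
    have b1 := e1 y hy
    have b2 : ∑ n ∈ Icc 1 y, ((Λ n - 1 : ℝ) : ℂ) = ((∑ n ∈ Icc 1 y, (Λ n - 1) : ℝ) : ℂ) := by
      push_cast
      rfl
    rw [b2, Complex.norm_real, Real.norm_eq_abs]
    exact b1)
  have a2 : ∑ n ∈ II x, ((ω (Real.log (n / x)) : ℝ) : ℂ) * ((Λ n - 1 : ℝ) : ℂ) =
      ((∑ n ∈ II x, ω (Real.log (n / x)) * (Λ n - 1) : ℝ) : ℂ) := by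
    push_cast
    rfl
  rw [a2, Complex.norm_real, Real.norm_eq_abs] at a1
  have a3 := hap x 1 0 e2 le_rfl
  have a4 : (II x).filter (fun n : ℕ => ((1 : ℕ) : ℤ) ∣ (n : ℤ) - 0) = II x :=
    Finset.filter_true_of_mem fun n _ => by simp
  rw [a4, Nat.cast_one, div_one] at a3
  have a5 : Pool.Agent.Helper15.AB.Th ω x = ∑ n ∈ II x, ω (Real.log (n / x)) * (Λ n - 1) +
      ∑ n ∈ II x, ω (Real.log (n / x)) := by
    rw [← Finset.sum_add_distrib]
    refine Finset.sum_congr rfl fun n _ => ?_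
    ring
  have a6 : C1 * (ε / (2 * C1) * x) = ε / 2 * x := by
    field_simp
  rw [a6] at a1
  have a7 : C2 ≤ ε / 2 * x := by
    rw [div_le_iff₀ hε] at e3
    linarith
  rw [a5]
  have a8 := abs_le.1 a1
  have a9 := abs_le.1 a3
  rw [abs_le]
  constructor
  · linarith [a8.1, a9.1]
  · linarith [a8.2, a9.2]

end Pool.Agent.Helper60.GP
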