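import Pool.Agent.Helper60.GP.St

/-! Project GP (MP_b454d1_nt), module B5 -/

set_option autoImplicit false

namespace Pool.Agent.Helper60.GP

open Finset ArithmeticFunction

theorem hBump : StBump := by
  intro L hL
  have hm : 0 < min L 1 := lt_min hL one_pos
  set m := min L 1 with hmd
  have hmL : m ≤ L := min_le_left _ _
  have hm1 : m ≤ 1 := min_le_right _ _
  let b : ContDiffBump (m / 2 : ℝ) := ⟨m / 8, m / 4, by linarith, by linarith⟩
  have hsupp : ∀ t, b t ≠ 0 → m / 4 < t ∧ t < 3 * m / 4 := by
    intro t ht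
    have h1 : t ∈ Metric.ball (m / 2) (m / 4) := by
      have h2 : t ∈ Function.support b := ht
      rwa [b.support_eq] at h2
    rw [Real.ball_eq_Ioo] at h1
    exact ⟨by linarith [h1.1], by linarith [h1.2]⟩
  have hcd : ContDiff ℝ 4 fun t => 1 / 2 * b t := contDiff_const.mul b.contDiff
  refine ⟨fun t => 1 / 2 * b t, ⟨hcd, fun t => ?_, fun t => ?_, fun t ht => ?_⟩, ?_,
    fun t ht => ?_⟩
  · exact mul_nonneg (by norm_num) b.nonneg
  · show 1 / 2 * b t ≤ 1 / 2
    have := b.le_one (x := t)
    linarith
  · show 1 / 2 * b t = 0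
    by_contra h
    have h1 := hsupp t fun h2 => h (by rw [h2, mul_zero])
    exact ht ⟨by linarith, by linarith⟩
  · unfold JJ
    refine intervalIntegral.integral_pos one_pos
      (hcd.continuous.mul Real.continuous_exp).continuousOn (fun t _ => ?_)
      ⟨m / 2, ⟨by linarith, by linarith⟩, ?_⟩
    · exact mul_nonneg (mul_nonneg (by norm_num) b.nonneg) (Real.exp_pos t).le
    · have h1 : b (m / 2) = 1 := b.one_of_mem_closedBall (by
        rw [Metric.mem_closedBall, dist_self]
        exact b.rIn_pos.le)
      show 0 < 1 / 2 * b (m / 2) * Real.exp (m / 2)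
      rw [h1]
      have := Real.exp_pos (m / 2)
      linarith
  · have h1 := hsupp t fun h2 => ht (by show 1 / 2 * b t = 0; rw [h2, mul_zero])
    exact ⟨by linarith, by linarith⟩

end Pool.Agent.Helper60.GP
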