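import Pool.Agent.Helper60.GP.St

/-! Project GP (MP_b454d1_nt), module E01: sieve weights and primes in progressions -/

set_option autoImplicit false

namespace Pool.Agent.Helper60.GP

open Finset ArithmeticFunction

namespace GPE01

variable {N : ℕ} {z D : ℝ} {lam : ℕ → ℝ}

theorem wt_facts (h : IsWt N z D lam) {q m : ℕ} (hq : ∀ p ∈ PP N z, ¬ p ∣ q)
    (hqN : Nat.Coprime q N) (hm : lam m ≠ 0) :
    m ∈ Icc 1 ⌊D⌋₊ ∧ Nat.Coprime q m ∧ Nat.Coprime (q * m) N := by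
  obtain ⟨hsq, hD, hp⟩ := h.supp m hm
  refine ⟨mem_Icc.2 ⟨Nat.one_le_iff_ne_zero.2 hsq.ne_zero, Nat.le_floor hD⟩, ?_, ?_⟩
  · refine Nat.Coprime.symm (Nat.coprime_of_dvd fun p hpp hpm hpq => ?_)
    exact hq p (hp p hpp hpm) hpq
  · refine Nat.Coprime.mul_left hqN (Nat.coprime_of_dvd fun p hpp hpm hpN => ?_)
    exact (mem_filter.1 (hp p hpp hpm)).2.2 hpN

theorem sum_div (h : IsWt N z D lam) {k : ℕ} (hk : k ≠ 0) :
    ∑ m ∈ k.divisors, lam m = ∑ m ∈ Icc 1 ⌊D⌋₊, if m ∣ k then lam m else 0 := by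
  rw [← sum_filter]
  refine sum_subset_zero_on_sdiff ?_ ?_ (fun _ _ => rfl) |>.symm
  · intro m hm
    rw [mem_filter] at hm
    exact Nat.mem_divisors.2 ⟨hm.2, hk⟩
  · intro m hm
    rw [mem_sdiff, Nat.mem_divisors, mem_filter] at hm
    by_contra hne
    obtain ⟨hsq, hD, -⟩ := h.supp m hne
    exact hm.2 ⟨mem_Icc.2 ⟨Nat.one_le_iff_ne_zero.2 hsq.ne_zero, Nat.le_floor hD⟩, hm.1.1⟩

theorem dvd_iff' {q m n : ℕ} (hn : n ≤ N) (hqm : Nat.Coprime q m) :
    (q ∣ N - n ∧ m ∣ N - n) ↔ ((q * m : ℕ) : ℤ) ∣ (n : ℤ) - ((N : ℕ) : ℤ) := by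
  have h1 : (n : ℤ) - ((N : ℕ) : ℤ) = -((N - n : ℕ) : ℤ) := by
    rw [Nat.cast_sub hn]
    ring
  rw [h1, dvd_neg, Int.natCast_dvd_natCast]
  constructor
  · rintro ⟨h2, h3⟩
    exact hqm.mul_dvd_of_dvd_of_dvd h2 h3
  · intro h2
    exact ⟨(dvd_mul_right q m).trans h2, (dvd_mul_left m q).trans h2⟩

end GPE01

open GPE01 in
theorem hDist : StDist := by
  intro ω x N q z D lam hw hx hxN hq1 hqN hq
  set g : ℕ → ℝ := fun n => Λ n * ω (Real.log (n / x)) with hg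
  have hII : ∀ n ∈ II x, n < N := by
    intro n hn
    have h1 : n ≤ ⌊3 * x⌋₊ := (mem_Icc.1 hn).2
    have h2 : (n : ℝ) ≤ 3 * x := (Nat.cast_le.2 h1).trans (Nat.floor_le (by positivity))
    exact_mod_cast h2.trans_lt hxN
  have e1 : (∑ n ∈ (II x).filter (fun n => q ∣ N - n),
      Λ n * ω (Real.log (n / x)) * ∑ m ∈ (N - n).divisors, lam m) =
      ∑ m ∈ Icc 1 ⌊D⌋₊, lam m * ∑ n ∈ (II x).filter (fun n => q ∣ N - n),
        (if m ∣ N - n then g n else 0) := by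
    have h1 : ∀ n ∈ (II x).filter (fun n => q ∣ N - n),
        Λ n * ω (Real.log (n / x)) * ∑ m ∈ (N - n).divisors, lam m =
        ∑ m ∈ Icc 1 ⌊D⌋₊, lam m * (if m ∣ N - n then g n else 0) := by
      intro n hn
      have h2 : N - n ≠ 0 := Nat.sub_ne_zero_of_lt (hII n (mem_filter.1 hn).1)
      rw [sum_div hw h2, mul_sum]
      refine sum_congr rfl fun m _ => ?_
      split_ifs
      · rw [mul_comm]
      · rw [mul_zero, mul_zero]
    rw [sum_congr rfl h1, sum_comm]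
    exact sum_congr rfl fun m _ => (mul_sum _ _ _).symm
  have e2 : Pool.Agent.Helper15.AB.Th ω x / (Nat.totient q : ℝ) * MS D lam =
      ∑ m ∈ Icc 1 ⌊D⌋₊, lam m * (Pool.Agent.Helper15.AB.Th ω x /
        ((Nat.totient q : ℝ) * (Nat.totient m : ℝ))) := by
    unfold MS
    rw [mul_sum]
    refine sum_congr rfl fun m _ => ?_
    rw [div_mul_div_comm, mul_div_assoc', mul_comm (lam m)]
  have hErr : ∀ m, 0 ≤ Err ω x (q * m) N := fun m => abs_nonneg _
  change |(∑ n ∈ (II x).filter (fun n => q ∣ N - n),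
      Λ n * ω (Real.log (n / x)) * ∑ m ∈ (N - n).divisors, lam m) -
      Pool.Agent.Helper15.AB.Th ω x / (Nat.totient q : ℝ) * MS D lam| ≤ _
  rw [e1, e2, ← sum_sub_distrib, sum_filter]
  refine (abs_sum_le_sum_abs _ _).trans (sum_le_sum fun m hm => ?_)
  rw [← mul_sub, abs_mul]
  by_cases hl : lam m = 0
  · rw [hl, abs_zero, zero_mul]
    split_ifs
    · exact hErr m
    · exact le_rfl
  · obtain ⟨-, hcop, hcopN⟩ := wt_facts hw hq hqN hl
    rw [if_pos hcopN]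
    refine (mul_le_of_le_one_left (abs_nonneg _) (hw.bound m)).trans (le_of_eq ?_)
    have h3 : ∑ n ∈ (II x).filter (fun n => q ∣ N - n), (if m ∣ N - n then g n else 0) =
        ∑ n ∈ (II x).filter (fun n : ℕ => ((q * m : ℕ) : ℤ) ∣ (n : ℤ) - ((N : ℕ) : ℤ)), g n := by
      rw [← sum_filter, filter_filter]
      refine sum_congr (filter_congr fun n hn => ?_) fun _ _ => rfl
      exact dvd_iff' (hII n hn).le hcop
    have h4 : ((Nat.totient (q * m) : ℕ) : ℝ) = (Nat.totient q : ℝ) * (Nat.totient m : ℝ) := by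
      rw [Nat.totient_mul hcop, Nat.cast_mul]
    rw [h3]
    unfold Err
    rw [h4]

end Pool.Agent.Helper60.GP
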