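import Pool.Agent.Helper60.GP.St

/-! Project GP (MP_b454d1_nt), module E02 -/

set_option autoImplicit false

namespace Pool.Agent.Helper60.GP

open Finset ArithmeticFunction

private theorem mem_PR_E02 {N : ℕ} {s t : ℝ} {q : ℕ} (h : q ∈ PR N s t) :
    (q : ℝ) < (N : ℝ) ^ t ∧ q.Prime ∧ (N : ℝ) ^ s ≤ q := by
  unfold PR at h
  rw [mem_filter, mem_range] at h
  exact ⟨Nat.lt_ceil.1 h.1, h.2.1, h.2.2.2⟩

private theorem card_E02 {N : ℕ} {s t : ℝ} (hs : 0 < s) (hN : 2 ≤ N) {d : ℕ} (hd : 1 ≤ d)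
    (hdN : (d : ℝ) ≤ N) : ((((PR N s t).filter (fun q => q ∣ d)).card : ℕ) : ℝ) ≤ 1 / s := by
  set S := (PR N s t).filter (fun q => q ∣ d) with hS
  have hNR : (1 : ℝ) < N := by exact_mod_cast hN
  have hN0 : (0 : ℝ) < N := by linarith
  have h1 : ∏ q ∈ S, q ∣ d := by
    refine Finset.prod_primes_dvd d ?_ ?_
    · intro q hq
      rw [hS, mem_filter] at hq
      exact (mem_PR_E02 hq.1).2.1.prime
    · intro q hq
      rw [hS, mem_filter] at hq
      exact hq.2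
  have h2 : ∏ q ∈ S, q ≤ d := Nat.le_of_dvd hd h1
  have h3 : ((N : ℝ) ^ s) ^ S.card ≤ ∏ q ∈ S, (q : ℝ) := by
    rw [← Finset.prod_const]
    refine Finset.prod_le_prod (fun q _ => (Real.rpow_pos_of_pos hN0 s).le) ?_
    intro q hq
    rw [hS, mem_filter] at hq
    exact (mem_PR_E02 hq.1).2.2
  have h4 : (N : ℝ) ^ (s * S.card) ≤ (N : ℝ) ^ (1 : ℝ) := by
    rw [Real.rpow_mul hN0.le, Real.rpow_natCast, Real.rpow_one]
    refine h3.trans (le_trans ?_ hdN)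
    have : ((∏ q ∈ S, q : ℕ) : ℝ) ≤ d := by exact_mod_cast h2
    rw [Nat.cast_prod] at this
    exact this
  have h5 : s * S.card ≤ 1 := (Real.rpow_le_rpow_left_iff hNR).1 h4
  rw [le_div_iff₀ hs]
  linarith

theorem hPairs : StPairs := by
  intro N s t D F hs hN hD hle hF
  set M := ⌊(N : ℝ) ^ t * D⌋₊ with hM
  have hN0 : (0 : ℝ) < N := by
    have : 0 < N := by omega
    exact_mod_cast this
  have hD0 : 0 ≤ D := by linarith
  have hx0 : 0 ≤ (N : ℝ) ^ t * D := mul_nonneg (Real.rpow_nonneg hN0.le _) hD0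
  -- first step
  have h1 : ∀ q ∈ PR N s t, ∑ m ∈ Icc 1 ⌊D⌋₊, F (q * m) ≤
      ∑ d ∈ (Icc 1 M).filter (fun d => q ∣ d), F d := by
    intro q hq
    obtain ⟨hq1, hq2, -⟩ := mem_PR_E02 hq
    have e1 : ∑ m ∈ Icc 1 ⌊D⌋₊, F (q * m) = ∑ d ∈ (Icc 1 ⌊D⌋₊).image (fun m => q * m), F d := by
      rw [Finset.sum_image]
      intro a _ b _ hab
      exact Nat.eq_of_mul_eq_mul_left hq2.pos hab
    rw [e1]
    refine Finset.sum_le_sum_of_subset_of_nonneg ?_ fun d _ _ => hF d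
    intro d hd
    rw [mem_image] at hd
    obtain ⟨m, hm, rfl⟩ := hd
    rw [mem_Icc] at hm
    rw [mem_filter, mem_Icc]
    refine ⟨⟨Nat.mul_pos hq2.pos hm.1, ?_⟩, dvd_mul_right q m⟩
    rw [hM]
    apply Nat.le_floor
    rw [Nat.cast_mul]
    have h2 : (m : ℝ) ≤ D := (Nat.cast_le.2 hm.2).trans (Nat.floor_le hD0)
    exact mul_le_mul hq1.le h2 (Nat.cast_nonneg m) (Real.rpow_nonneg hN0.le _)
  refine (Finset.sum_le_sum h1).trans ?_
  have h2 : ∑ q ∈ PR N s t, ∑ d ∈ (Icc 1 M).filter (fun d => q ∣ d), F d =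
      ∑ d ∈ Icc 1 M, ((((PR N s t).filter (fun q => q ∣ d)).card : ℕ) : ℝ) * F d := by
    simp only [Finset.sum_filter]
    rw [Finset.sum_comm]
    refine Finset.sum_congr rfl fun d _ => ?_
    rw [← Finset.sum_filter, Finset.sum_const, nsmul_eq_mul]
  rw [h2, Finset.mul_sum]
  refine Finset.sum_le_sum fun d hd => ?_
  rw [mem_Icc] at hd
  refine mul_le_mul_of_nonneg_right (card_E02 hs hN hd.1 ?_) (hF d)
  have h3 : (d : ℝ) ≤ M := by exact_mod_cast hd.2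
  exact (h3.trans (Nat.floor_le hx0)).trans hle

end Pool.Agent.Helper60.GP
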