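import Pool.Agent.Helper60.GP.St

/-! Project GP (MP_b454d1_nt), module E03 -/

set_option autoImplicit false

namespace Pool.Agent.Helper60.GP

open Finset ArithmeticFunction

namespace GPE03

theorem log_le (y : ℝ) (hy : 0 < y) : Real.log y ≤ 5 * y ^ (1 / 5 : ℝ) := by
  have := Real.log_le_rpow_div hy.le (ε := 1 / 5) (by norm_num)
  linarith

/-- prime factors of `N` -/
theorem primes_dvd (N : ℕ) (hN : 1 ≤ N) (S : Finset ℕ) :
    ∑ n ∈ S, (if n.Prime ∧ n ∣ N then Real.log n else 0) ≤ Real.log N := by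
  rw [← sum_filter]
  have h1 : S.filter (fun n => n.Prime ∧ n ∣ N) ⊆ N.primeFactors := by
    intro n hn
    rw [mem_filter] at hn
    exact Nat.mem_primeFactors.2 ⟨hn.2.1, hn.2.2, by omega⟩
  have h2 : ∑ n ∈ S.filter (fun n => n.Prime ∧ n ∣ N), Real.log n ≤
      ∑ n ∈ N.primeFactors, Real.log n := by
    refine sum_le_sum_of_subset_of_nonneg h1 fun n hn _ => ?_
    exact Real.log_nonneg (by exact_mod_cast (Nat.prime_of_mem_primeFactors hn).one_le)
  refine h2.trans ?_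
  have h3 : ∑ n ∈ N.primeFactors, Real.log n = Real.log ((∏ n ∈ N.primeFactors, n : ℕ) : ℝ) := by
    rw [Nat.cast_prod, Real.log_prod]
    intro n hn
    exact_mod_cast (Nat.prime_of_mem_primeFactors hn).ne_zero
  rw [h3]
  refine Real.log_le_log ?_ ?_
  · have : 0 < ∏ n ∈ N.primeFactors, n :=
      prod_pos fun n hn => (Nat.prime_of_mem_primeFactors hn).pos
    exact_mod_cast this
  · exact_mod_cast Nat.le_of_dvd hN (Nat.prod_primeFactors_dvd N)

/-- proper prime powers -/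
theorem powers (y : ℝ) (hy : 0 < y) :
    ∑ n ∈ Icc 1 ⌊y⌋₊, (if ¬ n.Prime then Λ n else 0) ≤ 10 * y ^ (7 / 10 : ℝ) := by
  rcases le_total 1 y with h | h
  · have h1 := Chebyshev.psi_sub_theta_eq_sum_not_prime y
    have h2 := Chebyshev.psi_sub_theta_le h
    have e : Icc 1 ⌊y⌋₊ = Ioc 0 ⌊y⌋₊ := by ext n; simp [Nat.succ_le_iff]
    rw [← sum_filter, e, ← h1]
    refine h2.trans ?_
    have h3 := log_le y hy
    have h4 : √y * y ^ (1 / 5 : ℝ) = y ^ (7 / 10 : ℝ) := by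
      rw [Real.sqrt_eq_rpow, ← Real.rpow_add hy]
      norm_num
    calc 2 * √y * Real.log y ≤ 2 * √y * (5 * y ^ (1 / 5 : ℝ)) :=
          mul_le_mul_of_nonneg_left h3 (by positivity)
      _ = 10 * (√y * y ^ (1 / 5 : ℝ)) := by ring
      _ = _ := by rw [h4]
  · have h1 : ∑ n ∈ Icc 1 ⌊y⌋₊, (if ¬ n.Prime then Λ n else 0) = 0 := by
      refine sum_eq_zero fun n hn => ?_
      rw [mem_Icc] at hn
      have h2 : ⌊y⌋₊ ≤ 1 := by
        have := Nat.floor_le_floor h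
        rwa [Nat.floor_one] at this
      have h3 : n = 1 := by omega
      rw [h3]
      simp
    rw [h1]
    positivity

end GPE03

open GPE03 in
theorem hNPr : StNPr := by
  intro ω hω α hα
  set K : ℝ := 10 * (3 * α) ^ (7 / 10 : ℝ) + 5 with hK
  have hK0 : 0 < K := by positivity
  refine ⟨⌈K ^ 20⌉₊ + 1, fun N hN => ?_⟩
  have hN1 : 1 ≤ N := by omega
  have hNr : (0 : ℝ) < N := by exact_mod_cast hN1
  have hNr1 : (1 : ℝ) ≤ N := by exact_mod_cast hN1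
  have hKN : K ^ 20 ≤ N := by
    have h1 := Nat.le_ceil (K ^ 20)
    have h2 : ((⌈K ^ 20⌉₊ : ℕ) : ℝ) ≤ N := by exact_mod_cast (by omega : ⌈K ^ 20⌉₊ ≤ N)
    linarith
  set x : ℝ := α * √N with hx
  have hx0 : 0 < x := by positivity
  have hle : ∀ n ∈ II x, Λ n * ω (Real.log (n / x)) - an ω x N n ≤
      (if ¬ n.Prime then Λ n else 0) + (if n.Prime ∧ n ∣ N then Real.log n else 0) := by
    intro n _
    have hw1 : ω (Real.log (n / x)) ≤ 1 := (hω.le_half _).trans (by norm_num)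
    have hΛ : 0 ≤ Λ n := vonMangoldt_nonneg
    have h1 : Λ n * ω (Real.log (n / x)) ≤ Λ n := mul_le_of_le_one_right hΛ hw1
    unfold an
    by_cases hp : n.Prime
    · by_cases hd : n ∣ N
      · rw [if_neg (fun h => h.2 hd), if_neg (not_not.2 hp), if_pos ⟨hp, hd⟩, sub_zero, zero_add]
        rwa [vonMangoldt_apply_prime hp] at h1 ⊢
      · rw [if_pos ⟨hp, hd⟩, if_neg (not_not.2 hp), if_neg (fun h => hd h.2), sub_self, add_zero]
    · rw [if_neg (fun h => hp h.1), if_pos hp, if_neg (fun h => hp h.1), sub_zero, add_zero]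
      exact h1
  refine (sum_le_sum hle).trans ?_
  rw [sum_add_distrib]
  have h1 : ∑ n ∈ II x, (if ¬ n.Prime then Λ n else 0) ≤ 10 * (3 * x) ^ (7 / 10 : ℝ) :=
    powers (3 * x) (by positivity)
  have h2 := primes_dvd N hN1 (II x)
  have h3 := log_le N hNr
  have e1 : (3 * x) ^ (7 / 10 : ℝ) = (3 * α) ^ (7 / 10 : ℝ) * (N : ℝ) ^ (7 / 20 : ℝ) := by
    rw [hx, Real.sqrt_eq_rpow, ← mul_assoc, Real.mul_rpow (by positivity) (by positivity),
      ← Real.rpow_mul hNr.le]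
    norm_num
  have h4 : (N : ℝ) ^ (1 / 5 : ℝ) ≤ (N : ℝ) ^ (7 / 20 : ℝ) :=
    Real.rpow_le_rpow_of_exponent_le hNr1 (by norm_num)
  have h5 : K ≤ (N : ℝ) ^ (1 / 20 : ℝ) := by
    calc K = (K ^ 20) ^ (1 / 20 : ℝ) := by
          rw [← Real.rpow_natCast, ← Real.rpow_mul hK0.le]
          norm_num
      _ ≤ _ := Real.rpow_le_rpow (by positivity) hKN (by norm_num)
  have h6 : (N : ℝ) ^ (2 / 5 : ℝ) = (N : ℝ) ^ (1 / 20 : ℝ) * (N : ℝ) ^ (7 / 20 : ℝ) := by
    rw [← Real.rpow_add hNr]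
    norm_num
  have h7 : 0 < (N : ℝ) ^ (7 / 20 : ℝ) := Real.rpow_pos_of_pos hNr _
  rw [e1] at h1
  have h8 : K * (N : ℝ) ^ (7 / 20 : ℝ) ≤ (N : ℝ) ^ (2 / 5 : ℝ) := by
    rw [h6]
    exact mul_le_mul_of_nonneg_right h5 h7.le
  have h9 : K * (N : ℝ) ^ (7 / 20 : ℝ) = 10 * ((3 * α) ^ (7 / 10 : ℝ) * (N : ℝ) ^ (7 / 20 : ℝ)) +
      5 * (N : ℝ) ^ (7 / 20 : ℝ) := by
    rw [hK]; ring
  linarith

end Pool.Agent.Helper60.GP
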