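import Pool.Agent.Helper60.GP.M_S7

/-! Project GP (MP_b454d1_nt), module E1 -/

set_option autoImplicit false

namespace Pool.Agent.Helper60.GP

open Finset ArithmeticFunction Filter
open Pool.Agent.Helper15.AB (Th)

namespace GPE1

theorem an_le {ω : ℝ → ℝ} (hω : IsB ω) (x : ℝ) (N n : ℕ) :
    an ω x N n ≤ Λ n * ω (Real.log (n / x)) := by
  unfold an
  split_ifs
  · exact le_rfl
  · exact mul_nonneg vonMangoldt_nonneg (hω.nonneg _)

theorem rg_le (N : ℕ) (z : ℝ) (n : ℕ) : rg N z n ≤ 1 := by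
  unfold rg
  split_ifs
  · exact le_rfl
  · exact zero_le_one

theorem low {ω : ℝ → ℝ} (hω : IsB ω) {x z E : ℝ} {N : ℕ} {lam : ℕ → ℝ} (hx : 0 < x)
    (h3 : 3 * x < N) (hlam : ∀ n : ℕ, 1 ≤ n → ∑ m ∈ n.divisors, lam m ≤ rg N z n)
    (hE : ∑ n ∈ II x, (Λ n * ω (Real.log (n / x)) - an ω x N n) ≤ E) :
    (∑ n ∈ II x, Λ n * ω (Real.log (n / x)) * ∑ m ∈ (N - n).divisors, lam m) - E ≤
      T0 ω x N z := by
  have h1 : ∑ n ∈ II x, Λ n * ω (Real.log (n / x)) * ∑ m ∈ (N - n).divisors, lam m ≤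
      ∑ n ∈ II x, Λ n * ω (Real.log (n / x)) * rg N z (N - n) := by
    refine Finset.sum_le_sum fun n hn => ?_
    refine mul_le_mul_of_nonneg_left (hlam _ ?_) (mul_nonneg vonMangoldt_nonneg (hω.nonneg _))
    unfold II at hn
    rw [Finset.mem_Icc] at hn
    have h2 : (n : ℝ) ≤ 3 * x := (Nat.le_floor_iff (by positivity)).1 hn.2
    have h4 : n < N := by
      have h5 : (n : ℝ) < N := by linarith
      exact_mod_cast h5
    omega
  have h2 : ∑ n ∈ II x, Λ n * ω (Real.log (n / x)) * rg N z (N - n) - T0 ω x N z ≤ E := by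
    unfold T0
    rw [← Finset.sum_sub_distrib]
    refine (Finset.sum_le_sum fun n _ => ?_).trans hE
    rw [← sub_mul]
    exact mul_le_of_le_one_right (by linarith [an_le hω x N n]) (rg_le N z (N - n))
  linarith

theorem errsum {ω : ℝ → ℝ} {x D θ B : ℝ} {N : ℕ} (hD : D ≤ x ^ θ)
    (hB : ∀ b : ℕ → ℤ, (∀ q : ℕ, 1 ≤ q → IsCoprime (b q) (q : ℤ)) →
      ∑ q ∈ Icc 1 ⌊x ^ θ⌋₊, Err ω x q (b q) ≤ B) :
    ∑ m ∈ (Icc 1 ⌊D⌋₊).filter (fun m => Nat.Coprime (1 * m) N), Err ω x (1 * m) N ≤ B := by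
  classical
  let b : ℕ → ℤ := fun q => if Nat.Coprime q N then (N : ℤ) else 1
  have hb : ∀ q : ℕ, 1 ≤ q → IsCoprime (b q) (q : ℤ) := by
    intro q _
    by_cases h : Nat.Coprime q N
    · have e : b q = (N : ℤ) := if_pos h
      rw [e]
      exact Nat.isCoprime_iff_coprime.2 h.symm
    · have e : b q = 1 := if_neg h
      rw [e]
      exact isCoprime_one_left
  refine le_trans ?_ (hB b hb)
  have hErr : ∀ q c, 0 ≤ Err ω x q c := fun q c => abs_nonneg _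
  refine le_trans (le_of_eq ?_) (Finset.sum_le_sum_of_subset_of_nonneg
    (s := (Icc 1 ⌊D⌋₊).filter (fun m => Nat.Coprime (1 * m) N)) ?_ fun q _ _ => hErr _ _)
  · refine Finset.sum_congr rfl fun m hm => ?_
    rw [Finset.mem_filter, one_mul] at hm
    have e : b m = (N : ℤ) := if_pos hm.2
    rw [e, one_mul]
  · intro m hm
    rw [Finset.mem_filter, Finset.mem_Icc] at hm
    rw [Finset.mem_Icc]
    exact ⟨hm.1.1, hm.1.2.trans (Nat.floor_le_floor hD)⟩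

theorem asym {α u s θ c₁ J ε z₀ x₀ : ℝ} (hα : 0 < α) (hu : 0 < u) (hθ : u * s < θ / 2)
    (hc : 0 < c₁) (hJ : 0 < J) (hε : 0 < ε) :
    ∀ᶠ L : ℝ in atTop, 1 ≤ L ∧ 3 * (α * Real.exp (L / 2)) < Real.exp L ∧
      x₀ ≤ α * Real.exp (L / 2) ∧ z₀ ≤ Real.exp (u * L) ∧
      Real.exp (u * s * L) ≤ (α * Real.exp (L / 2)) ^ θ ∧
      (α * Real.exp (L / 2)) / Real.log (α * Real.exp (L / 2)) ^ 2 ≤
        ε / 6 * (c₁ / L) * (J * (α * Real.exp (L / 2))) ∧
      Real.exp (2 / 5 * L) ≤ ε / 6 * (c₁ / L) * (J * (α * Real.exp (L / 2))) := by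
  have e1 := GPS7.ev 0 (1 / 2) (1 / (3 * α) / 2) (by norm_num) (by positivity)
  have e2 := GPS7.ev 0 (1 / 2) (α / (|x₀| + 1)) (by norm_num) (by positivity)
  have e3 := GPS7.ev 0 u (1 / (|z₀| + 1)) hu (by positivity)
  have e4 := GPS7.ev 1 (1 / 10) (ε / 6 * c₁ * J * α) (by norm_num) (by positivity)
  have hθ' : 0 < θ / 2 - u * s := by linarith
  filter_upwards [e1, e2, e3, e4, eventually_ge_atTop (1 : ℝ),
    eventually_ge_atTop (-(θ * Real.log α) / (θ / 2 - u * s)),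
    eventually_ge_atTop (-4 * Real.log α), eventually_ge_atTop (16 / (ε / 6 * c₁ * J))]
    with L l1 l2 l3 l4 l5 l6 l7 l8
  clear e1 e2 e3 e4
  rw [pow_zero] at l1 l2 l3
  rw [pow_one] at l4
  have hL0 : 0 < L := by linarith
  have p1 := Real.exp_pos (L / 2)
  have eh : Real.exp (1 / 2 * L) = Real.exp (L / 2) := by ring_nf
  rw [eh] at l1 l2
  have hlx : Real.log (α * Real.exp (L / 2)) = Real.log α + L / 2 := by
    rw [Real.log_mul hα.ne' p1.ne', Real.log_exp]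
  have hx0 : 0 < α * Real.exp (L / 2) := by positivity
  refine ⟨l5, ?_, ?_, ?_, ?_, ?_, ?_⟩
  · have hx2 : Real.exp L = Real.exp (L / 2) * Real.exp (L / 2) := by
      rw [← Real.exp_add]; ring_nf
    rw [hx2, ← mul_assoc]
    have : 3 * α < Real.exp (L / 2) := by
      rw [div_div, mul_comm, ← div_eq_mul_one_div, le_div_iff₀ (by positivity)] at l1
      linarith
    exact mul_lt_mul_of_pos_right this p1
  · rw [div_mul_eq_mul_div, le_div_iff₀ (by positivity)] at l2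
    have := le_abs_self x₀
    linarith
  · rw [one_div, inv_mul_eq_div, le_div_iff₀ (by positivity)] at l3
    have := le_abs_self z₀
    linarith
  · rw [Real.rpow_def_of_pos hx0, hlx]
    apply Real.exp_le_exp.2
    rw [div_le_iff₀ hθ'] at l6
    linarith
  · rw [hlx]
    have h1 : L / 4 ≤ Real.log α + L / 2 := by linarith
    have h2 : L ^ 2 / 16 ≤ (Real.log α + L / 2) ^ 2 := by
      have h3 := pow_le_pow_left₀ (by positivity) h1 2
      rw [div_pow] at h3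
      linarith
    have h3 : 0 < (Real.log α + L / 2) ^ 2 := by
      have : 0 < Real.log α + L / 2 := by linarith
      positivity
    rw [div_le_iff₀ h3]
    have h4 : L ≤ (ε / 6 * c₁ * J) * (L ^ 2 / 16) := by
      rw [div_le_iff₀ (by positivity)] at l8
      have h5 := mul_le_mul_of_nonneg_right l8 hL0.le
      nlinarith
    have h5 : L ≤ (ε / 6 * c₁ * J) * (Real.log α + L / 2) ^ 2 :=
      h4.trans (mul_le_mul_of_nonneg_left h2 (by positivity))
    have h6 : 1 ≤ ε / 6 * (c₁ / L) * J * (Real.log α + L / 2) ^ 2 := by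
      have h7 : ε / 6 * (c₁ / L) * J * (Real.log α + L / 2) ^ 2 =
          (ε / 6 * c₁ * J) * (Real.log α + L / 2) ^ 2 / L := by ring
      rw [h7, le_div_iff₀ hL0]
      linarith
    have h8 : ε / 6 * (c₁ / L) * (J * (α * Real.exp (L / 2))) * (Real.log α + L / 2) ^ 2 =
        (ε / 6 * (c₁ / L) * J * (Real.log α + L / 2) ^ 2) * (α * Real.exp (L / 2)) := by ring
    rw [h8]
    exact le_mul_of_one_le_left hx0.le h6
  · have h1 : Real.exp (L / 2) = Real.exp (1 / 10 * L) * Real.exp (2 / 5 * L) := by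
      rw [← Real.exp_add]; ring_nf
    have h2 : ε / 6 * (c₁ / L) * (J * (α * Real.exp (L / 2))) =
        (ε / 6 * c₁ * J * α * Real.exp (1 / 10 * L) / L) * Real.exp (2 / 5 * L) := by
      rw [h1]; ring
    rw [h2]
    refine le_mul_of_one_le_left (Real.exp_pos _).le ?_
    rw [le_div_iff₀ hL0]
    linarith

theorem fin {c ε ε₂ c₁ L J x V TH M E F : ℝ} (hx : 0 < x) (hJ : 0 < J) (hε : 0 < ε)
    (hc : 0 < c₁) (hL : 0 < L) (hV : c₁ / L ≤ V) (hTH0 : 0 ≤ TH) (hTH : |TH - J * x| ≤ ε₂ * x)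
    (hM : (c - ε / 3) * V ≤ M) (hε₂ : |c - ε / 3| * ε₂ ≤ ε / 3 * J)
    (hE : E ≤ ε / 6 * (c₁ / L) * (J * x)) (hF : F ≤ ε / 6 * (c₁ / L) * (J * x)) :
    (c - ε) * V * (J * x) ≤ TH * M - E - F := by
  have hV0 : 0 < V := lt_of_lt_of_le (by positivity) hV
  have h1 : TH * ((c - ε / 3) * V) ≤ TH * M := mul_le_mul_of_nonneg_left hM hTH0
  have h2 : (J * x) * (c - ε / 3) - ε / 3 * J * x ≤ TH * (c - ε / 3) := by
    have h3 : |(TH - J * x) * (c - ε / 3)| ≤ ε / 3 * J * x := by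
      rw [abs_mul, mul_comm]
      calc |c - ε / 3| * |TH - J * x| ≤ |c - ε / 3| * (ε₂ * x) :=
            mul_le_mul_of_nonneg_left hTH (abs_nonneg _)
        _ = (|c - ε / 3| * ε₂) * x := by ring
        _ ≤ ε / 3 * J * x := mul_le_mul_of_nonneg_right hε₂ hx.le
    have h4 := (abs_le.1 h3).1
    linarith
  have h3 := mul_le_mul_of_nonneg_right h2 hV0.le
  have h4 : ε / 6 * (c₁ / L) * (J * x) ≤ ε / 6 * V * (J * x) :=
    mul_le_mul_of_nonneg_right (mul_le_mul_of_nonneg_left hV (by positivity)) (by positivity)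
  have h5 : (c - ε) * V * (J * x) = ((J * x) * (c - ε / 3) - ε / 3 * J * x) * V -
      2 * (ε / 6 * V * (J * x)) := by ring
  have h6 : TH * (c - ε / 3) * V = TH * ((c - ε / 3) * V) := by ring
  rw [h5]
  linarith

end GPE1

theorem hMain (h1 : StDist) (h2 : StNPr) (h3 : StBVc) (h4 : StPNT) (h5 : StVlow) : StMain := by
  intro s c hVL ω hω hJ α u hα hu hs hus ε hε
  obtain ⟨c₁, hc₁, N₁, hV⟩ := h5 u hu
  obtain ⟨z₀, hz₀⟩ := hVL (ε / 3) (by positivity) (1 / u)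
  obtain ⟨N₂, hNP⟩ := h2 ω hω α hα
  obtain ⟨θ, hθ⟩ : ∃ θ : ℝ, θ = u * s + 1 / 4 := ⟨_, rfl⟩
  have hθ1 : θ < 1 / 2 := by linarith
  have hθ2 : u * s < θ / 2 := by rw [hθ]; linarith
  obtain ⟨x₁, hBV⟩ := h3 ω hω 2 θ hθ1
  obtain ⟨ε₂, hε₂⟩ : ∃ e : ℝ, e = ε / 3 * JJ ω / (|c - ε / 3| + 1) := ⟨_, rfl⟩
  have hε₂0 : 0 < ε₂ := by rw [hε₂]; positivity
  have hε₂' : |c - ε / 3| * ε₂ ≤ ε / 3 * JJ ω := by
    rw [hε₂, mul_div_assoc', div_le_iff₀ (by positivity)]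
    have : 0 < ε / 3 * JJ ω := by positivity
    linarith
  obtain ⟨x₂, hPNT⟩ := h4 ω hω ε₂ hε₂0
  have hE := GPE1.asym (z₀ := z₀) (x₀ := max x₁ x₂) hα hu hθ2 hc₁ hJ hε
  have hT : Tendsto (fun N : ℕ => Real.log (N : ℝ)) atTop atTop :=
    Real.tendsto_log_atTop.comp tendsto_natCast_atTop_atTop
  obtain ⟨N₃, hN₃⟩ := eventually_atTop.1 (hT.eventually hE)
  refine ⟨max (max N₁ N₂) (max N₃ 1), fun N hN hev => ?_⟩
  have hN1 : N₁ ≤ N := ((le_max_left _ _).trans (le_max_left _ _)).trans hN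
  have hN2 : N₂ ≤ N := ((le_max_right _ _).trans (le_max_left _ _)).trans hN
  have hN3 : N₃ ≤ N := ((le_max_left _ _).trans (le_max_right _ _)).trans hN
  have hN4 : 1 ≤ N := ((le_max_right _ _).trans (le_max_right _ _)).trans hN
  have hNpos : (0 : ℝ) < N := by exact_mod_cast hN4
  obtain ⟨L, hL⟩ : ∃ L : ℝ, L = Real.log (N : ℝ) := ⟨_, rfl⟩
  have hN₃' := hN₃ N hN3
  rw [← hL] at hN₃'
  obtain ⟨a1, a2, a3, a4, a5, a6, a7⟩ := hN₃'
  have hL0 : 0 < L := by linarith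
  have hpow : ∀ b : ℝ, (N : ℝ) ^ b = Real.exp (b * L) := fun b => by
    rw [Real.rpow_def_of_pos hNpos, mul_comm, hL]
  have hsq : √(N : ℝ) = Real.exp (L / 2) := by
    rw [Real.sqrt_eq_rpow, hpow]
    ring_nf
  have hNL : (N : ℝ) = Real.exp L := by rw [hL]; exact (Real.exp_log hNpos).symm
  have hnp := hNP N hN2
  obtain ⟨x, hx⟩ : ∃ x : ℝ, x = α * √(N : ℝ) := ⟨_, rfl⟩
  have hx' : x = α * Real.exp (L / 2) := by rw [hx, hsq]
  have hx0 : 0 < x := by rw [hx']; positivity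
  obtain ⟨z, hz⟩ : ∃ z : ℝ, z = (N : ℝ) ^ u := ⟨_, rfl⟩
  have hz' : z = Real.exp (u * L) := by rw [hz, hpow u]
  rw [← hx, ← hz]
  rw [← hx] at hnp
  have hVV : c₁ / L ≤ VV N z := by
    rw [hz]
    refine le_trans ?_ (hV N hN1 hev)
    rw [← hL]
    exact div_le_div_of_nonneg_right (le_mul_of_one_le_right hc₁.le (GPS7.SS_ge N)) hL0.le
  rw [← hx'] at a2 a3 a5 a6 a7
  rw [← hNL] at a2
  rw [← hz'] at a4
  have hzM : (N : ℝ) ≤ z ^ (1 / u) := by
    rw [hz, ← Real.rpow_mul hNpos.le, mul_one_div_cancel hu.ne', Real.rpow_one]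
  obtain ⟨lam, hw, hl, hm⟩ := hz₀ z a4 N hev hN4 hzM (z ^ s) le_rfl
  have hD : z ^ s ≤ x ^ θ := by
    rw [hz, ← Real.rpow_mul hNpos.le, hpow]
    exact a5
  have hdist := h1 ω x N 1 z (z ^ s) lam hw hx0.le a2 le_rfl (Nat.coprime_one_left N)
    (fun p hp h => by
      unfold PP at hp
      rw [Finset.mem_filter] at hp
      exact hp.2.1.one_lt.ne' (Nat.dvd_one.1 h))
  have herr := GPE1.errsum (ω := ω) (N := N) hD (hBV x ((le_max_left _ _).trans a3))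
  have hlow := GPE1.low (z := z) hω hx0 a2 hl hnp
  have hfil : (II x).filter (fun n => 1 ∣ N - n) = II x :=
    Finset.filter_true_of_mem fun n _ => one_dvd _
  rw [hfil, Nat.totient_one, Nat.cast_one, div_one] at hdist
  have hTH0 : 0 ≤ Th ω x :=
    Finset.sum_nonneg fun n _ => mul_nonneg vonMangoldt_nonneg (hω.nonneg _)
  have hfin := GPE1.fin (E := ∑ m ∈ (Icc 1 ⌊z ^ s⌋₊).filter (fun m => Nat.Coprime (1 * m) N),
    Err ω x (1 * m) N) (F := (N : ℝ) ^ ((2 : ℝ) / 5)) hx0 hJ hε hc₁ hL0 hVV hTH0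
    (hPNT x ((le_max_right _ _).trans a3)) hm hε₂' (herr.trans a6)
    (by rw [hpow]; exact a7)
  have hd := (abs_le.1 hdist).1
  linarith

end Pool.Agent.Helper60.GP
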