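import Pool.Agent.Helper60.GP.St

/-! Project GP (MP_b454d1_nt), module E2 -/

set_option autoImplicit false

namespace Pool.Agent.Helper60.GP

open Finset ArithmeticFunction

namespace GPE2

lemma VV_nonneg {N : ℕ} {z : ℝ} (hN : Even N) : 0 ≤ VV N z := by
  unfold VV
  apply prod_nonneg
  intro p hp
  unfold PP at hp
  rw [mem_filter] at hp
  have h2 : p ≠ 2 := by
    rintro rfl
    exact hp.2.2 hN.two_dvd
  have h3 : (3 : ℝ) ≤ p := by
    have := hp.2.1.two_le
    exact_mod_cast (show 3 ≤ p by omega)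
  have : 1 / ((p : ℝ) - 1) ≤ 1 := by
    rw [div_le_one (by linarith)]
    linarith
  linarith

lemma SS_ge {N : ℕ} : 1 ≤ SS N := by
  unfold SS
  have h : ∏ _p ∈ N.primeFactors.filter (fun p => 2 < p), (1 : ℝ) ≤
      ∏ p ∈ N.primeFactors.filter (fun p => 2 < p), ((p : ℝ) - 1) / ((p : ℝ) - 2) := by
    apply prod_le_prod
    · intro _ _; exact zero_le_one
    · intro p hp
      have h2 : (2 : ℝ) < p := by exact_mod_cast (mem_filter.1 hp).2
      rw [le_div_iff₀ (by linarith)]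
      linarith
  simpa using h

lemma Err_nonneg (ω : ℝ → ℝ) (x : ℝ) (q : ℕ) (b : ℤ) : 0 ≤ Err ω x q b := abs_nonneg _

lemma an_nonneg {ω : ℝ → ℝ} (hω : IsB ω) (x : ℝ) (N n : ℕ) : 0 ≤ an ω x N n := by
  unfold an
  split_ifs
  · exact mul_nonneg vonMangoldt_nonneg (hω.nonneg _)
  · exact le_rfl

lemma an_le {ω : ℝ → ℝ} (hω : IsB ω) (x : ℝ) (N n : ℕ) :
    an ω x N n ≤ Λ n * ω (Real.log (n / x)) := by
  unfold an
  split_ifs
  · exact le_rfl
  · exact mul_nonneg vonMangoldt_nonneg (hω.nonneg _)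

lemma rg_nonneg (N : ℕ) (z : ℝ) (n : ℕ) : 0 ≤ rg N z n := by
  unfold rg
  split_ifs <;> norm_num

lemma Tq_le {ω : ℝ → ℝ} (hω : IsB ω) {x : ℝ} {N : ℕ} {z : ℝ} {q : ℕ} {lam : ℕ → ℝ}
    (hx : 0 ≤ x) (hxN : 3 * x < N)
    (hlam : ∀ n : ℕ, 1 ≤ n → rg N z n ≤ ∑ m ∈ n.divisors, lam m) :
    Tq ω x N z q ≤ ∑ n ∈ (II x).filter (fun n => q ∣ N - n),
      Λ n * ω (Real.log (n / x)) * ∑ m ∈ (N - n).divisors, lam m := by
  unfold Tq
  apply sum_le_sum
  intro n hn
  rw [mem_filter, II, mem_Icc] at hn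
  have h1 : n < N := by
    have h2 : (n : ℝ) ≤ 3 * x := (Nat.le_floor_iff (by positivity)).1 hn.1.2
    exact_mod_cast h2.trans_lt hxN
  have h3 := hlam (N - n) (by omega)
  calc an ω x N n * rg N z (N - n) ≤ (Λ n * ω (Real.log (n / x))) * rg N z (N - n) :=
        mul_le_mul_of_nonneg_right (an_le hω x N n) (rg_nonneg _ _ _)
    _ ≤ _ := mul_le_mul_of_nonneg_left h3 (mul_nonneg vonMangoldt_nonneg (hω.nonneg _))

end GPE2

open GPE2 Filter

theorem hCellA (h1 : StDist) (h2 : StPairs) (h3 : StBVc) (h4 : StPNT) (h5 : StVlow)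
    (h6 : StM2) : StCellA := by
  classical
  intro σ c hVU hc ω hω hJ α u s t hα hu hus hst hσ hlev ε hε
  have hs : 0 < s := hu.trans_le hus
  have ht : 0 < t := hs.trans hst
  set J := JJ ω with hJdef
  have hlog : 0 ≤ Real.log (t / s) := Real.log_nonneg (by rw [le_div_iff₀ hs]; linarith)
  set S0 : ℝ := 2 * (Real.log (t / s) + 1) with hS0
  have hS0pos : 0 < S0 := by positivity
  obtain ⟨ε₁, hε₁0, hε₁1, hε₁⟩ : ∃ ε₁ : ℝ, 0 < ε₁ ∧ ε₁ ≤ 1 ∧ S0 * (ε₁ * (2 + c)) ≤ ε / 2 := by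
    refine ⟨min 1 (ε / (2 * S0 * (2 + c))), by positivity, min_le_left _ _, ?_⟩
    have h : min 1 (ε / (2 * S0 * (2 + c))) ≤ ε / (2 * S0 * (2 + c)) := min_le_right _ _
    calc S0 * (min 1 (ε / (2 * S0 * (2 + c))) * (2 + c))
        ≤ S0 * (ε / (2 * S0 * (2 + c)) * (2 + c)) := by gcongr
      _ = ε / 2 := by field_simp
  set θ : ℝ := (t + u * σ) + 1 / 4 with hθ
  have huσ : 0 < u * σ := by positivity
  obtain ⟨z0, hz0⟩ := hVU ε₁ hε₁0 (1 / u)
  obtain ⟨x0, hx0⟩ := h3 ω hω 2 θ (by linarith)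
  obtain ⟨x1, hx1⟩ := h4 ω hω (J * ε₁) (by positivity)
  obtain ⟨c0, hc0, N0, hN0⟩ := h5 u hu
  obtain ⟨z1, hz1⟩ := h6 s t hs hst.le 1 one_pos
  have hNt : Tendsto (fun N : ℕ => (N : ℝ)) atTop atTop := tendsto_natCast_atTop_atTop
  have hzt : Tendsto (fun N : ℕ => (N : ℝ) ^ u) atTop atTop := (tendsto_rpow_atTop hu).comp hNt
  have hst' : Tendsto (fun N : ℕ => √(N : ℝ)) atTop atTop := Real.tendsto_sqrt_atTop.comp hNt
  have hxt : Tendsto (fun N : ℕ => α * √(N : ℝ)) atTop atTop := hst'.const_mul_atTop hα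
  have hlt : Tendsto (fun N : ℕ => Real.log (N : ℝ)) atTop atTop := Real.tendsto_log_atTop.comp hNt
  have hpt : Tendsto (fun N : ℕ => (N : ℝ) ^ (θ / 2 - (t + u * σ))) atTop atTop :=
    (tendsto_rpow_atTop (by rw [hθ]; linarith)).comp hNt
  obtain ⟨N₀, hN₀⟩ : ∃ N₀ : ℕ, ∀ N : ℕ, N₀ ≤ N → (2 ≤ N ∧ N0 ≤ N ∧ z0 ≤ (N : ℝ) ^ u ∧ z1 ≤ N ∧
      x0 ≤ α * √(N : ℝ) ∧ x1 ≤ α * √(N : ℝ) ∧ 1 < α * √(N : ℝ) ∧ 3 * α < √(N : ℝ) ∧
      (α ^ θ)⁻¹ ≤ (N : ℝ) ^ (θ / 2 - (t + u * σ)) ∧ -4 * Real.log α ≤ Real.log N ∧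
      32 / (s * ε * J * c0) ≤ Real.log N) := by
    rw [← Filter.eventually_atTop]
    filter_upwards [eventually_ge_atTop 2, eventually_ge_atTop N0, hzt.eventually_ge_atTop z0,
      hNt.eventually_ge_atTop z1, hxt.eventually_ge_atTop x0, hxt.eventually_ge_atTop x1,
      hxt.eventually_gt_atTop 1, hst'.eventually_gt_atTop (3 * α),
      hpt.eventually_ge_atTop ((α ^ θ)⁻¹), hlt.eventually_ge_atTop (-4 * Real.log α),
      hlt.eventually_ge_atTop (32 / (s * ε * J * c0))] with N a1 a2 a3 a4 a5 a6 a7 a8 a9 a10 a11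
    exact ⟨a1, a2, a3, a4, a5, a6, a7, a8, a9, a10, a11⟩
  refine ⟨N₀, fun N hN hE w hw => ?_⟩
  obtain ⟨hN2, hNN0, hNz0, hNz1, hNx0, hNx1, hNx, hN3, hNth, hNlog, hNlog2⟩ := hN₀ N hN
  have hN0' : (0 : ℝ) < N := by exact_mod_cast (by omega : 0 < N)
  have hN1' : (1 : ℝ) < N := by exact_mod_cast (by omega : 1 < N)
  set x : ℝ := α * √(N : ℝ) with hx
  have hxpos : 0 < x := by linarith
  set z : ℝ := (N : ℝ) ^ u with hz
  have hz1' : 1 ≤ z := Real.one_le_rpow hN1'.le hu.le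
  set D : ℝ := z ^ σ with hD
  have hD1 : 1 ≤ D := Real.one_le_rpow hz1' hσ.le
  have hDN : D = (N : ℝ) ^ (u * σ) := by rw [hD, hz, ← Real.rpow_mul hN0'.le]
  obtain ⟨lam, hwt, hpt', hms⟩ := hz0 z hNz0 N hE (by omega) (by
    rw [hz, ← Real.rpow_mul hN0'.le, mul_one_div_cancel hu.ne', Real.rpow_one]) D le_rfl
  have hV0 : 0 ≤ VV N z := VV_nonneg hE
  have hx3 : 3 * x < N := by
    have h : (N : ℝ) = √(N : ℝ) * √(N : ℝ) := (Real.mul_self_sqrt hN0'.le).symm
    rw [hx]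
    calc 3 * (α * √(N : ℝ)) = (3 * α) * √(N : ℝ) := by ring
      _ < √(N : ℝ) * √(N : ℝ) := by
          apply mul_lt_mul_of_pos_right hN3
          exact Real.sqrt_pos.2 hN0'
      _ = N := h.symm
  set F : ℕ → ℝ := fun d => if Nat.Coprime d N then Err ω x d N else 0 with hF
  have hF0 : ∀ n, 0 ≤ F n := by
    intro n
    rw [hF]
    dsimp only
    split_ifs
    · exact Err_nonneg _ _ _ _
    · exact le_rfl
  have hq : ∀ q ∈ PR N s t, q.Prime ∧ ¬ q ∣ N ∧ (N : ℝ) ^ s ≤ q := by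
    intro q hq
    exact (mem_filter.1 hq).2
  set Θ : ℝ := Pool.Agent.Helper15.AB.Th ω x with hΘ
  have hT : ∀ q ∈ PR N s t, Tq ω x N z q ≤ Θ / ((q : ℝ) - 1) * MS D lam +
      ∑ m ∈ Icc 1 ⌊D⌋₊, F (q * m) := by
    intro q hqm
    obtain ⟨hqp, hqN, hqs⟩ := hq q hqm
    have hzq : z ≤ q := (Real.rpow_le_rpow_of_exponent_le hN1'.le hus).trans hqs
    have e1 := h1 ω x N q z D lam hwt hxpos.le hx3 hqp.one_le
      ((Nat.Prime.coprime_iff_not_dvd hqp).2 hqN) (by
        intro p hp hpq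
        rw [PP, mem_filter, mem_range] at hp
        have h7 : p = q := (Nat.prime_dvd_prime_iff_eq hp.2.1 hqp).1 hpq
        have h8 : (p : ℝ) < z := Nat.lt_ceil.1 hp.1
        rw [h7] at h8
        linarith)
    have e2 := Tq_le hω (q := q) hxpos.le hx3 hpt'
    have e3 := (abs_le.1 e1).2
    rw [Nat.totient_prime hqp, Nat.cast_sub hqp.one_le, Nat.cast_one] at e3
    have e4 : ∑ m ∈ (Icc 1 ⌊D⌋₊).filter (fun m => Nat.Coprime (q * m) N), Err ω x (q * m) N ≤
        ∑ m ∈ Icc 1 ⌊D⌋₊, F (q * m) := by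
      rw [sum_filter, hF]
    linarith
  have hsumF : ∑ q ∈ PR N s t, ∑ m ∈ Icc 1 ⌊D⌋₊, F (q * m) ≤ 1 / s * (x / Real.log x ^ 2) := by
    have hND : (N : ℝ) ^ t * D = (N : ℝ) ^ (t + u * σ) := by
      rw [hDN, ← Real.rpow_add hN0']
    refine (h2 N s t D F hs hN2 hD1 ?_ hF0).trans ?_
    · rw [hND]
      calc (N : ℝ) ^ (t + u * σ) ≤ (N : ℝ) ^ (1 : ℝ) :=
            Real.rpow_le_rpow_of_exponent_le hN1'.le (by linarith)
        _ = N := Real.rpow_one _
    · apply mul_le_mul_of_nonneg_left _ (by positivity)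
      have hxθ : (N : ℝ) ^ (t + u * σ) ≤ x ^ θ := by
        have e1 : x ^ θ = α ^ θ * (N : ℝ) ^ (θ / 2) := by
          rw [hx, Real.mul_rpow hα.le (Real.sqrt_nonneg _), Real.sqrt_eq_rpow,
            ← Real.rpow_mul hN0'.le]
          congr 2
          ring
        have e2 : (N : ℝ) ^ (θ / 2) = (N : ℝ) ^ (θ / 2 - (t + u * σ)) * (N : ℝ) ^ (t + u * σ) := by
          rw [← Real.rpow_add hN0']
          congr 1
          ring
        rw [e1, e2]
        have e3 : 0 < α ^ θ := Real.rpow_pos_of_pos hα _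
        have e4 : 1 ≤ α ^ θ * (N : ℝ) ^ (θ / 2 - (t + u * σ)) := by
          calc (1 : ℝ) = α ^ θ * (α ^ θ)⁻¹ := (mul_inv_cancel₀ e3.ne').symm
            _ ≤ _ := mul_le_mul_of_nonneg_left hNth e3.le
        have e5 : 0 ≤ (N : ℝ) ^ (t + u * σ) := by positivity
        nlinarith
      refine le_trans ?_ (hx0 x hNx0 (fun d => if Nat.Coprime d N then (N : ℤ) else 1) (by
        intro d hd
        split_ifs with hc'
        · exact (Nat.isCoprime_iff_coprime.2 hc').symm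
        · exact isCoprime_one_left))
      rw [hND]
      calc ∑ d ∈ Icc 1 ⌊(N : ℝ) ^ (t + u * σ)⌋₊, F d ≤ ∑ d ∈ Icc 1 ⌊x ^ θ⌋₊, F d := by
            apply sum_le_sum_of_subset_of_nonneg
            · apply Icc_subset_Icc_right
              exact Nat.floor_le_floor hxθ
            · intro _ _ _; exact hF0 _
        _ ≤ _ := by
            apply sum_le_sum
            intro d _
            rw [hF]
            dsimp only
            split_ifs
            · exact le_rfl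
            · exact Err_nonneg _ _ _ _
  set S : ℝ := ∑ q ∈ PR N s t, w q / ((q : ℝ) - 1) with hS
  have hq1 : ∀ q ∈ PR N s t, (2 : ℝ) ≤ q := fun q hqm => by exact_mod_cast (hq q hqm).1.two_le
  have hS0' : 0 ≤ S := by
    apply sum_nonneg
    intro q hqm
    have := hq1 q hqm
    exact div_nonneg (hw q hqm).1 (by linarith)
  have hSle : S ≤ S0 := by
    have e1 := hz1 N hNz1
    have e2 := (abs_le.1 e1).2
    have e3 : S ≤ 2 * ∑ p ∈ (range ⌈(N : ℝ) ^ t⌉₊).filter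
        (fun p : ℕ => p.Prime ∧ (N : ℝ) ^ s ≤ p), (1 : ℝ) / p := by
      rw [hS, mul_sum]
      calc ∑ q ∈ PR N s t, w q / ((q : ℝ) - 1) ≤ ∑ q ∈ PR N s t, 2 * ((1 : ℝ) / q) := by
            apply sum_le_sum
            intro q hqm
            have e4 := hq1 q hqm
            calc w q / ((q : ℝ) - 1) ≤ 1 / ((q : ℝ) - 1) := by
                  apply div_le_div_of_nonneg_right (hw q hqm).2 (by linarith)
              _ ≤ 2 * ((1 : ℝ) / q) := by
                  rw [mul_one_div, div_le_div_iff₀ (by linarith) (by linarith)]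
                  linarith
        _ ≤ _ := by
            apply sum_le_sum_of_subset_of_nonneg
            · intro q hqm
              rw [PR, mem_filter] at hqm
              rw [mem_filter]
              exact ⟨hqm.1, hqm.2.1, hqm.2.2.2⟩
            · intro _ _ _; positivity
    rw [hS0]
    linarith
  have hΘ0 : 0 ≤ Θ := by
    rw [hΘ]
    unfold Pool.Agent.Helper15.AB.Th
    exact sum_nonneg (fun n _ => mul_nonneg vonMangoldt_nonneg (hω.nonneg _))
  have hΘle : Θ ≤ (J + J * ε₁) * x := by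
    have := (abs_le.1 (hx1 x hNx1)).2
    linarith
  have hmain : ∑ q ∈ PR N s t, w q * Tq ω x N z q ≤ Θ * MS D lam * S +
      1 / s * (x / Real.log x ^ 2) := by
    calc ∑ q ∈ PR N s t, w q * Tq ω x N z q
        ≤ ∑ q ∈ PR N s t, (Θ * MS D lam * (w q / ((q : ℝ) - 1)) +
          ∑ m ∈ Icc 1 ⌊D⌋₊, F (q * m)) := by
          apply sum_le_sum
          intro q hqm
          have e1 := hT q hqm
          have e2 : 0 ≤ ∑ m ∈ Icc 1 ⌊D⌋₊, F (q * m) := sum_nonneg (fun _ _ => hF0 _)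
          calc w q * Tq ω x N z q ≤ w q * (Θ / ((q : ℝ) - 1) * MS D lam +
                ∑ m ∈ Icc 1 ⌊D⌋₊, F (q * m)) := mul_le_mul_of_nonneg_left e1 (hw q hqm).1
            _ = Θ * MS D lam * (w q / ((q : ℝ) - 1)) +
                w q * ∑ m ∈ Icc 1 ⌊D⌋₊, F (q * m) := by ring
            _ ≤ _ := by
                have := mul_le_mul_of_nonneg_right (hw q hqm).2 e2
                linarith
      _ ≤ _ := by
          rw [sum_add_distrib, ← mul_sum]
          linarith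
  have hVlow : c0 / Real.log N ≤ VV N z := by
    refine le_trans ?_ (hN0 N hNN0 hE)
    have hl : 0 < Real.log N := Real.log_pos hN1'
    apply div_le_div_of_nonneg_right _ hl.le
    have := SS_ge (N := N)
    nlinarith
  have hlN : 0 < Real.log N := Real.log_pos hN1'
  have hlx : Real.log N / 4 ≤ Real.log x := by
    rw [hx, Real.log_mul hα.ne' (Real.sqrt_pos.2 hN0').ne', Real.log_sqrt hN0'.le]
    linarith
  have herr : 1 / s * (x / Real.log x ^ 2) ≤ ε / 2 * (VV N z * (J * x)) := by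
    have e1 : x / Real.log x ^ 2 ≤ x / (Real.log N / 4) ^ 2 := by
      apply div_le_div_of_nonneg_left hxpos.le (by positivity)
      exact pow_le_pow_left₀ (by positivity) hlx 2
    have e2 : 1 / s * (x / (Real.log N / 4) ^ 2) ≤ ε / 2 * (c0 / Real.log N * (J * x)) := by
      have e3 : 1 / s * (x / (Real.log N / 4) ^ 2) = x / Real.log N * (16 / (s * Real.log N)) := by
        field_simp
        ring
      have e4 : ε / 2 * (c0 / Real.log N * (J * x)) = x / Real.log N * (ε * J * c0 / 2) := by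
        field_simp
      rw [e3, e4]
      apply mul_le_mul_of_nonneg_left _ (by positivity)
      rw [div_le_div_iff₀ (by positivity) (by positivity)]
      rw [div_le_iff₀ (by positivity)] at hNlog2
      nlinarith
    calc 1 / s * (x / Real.log x ^ 2) ≤ 1 / s * (x / (Real.log N / 4) ^ 2) :=
          mul_le_mul_of_nonneg_left e1 (by positivity)
      _ ≤ _ := e2
      _ ≤ _ := by gcongr
  have hfst : Θ * MS D lam * S ≤ (c * S + ε / 2) * (VV N z * (J * x)) := by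
    have e1 : Θ * MS D lam ≤ Θ * ((c + ε₁) * VV N z) := mul_le_mul_of_nonneg_left hms hΘ0
    have e2 : Θ * ((c + ε₁) * VV N z) ≤ ((J + J * ε₁) * x) * ((c + ε₁) * VV N z) :=
      mul_le_mul_of_nonneg_right hΘle (by positivity)
    have e3 : Θ * MS D lam * S ≤ ((J + J * ε₁) * x) * ((c + ε₁) * VV N z) * S :=
      mul_le_mul_of_nonneg_right (e1.trans e2) hS0'
    refine e3.trans ?_
    have e4 : ((J + J * ε₁) * x) * ((c + ε₁) * VV N z) * S =
        ((1 + ε₁) * (c + ε₁) * S) * (VV N z * (J * x)) := by ring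
    rw [e4]
    apply mul_le_mul_of_nonneg_right _ (by positivity)
    have e5 : (1 + ε₁) * (c + ε₁) * S = c * S + S * (ε₁ * (1 + c + ε₁)) := by ring
    rw [e5]
    have e6 : S * (ε₁ * (1 + c + ε₁)) ≤ S0 * (ε₁ * (2 + c)) := by
      apply mul_le_mul hSle _ (by positivity) hS0pos.le
      apply mul_le_mul_of_nonneg_left _ hε₁0.le
      linarith
    linarith
  calc ∑ q ∈ PR N s t, w q * Tq ω x N z q ≤ Θ * MS D lam * S +
      1 / s * (x / Real.log x ^ 2) := hmain
    _ ≤ (c * S + ε / 2) * (VV N z * (J * x)) + ε / 2 * (VV N z * (J * x)) := add_le_add hfst herr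
    _ = _ := by ring

end Pool.Agent.Helper60.GP
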