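import Pool.Agent.Helper60.GP.St

/-! Project GP (MP_b454d1_nt), module E3 -/

set_option autoImplicit false

namespace Pool.Agent.Helper60.GP

open Finset ArithmeticFunction

theorem VV_nonneg_E3 (N : ℕ) (z : ℝ) (hN : Even N) : 0 ≤ VV N z := by
  unfold VV
  apply Finset.prod_nonneg
  intro p hp
  unfold PP at hp
  rw [Finset.mem_filter] at hp
  obtain ⟨-, hpp, hpN⟩ := hp
  have h2 : p ≠ 2 := by
    rintro rfl
    exact hpN hN.two_dvd
  have h3 : 3 ≤ p := by
    have := hpp.two_le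
    omega
  have h3' : (3 : ℝ) ≤ p := by exact_mod_cast h3
  have : 1 / ((p : ℝ) - 1) ≤ 1 := by
    rw [div_le_one (by linarith)]
    linarith
  linarith

theorem hCellB (h1 : StMix) (h2 : StM2) : StCellB := by
  intro ω hω hJ α u s t hα hu hus hst htu ε hε
  have hs : 0 < s := lt_of_lt_of_le hu hus
  have hlog : 0 ≤ Real.log (t / s) := by
    apply Real.log_nonneg
    rw [le_div_iff₀ hs]
    linarith
  have hA : 0 < 1 / 2 - t - 2 * u := by linarith
  set A : ℝ := 1 / (1 / 2 - t - 2 * u) with hAdef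
  have hA0 : 0 < A := by rw [hAdef]; positivity
  set η : ℝ := ε / (Real.log (t / s) + 1) with hη
  have hη0 : 0 < η := by rw [hη]; positivity
  obtain ⟨N₁, hN₁⟩ := h1 ω hω hJ α u t hα hu (by linarith) (by linarith) η hη0
  obtain ⟨z₀, hz₀⟩ := h2 s t hs hst.le 1 one_pos
  refine ⟨max (max N₁ 1) ⌈z₀⌉₊, fun N hN hev w hw => ?_⟩
  have hNN₁ : N₁ ≤ N := le_trans (le_trans (le_max_left _ _) (le_max_left _ _)) hN
  have hN1 : 1 ≤ N := le_trans (le_trans (le_max_right _ _) (le_max_left _ _)) hN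
  have hNz : z₀ ≤ (N : ℝ) := by
    have : ⌈z₀⌉₊ ≤ N := le_trans (le_max_right _ _) hN
    exact le_trans (Nat.le_ceil z₀) (by exact_mod_cast this)
  have hN1' : (1 : ℝ) ≤ N := by exact_mod_cast hN1
  have hV := VV_nonneg_E3 N ((N : ℝ) ^ u) hev
  have hX : 0 ≤ VV N ((N : ℝ) ^ u) * (JJ ω * (α * √N)) := by positivity
  set X : ℝ := VV N ((N : ℝ) ^ u) * (JJ ω * (α * √N)) with hXdef
  have key : ∀ q ∈ PR N s t, w q * Tq ω (α * √N) N ((N : ℝ) ^ u) q ≤
      (A * (w q / ((q : ℝ) - 1)) + η * (1 / (q : ℝ))) * X := by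
    intro q hq
    have hwq := hw q hq
    unfold PR at hq
    rw [Finset.mem_filter, Finset.mem_range] at hq
    obtain ⟨hqr, hqp, hqN, hqs⟩ := hq
    have hqt : (q : ℝ) < (N : ℝ) ^ t := Nat.lt_ceil.1 hqr
    have hqu : (N : ℝ) ^ u ≤ q :=
      le_trans (Real.rpow_le_rpow_of_exponent_le hN1' hus) hqs
    have h := hN₁ N hNN₁ hev q hqp hqN hqu hqt.le
    have hq2 : (2 : ℝ) ≤ q := by exact_mod_cast hqp.two_le
    have hq0 : (0 : ℝ) < q := by linarith
    have e1 : (A + η) * VV N ((N : ℝ) ^ u) * (JJ ω * (α * √N)) / q = (A + η) * (1 / (q : ℝ)) * X := by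
      rw [hXdef]; ring
    rw [e1] at h
    calc w q * Tq ω (α * √N) N ((N : ℝ) ^ u) q
        ≤ w q * ((A + η) * (1 / (q : ℝ)) * X) := mul_le_mul_of_nonneg_left h hwq.1
      _ = (A * (w q * (1 / (q : ℝ))) + η * (w q * (1 / (q : ℝ)))) * X := by ring
      _ ≤ (A * (w q / ((q : ℝ) - 1)) + η * (1 / (q : ℝ))) * X := by
          apply mul_le_mul_of_nonneg_right _ hX
          apply add_le_add
          · apply mul_le_mul_of_nonneg_left _ hA0.le
            rw [div_eq_mul_one_div (w q)]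
            apply mul_le_mul_of_nonneg_left _ hwq.1
            apply one_div_le_one_div_of_le
            · linarith
            · linarith
          · apply mul_le_mul_of_nonneg_left _ hη0.le
            have : 0 ≤ 1 / (q : ℝ) := by positivity
            calc w q * (1 / (q : ℝ)) ≤ 1 * (1 / (q : ℝ)) := mul_le_mul_of_nonneg_right hwq.2 this
              _ = 1 / (q : ℝ) := one_mul _
  have hsum : ∑ q ∈ PR N s t, 1 / (q : ℝ) ≤ Real.log (t / s) + 1 := by
    have h := hz₀ (N : ℝ) hNz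
    have h' := (abs_le.1 h).2
    have hsub : ∑ q ∈ PR N s t, 1 / (q : ℝ) ≤
        ∑ p ∈ (range ⌈(N : ℝ) ^ t⌉₊).filter (fun p : ℕ => p.Prime ∧ (N : ℝ) ^ s ≤ p),
          (1 : ℝ) / p := by
      apply Finset.sum_le_sum_of_subset_of_nonneg
      · intro q hq
        unfold PR at hq
        rw [Finset.mem_filter] at hq ⊢
        exact ⟨hq.1, hq.2.1, hq.2.2.2⟩
      · intro q _ _
        positivity
    linarith
  calc ∑ q ∈ PR N s t, w q * Tq ω (α * √N) N ((N : ℝ) ^ u) q
      ≤ ∑ q ∈ PR N s t, (A * (w q / ((q : ℝ) - 1)) + η * (1 / (q : ℝ))) * X :=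
        Finset.sum_le_sum key
    _ = (A * ∑ q ∈ PR N s t, w q / ((q : ℝ) - 1) + η * ∑ q ∈ PR N s t, 1 / (q : ℝ)) * X := by
        rw [← Finset.sum_mul, Finset.sum_add_distrib, Finset.mul_sum, Finset.mul_sum]
    _ ≤ (A * ∑ q ∈ PR N s t, w q / ((q : ℝ) - 1) + ε) * X := by
        apply mul_le_mul_of_nonneg_right _ hX
        have : η * ∑ q ∈ PR N s t, 1 / (q : ℝ) ≤ ε := by
          calc η * ∑ q ∈ PR N s t, 1 / (q : ℝ) ≤ η * (Real.log (t / s) + 1) :=
                mul_le_mul_of_nonneg_left hsum hη0.le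
            _ = ε := by
                rw [hη]
                field_simp
        linarith

end Pool.Agent.Helper60.GP
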