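import Pool.Agent.Helper60.GP.St

/-! Project GP (MP_b454d1_nt), module E4 -/

set_option autoImplicit false

namespace Pool.Agent.Helper60.GP

open Finset ArithmeticFunction

/-- rational upper bound for `cc s t` -/
private def qq_E4 (s t : ℕ) : ℚ :=
  let y : ℚ := ((t : ℚ) - s) / s
  y - y ^ 2 / 2 + y ^ 3 / 3 - ((t : ℚ) - s) / 3125

private theorem log_le_E4 (y : ℝ) (hy : 0 ≤ y) : Real.log (1 + y) ≤ y - y ^ 2 / 2 + y ^ 3 / 3 := by
  have h : MonotoneOn (fun y : ℝ => y - y ^ 2 / 2 + y ^ 3 / 3 - Real.log (1 + y)) (Set.Ici 0) := by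
    refine monotoneOn_of_deriv_nonneg (convex_Ici 0) ?_ ?_ ?_
    · refine ContinuousOn.sub (by fun_prop) (ContinuousOn.log (by fun_prop) ?_)
      intro x hx
      have := Set.mem_Ici.1 hx
      linarith
    · intro x hx
      rw [interior_Ici] at hx
      have hx' := Set.mem_Ioi.1 hx
      have : (1 : ℝ) + x ≠ 0 := by linarith
      refine DifferentiableAt.differentiableWithinAt ?_
      exact DifferentiableAt.sub (by fun_prop) (DifferentiableAt.log (by fun_prop) this)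
    · intro x hx
      rw [interior_Ici] at hx
      have hx' := Set.mem_Ioi.1 hx
      have h1 : (1 : ℝ) + x ≠ 0 := by linarith
      have h2 : HasDerivAt (fun y : ℝ => y - y ^ 2 / 2 + y ^ 3 / 3 - Real.log (1 + y))
          (1 - (2 : ℕ) * x ^ (2 - 1) / 2 + (3 : ℕ) * x ^ (3 - 1) / 3 - 1 / (1 + x)) x := by
        exact (((hasDerivAt_id x).sub ((hasDerivAt_pow 2 x).div_const 2)).add
          ((hasDerivAt_pow 3 x).div_const 3)).sub (((hasDerivAt_id x).const_add 1).log h1)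
      rw [h2.deriv]
      have h3 : (1 : ℝ) - (2 : ℕ) * x ^ (2 - 1) / 2 + (3 : ℕ) * x ^ (3 - 1) / 3 - 1 / (1 + x) =
          x ^ 3 / (1 + x) := by
        field_simp
        push_cast
        ring
      rw [h3]
      positivity
  have h1 := h (Set.mem_Ici.2 le_rfl) (Set.mem_Ici.2 hy) hy
  simp only [add_zero, Real.log_one] at h1
  linarith

private theorem cc_le_E4 (s t : ℕ) (hs : 0 < s) (hst : s ≤ t) : cc s t ≤ (qq_E4 s t : ℝ) := by
  have hs0 : (0 : ℝ) < s := by exact_mod_cast hs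
  have hst' : (s : ℝ) ≤ t := by exact_mod_cast hst
  unfold cc qq_E4
  push_cast
  have h1 : (t : ℝ) / s = 1 + ((t : ℝ) - s) / s := by
    field_simp
    ring
  have h2 := log_le_E4 (((t : ℝ) - s) / s) (div_nonneg (by linarith) hs0.le)
  rw [h1]
  linarith

theorem hNum : StNum := by
  unfold StNum
  have hA : (cellsA.map (fun e => (e.2.2 : ℝ) / 10 ^ 8 * cc e.1 e.2.1)).sum ≤
      (cellsA.map (fun e => (((e.2.2 : ℚ) / 10 ^ 8 * qq_E4 e.1 e.2.1 : ℚ) : ℝ))).sum := by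
    refine List.sum_le_sum fun e he => ?_
    have h1 : ∀ e ∈ cellsA, 0 < e.1 ∧ e.1 ≤ e.2.1 := by decide
    obtain ⟨h2, h3⟩ := h1 e he
    push_cast
    exact mul_le_mul_of_nonneg_left (cc_le_E4 _ _ h2 h3) (by positivity)
  have hB : (cellsB.map (fun e => 1 / (1 / 2 - (e.2 : ℝ) / 10 ^ 4 - 2 * (399 / 10 ^ 4)) *
      cc e.1 e.2)).sum ≤
      (cellsB.map (fun e => ((1 / (1 / 2 - (e.2 : ℚ) / 10 ^ 4 - 2 * (399 / 10 ^ 4)) *
        qq_E4 e.1 e.2 : ℚ) : ℝ))).sum := by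
    refine List.sum_le_sum fun e he => ?_
    have h1 : ∀ e ∈ cellsB, 0 < e.1 ∧ e.1 ≤ e.2 ∧ e.2 ≤ 3125 := by decide
    obtain ⟨h2, h3, h4⟩ := h1 e he
    push_cast
    refine mul_le_mul_of_nonneg_left (cc_le_E4 _ _ h2 h3) ?_
    have h5 : (e.2 : ℝ) ≤ 3125 := by exact_mod_cast h4
    refine one_div_nonneg.2 ?_
    linarith
  have hA2 : (cellsA.map (fun e => (((e.2.2 : ℚ) / 10 ^ 8 * qq_E4 e.1 e.2.1 : ℚ) : ℝ))).sum =
      (((cellsA.map (fun e => ((e.2.2 : ℚ) / 10 ^ 8 * qq_E4 e.1 e.2.1))).sum : ℚ) : ℝ) := by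
    rw [Rat.cast_list_sum, List.map_map]
    rfl
  have hB2 : (cellsB.map (fun e => ((1 / (1 / 2 - (e.2 : ℚ) / 10 ^ 4 - 2 * (399 / 10 ^ 4)) *
        qq_E4 e.1 e.2 : ℚ) : ℝ))).sum =
      (((cellsB.map (fun e => (1 / (1 / 2 - (e.2 : ℚ) / 10 ^ 4 - 2 * (399 / 10 ^ 4)) *
        qq_E4 e.1 e.2))).sum : ℚ) : ℝ) := by
    rw [Rat.cast_list_sum, List.map_map]
    rfl
  have hq : (cellsA.map (fun e => ((e.2.2 : ℚ) / 10 ^ 8 * qq_E4 e.1 e.2.1))).sum +
      (cellsB.map (fun e => (1 / (1 / 2 - (e.2 : ℚ) / 10 ^ 4 - 2 * (399 / 10 ^ 4)) *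
        qq_E4 e.1 e.2))).sum ≤ 176 / 100 := by
    decide +kernel
  calc _ ≤ _ := add_le_add hA hB
    _ = (((cellsA.map (fun e => ((e.2.2 : ℚ) / 10 ^ 8 * qq_E4 e.1 e.2.1))).sum +
      (cellsB.map (fun e => (1 / (1 / 2 - (e.2 : ℚ) / 10 ^ 4 - 2 * (399 / 10 ^ 4)) *
        qq_E4 e.1 e.2))).sum : ℚ) : ℝ) := by
      rw [hA2, hB2, Rat.cast_add]
    _ ≤ ((176 / 100 : ℚ) : ℝ) := by exact_mod_cast hq
    _ = 176 / 100 := by norm_num

end Pool.Agent.Helper60.GP
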