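import Pool.Agent.Helper60.GP.St

/-! Project GP (MP_b454d1_nt), module E5 -/

set_option autoImplicit false

namespace Pool.Agent.Helper60.GP

open Finset ArithmeticFunction

namespace GPE5

lemma VV_nonneg {N : ℕ} {z : ℝ} (hN : Even N) : 0 ≤ VV N z := by
  unfold VV
  apply prod_nonneg
  intro p hp
  unfold PP at hp
  rw [mem_filter] at hp
  have h2 : p ≠ 2 := by
    rintro rfl
    exact hp.2.2 hN.two_dvd
  have h3 : (3 : ℝ) ≤ p := by
    have := hp.2.1.two_le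
    exact_mod_cast (show 3 ≤ p by omega)
  have : 1 / ((p : ℝ) - 1) ≤ 1 := by
    rw [div_le_one (by linarith)]
    linarith
  linarith

/-- the bound for a cell -/
def Cel (ω : ℝ → ℝ) (α : ℝ) (s t : ℕ) (c : ℝ) : Prop := ∀ ε : ℝ, 0 < ε → ∃ N₀ : ℕ, ∀ N : ℕ,
  N₀ ≤ N → Even N →
  ∑ q ∈ PR N ((s : ℝ) / 10 ^ 4) ((t : ℝ) / 10 ^ 4), (1 - Real.log q / (5 / 16 * Real.log N)) *
      Tq ω (α * √N) N ((N : ℝ) ^ ((399 : ℝ) / 10 ^ 4)) q ≤
    (c + ε) * (VV N ((N : ℝ) ^ ((399 : ℝ) / 10 ^ 4)) * (JJ ω * (α * √N)))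

/-- consecutive cells -/
def Chn : ℕ → List (ℕ × ℕ × ℝ) → ℕ → Prop
  | a, [], b => a = b
  | a, e :: L, b => a = e.1 ∧ Chn e.2.1 L b

lemma PR_split {N : ℕ} (hN : 1 ≤ N) {a b c : ℝ} (hab : a ≤ b) (hbc : b ≤ c) (f : ℕ → ℝ) :
    ∑ q ∈ PR N a c, f q = ∑ q ∈ PR N a b, f q + ∑ q ∈ PR N b c, f q := by
  have hN1 : (1 : ℝ) ≤ N := by exact_mod_cast hN
  have m1 := Real.rpow_le_rpow_of_exponent_le hN1 hab
  have m2 := Real.rpow_le_rpow_of_exponent_le hN1 hbc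
  rw [← sum_union]
  · apply sum_congr _ (fun _ _ => rfl)
    ext q
    simp only [PR, mem_filter, mem_union, mem_range, Nat.lt_ceil]
    constructor
    · rintro ⟨h1, h2, h3, h4⟩
      rcases lt_or_ge (q : ℝ) ((N : ℝ) ^ b) with h | h
      · exact Or.inl ⟨h, h2, h3, h4⟩
      · exact Or.inr ⟨h1, h2, h3, h⟩
    · rintro (⟨h1, h2, h3, h4⟩ | ⟨h1, h2, h3, h4⟩)
      · exact ⟨h1.trans_le m2, h2, h3, h4⟩
      · exact ⟨h1, h2, h3, m1.trans h4⟩
  · rw [disjoint_left]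
    intro q h1 h2
    simp only [PR, mem_filter, mem_range, Nat.lt_ceil] at h1 h2
    linarith [h1.1, h2.2.2.2]

lemma chn_le {L : List (ℕ × ℕ × ℝ)} (hL : ∀ e ∈ L, e.1 ≤ e.2.1) :
    ∀ a b : ℕ, Chn a L b → a ≤ b := by
  induction L with
  | nil => intro a b h; exact h.le
  | cons e L ih =>
    intro a b h
    obtain ⟨h1, h2⟩ := h
    rw [h1]
    exact (hL e List.mem_cons_self).trans (ih (fun e' he' => hL e' (List.mem_cons_of_mem _ he')) _ _ h2)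

lemma cel_list {ω : ℝ → ℝ} {α : ℝ} (hα : 0 < α) (hJ : 0 < JJ ω) (L : List (ℕ × ℕ × ℝ))
    (hL : ∀ e ∈ L, e.1 ≤ e.2.1) (hC : ∀ e ∈ L, Cel ω α e.1 e.2.1 e.2.2) :
    ∀ a b : ℕ, Chn a L b → Cel ω α a b (L.map (fun e => e.2.2)).sum := by
  induction L with
  | nil =>
    intro a b h ε hε
    refine ⟨0, fun N _ hE => ?_⟩
    rw [show a = b from h]
    have hem : PR N ((b : ℝ) / 10 ^ 4) ((b : ℝ) / 10 ^ 4) = ∅ := by
      rw [PR, filter_eq_empty_iff]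
      rintro q hq ⟨_, _, h3⟩
      rw [mem_range, Nat.lt_ceil] at hq
      linarith
    rw [hem, sum_empty]
    have := VV_nonneg (N := N) (z := (N : ℝ) ^ ((399 : ℝ) / 10 ^ 4)) hE
    simp only [List.map_nil, List.sum_nil]
    positivity
  | cons e L ih =>
    intro a b h ε hε
    obtain ⟨h1, h2⟩ := h
    obtain ⟨N1, hN1⟩ := hC e List.mem_cons_self (ε / 2) (by positivity)
    have hL' : ∀ e ∈ L, e.1 ≤ e.2.1 := fun e' he' => hL e' (List.mem_cons_of_mem _ he')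
    obtain ⟨N2, hN2⟩ := ih hL'
      (fun e' he' => hC e' (List.mem_cons_of_mem _ he')) e.2.1 b h2 (ε / 2) (by positivity)
    refine ⟨max 1 (max N1 N2), fun N hN hE => ?_⟩
    have a1 := hN1 N (by omega) hE
    have a2 := hN2 N (by omega) hE
    rw [h1, PR_split (b := (e.2.1 : ℝ) / 10 ^ 4) (by omega) (by
      have : (e.1 : ℝ) ≤ e.2.1 := by exact_mod_cast hL e List.mem_cons_self
      gcongr) (by
      have : (e.2.1 : ℝ) ≤ b := by exact_mod_cast chn_le hL' _ _ h2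
      gcongr)]
    rw [List.map_cons, List.sum_cons]
    calc _ ≤ _ := add_le_add a1 a2
      _ = _ := by ring

/-- the weights are in `[0, 1]` -/
lemma w01 {N : ℕ} (hN : 2 ≤ N) {s t : ℝ} (ht : t ≤ 5 / 16) (q : ℕ) (hq : q ∈ PR N s t) :
    0 ≤ 1 - Real.log q / (5 / 16 * Real.log N) ∧ 1 - Real.log q / (5 / 16 * Real.log N) ≤ 1 := by
  have hN1 : (1 : ℝ) < N := by exact_mod_cast (by omega : 1 < N)
  have hl : 0 < Real.log N := Real.log_pos hN1
  rw [PR, mem_filter, mem_range, Nat.lt_ceil] at hq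
  have hq0 : (0 : ℝ) < q := by exact_mod_cast hq.2.1.pos
  have h1 : Real.log q ≤ 5 / 16 * Real.log N := by
    calc Real.log q ≤ Real.log ((N : ℝ) ^ t) := Real.log_le_log hq0 hq.1.le
      _ = t * Real.log N := Real.log_rpow (by linarith) _
      _ ≤ _ := by gcongr
  have h2 : 0 ≤ Real.log q := Real.log_natCast_nonneg q
  have h3 : Real.log q / (5 / 16 * Real.log N) ≤ 1 := by
    rw [div_le_one (by positivity)]
    exact h1
  have h4 : 0 ≤ Real.log q / (5 / 16 * Real.log N) := by positivity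
  constructor <;> linarith

lemma cel_of {ω : ℝ → ℝ} {α : ℝ} (hα : 0 < α) (hJ : 0 < JJ ω) (s t : ℕ) (c : ℝ) (hc : 0 ≤ c)
    (hs : 0 < s) (hst : s < t) (ht : t ≤ 3125) (h4 : StSumq)
    (h : ∀ ε : ℝ, 0 < ε → ∃ N₀ : ℕ, ∀ N : ℕ, N₀ ≤ N → Even N → ∀ w : ℕ → ℝ,
      (∀ q ∈ PR N ((s : ℝ) / 10 ^ 4) ((t : ℝ) / 10 ^ 4), 0 ≤ w q ∧ w q ≤ 1) →
      ∑ q ∈ PR N ((s : ℝ) / 10 ^ 4) ((t : ℝ) / 10 ^ 4),
        w q * Tq ω (α * √N) N ((N : ℝ) ^ ((399 : ℝ) / 10 ^ 4)) q ≤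
      (c * ∑ q ∈ PR N ((s : ℝ) / 10 ^ 4) ((t : ℝ) / 10 ^ 4), w q / ((q : ℝ) - 1) + ε) *
        (VV N ((N : ℝ) ^ ((399 : ℝ) / 10 ^ 4)) * (JJ ω * (α * √N)))) :
    Cel ω α s t (c * cc s t) := by
  intro ε hε
  have hs' : (0 : ℝ) < s := by exact_mod_cast hs
  have hst' : (s : ℝ) < t := by exact_mod_cast hst
  have ht' : (t : ℝ) ≤ 3125 := by exact_mod_cast ht
  have htt : (t : ℝ) / 10 ^ 4 ≤ 5 / 16 := by
    rw [div_le_iff₀ (by norm_num)]
    linarith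
  obtain ⟨N1, hN1⟩ := h (ε / 2) (by positivity)
  obtain ⟨N2, hN2⟩ := h4 ((s : ℝ) / 10 ^ 4) ((t : ℝ) / 10 ^ 4) (5 / 16) (by positivity)
    (by gcongr) htt (ε / (2 * (c + 1))) (by positivity)
  refine ⟨max 2 (max N1 N2), fun N hN hE => ?_⟩
  have a1 := hN1 N (by omega) hE (fun q => 1 - Real.log q / (5 / 16 * Real.log N))
    (fun q hq => w01 (by omega) htt q hq)
  have a2 := hN2 N (by omega)
  refine a1.trans ?_
  have hV := VV_nonneg (N := N) (z := (N : ℝ) ^ ((399 : ℝ) / 10 ^ 4)) hE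
  apply mul_le_mul_of_nonneg_right _ (by positivity)
  have e1 : Real.log ((t : ℝ) / 10 ^ 4 / ((s : ℝ) / 10 ^ 4)) -
      ((t : ℝ) / 10 ^ 4 - (s : ℝ) / 10 ^ 4) / (5 / 16) = cc s t := by
    unfold cc
    have g1 : (t : ℝ) / 10 ^ 4 / ((s : ℝ) / 10 ^ 4) = (t : ℝ) / s := by field_simp
    have g2 : ((t : ℝ) / 10 ^ 4 - (s : ℝ) / 10 ^ 4) / (5 / 16) = ((t : ℝ) - s) / 3125 := by ring
    rw [g1, g2]
  rw [e1] at a2
  have a3 := mul_le_mul_of_nonneg_left a2 hc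
  have e2 : c * (ε / (2 * (c + 1))) ≤ ε / 2 := by
    have : c * (ε / (2 * (c + 1))) = ε / 2 * (c / (c + 1)) := by field_simp
    rw [this]
    have h5 : c / (c + 1) ≤ 1 := by
      rw [div_le_one (by linarith)]
      linarith
    nlinarith
  rw [mul_add] at a3
  linarith

/-- all cells -/
noncomputable def cells : List (ℕ × ℕ × ℝ) :=
  cellsA.map (fun e => (e.1, e.2.1, (e.2.2 : ℝ) / 10 ^ 8 * cc e.1 e.2.1)) ++
    cellsB.map (fun e => (e.1, e.2, 1 / (1 / 2 - (e.2 : ℝ) / 10 ^ 4 - 2 * (399 / 10 ^ 4)) * cc e.1 e.2))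

lemma hA : ∀ e ∈ cellsA, 25 ∣ e.2.1 ∧ (100 - e.2.1 / 25, e.2.2) ∈ tabU ∧ 399 ≤ e.1 ∧
    e.1 < e.2.1 ∧ e.2.1 < 2500 := by
  decide

lemma hB : ∀ e ∈ cellsB, 399 ≤ e.1 ∧ e.1 < e.2 ∧ e.2 ≤ 3125 := by
  decide

lemma hchn : Chn 399 cells 3125 := by
  simp [cells, cellsA, cellsB, Chn]

end GPE5

open GPE5

theorem hSec (h1 : StTab) (h2 : StCellA) (h3 : StCellB) (h4 : StSumq) (h5 : StNum) : StSec := by
  intro ω hω hJ α hα
  have hcells : ∀ e ∈ cells, e.1 ≤ e.2.1 ∧ Cel ω α e.1 e.2.1 e.2.2 := by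
    intro e he
    rw [cells, List.mem_append, List.mem_map, List.mem_map] at he
    rcases he with ⟨⟨s, t, U⟩, he, rfl⟩ | ⟨⟨s, t⟩, he, rfl⟩
    · obtain ⟨b1, b2, b3, b4, b5⟩ := hA _ he
      dsimp only at b1 b2 b3 b4 b5 ⊢
      refine ⟨b4.le, cel_of hα hJ s t _ (by positivity) (by omega) b4 (by omega) h4 ?_⟩
      obtain ⟨k, hk⟩ := b1
      have hVU := h1.1 _ b2
      dsimp only at hVU
      rw [hk, Nat.mul_div_cancel_left _ (by norm_num)] at hVU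
      have hk100 : k < 100 := by omega
      have hkr : ((100 - k : ℕ) : ℝ) = 100 - k := by
        rw [Nat.cast_sub hk100.le]; norm_num
      rw [hkr] at hVU
      have hkr' : (k : ℝ) < 100 := by exact_mod_cast hk100
      have htk : (t : ℝ) = 25 * k := by rw [hk]; push_cast; ring
      have b3' : (399 : ℝ) ≤ s := by exact_mod_cast b3
      have b4' : (s : ℝ) < t := by exact_mod_cast b4
      exact h2 _ _ hVU (by positivity) ω hω hJ α (399 / 10 ^ 4) _ _ hα (by norm_num)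
        (by gcongr) (by gcongr) (by apply div_pos _ (by norm_num); linarith) (by
          rw [htk]
          linarith)
    · obtain ⟨b3, b4, b5⟩ := hB _ he
      dsimp only at b3 b4 b5 ⊢
      have b3' : (399 : ℝ) ≤ s := by exact_mod_cast b3
      have b4' : (s : ℝ) < t := by exact_mod_cast b4
      have b5' : (t : ℝ) ≤ 3125 := by exact_mod_cast b5
      refine ⟨b4.le, cel_of hα hJ s t _ ?_ (by omega) b4 (by omega) h4 ?_⟩
      · apply div_nonneg zero_le_one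
        linarith
      · exact h3 ω hω hJ α (399 / 10 ^ 4) _ _ hα (by norm_num)
          (by gcongr) (by gcongr) (by linarith)
  obtain ⟨N₀, hN₀⟩ := cel_list hα hJ cells (fun e he => (hcells e he).1)
    (fun e he => (hcells e he).2) 399 3125 hchn (5 / 1000) (by norm_num)
  refine ⟨N₀, fun N hN hE => ?_⟩
  have a1 := hN₀ N hN hE
  have e1 : (((399 : ℕ) : ℝ) / 10 ^ 4) = 399 / 10 ^ 4 := by norm_num
  have e2 : (((3125 : ℕ) : ℝ) / 10 ^ 4) = 5 / 16 := by norm_num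
  rw [e1, e2] at a1
  refine a1.trans ?_
  have hV := VV_nonneg (N := N) (z := (N : ℝ) ^ ((399 : ℝ) / 10 ^ 4)) hE
  apply mul_le_mul_of_nonneg_right _ (by positivity)
  have h6 : (cells.map (fun e => e.2.2)).sum ≤ 176 / 100 := by
    refine le_trans (le_of_eq ?_) h5
    rw [cells, List.map_append, List.sum_append, List.map_map, List.map_map]
    rfl
  linarith

end Pool.Agent.Helper60.GP
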