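import Pool.Agent.Helper60.GP.St

/-! Project GP (MP_b454d1_nt), module E6 -/

set_option autoImplicit false

namespace Pool.Agent.Helper60.GP

open Finset ArithmeticFunction

namespace GPE6

theorem cnt (X N d : ℕ) (hd : 1 ≤ d) (hX : X ≤ N) :
    (((Icc 1 X).filter (fun n => d ∣ N - n)).card : ℝ) ≤ (X : ℝ) / d + 1 := by
  have h1 : (Icc 1 X).filter (fun n => d ∣ N - n) ⊆ (Ioc 0 X).filter (fun n => n ≡ N [MOD d]) := by
    intro n hn
    rw [mem_filter, mem_Icc] at hn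
    rw [mem_filter, mem_Ioc]
    exact ⟨⟨hn.1.1, hn.1.2⟩, (Nat.modEq_iff_dvd' (hn.1.2.trans hX)).mpr hn.2⟩
  have h2 := Nat.Ioc_filter_modEq_card 0 X (show 0 < d from hd) N
  have hd0 : (0 : ℚ) < d := by exact_mod_cast hd
  have h3 : ((#((Ioc 0 X).filter (fun n => n ≡ N [MOD d])) : ℤ) : ℚ) ≤ (X : ℚ) / d + 1 := by
    rw [h2, Int.cast_max, max_le_iff]
    constructor
    · rw [Int.cast_sub]
      have h4 := Int.floor_le (((X : ℚ) - N) / d)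
      have h5 := (Int.lt_floor_add_one ((((0 : ℕ) : ℚ) - N) / d)).le
      have h6 : ((X : ℚ) - N) / d = (X : ℚ) / d + (((0 : ℕ) : ℚ) - N) / d := by
        push_cast
        ring
      linarith
    · push_cast
      positivity
  have h4 : (#((Ioc 0 X).filter (fun n => n ≡ N [MOD d])) : ℝ) ≤ (X : ℝ) / d + 1 := by
    have h5 : ((#((Ioc 0 X).filter (fun n => n ≡ N [MOD d])) : ℚ)) ≤ (X : ℚ) / d + 1 := by
      exact_mod_cast h3
    have h6 := (Rat.cast_le (K := ℝ)).mpr h5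
    push_cast at h6
    exact h6
  exact le_trans (by exact_mod_cast card_le_card h1) h4

open Classical in
/-- few squares times `m` in a short interval -/
theorem cnt2 (X N m B : ℕ) (hm : 1 ≤ m) (hX : X < N) (hB : ∀ a q : ℕ, N - X ≤ a ^ 2 * m →
    a ≤ q → q ^ 2 * m < N → q ≤ a + B) :
    ((Icc 1 X).filter (fun n => ∃ q : ℕ, N - n = q ^ 2 * m)).card ≤ B + 1 := by
  by_cases hne : ((Icc 1 X).filter (fun n => ∃ q : ℕ, N - n = q ^ 2 * m)).Nonempty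
  · obtain ⟨n0, hn0⟩ := hne
    rw [mem_filter, mem_Icc] at hn0
    obtain ⟨⟨h1, h2⟩, q0, hq0⟩ := hn0
    have hex : ∃ a : ℕ, N - X ≤ a ^ 2 * m := ⟨q0, by omega⟩
    classical
    obtain ⟨a, ha, hmin⟩ : ∃ a : ℕ, N - X ≤ a ^ 2 * m ∧ ∀ b, N - X ≤ b ^ 2 * m → a ≤ b :=
      ⟨Nat.find hex, Nat.find_spec hex, fun b hb => Nat.find_min' hex hb⟩
    have hsub : (Icc 1 X).filter (fun n => ∃ q : ℕ, N - n = q ^ 2 * m) ⊆
        (Icc a (a + B)).image (fun q => N - q ^ 2 * m) := by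
      intro n hn
      rw [mem_filter, mem_Icc] at hn
      obtain ⟨⟨h3, h4⟩, q, hq⟩ := hn
      rw [mem_image]
      have h5 : a ≤ q := hmin q (by omega)
      refine ⟨q, ?_, by omega⟩
      rw [mem_Icc]
      exact ⟨h5, hB a q ha h5 (by omega)⟩
    calc _ ≤ ((Icc a (a + B)).image (fun q => N - q ^ 2 * m)).card := card_le_card hsub
      _ ≤ (Icc a (a + B)).card := card_image_le
      _ = B + 1 := by
        rw [Nat.card_Icc]
        omega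
  · rw [not_nonempty_iff_eq_empty] at hne
    rw [hne]
    simp

theorem gap (α : ℝ) (X N m : ℕ) (hm : 1 ≤ m) (hN : 1 ≤ N)
    (hX : (X : ℝ) ≤ 3 * α * √N) (hX2 : 4 * X ≤ 3 * N) (a q : ℕ) (ha : N - X ≤ a ^ 2 * m)
    (haq : a ≤ q) (hq : q ^ 2 * m < N) : q ≤ a + ⌊3 * α⌋₊ := by
  have hN0 : (0 : ℝ) < N := by exact_mod_cast hN
  have hs : 0 < √(N : ℝ) := Real.sqrt_pos.mpr hN0
  have hss : √(N : ℝ) * √N = N := Real.mul_self_sqrt hN0.le
  have hm1 : (1 : ℝ) ≤ m := by exact_mod_cast hm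
  have haR : (N : ℝ) - X ≤ a ^ 2 * m := by
    have h1 : N ≤ a ^ 2 * m + X := by omega
    have h2 : (N : ℝ) ≤ a ^ 2 * m + X := by exact_mod_cast h1
    linarith
  have hX2' : 4 * (X : ℝ) ≤ 3 * N := by exact_mod_cast hX2
  have h4 : (N : ℝ) ≤ 4 * (a ^ 2 * m) := by linarith
  have h5 : √(N : ℝ) ≤ 2 * (a * m) := by
    have h6 : (N : ℝ) ≤ (2 * (a * m)) ^ 2 := by
      have h7 : (0 : ℝ) ≤ (a : ℝ) ^ 2 * m := by positivity
      calc (N : ℝ) ≤ 4 * (a ^ 2 * m) := h4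
        _ ≤ 4 * (a ^ 2 * m) * m := le_mul_of_one_le_right (by positivity) hm1
        _ = (2 * (a * m)) ^ 2 := by ring
    calc √(N : ℝ) ≤ √((2 * ((a : ℝ) * m)) ^ 2) := Real.sqrt_le_sqrt h6
      _ = 2 * (a * m) := Real.sqrt_sq (by positivity)
  have haq' : (a : ℝ) ≤ q := by exact_mod_cast haq
  have hqN : (q : ℝ) ^ 2 * m < N := by exact_mod_cast hq
  have h8 : ((q : ℝ) - a) * √N ≤ 3 * α * √N := by
    calc ((q : ℝ) - a) * √N ≤ ((q : ℝ) - a) * (2 * (a * m)) := by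
          apply mul_le_mul_of_nonneg_left h5
          linarith
      _ ≤ ((q : ℝ) - a) * ((q + a) * m) := by
          apply mul_le_mul_of_nonneg_left _ (by linarith)
          nlinarith
      _ = q ^ 2 * m - a ^ 2 * m := by ring
      _ ≤ X := by linarith
      _ ≤ 3 * α * √N := hX
  have h9 : (q : ℝ) - a ≤ 3 * α := le_of_mul_le_mul_right h8 hs
  have h10 : q - a ≤ ⌊3 * α⌋₊ := by
    apply Nat.le_floor
    rw [Nat.cast_sub haq]
    exact h9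
  omega

end GPE6

theorem hSq : StSq := by
  intro α u hα hu hu1
  classical
  have t1 : Filter.Tendsto (fun N : ℕ => (N : ℝ) ^ (u / 2)) Filter.atTop Filter.atTop :=
    (tendsto_rpow_atTop (by positivity)).comp tendsto_natCast_atTop_atTop
  have t2 : Filter.Tendsto (fun N : ℕ => (N : ℝ) ^ (1 / 20 : ℝ)) Filter.atTop Filter.atTop :=
    (tendsto_rpow_atTop (by norm_num)).comp tendsto_natCast_atTop_atTop
  have t3 : Filter.Tendsto (fun N : ℕ => (N : ℝ) ^ (1 / 2 : ℝ)) Filter.atTop Filter.atTop :=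
    (tendsto_rpow_atTop (by norm_num)).comp tendsto_natCast_atTop_atTop
  obtain ⟨N₀, hN₀⟩ := Filter.eventually_atTop.mp
    (((t1.eventually_ge_atTop (12 * α)).and (t2.eventually_ge_atTop (2 * (3 * α + 3)))).and
      ((t3.eventually_ge_atTop (4 * α)).and (Filter.eventually_ge_atTop 1)))
  refine ⟨N₀, fun N hN => ?_⟩
  obtain ⟨⟨h1, h2⟩, h3, h4⟩ := hN₀ N hN
  rw [← Real.sqrt_eq_rpow] at h3
  have hN1 : (1 : ℝ) ≤ N := by exact_mod_cast h4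
  have hN0 : (0 : ℝ) < N := by linarith
  have hss : √(N : ℝ) * √N = N := Real.mul_self_sqrt hN0.le
  have hs : 0 < √(N : ℝ) := Real.sqrt_pos.mpr hN0
  obtain ⟨X, hX⟩ : ∃ X : ℕ, X = ⌊3 * (α * √N)⌋₊ := ⟨_, rfl⟩
  have hXle : (X : ℝ) ≤ 3 * α * √N := by
    rw [hX, mul_assoc]
    exact Nat.floor_le (by positivity)
  have hX2 : 4 * X ≤ 3 * N := by
    have : 4 * (X : ℝ) ≤ 3 * N := by
      calc 4 * (X : ℝ) ≤ 4 * (3 * α * √N) := by linarith
        _ = 3 * ((4 * α) * √N) := by ring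
        _ ≤ 3 * (√N * √N) := by gcongr
        _ = 3 * N := by rw [hss]
    exact_mod_cast this
  have hXN : X < N := by omega
  set Q0 : ℕ := ⌈(N : ℝ) ^ u⌉₊ with hQ0
  set Q1 : ℕ := ⌊(N : ℝ) ^ (3 / 10 : ℝ)⌋₊ with hQ1
  set M : ℕ := ⌊(N : ℝ) ^ (2 / 5 : ℝ)⌋₊ with hM
  have hQ0p : 1 ≤ Q0 := Nat.one_le_ceil_iff.mpr (by positivity)
  have hQ0g : (N : ℝ) ^ u ≤ Q0 := Nat.le_ceil _
  have hsub : (II (α * √N)).filter
      (fun n : ℕ => ∃ q : ℕ, q.Prime ∧ (N : ℝ) ^ u ≤ q ∧ q ^ 2 ∣ N - n) ⊆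
      ((Ioo (Q0 - 1) (Q1 + 1)).biUnion (fun q => (Icc 1 X).filter (fun n => q ^ 2 ∣ N - n))) ∪
      ((Icc 1 M).biUnion (fun m => (Icc 1 X).filter (fun n => ∃ q : ℕ, N - n = q ^ 2 * m))) := by
    intro n hn
    rw [II, ← hX, mem_filter, mem_Icc] at hn
    obtain ⟨⟨hn1, hn2⟩, q, hqp, hqu, hqd⟩ := hn
    rw [mem_union, mem_biUnion, mem_biUnion]
    by_cases hq : q ≤ Q1
    · left
      refine ⟨q, ?_, ?_⟩
      · rw [mem_Ioo]
        have : Q0 ≤ q := Nat.ceil_le.mpr hqu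
        omega
      · rw [mem_filter, mem_Icc]
        exact ⟨⟨hn1, hn2⟩, hqd⟩
    · right
      obtain ⟨m, hm⟩ := hqd
      refine ⟨m, ?_, ?_⟩
      · rw [mem_Icc]
        constructor
        · rcases Nat.eq_zero_or_pos m with h0 | h0
          · rw [h0] at hm
            omega
          · exact h0
        · apply Nat.le_floor
          have hq2 : (N : ℝ) ^ (3 / 10 : ℝ) < q := by
            have : Q1 < q := by omega
            exact (Nat.floor_lt (by positivity)).mp this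
          have hq3 : (N : ℝ) ^ (3 / 5 : ℝ) ≤ (q : ℝ) ^ 2 := by
            calc (N : ℝ) ^ (3 / 5 : ℝ) = ((N : ℝ) ^ (3 / 10 : ℝ)) ^ 2 := by
                  rw [← Real.rpow_natCast, ← Real.rpow_mul hN0.le]
                  norm_num
              _ ≤ (q : ℝ) ^ 2 := by gcongr
          have hle : (q : ℝ) ^ 2 * m ≤ N := by
            have : q ^ 2 * m ≤ N := by omega
            exact_mod_cast this
          have hs5 : 0 < (N : ℝ) ^ (3 / 5 : ℝ) := by positivity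
          have hle2 : (m : ℝ) * (N : ℝ) ^ (3 / 5 : ℝ) ≤
              (N : ℝ) ^ (2 / 5 : ℝ) * (N : ℝ) ^ (3 / 5 : ℝ) := by
            rw [← Real.rpow_add hN0, show (2 / 5 : ℝ) + 3 / 5 = 1 by norm_num, Real.rpow_one]
            calc (m : ℝ) * (N : ℝ) ^ (3 / 5 : ℝ) ≤ m * (q : ℝ) ^ 2 := by gcongr
              _ = (q : ℝ) ^ 2 * m := mul_comm _ _
              _ ≤ N := hle
          exact le_of_mul_le_mul_right hle2 hs5
      · rw [mem_filter, mem_Icc]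
        exact ⟨⟨hn1, hn2⟩, q, hm⟩
  have hA : (((Ioo (Q0 - 1) (Q1 + 1)).biUnion
      (fun q => (Icc 1 X).filter (fun n => q ^ 2 ∣ N - n))).card : ℝ) ≤
      2 * (3 * α * √N) / (N : ℝ) ^ u + (N : ℝ) ^ (3 / 10 : ℝ) := by
    have ha : (((Ioo (Q0 - 1) (Q1 + 1)).biUnion
        (fun q => (Icc 1 X).filter (fun n => q ^ 2 ∣ N - n))).card : ℝ) ≤
        ∑ q ∈ Ioo (Q0 - 1) (Q1 + 1), (((Icc 1 X).filter (fun n => q ^ 2 ∣ N - n)).card : ℝ) := by
      exact_mod_cast card_biUnion_le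
    have hb : ∀ q ∈ Ioo (Q0 - 1) (Q1 + 1),
        (((Icc 1 X).filter (fun n => q ^ 2 ∣ N - n)).card : ℝ) ≤ X * ((q : ℝ) ^ 2)⁻¹ + 1 := by
      intro q hq
      rw [mem_Ioo] at hq
      have hc := GPE6.cnt X N (q ^ 2) (Nat.one_le_pow _ _ (by omega)) hXN.le
      rw [div_eq_mul_inv] at hc
      exact_mod_cast hc
    calc _ ≤ _ := ha
      _ ≤ ∑ q ∈ Ioo (Q0 - 1) (Q1 + 1), (X * ((q : ℝ) ^ 2)⁻¹ + 1) := sum_le_sum hb
      _ = X * ∑ q ∈ Ioo (Q0 - 1) (Q1 + 1), ((q : ℝ) ^ 2)⁻¹ + (Ioo (Q0 - 1) (Q1 + 1)).card := by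
          rw [sum_add_distrib, ← mul_sum]
          simp
      _ ≤ X * (2 / ((Q0 - 1 : ℕ) + 1)) + Q1 := by
          have hd := sum_Ioo_inv_sq_le (α := ℝ) (Q0 - 1) (Q1 + 1)
          have he : (Ioo (Q0 - 1) (Q1 + 1)).card ≤ Q1 := by
            rw [Nat.card_Ioo]
            omega
          have he' : ((Ioo (Q0 - 1) (Q1 + 1)).card : ℝ) ≤ Q1 := by exact_mod_cast he
          gcongr
      _ = X * (2 / Q0) + Q1 := by
          have : ((Q0 - 1 : ℕ) : ℝ) + 1 = Q0 := by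
            rw [Nat.cast_sub hQ0p]
            push_cast
            ring
          rw [this]
      _ ≤ (3 * α * √N) * (2 / (N : ℝ) ^ u) + (N : ℝ) ^ (3 / 10 : ℝ) := by
          have hf : (Q1 : ℝ) ≤ (N : ℝ) ^ (3 / 10 : ℝ) := Nat.floor_le (by positivity)
          gcongr
      _ = 2 * (3 * α * √N) / (N : ℝ) ^ u + (N : ℝ) ^ (3 / 10 : ℝ) := by ring
  have hB : (((Icc 1 M).biUnion
      (fun m => (Icc 1 X).filter (fun n => ∃ q : ℕ, N - n = q ^ 2 * m))).card : ℝ) ≤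
      (3 * α + 1) * (N : ℝ) ^ (2 / 5 : ℝ) := by
    have ha : ((Icc 1 M).biUnion
        (fun m => (Icc 1 X).filter (fun n => ∃ q : ℕ, N - n = q ^ 2 * m))).card ≤
        M * (⌊3 * α⌋₊ + 1) := by
      refine card_biUnion_le.trans ?_
      have hb : ∀ m ∈ Icc 1 M,
          ((Icc 1 X).filter (fun n => ∃ q : ℕ, N - n = q ^ 2 * m)).card ≤ ⌊3 * α⌋₊ + 1 := by
        intro m hm
        rw [mem_Icc] at hm
        exact GPE6.cnt2 X N m _ hm.1 hXN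
          (fun a q ha haq hq => GPE6.gap α X N m hm.1 h4 hXle hX2 a q ha haq hq)
      calc _ ≤ ∑ m ∈ Icc 1 M, (⌊3 * α⌋₊ + 1) := sum_le_sum hb
        _ = M * (⌊3 * α⌋₊ + 1) := by simp
    have hc : (M : ℝ) ≤ (N : ℝ) ^ (2 / 5 : ℝ) := Nat.floor_le (by positivity)
    have hd : ((⌊3 * α⌋₊ : ℕ) : ℝ) ≤ 3 * α := Nat.floor_le (by positivity)
    calc _ ≤ ((M * (⌊3 * α⌋₊ + 1) : ℕ) : ℝ) := by exact_mod_cast ha
      _ = M * ((⌊3 * α⌋₊ : ℕ) + 1) := by push_cast; ring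
      _ ≤ (N : ℝ) ^ (2 / 5 : ℝ) * (3 * α + 1) := by gcongr
      _ = _ := mul_comm _ _
  have hcard : (((II (α * √N)).filter
      (fun n : ℕ => ∃ q : ℕ, q.Prime ∧ (N : ℝ) ^ u ≤ q ∧ q ^ 2 ∣ N - n)).card : ℝ) ≤
      (2 * (3 * α * √N) / (N : ℝ) ^ u + (N : ℝ) ^ (3 / 10 : ℝ)) +
        (3 * α + 1) * (N : ℝ) ^ (2 / 5 : ℝ) := by
    refine le_trans ?_ (add_le_add hA hB)
    exact_mod_cast (card_le_card hsub).trans (card_union_le _ _)
  refine hcard.trans ?_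
  · have e1 : 2 * (3 * α * √N) / (N : ℝ) ^ u ≤ (1 / 2) * (N : ℝ) ^ (1 / 2 - u / 2) := by
      have hu0 : 0 < (N : ℝ) ^ u := by positivity
      rw [div_le_iff₀ hu0, mul_assoc (1 / 2 : ℝ), ← Real.rpow_add hN0,
        show 1 / 2 - u / 2 + u = 1 / 2 + u / 2 by ring, Real.rpow_add hN0, ← Real.sqrt_eq_rpow]
      calc 2 * (3 * α * √N) = (1 / 2) * (√N * (12 * α)) := by ring
        _ ≤ (1 / 2) * (√N * (N : ℝ) ^ (u / 2)) := by gcongr
    have e2 : (N : ℝ) ^ (3 / 10 : ℝ) + (3 * α + 1) * (N : ℝ) ^ (2 / 5 : ℝ) ≤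
        (1 / 2) * (N : ℝ) ^ (1 / 2 - u / 2) := by
      have e3 : (N : ℝ) ^ (3 / 10 : ℝ) ≤ (N : ℝ) ^ (2 / 5 : ℝ) :=
        Real.rpow_le_rpow_of_exponent_le hN1 (by norm_num)
      have e4 : (N : ℝ) ^ (9 / 20 : ℝ) ≤ (N : ℝ) ^ (1 / 2 - u / 2) :=
        Real.rpow_le_rpow_of_exponent_le hN1 (by linarith)
      have e5 : 0 < (N : ℝ) ^ (2 / 5 : ℝ) := by positivity
      calc (N : ℝ) ^ (3 / 10 : ℝ) + (3 * α + 1) * (N : ℝ) ^ (2 / 5 : ℝ)
          ≤ (N : ℝ) ^ (2 / 5 : ℝ) + (3 * α + 1) * (N : ℝ) ^ (2 / 5 : ℝ) := by gcongr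
        _ ≤ (1 / 2) * ((N : ℝ) ^ (2 / 5 : ℝ) * (2 * (3 * α + 3))) := by nlinarith
        _ ≤ (1 / 2) * ((N : ℝ) ^ (2 / 5 : ℝ) * (N : ℝ) ^ (1 / 20 : ℝ)) := by gcongr
        _ = (1 / 2) * (N : ℝ) ^ (9 / 20 : ℝ) := by
            rw [← Real.rpow_add hN0]
            norm_num
        _ ≤ (1 / 2) * (N : ℝ) ^ (1 / 2 - u / 2) := by gcongr
    linarith

end Pool.Agent.Helper60.GP
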