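import Pool.Agent.Helper60.GP.St

/-! Project GP (MP_b454d1_nt), module E7 -/

set_option autoImplicit false

namespace Pool.Agent.Helper60.GP

open Finset ArithmeticFunction

theorem hRich : StRich := by
  intro N m S hN hm hmN hsq hS1 hS2 hpos
  by_contra hcard
  have h5 : 5 ≤ m.primeFactors.card := by omega
  have hN1 : (1 : ℝ) < N := by exact_mod_cast (show 1 < N by omega)
  have hlN : 0 < Real.log N := Real.log_pos hN1
  set v : ℝ := 5 / 16 with hv
  have hlm : Real.log m = ∑ q ∈ m.primeFactors, Real.log q := by
    conv_lhs => rw [← Nat.prod_primeFactors_of_squarefree hsq]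
    push_cast
    rw [Real.log_prod]
    intro q hq
    exact_mod_cast (Nat.prime_of_mem_primeFactors hq).ne_zero
  have hlmN : Real.log m < Real.log N :=
    Real.log_lt_log (by exact_mod_cast hm) (by exact_mod_cast hmN)
  have hSsub : S ⊆ m.primeFactors := by
    intro q hq
    obtain ⟨h1, h2, -⟩ := hS2 q hq
    exact Nat.mem_primeFactors.2 ⟨h1, h2, by omega⟩
  have h1 : ∑ q ∈ m.primeFactors, (1 - Real.log q / (v * Real.log N)) ≤
      ∑ q ∈ S, (1 - Real.log q / (v * Real.log N)) := by
    rw [← Finset.sum_sdiff hSsub]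
    have h2 : ∑ q ∈ m.primeFactors \ S, (1 - Real.log q / (v * Real.log N)) ≤ 0 := by
      refine Finset.sum_nonpos fun q hq => ?_
      obtain ⟨hq1, hq2⟩ := mem_sdiff.1 hq
      have hqp := Nat.prime_of_mem_primeFactors hq1
      have hqm := Nat.dvd_of_mem_primeFactors hq1
      have h3 : (N : ℝ) ^ v ≤ q := by
        by_contra h4
        exact hq2 (hS1 q hqp hqm (not_le.1 h4))
      have h4 : v * Real.log N ≤ Real.log q := by
        rw [← Real.log_rpow (by linarith)]
        exact Real.log_le_log (Real.rpow_pos_of_pos (by linarith) _) h3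
      rw [sub_nonpos, le_div_iff₀ (by positivity), one_mul]
      exact h4
    linarith
  have h2 : ∑ q ∈ m.primeFactors, (1 - Real.log q / (v * Real.log N)) =
      m.primeFactors.card - Real.log m / (v * Real.log N) := by
    rw [Finset.sum_sub_distrib, Finset.sum_const, nsmul_eq_mul, mul_one, hlm, Finset.sum_div]
  have h3 : Real.log m / (v * Real.log N) < 16 / 5 := by
    rw [div_lt_iff₀ (by positivity)]
    have : 16 / 5 * (v * Real.log N) = Real.log N := by
      rw [hv]
      ring
    rw [this]
    exact hlmN
  have h4 : (5 : ℝ) ≤ m.primeFactors.card := by exact_mod_cast h5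
  rw [h2] at h1
  linarith

end Pool.Agent.Helper60.GP
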