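import Pool.Agent.Helper60.GP.St

/-! Project GP (MP_b454d1_nt), module E8 -/

set_option autoImplicit false

namespace Pool.Agent.Helper60.GP

open Finset ArithmeticFunction

namespace GPE8

theorem mem_PP {N : ℕ} {z : ℝ} {p : ℕ} : p ∈ PP N z ↔ (p : ℝ) < z ∧ p.Prime ∧ ¬ p ∣ N := by
  unfold PP
  rw [mem_filter, mem_range, Nat.lt_ceil]

theorem mem_PR {N : ℕ} {s t : ℝ} {q : ℕ} :
    q ∈ PR N s t ↔ (q : ℝ) < (N : ℝ) ^ t ∧ q.Prime ∧ ¬ q ∣ N ∧ (N : ℝ) ^ s ≤ q := by
  unfold PR
  rw [mem_filter, mem_range, Nat.lt_ceil]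

open Classical in
/-- exchange of the sums -/
theorem swap (ω : ℝ → ℝ) (x : ℝ) (N : ℕ) (z : ℝ) (P : Finset ℕ) (w : ℕ → ℝ) :
    T0 ω x N z - 5 / 9 * ∑ q ∈ P, w q * Tq ω x N z q =
      ∑ n ∈ II x, an ω x N n * rg N z (N - n) *
        (1 - 5 / 9 * ∑ q ∈ P.filter (fun q => q ∣ N - n), w q) := by
  have h1 : ∑ q ∈ P, w q * Tq ω x N z q =
      ∑ n ∈ II x, an ω x N n * rg N z (N - n) * ∑ q ∈ P.filter (fun q => q ∣ N - n), w q := by
    have h2 : ∀ q ∈ P, w q * Tq ω x N z q =
        ∑ n ∈ II x, if q ∣ N - n then an ω x N n * rg N z (N - n) * w q else 0 := by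
      intro q _
      rw [Tq, sum_filter, mul_sum]
      refine sum_congr rfl fun n _ => ?_
      split_ifs
      · ring
      · ring
    rw [sum_congr rfl h2, sum_comm]
    refine sum_congr rfl fun n _ => ?_
    rw [sum_filter, mul_sum]
    refine sum_congr rfl fun q _ => ?_
    split_ifs <;> simp
  rw [h1, T0, mul_sum, ← sum_sub_distrib]
  refine sum_congr rfl fun n _ => ?_
  ring

end GPE8

open GPE8 in
open Classical in
theorem hRA (h1 : StSq) (h2 : StRich) : StRA := by
  intro ω hω hJ α β hα hαβ hsupp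
  obtain ⟨N₁, hN₁⟩ := h1 α (399 / 10 ^ 4) hα (by norm_num) (by norm_num)
  -- the conditions on `N`
  have hev1 : ∀ᶠ N : ℕ in Filter.atTop, 3 * (α * √N) < N := by
    have h3 : Filter.Tendsto (fun N : ℕ => √(N : ℝ)) Filter.atTop Filter.atTop :=
      Real.tendsto_sqrt_atTop.comp tendsto_natCast_atTop_atTop
    filter_upwards [h3.eventually_gt_atTop (3 * α), Filter.eventually_gt_atTop 0] with N hN hN0
    have h4 : (0 : ℝ) < √(N : ℝ) := Real.sqrt_pos.2 (by exact_mod_cast hN0)
    calc 3 * (α * √N) = (3 * α) * √N := by ring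
      _ < √N * √N := by gcongr
      _ = N := Real.mul_self_sqrt (by positivity)
  have hev2 : ∀ᶠ N : ℕ in Filter.atTop, (N : ℝ) ^ (1 / 2 - (399 / 10 ^ 4 : ℝ) / 2) * Real.log N ≤
      (N : ℝ) ^ (1 / 2 - (1 : ℝ) / 100) := by
    have h3 := (isLittleO_log_rpow_atTop (r := (995 / 100000 : ℝ)) (by norm_num)).bound
      (c := 1) one_pos
    have h4 := tendsto_natCast_atTop_atTop (R := ℝ) |>.eventually h3
    filter_upwards [h4, Filter.eventually_gt_atTop 0] with N hN hN0
    have hN0' : (0 : ℝ) < N := by exact_mod_cast hN0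
    rw [one_mul, Real.norm_eq_abs, Real.norm_eq_abs, abs_of_nonneg (Real.rpow_nonneg hN0'.le _)]
      at hN
    have h5 : (N : ℝ) ^ (1 / 2 - (1 : ℝ) / 100) =
        (N : ℝ) ^ (1 / 2 - (399 / 10 ^ 4 : ℝ) / 2) * (N : ℝ) ^ (995 / 100000 : ℝ) := by
      rw [← Real.rpow_add hN0']
      congr 1
      norm_num
    rw [h5]
    exact mul_le_mul_of_nonneg_left ((le_abs_self _).trans hN) (Real.rpow_nonneg hN0'.le _)
  obtain ⟨N₂, hN₂⟩ := Filter.eventually_atTop.1 hev1
  obtain ⟨N₃, hN₃⟩ := Filter.eventually_atTop.1 hev2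
  refine ⟨max (max N₁ N₂) (max N₃ 2), ?_⟩
  intro N hN hNe
  have g1 : N₁ ≤ N := ((le_max_left _ _).trans (le_max_left _ _)).trans hN
  have g2 : N₂ ≤ N := ((le_max_right _ _).trans (le_max_left _ _)).trans hN
  have g3 : N₃ ≤ N := ((le_max_left _ _).trans (le_max_right _ _)).trans hN
  have g4 : 2 ≤ N := ((le_max_right _ _).trans (le_max_right _ _)).trans hN
  have hNr : (2 : ℝ) ≤ N := by exact_mod_cast g4
  have hN1 : (1 : ℝ) < N := by linarith
  have hN0 : (0 : ℝ) < N := by linarith
  have hlogN : 0 < Real.log N := Real.log_pos hN1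
  have hsqrt : 0 < √(N : ℝ) := Real.sqrt_pos.2 hN0
  set x : ℝ := α * √N with hx
  have hx0 : 0 < x := mul_pos hα hsqrt
  have hxN : 3 * x < N := hN₂ N g2
  set z : ℝ := (N : ℝ) ^ ((399 : ℝ) / 10 ^ 4) with hz
  set P : Finset ℕ := PR N (399 / 10 ^ 4) (5 / 16) with hP
  set w : ℕ → ℝ := fun q => 1 - Real.log q / (5 / 16 * Real.log N) with hw
  have hwn : ∀ q ∈ P, 0 ≤ w q := by
    intro q hq
    obtain ⟨a, b, c, d⟩ := mem_PR.1 hq
    have hq0 : (0 : ℝ) < q := by exact_mod_cast b.pos
    have h3 : Real.log q ≤ 5 / 16 * Real.log N := by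
      rw [← Real.log_rpow hN0]
      exact Real.log_le_log hq0 a.le
    have h4 : Real.log q / (5 / 16 * Real.log N) ≤ 1 := by
      rw [div_le_one (by positivity)]; exact h3
    simp only [hw]
    linarith
  set Sq : Finset ℕ := (II x).filter (fun n : ℕ =>
    ∃ q : ℕ, q.Prime ∧ z ≤ q ∧ q ^ 2 ∣ N - n) with hSq
  have hSqc : (Sq.card : ℝ) ≤ (N : ℝ) ^ (1 / 2 - (399 / 10 ^ 4 : ℝ) / 2) := hN₁ N g1
  change T0 ω x N z - 5 / 9 * ∑ q ∈ P, w q * Tq ω x N z q ≤ _
  rw [swap]
  -- termwise bound
  have hterm : ∀ n ∈ II x, an ω x N n * rg N z (N - n) *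
      (1 - 5 / 9 * ∑ q ∈ P.filter (fun q => q ∣ N - n), w q) ≤
      (if n ∈ Good α β N then Real.log N else 0) + (if n ∈ Sq then Real.log N else 0) := by
    intro n hn
    have hnn : 0 ≤ (if n ∈ Good α β N then Real.log N else 0) +
        (if n ∈ Sq then Real.log N else 0) := by
      refine add_nonneg ?_ ?_ <;> split_ifs <;> first | exact hlogN.le | exact le_rfl
    by_cases hp : n.Prime ∧ ¬ n ∣ N
    swap
    · unfold an
      rw [if_neg hp, zero_mul, zero_mul]
      exact hnn
    obtain ⟨hpp, hpN⟩ := hp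
    have hn1 : 1 ≤ n := (mem_Icc.1 hn).1
    have hn3 : (n : ℝ) ≤ 3 * x := (Nat.le_floor_iff (by positivity)).1 (mem_Icc.1 hn).2
    have hnN : n < N := by exact_mod_cast hn3.trans_lt hxN
    have hn0 : (0 : ℝ) < n := by exact_mod_cast hpp.pos
    have han : an ω x N n = Real.log n * ω (Real.log (n / x)) := by
      unfold an
      rw [if_pos ⟨hpp, hpN⟩, vonMangoldt_apply_prime hpp]
    have hlogn : 0 ≤ Real.log n := Real.log_nonneg (by exact_mod_cast hn1)
    have hω0 := hω.nonneg (Real.log (n / x))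
    have hanle : an ω x N n ≤ Real.log N := by
      rw [han]
      have h3 := hω.le_half (Real.log (n / x))
      have h4 : Real.log n ≤ Real.log N := Real.log_le_log hn0 (by exact_mod_cast hnN.le)
      calc Real.log n * ω (Real.log (n / x)) ≤ Real.log n * 1 := by
            refine mul_le_mul_of_nonneg_left ?_ hlogn
            linarith
        _ ≤ Real.log N := by rw [mul_one]; exact h4
    have han0 : 0 ≤ an ω x N n := by rw [han]; exact mul_nonneg hlogn hω0
    by_cases hrg : ∀ p ∈ PP N z, ¬ p ∣ N - n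
    swap
    · unfold rg
      rw [if_neg hrg, mul_zero, zero_mul]
      exact hnn
    have hrg1 : rg N z (N - n) = 1 := by unfold rg; rw [if_pos hrg]
    rw [hrg1, mul_one]
    by_cases hom : ω (Real.log (n / x)) = 0
    · rw [han, hom, mul_zero, zero_mul]; exact hnn
    obtain ⟨hs1, hs2⟩ := hsupp _ hom
    -- a prime factor of `N - n` does not divide `N` and is large
    have hfac : ∀ q : ℕ, q.Prime → q ∣ N - n → ¬ q ∣ N ∧ z ≤ q := by
      intro q hq hqd
      have h3 : ¬ q ∣ N := by
        intro h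
        have h4 : q ∣ n := by
          have := Nat.dvd_sub h hqd
          rwa [Nat.sub_sub_self hnN.le] at this
        have h5 := (Nat.prime_dvd_prime_iff_eq hq hpp).1 h4
        exact hpN (h5 ▸ h)
      refine ⟨h3, ?_⟩
      by_contra h4
      exact hrg q (mem_PP.2 ⟨not_le.1 h4, hq, h3⟩) hqd
    set b : ℝ := 1 - 5 / 9 * ∑ q ∈ P.filter (fun q => q ∣ N - n), w q with hb
    have hb1 : b ≤ 1 := by
      have : 0 ≤ ∑ q ∈ P.filter (fun q => q ∣ N - n), w q :=
        sum_nonneg fun q hq => hwn q (mem_filter.1 hq).1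
      linarith
    by_cases hb0 : b ≤ 0
    · exact (mul_nonpos_of_nonneg_of_nonpos han0 hb0).trans hnn
    push Not at hb0
    have hle : an ω x N n * b ≤ Real.log N :=
      (mul_le_mul_of_nonneg_left hb1 han0).trans (by rw [mul_one]; exact hanle)
    have hite : ∀ (p : Prop) [Decidable p], 0 ≤ (if p then Real.log (N : ℝ) else 0) := by
      intro p _; split_ifs <;> first | exact hlogN.le | exact le_rfl
    by_cases hsf : Squarefree (N - n)
    · have hG : n ∈ Good α β N := by
        unfold Good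
        rw [mem_filter, mem_range]
        have hlx : 1 < (n : ℝ) / x := by
          by_contra h
          push Not at h
          exact absurd (Real.log_nonpos (by positivity) h) (not_le.2 hs1)
        refine ⟨hnN, hpp, ?_, ?_, hsf, ?_, ?_⟩
        · rwa [one_lt_div hx0] at hlx
        · have h3 : (n : ℝ) / x < β / α :=
            (Real.log_lt_log_iff (by positivity) (div_pos (hα.trans hαβ) hα)).1 hs2
          rw [div_lt_div_iff₀ hx0 hα, hx] at h3
          have h4 : (n : ℝ) * α < (β * √N) * α := by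
            calc (n : ℝ) * α < β * (α * √N) := h3
              _ = _ := by ring
          exact lt_of_mul_lt_mul_right h4 hα.le
        · refine h2 N (N - n) (P.filter (fun q => q ∣ N - n)) g4 (by omega) (by omega) hsf
            ?_ ?_ hb0
          · intro q hq hqd hqv
            rw [mem_filter]
            obtain ⟨h3, h4⟩ := hfac q hq hqd
            exact ⟨mem_PR.2 ⟨hqv, hq, h3, h4⟩, hqd⟩
          · intro q hq
            rw [mem_filter] at hq
            obtain ⟨a, b, c, d⟩ := mem_PR.1 hq.1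
            exact ⟨b, hq.2, a⟩
        · intro q hq hqd
          refine lt_of_lt_of_le ?_ (hfac q hq hqd).2
          exact Real.rpow_lt_rpow_of_exponent_lt hN1 (by norm_num)
      rw [if_pos hG]
      have := hite (n ∈ Sq)
      linarith
    · have hS : n ∈ Sq := by
        rw [hSq, mem_filter]
        refine ⟨hn, ?_⟩
        have h3 : ∃ q : ℕ, q.Prime ∧ q * q ∣ N - n := by
          by_contra h
          push Not at h
          exact hsf (Nat.squarefree_iff_prime_squarefree.2 fun q hq => h q hq)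
        obtain ⟨q, hq, hqd⟩ := h3
        exact ⟨q, hq, (hfac q hq ((dvd_mul_right q q).trans hqd)).2, by rwa [pow_two]⟩
      rw [if_pos hS]
      have := hite (n ∈ Good α β N)
      linarith
  refine (sum_le_sum hterm).trans ?_
  rw [sum_add_distrib, ← sum_filter, ← sum_filter, sum_const, sum_const, nsmul_eq_mul,
    nsmul_eq_mul]
  have c1 : (((II x).filter (fun n => n ∈ Good α β N)).card : ℝ) ≤ (Good α β N).card := by
    exact_mod_cast card_le_card fun n hn => (mem_filter.1 hn).2
  have c2 : (((II x).filter (fun n => n ∈ Sq)).card : ℝ) ≤ Sq.card := by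
    exact_mod_cast card_le_card fun n hn => (mem_filter.1 hn).2
  have c3 := hN₃ N g3
  have c4 := mul_le_mul_of_nonneg_right (c2.trans hSqc) hlogN.le
  have c5 := mul_le_mul_of_nonneg_right c1 hlogN.le
  linarith

end Pool.Agent.Helper60.GP
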