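import Pool.Agent.Helper60.GP.St

/-! Project GP (MP_b454d1_nt), module E9 -/

set_option autoImplicit false

namespace Pool.Agent.Helper60.GP

open Finset ArithmeticFunction

theorem one_le_SS_E9 (N : ℕ) : 1 ≤ SS N := by
  unfold SS
  refine Finset.prod_induction _ (fun x : ℝ => 1 ≤ x) (fun a b ha hb => ?_) le_rfl ?_
  · calc (1 : ℝ) = 1 * 1 := by ring
      _ ≤ a * b := mul_le_mul ha hb (by norm_num) (by linarith)
  · intro p hp
    have h1 : 2 < p := (mem_filter.1 hp).2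
    have h2 : (3 : ℝ) ≤ p := by exact_mod_cast h1
    rw [le_div_iff₀ (by linarith)]
    linarith

theorem hMT (h1 : StTab) (h2 : StMain) (h3 : StSec) (h4 : StRA) (h5 : StVlow)
    (h6 : StBump) : StMT := by
  intro α β hα hαβ
  have hβα : 1 < β / α := by rw [one_lt_div hα]; exact hαβ
  obtain ⟨ω, hω, hJ, hsupp⟩ := h6 (Real.log (β / α)) (Real.log_pos hβα)
  obtain ⟨N₁, hN₁⟩ := h2 (25 / 4) (9993 / 10000) h1.2 ω hω hJ α (399 / 10 ^ 4) hα (by norm_num)
    (by norm_num) (by norm_num) (1 / 1000) (by norm_num)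
  obtain ⟨N₂, hN₂⟩ := h3 ω hω hJ α hα
  obtain ⟨N₃, hN₃⟩ := h4 ω hω hJ α β hα hαβ hsupp
  obtain ⟨c₁, hc₁, N₄, hN₄⟩ := h5 (399 / 10 ^ 4) (by norm_num)
  set J : ℝ := JJ ω with hJd
  set δ : ℝ := 7 / 1000 * (c₁ * J * α) with hδ
  have hδ0 : 0 < δ := by positivity
  have hev : ∀ᶠ N : ℕ in Filter.atTop, (N : ℝ) ^ (1 / 2 - (1 : ℝ) / 100) * Real.log N ≤
      δ * √N := by
    have e3 := (isLittleO_log_rpow_atTop (r := (1 / 100 : ℝ)) (by norm_num)).bound (c := δ) hδ0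
    have e4 := tendsto_natCast_atTop_atTop (R := ℝ) |>.eventually e3
    filter_upwards [e4, Filter.eventually_gt_atTop 0] with N hN hN0
    have hN0' : (0 : ℝ) < N := by exact_mod_cast hN0
    rw [Real.norm_eq_abs, Real.norm_eq_abs, abs_of_nonneg (Real.rpow_nonneg hN0'.le _)] at hN
    have e5 : √(N : ℝ) = (N : ℝ) ^ (1 / 2 - (1 : ℝ) / 100) * (N : ℝ) ^ (1 / 100 : ℝ) := by
      rw [← Real.rpow_add hN0', Real.sqrt_eq_rpow]
      congr 1
      norm_num
    rw [e5]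
    calc (N : ℝ) ^ (1 / 2 - (1 : ℝ) / 100) * Real.log N ≤
        (N : ℝ) ^ (1 / 2 - (1 : ℝ) / 100) * (δ * (N : ℝ) ^ (1 / 100 : ℝ)) :=
          mul_le_mul_of_nonneg_left ((le_abs_self _).trans hN) (Real.rpow_nonneg hN0'.le _)
      _ = _ := by ring
  obtain ⟨N₅, hN₅⟩ := Filter.eventually_atTop.1 hev
  refine ⟨1 / 100 * (c₁ * J * α), by positivity, max (max N₁ N₂) (max (max N₃ N₄) (max N₅ 2)), ?_⟩
  intro N hN hNe
  have g1 : N₁ ≤ N := ((le_max_left _ _).trans (le_max_left _ _)).trans hN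
  have g2 : N₂ ≤ N := ((le_max_right _ _).trans (le_max_left _ _)).trans hN
  have g3 : N₃ ≤ N :=
    (((le_max_left _ _).trans (le_max_left _ _)).trans (le_max_right _ _)).trans hN
  have g4 : N₄ ≤ N :=
    (((le_max_right _ _).trans (le_max_left _ _)).trans (le_max_right _ _)).trans hN
  have g5 : N₅ ≤ N :=
    (((le_max_left _ _).trans (le_max_right _ _)).trans (le_max_right _ _)).trans hN
  have g6 : 2 ≤ N :=
    (((le_max_right _ _).trans (le_max_right _ _)).trans (le_max_right _ _)).trans hN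
  have hNr : (2 : ℝ) ≤ N := by exact_mod_cast g6
  have hlog : 0 < Real.log N := Real.log_pos (by linarith)
  have hs : 0 < √(N : ℝ) := Real.sqrt_pos.2 (by linarith)
  have k1 := hN₁ N g1 hNe
  have k2 := hN₂ N g2 hNe
  have k3 := hN₃ N g3 hNe
  have k4 := hN₄ N g4 hNe
  have k5 := hN₅ N g5
  have hSS := one_le_SS_E9 N
  set V : ℝ := VV N ((N : ℝ) ^ ((399 : ℝ) / 10 ^ 4))
  set G : ℝ := ((Good α β N).card : ℝ)
  set T : ℝ := T0 ω (α * √N) N ((N : ℝ) ^ ((399 : ℝ) / 10 ^ 4))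
  set S : ℝ := ∑ q ∈ PR N (399 / 10 ^ 4) (5 / 16), (1 - Real.log q / (5 / 16 * Real.log N)) *
      Tq ω (α * √N) N ((N : ℝ) ^ ((399 : ℝ) / 10 ^ 4)) q
  -- `V J x ≥ c₁ J α SS √N / log N`
  have k6 : c₁ * J * α * (SS N * √N) / Real.log N ≤ V * (J * (α * √N)) := by
    have := mul_le_mul_of_nonneg_right k4 (by positivity : 0 ≤ J * (α * √N))
    refine le_trans (le_of_eq ?_) this
    ring
  have k7 : 17 / 1000 * (V * (J * (α * √N))) ≤ G * Real.log N +
      (N : ℝ) ^ (1 / 2 - (1 : ℝ) / 100) := by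
    have e1 : (9993 / 10000 - 1 / 1000) * V * (J * (α * √N)) =
        9983 / 10000 * (V * (J * (α * √N))) := by ring
    rw [e1] at k1
    have hVn : 0 ≤ V * (J * (α * √N)) := le_trans (by positivity) k6
    linarith
  have k8 : (N : ℝ) ^ (1 / 2 - (1 : ℝ) / 100) ≤
      7 / 1000 * (c₁ * J * α * (SS N * √N) / Real.log N) := by
    rw [← mul_div_assoc, le_div_iff₀ hlog]
    refine k5.trans ?_
    rw [hδ]
    have : √(N : ℝ) ≤ SS N * √N := by
      calc √(N : ℝ) = 1 * √N := by ring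
        _ ≤ SS N * √N := mul_le_mul_of_nonneg_right hSS hs.le
    calc 7 / 1000 * (c₁ * J * α) * √(N : ℝ) ≤ 7 / 1000 * (c₁ * J * α) * (SS N * √N) :=
          mul_le_mul_of_nonneg_left this (by positivity)
      _ = _ := by ring
  have k9 : 1 / 100 * (c₁ * J * α * (SS N * √N) / Real.log N) ≤ G * Real.log N := by linarith
  rw [div_le_iff₀ (by positivity)]
  have k10 := mul_le_mul_of_nonneg_right k9 hlog.le
  have e2 : 1 / 100 * (c₁ * J * α * (SS N * √N) / Real.log N) * Real.log N =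
      1 / 100 * (c₁ * J * α) * SS N * √N := by
    field_simp
  rw [e2] at k10
  calc 1 / 100 * (c₁ * J * α) * SS N * √N ≤ G * Real.log N * Real.log N := k10
    _ = G * Real.log N ^ 2 := by ring

end Pool.Agent.Helper60.GP
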