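import Pool.Agent.Helper60.GP.St

/-! Project GP (MP_b454d1_nt), module F1 -/

set_option autoImplicit false

namespace Pool.Agent.Helper60.GP

open Finset ArithmeticFunction
open Pool.Agent.Helper18.TR (fam0 fam1 Qi idx)

lemma geom_F1 (n : ℕ) : ∑ i ∈ range n, ((6 : ℝ) + 2 * i) / 2 ^ i = 16 - (4 * n + 16) / 2 ^ n := by
  induction n with
  | zero => norm_num
  | succ n ih =>
    rw [Finset.sum_range_succ, ih]
    have h : (2 : ℝ) ^ n ≠ 0 := by positivity
    rw [pow_succ]
    push_cast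
    field_simp
    ring

lemma idx_F1 (w p : ℕ) (hp : p.Prime) (hpw : p ≤ w) : p ^ (2 ^ idx w p) ≤ w ∧ idx w p ≤ w := by
  have hw : w ≠ 0 := by have := hp.pos; omega
  have hl : 1 ≤ Nat.log p w := Nat.log_pos hp.one_lt hpw
  constructor
  · have h1 : 2 ^ idx w p ≤ Nat.log p w := Nat.pow_log_le_self 2 (by omega)
    calc p ^ (2 ^ idx w p) ≤ p ^ (Nat.log p w) := Nat.pow_le_pow_right hp.pos h1
      _ ≤ w := Nat.pow_log_le_self p hw
  · calc idx w p ≤ Nat.log p w := Nat.log_le_self 2 _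
      _ ≤ w := Nat.log_le_self p _

lemma card_F1 (w n : ℕ) (T : Finset ℕ) (h : (∀ i ∈ range n, (Qi w T i).card ≤ 6 + 2 * i) ∨
    ∃ i ∈ range n, (Qi w T i).card = 6 + 2 * i + 1 ∧
      ∀ j ∈ range n, j ≠ i → (Qi w T j).card ≤ 6 + 2 * j) :
    ∑ i ∈ range n, ((Qi w T i).card : ℝ) / 2 ^ i ≤ 17 := by
  have hg : ∑ i ∈ range n, ((6 : ℝ) + 2 * i) / 2 ^ i ≤ 16 := by
    rw [geom_F1]
    have : (0 : ℝ) ≤ (4 * n + 16) / 2 ^ n := by positivity
    linarith
  rcases h with h | ⟨i, hi, hi1, hi2⟩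
  · have : ∑ i ∈ range n, ((Qi w T i).card : ℝ) / 2 ^ i ≤
        ∑ i ∈ range n, ((6 : ℝ) + 2 * i) / 2 ^ i := by
      apply Finset.sum_le_sum
      intro i hi
      have h1 : ((Qi w T i).card : ℝ) ≤ 6 + 2 * i := by exact_mod_cast h i hi
      gcongr
    linarith
  · have : ∑ j ∈ range n, ((Qi w T j).card : ℝ) / 2 ^ j ≤
        ∑ j ∈ range n, (((6 : ℝ) + 2 * j) / 2 ^ j + if j = i then 1 else 0) := by
      apply Finset.sum_le_sum
      intro j hj
      have hpow : (1 : ℝ) ≤ 2 ^ j := one_le_pow₀ (by norm_num)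
      split_ifs with hji
      · subst hji
        rw [hi1]
        push_cast
        rw [add_div]
        have : (1 : ℝ) / 2 ^ j ≤ 1 := by
          rw [div_le_one (by positivity)]
          exact hpow
        linarith
      · have h1 : ((Qi w T j).card : ℝ) ≤ 6 + 2 * j := by exact_mod_cast hi2 j hj hji
        have h2 : ((Qi w T j).card : ℝ) / 2 ^ j ≤ (6 + 2 * j) / 2 ^ j := by gcongr
        linarith
    rw [Finset.sum_add_distrib, Finset.sum_ite_eq' (range n) i (fun _ => (1 : ℝ)), if_pos hi]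
      at this
    linarith

theorem hLev : StLev := by
  intro w Q T hw hQ hT
  have hmem : T ⊆ Q ∧ ((∀ i ∈ range (w + 1), (Qi w T i).card ≤ 6 + 2 * i) ∨
      ∃ i ∈ range (w + 1), (Qi w T i).card = 6 + 2 * i + 1 ∧
        ∀ j ∈ range (w + 1), j ≠ i → (Qi w T j).card ≤ 6 + 2 * j) := by
    rw [Finset.mem_union] at hT
    rcases hT with hT | hT
    · simp only [fam0, Finset.mem_filter, Finset.mem_powerset] at hT
      exact ⟨hT.1, Or.inl hT.2⟩
    · simp only [fam1, Finset.mem_filter, Finset.mem_powerset] at hT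
      exact ⟨hT.1, Or.inr hT.2⟩
  obtain ⟨hTQ, hc⟩ := hmem
  have hp : ∀ p ∈ T, p.Prime ∧ p ≤ w := fun p hpT => hQ p (hTQ hpT)
  have hlogw : 0 ≤ Real.log w := Real.log_natCast_nonneg w
  have hlog : ∀ p ∈ T, Real.log p ≤ Real.log w / 2 ^ (idx w p) := by
    intro p hpT
    obtain ⟨h1, -⟩ := idx_F1 w p (hp p hpT).1 (hp p hpT).2
    have hpos : (0 : ℝ) < p := by exact_mod_cast (hp p hpT).1.pos
    rw [le_div_iff₀ (by positivity)]
    have h2 : ((p : ℝ) ^ (2 ^ idx w p)) ≤ w := by exact_mod_cast h1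
    have h3 := Real.log_le_log (by positivity) h2
    rw [Real.log_pow] at h3
    push_cast at h3
    linarith
  have hsum : ∑ p ∈ T, Real.log p ≤ 17 * Real.log w := by
    calc ∑ p ∈ T, Real.log p ≤ ∑ p ∈ T, Real.log w / 2 ^ (idx w p) := Finset.sum_le_sum hlog
      _ = ∑ i ∈ range (w + 1), ∑ p ∈ T.filter (fun p => idx w p = i),
            Real.log w / 2 ^ (idx w p) := by
          rw [Finset.sum_fiberwise_of_maps_to]
          intro p hpT
          rw [Finset.mem_range]
          have := (idx_F1 w p (hp p hpT).1 (hp p hpT).2).2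
          omega
      _ = ∑ i ∈ range (w + 1), Real.log w * (((Qi w T i).card : ℝ) / 2 ^ i) := by
          apply Finset.sum_congr rfl
          intro i _
          rw [Finset.sum_congr rfl (g := fun _ => Real.log w / 2 ^ i)]
          · rw [Finset.sum_const, nsmul_eq_mul]
            unfold Qi
            ring
          · intro p hpi
            rw [(Finset.mem_filter.mp hpi).2]
      _ = Real.log w * ∑ i ∈ range (w + 1), ((Qi w T i).card : ℝ) / 2 ^ i := by
          rw [Finset.mul_sum]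
      _ ≤ Real.log w * 17 := by
          gcongr
          exact card_F1 w (w + 1) T hc
      _ = 17 * Real.log w := by ring
  have hprod : Real.log ((∏ p ∈ T, p : ℕ) : ℝ) ≤ Real.log ((w ^ 17 : ℕ) : ℝ) := by
    push_cast
    rw [Real.log_prod (fun p hpT => by exact_mod_cast (hp p hpT).1.ne_zero), Real.log_pow]
    push_cast
    exact hsum
  have hwpos : (0 : ℝ) < ((w ^ 17 : ℕ) : ℝ) := by
    have : 0 < w := by omega
    positivity
  have hPpos : (0 : ℝ) < ((∏ p ∈ T, p : ℕ) : ℝ) := by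
    have : 0 < ∏ p ∈ T, p := Finset.prod_pos (fun p hpT => (hp p hpT).1.pos)
    exact_mod_cast this
  have := (Real.log_le_log_iff hPpos hwpos).mp hprod
  exact_mod_cast this

end Pool.Agent.Helper60.GP
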