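import Pool.Agent.Helper60.GP.St
import Pool.Agent.Helper18.TR.RG
import Pool.Agent.Helper18.TR.FM
import Pool.Agent.Helper18.ED.ME

/-! Project GP (MP_b454d1_nt), module F2 -/

set_option autoImplicit false

namespace Pool.Agent.Helper60.GP

open Finset ArithmeticFunction
open Pool.Agent.Helper18.TR (fam0 fam1 Qi idx)

lemma exp_F2 (t : ℝ) (h0 : 0 ≤ t) (h1 : t ≤ 1 / 2) : Real.exp (-(t + 2 * t ^ 2)) ≤ 1 - t := by
  have hpos : 0 < 1 - t := by linarith
  have h2 := Real.one_sub_inv_le_log_of_pos hpos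
  rw [← Real.le_log_iff_exp_le hpos]
  refine le_trans ?_ h2
  have h3 : (1 - t)⁻¹ ≤ 1 + (t + 2 * t ^ 2) := by
    rw [inv_le_comm₀ hpos (by positivity), inv_eq_one_div, div_le_iff₀ (by positivity)]
    nlinarith [mul_nonneg (mul_nonneg h0 h0) (sub_nonneg.mpr h1)]
  linarith

lemma tail_F2 (S : Finset ℕ) (K : ℕ) (hK : 2 ≤ K) (hS : ∀ p ∈ S, K + 1 ≤ p) (A : ℝ)
    (hA : ∑ p ∈ S, (1 : ℝ) / p ≤ A) :
    ∑ p ∈ S, 1 / ((p : ℝ) - 1) ≤ (1 + 1 / K) * A ∧
    Real.exp (-((1 + 1 / K) * (1 + 2 / K) * A)) ≤ ∏ p ∈ S, (1 - 1 / ((p : ℝ) - 1)) := by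
  have hK0 : (2 : ℝ) ≤ K := by exact_mod_cast hK
  have hp1 : ∀ p ∈ S, (K : ℝ) ≤ (p : ℝ) - 1 := by
    intro p hp
    have : ((K + 1 : ℕ) : ℝ) ≤ p := by exact_mod_cast hS p hp
    push_cast at this
    linarith
  have hA0 : 0 ≤ A := (Finset.sum_nonneg (fun p _ => by positivity)).trans hA
  have ht : ∀ p ∈ S, 1 / ((p : ℝ) - 1) ≤ (1 + 1 / K) * (1 / (p : ℝ)) := by
    intro p hp
    have h1 := hp1 p hp
    have h2 : (0 : ℝ) < (p : ℝ) - 1 := by linarith
    have h3 : (0 : ℝ) < p := by linarith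
    have h4 : (0 : ℝ) < K := by linarith
    rw [show (1 + 1 / (K : ℝ)) * (1 / (p : ℝ)) = ((K : ℝ) + 1) / (K * p) by field_simp]
    rw [div_le_div_iff₀ h2 (by positivity)]
    nlinarith
  have hs : ∑ p ∈ S, 1 / ((p : ℝ) - 1) ≤ (1 + 1 / K) * A := by
    calc ∑ p ∈ S, 1 / ((p : ℝ) - 1) ≤ ∑ p ∈ S, (1 + 1 / K) * (1 / (p : ℝ)) :=
          Finset.sum_le_sum ht
      _ = (1 + 1 / K) * ∑ p ∈ S, 1 / (p : ℝ) := by rw [Finset.mul_sum]
      _ ≤ _ := by gcongr
  refine ⟨hs, ?_⟩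
  calc Real.exp (-((1 + 1 / K) * (1 + 2 / K) * A))
      ≤ Real.exp (-(∑ p ∈ S, (1 / ((p : ℝ) - 1) + 2 * (1 / ((p : ℝ) - 1)) ^ 2))) := by
        apply Real.exp_le_exp.mpr
        apply neg_le_neg
        calc ∑ p ∈ S, (1 / ((p : ℝ) - 1) + 2 * (1 / ((p : ℝ) - 1)) ^ 2)
            ≤ ∑ p ∈ S, (1 + 2 / (K : ℝ)) * (1 / ((p : ℝ) - 1)) := by
              apply Finset.sum_le_sum
              intro p hp
              have h1 := hp1 p hp
              have h2 : (0 : ℝ) < (p : ℝ) - 1 := by linarith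
              have h4 : (0 : ℝ) < K := by linarith
              have h5 : 1 / ((p : ℝ) - 1) ≤ 1 / K := one_div_le_one_div_of_le h4 h1
              have h6 : 0 ≤ 1 / ((p : ℝ) - 1) := by positivity
              have h7 : 2 * (1 / ((p : ℝ) - 1)) ^ 2 ≤ 2 / K * (1 / ((p : ℝ) - 1)) := by
                have := mul_le_mul_of_nonneg_right h5 h6
                rw [show (2 : ℝ) / K = 2 * (1 / K) by ring]
                nlinarith
              linarith
          _ = (1 + 2 / (K : ℝ)) * ∑ p ∈ S, 1 / ((p : ℝ) - 1) := by rw [Finset.mul_sum]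
          _ ≤ (1 + 2 / (K : ℝ)) * ((1 + 1 / K) * A) := by gcongr
          _ = (1 + 1 / K) * (1 + 2 / K) * A := by ring
    _ = ∏ p ∈ S, Real.exp (-(1 / ((p : ℝ) - 1) + 2 * (1 / ((p : ℝ) - 1)) ^ 2)) := by
        rw [← Finset.sum_neg_distrib, Real.exp_sum]
    _ ≤ ∏ p ∈ S, (1 - 1 / ((p : ℝ) - 1)) := by
        apply Finset.prod_le_prod
        · intro p _
          exact (Real.exp_pos _).le
        · intro p hp
          have h1 := hp1 p hp
          have h2 : (0 : ℝ) < (p : ℝ) - 1 := by linarith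
          apply exp_F2 _ (by positivity)
          exact one_div_le_one_div_of_le (by norm_num) (by linarith)

theorem hBlk (h1 : StM2) : StBlk := by
  constructor
  · intro i η hη
    -- the parameters
    set θ : ℝ := η / 4 with hθ
    have hθ0 : 0 < θ := by positivity
    have hlog2 : Real.log 2 ≤ 1 := by
      have := Real.log_two_lt_d9
      linarith
    obtain ⟨K, hK2, hK⟩ : ∃ K : ℕ, 2 ≤ K ∧ 7 * (1 + η) / η * 2 ≤ K := by
      obtain ⟨n, hn⟩ := exists_nat_ge (7 * (1 + η) / η * 2)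
      refine ⟨max n 2, le_max_right _ _, hn.trans ?_⟩
      exact_mod_cast le_max_left _ _
    have hKpos : (0 : ℝ) < K := by
      have : (2 : ℝ) ≤ K := by exact_mod_cast hK2
      linarith
    have hKη : (1 + 1 / (K : ℝ)) * (1 + 2 / K) * (Real.log 2 + η / 2) ≤ Real.log 2 + η := by
      have h2K : (2 : ℝ) ≤ K := by exact_mod_cast hK2
      have e1 : (1 + 1 / (K : ℝ)) * (1 + 2 / K) ≤ 1 + 4 / K := by
        rw [show (1 + 1 / (K : ℝ)) * (1 + 2 / K) = 1 + (3 + 2 / K) / K by field_simp; ring]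
        have : (2 : ℝ) / K ≤ 1 := by
          rw [div_le_one hKpos]
          exact h2K
        gcongr
        linarith
      have e2 : 4 / (K : ℝ) * (Real.log 2 + η / 2) ≤ η / 2 := by
        rw [div_mul_eq_mul_div, div_le_iff₀ hKpos]
        rw [div_mul_eq_mul_div, div_le_iff₀ hη] at hK
        have : 4 * (Real.log 2 + η / 2) ≤ 4 * (1 + η) := by linarith
        nlinarith
      have e3 : 0 ≤ Real.log 2 + η / 2 := by
        have := Real.log_pos (by norm_num : (1 : ℝ) < 2)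
        positivity
      nlinarith [mul_le_mul_of_nonneg_right e1 e3]
    -- the window
    have hia : (0 : ℝ) < 1 / 2 ^ (i + 1) := by positivity
    obtain ⟨z₀, hz₀⟩ := h1 (1 / 2 ^ (i + 1)) ((1 + θ) / 2 ^ i) hia (by
      rw [pow_succ, div_le_div_iff₀ (by positivity) (by positivity)]
      have : (0 : ℝ) < 2 ^ i := by positivity
      nlinarith) (η / 4) (by positivity)
    obtain ⟨n0, hn0⟩ := exists_nat_ge z₀
    refine ⟨max n0 (max 2 ((K + 1) ^ 2 ^ (i + 1))), fun w hw Q hQ => ?_⟩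
    have hw1 : n0 ≤ w := (le_max_left _ _).trans hw
    have hw2 : 2 ≤ w := ((le_max_left _ _).trans (le_max_right _ _)).trans hw
    have hw3 : (K + 1) ^ 2 ^ (i + 1) ≤ w := ((le_max_right _ _).trans (le_max_right _ _)).trans hw
    have hz := hz₀ w (hn0.trans (by exact_mod_cast hw1))
    have hmem : ∀ p ∈ Qi w Q i, p.Prime ∧ 3 ≤ p ∧ p ≤ w ∧ idx w p = i := by
      intro p hp
      obtain ⟨hp1, hp2⟩ := Finset.mem_filter.mp hp
      exact ⟨(hQ p hp1).1, (hQ p hp1).2.1, (hQ p hp1).2.2, hp2⟩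
    have hbd : ∀ p ∈ Qi w Q i, p ^ 2 ^ i ≤ w ∧ w < p ^ 2 ^ (i + 1) := by
      intro p hp
      obtain ⟨g1, g2, g3, g4⟩ := hmem p hp
      have := Pool.Agent.Helper18.TR.rg_idx g1 g3
      rw [g4] at this
      exact this
    have hKp : ∀ p ∈ Qi w Q i, K + 1 ≤ p := by
      intro p hp
      have h2 := lt_of_le_of_lt hw3 (hbd p hp).2
      exact (lt_of_pow_lt_pow_left₀ _ (Nat.zero_le _) h2).le
    have hwR : (1 : ℝ) < w := by exact_mod_cast hw2
    have hsub : Qi w Q i ⊆ (range ⌈(w : ℝ) ^ ((1 + θ) / 2 ^ i)⌉₊).filter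
        (fun p : ℕ => p.Prime ∧ (w : ℝ) ^ ((1 : ℝ) / 2 ^ (i + 1)) ≤ p) := by
      intro p hp
      obtain ⟨g1, g2, g3, g4⟩ := hmem p hp
      obtain ⟨g5, g6⟩ := hbd p hp
      have hp0 : (0 : ℝ) ≤ p := Nat.cast_nonneg p
      rw [Finset.mem_filter, Finset.mem_range, Nat.lt_ceil]
      refine ⟨?_, g1, ?_⟩
      · have e1 : (p : ℝ) ≤ (w : ℝ) ^ ((1 : ℝ) / 2 ^ i) := by
          have e2 : ((p : ℝ) ^ (2 ^ i)) ≤ w := by exact_mod_cast g5
          calc (p : ℝ) = ((p : ℝ) ^ (2 ^ i)) ^ ((1 : ℝ) / 2 ^ i) := by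
                rw [← Real.rpow_natCast, ← Real.rpow_mul hp0]
                push_cast
                rw [mul_one_div_cancel (by positivity), Real.rpow_one]
            _ ≤ (w : ℝ) ^ ((1 : ℝ) / 2 ^ i) :=
                Real.rpow_le_rpow (by positivity) e2 (by positivity)
        refine lt_of_le_of_lt e1 (Real.rpow_lt_rpow_of_exponent_lt hwR ?_)
        have : (0 : ℝ) < 2 ^ i := by positivity
        gcongr
        linarith
      · have e2 : (w : ℝ) ≤ ((p : ℝ) ^ (2 ^ (i + 1))) := by exact_mod_cast g6.le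
        calc (w : ℝ) ^ ((1 : ℝ) / 2 ^ (i + 1))
            ≤ ((p : ℝ) ^ (2 ^ (i + 1))) ^ ((1 : ℝ) / 2 ^ (i + 1)) :=
              Real.rpow_le_rpow (by positivity) e2 (by positivity)
          _ = p := by
              rw [← Real.rpow_natCast, ← Real.rpow_mul hp0]
              push_cast
              rw [mul_one_div_cancel (by positivity), Real.rpow_one]
    have hlogq : Real.log ((1 + θ) / 2 ^ i / (1 / 2 ^ (i + 1))) ≤ Real.log 2 + θ := by
      rw [show (1 + θ) / 2 ^ i / (1 / 2 ^ (i + 1)) = 2 * (1 + θ) by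
        rw [pow_succ]
        field_simp]
      rw [Real.log_mul (by norm_num) (by positivity)]
      have := Real.log_le_sub_one_of_pos (show 0 < 1 + θ by positivity)
      linarith
    have hsum : ∑ p ∈ Qi w Q i, (1 : ℝ) / p ≤ Real.log 2 + η / 2 := by
      refine (Finset.sum_le_sum_of_subset_of_nonneg hsub fun _ _ _ => by positivity).trans ?_
      have := (abs_le.mp hz).2
      linarith
    obtain ⟨r1, r2⟩ := tail_F2 (Qi w Q i) K hK2 hKp _ hsum
    have hpos : 0 ≤ Real.log 2 + η / 2 := by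
      have := Real.log_pos (by norm_num : (1 : ℝ) < 2)
      positivity
    constructor
    · refine r1.trans (le_trans ?_ hKη)
      have : (1 : ℝ) + 1 / K ≤ (1 + 1 / K) * (1 + 2 / K) := by
        have h3 : (0 : ℝ) < 1 + 1 / K := by positivity
        have h4 : (0 : ℝ) < 2 / K := by positivity
        nlinarith
      exact mul_le_mul_of_nonneg_right this hpos
    · refine le_trans (Real.exp_le_exp.mpr ?_) r2
      linarith
  · obtain ⟨C, hC1, hC⟩ := Pool.Agent.Helper18.TR.pf_Range Pool.Agent.Helper18.ED.pf_Mertens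
    refine ⟨3 * C, by linarith, fun w i Q hQ => ?_⟩
    have hmem : ∀ p ∈ Qi w Q i, (3 : ℝ) ≤ p := by
      intro p hp
      obtain ⟨hp1, hp2⟩ := Finset.mem_filter.mp hp
      exact_mod_cast (hQ p hp1).2.1
    have hS := hC w Q (fun p hp => ⟨(hQ p hp).1, (hQ p hp).2.2⟩) i
    have ht : ∀ p ∈ Qi w Q i, 1 / ((p : ℝ) - 1) ≤ 3 / 2 * (1 / (p : ℝ)) := by
      intro p hp
      have h3 := hmem p hp
      have h4 : (0 : ℝ) < (p : ℝ) - 1 := by linarith
      have h5 : (0 : ℝ) < p := by linarith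
      rw [show (3 : ℝ) / 2 * (1 / (p : ℝ)) = 3 / (2 * p) by field_simp,
        div_le_div_iff₀ h4 (by positivity)]
      linarith
    have hs : ∑ p ∈ Qi w Q i, 1 / ((p : ℝ) - 1) ≤ 3 / 2 * C := by
      calc ∑ p ∈ Qi w Q i, 1 / ((p : ℝ) - 1) ≤ ∑ p ∈ Qi w Q i, 3 / 2 * (1 / (p : ℝ)) :=
            Finset.sum_le_sum ht
        _ = 3 / 2 * ∑ p ∈ Qi w Q i, 1 / (p : ℝ) := by rw [Finset.mul_sum]
        _ ≤ _ := by gcongr
    refine ⟨by linarith, ?_⟩
    calc Real.exp (-(3 * C)) ≤ Real.exp (-(2 * ∑ p ∈ Qi w Q i, 1 / ((p : ℝ) - 1))) := by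
          apply Real.exp_le_exp.mpr
          linarith
      _ = ∏ p ∈ Qi w Q i, Real.exp (-(2 * (1 / ((p : ℝ) - 1)))) := by
          rw [Finset.mul_sum, ← Finset.sum_neg_distrib, Real.exp_sum]
      _ ≤ ∏ p ∈ Qi w Q i, (1 - 1 / ((p : ℝ) - 1)) := by
          apply Finset.prod_le_prod
          · intro p _
            exact (Real.exp_pos _).le
          · intro p hp
            have h3 := hmem p hp
            have h4 : (0 : ℝ) < (p : ℝ) - 1 := by linarith
            apply Pool.Agent.Helper18.TR.fm_exp _ (by positivity)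
            exact one_div_le_one_div_of_le (by norm_num) (by linarith)

end Pool.Agent.Helper60.GP
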