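import Pool.Agent.Helper60.GP.St
import Pool.Agent.Helper18.TR.FM
import Pool.Agent.Helper18.TR.FS
import Pool.Agent.Helper96.TR.SB

/-! Project GP (MP_b454d1_nt), module F3 -/

set_option autoImplicit false

namespace Pool.Agent.Helper60.GP

open Finset ArithmeticFunction

namespace GPF3

open Pool.Agent.Helper18.TR

/-- decay of the exponential series, with ratio `1/100` -/
theorem decay : ∀ i : ℕ,
    (7 / 10 : ℝ) ^ (6 + 2 * i + 1) / ((6 + 2 * i + 1).factorial : ℝ) ≤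
      (7 / 10 : ℝ) ^ 7 / 5040 * (1 / 100) ^ i
  | 0 => by norm_num [Nat.factorial]
  | i + 1 => by
    have ih := decay i
    have e1 : 6 + 2 * (i + 1) + 1 = (6 + 2 * i + 1) + 1 + 1 := by ring
    rw [e1, Nat.factorial_succ, Nat.factorial_succ, pow_succ, pow_succ, pow_succ (1 / 100 : ℝ)]
    have hf : (0 : ℝ) < ((6 + 2 * i + 1).factorial : ℝ) := by
      exact_mod_cast Nat.factorial_pos _
    have h1 : (7 / 10 : ℝ) ^ (6 + 2 * i + 1) * (7 / 10) * (7 / 10) /
        (((6 + 2 * i + 1 + 1 + 1) * ((6 + 2 * i + 1 + 1) * (6 + 2 * i + 1).factorial) : ℕ) : ℝ) =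
        ((7 / 10 : ℝ) ^ (6 + 2 * i + 1) / ((6 + 2 * i + 1).factorial : ℝ)) *
          ((7 / 10) * (7 / 10) / (((6 : ℝ) + 2 * i + 1 + 1 + 1) * ((6 : ℝ) + 2 * i + 1 + 1))) := by
      push_cast
      field_simp
    rw [h1]
    have hi : (0 : ℝ) ≤ i := Nat.cast_nonneg i
    have h2 : (7 / 10 : ℝ) * (7 / 10) / (((6 : ℝ) + 2 * i + 1 + 1 + 1) *
        ((6 : ℝ) + 2 * i + 1 + 1)) ≤ 1 / 100 := by
      rw [div_le_div_iff₀ (by positivity) (by norm_num)]
      nlinarith [mul_nonneg hi hi]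
    calc ((7 / 10 : ℝ) ^ (6 + 2 * i + 1) / ((6 + 2 * i + 1).factorial : ℝ)) *
          ((7 / 10) * (7 / 10) / (((6 : ℝ) + 2 * i + 1 + 1 + 1) * ((6 : ℝ) + 2 * i + 1 + 1)))
        ≤ ((7 / 10 : ℝ) ^ 7 / 5040 * (1 / 100) ^ i) * (1 / 100) :=
          mul_le_mul ih h2 (by positivity) (by positivity)
      _ = _ := by ring

theorem geo (n : ℕ) : ∑ i ∈ range n, (1 / 100 : ℝ) ^ i ≤ 100 / 99 := by
  have h : ∀ n : ℕ, ∑ i ∈ range n, (1 / 100 : ℝ) ^ i = 100 / 99 - 100 / 99 * (1 / 100) ^ n := by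
    intro n
    induction n with
    | zero => simp
    | succ n ih => rw [Finset.sum_range_succ, ih, pow_succ]; ring
  rw [h]
  have : (0 : ℝ) < (1 / 100) ^ n := by positivity
  linarith

theorem exp07 : Real.exp (7 / 10) ≤ 202 / 100 := by
  have h1 : Real.exp (7 / 10) ^ 10 ≤ (202 / 100 : ℝ) ^ 10 := by
    rw [← Real.exp_nat_mul]
    have e : ((10 : ℕ) : ℝ) * (7 / 10) = (7 : ℕ) * 1 := by norm_num
    rw [e, Real.exp_nat_mul]
    calc Real.exp 1 ^ 7 ≤ (2.7182818286 : ℝ) ^ 7 :=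
          pow_le_pow_left₀ (Real.exp_pos 1).le Real.exp_one_lt_d9.le 7
      _ ≤ (202 / 100 : ℝ) ^ 10 := by norm_num
  exact le_of_pow_le_pow_left₀ (by norm_num) (by norm_num) h1

theorem log2 : Real.log 2 < 7 / 10 := by
  have := Real.log_two_lt_d9
  linarith

/-- the tail of the second part -/
theorem tail (m n : ℕ) (c : ℝ) (hc : 0 ≤ c) :
    ∑ i ∈ range n, (if i < m then 0 else c * (1 / 2 : ℝ) ^ (i - m)) ≤ 2 * c := by
  have h0 : ∀ i : ℕ, 0 ≤ (if i < m then 0 else c * (1 / 2 : ℝ) ^ (i - m)) := by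
    intro i
    split_ifs
    · exact le_rfl
    · positivity
  calc ∑ i ∈ range n, (if i < m then 0 else c * (1 / 2 : ℝ) ^ (i - m))
      ≤ ∑ i ∈ range (m + n), (if i < m then 0 else c * (1 / 2 : ℝ) ^ (i - m)) :=
        Finset.sum_le_sum_of_subset_of_nonneg (Finset.range_mono (by omega)) fun i _ _ => h0 i
    _ = ∑ k ∈ range n, c * (1 / 2 : ℝ) ^ k := by
        rw [Finset.sum_range_add]
        have h1 : ∑ x ∈ range m, (if x < m then 0 else c * (1 / 2 : ℝ) ^ (x - m)) = 0 :=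
          Finset.sum_eq_zero fun i hi => if_pos (Finset.mem_range.1 hi)
        rw [h1, zero_add]
        refine Finset.sum_congr rfl fun k _ => ?_
        rw [if_neg (by omega), Nat.add_sub_cancel_left]
    _ = c * ∑ k ∈ range n, (1 / 2 : ℝ) ^ k := by rw [Finset.mul_sum]
    _ ≤ c * 2 := mul_le_mul_of_nonneg_left (fm_geo n) hc
    _ = 2 * c := mul_comm _ _

theorem main (h1 : StBlk) : StFLm := by
  intro ε hε
  obtain ⟨hB, C, hC, hBC⟩ := h1
  have hC0 : 0 ≤ C := by linarith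
  -- choice of `m`
  obtain ⟨m, hm2, hmη⟩ : ∃ m : ℕ, 2 * C ≤ ((6 + 2 * m : ℕ) : ℝ) ∧
      Real.exp C * (C ^ (6 + 2 * m + 1) / ((6 + 2 * m + 1).factorial : ℝ)) * 2 ≤ 1 / 100000 := by
    have ht := FloorSemiring.tendsto_pow_div_factorial_atTop C
    have hpos : 0 < 1 / 100000 / (2 * Real.exp C) := by positivity
    have hev := (ht.eventually_lt_const hpos)
    rw [Filter.eventually_atTop] at hev
    obtain ⟨n, hn⟩ := hev
    refine ⟨n + ⌈C⌉₊, ?_, ?_⟩
    · push_cast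
      have := Nat.le_ceil C
      have : (0 : ℝ) ≤ n := Nat.cast_nonneg n
      linarith
    · have h := hn (6 + 2 * (n + ⌈C⌉₊) + 1) (by omega)
      rw [lt_div_iff₀ (by positivity)] at h
      nlinarith
  have hη : 0 < 7 / 10 - Real.log 2 := by linarith [log2]
  choose w₀ hw₀ using fun i : ℕ => hB i (7 / 10 - Real.log 2) hη
  refine ⟨(range m).sup w₀, ?_⟩
  intro w hw Q hQ
  have hwi : ∀ i < m, w₀ i ≤ w := fun i hi =>
    (Finset.le_sup (f := w₀) (Finset.mem_range.2 hi)).trans hw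
  set g : ℕ → ℝ := fun p => 1 / ((p : ℝ) - 1) with hg
  have hgp : ∀ p ∈ Q, 0 ≤ g p ∧ g p ≤ 1 := by
    intro p hp
    have h3 : (3 : ℝ) ≤ p := by exact_mod_cast (hQ p hp).2.1
    refine ⟨?_, ?_⟩
    · simp only [hg]
      exact div_nonneg zero_le_one (by linarith)
    · simp only [hg]
      rw [div_le_one (by linarith)]
      linarith
  have hsubQ : ∀ i, ∀ p ∈ Qi w Q i, p ∈ Q := fun i p hp => (Finset.mem_filter.mp hp).1
  set G : ℕ → ℝ := fun i => ∏ p ∈ Qi w Q i, (1 - g p) with hG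
  set Y : ℕ → ℝ := fun i => Yy (6 + 2 * i) (Qi w Q i) g with hY
  set E : ℕ → ℝ := fun i => ee (6 + 2 * i + 1) (Qi w Q i) g with hEd
  set δ : ℕ → ℝ := fun i => if i < m then
    Real.exp (7 / 10) * ((7 / 10 : ℝ) ^ (6 + 2 * i + 1) / ((6 + 2 * i + 1).factorial : ℝ)) else
    Real.exp C * (C ^ (6 + 2 * i + 1) / ((6 + 2 * i + 1).factorial : ℝ)) with hδ
  have hGQ : ∏ p ∈ Q, (1 - g p) = ∏ i ∈ range (w + 1), G i := by
    rw [← Finset.prod_fiberwise_of_maps_to (t := range (w + 1)) (g := idx w)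
      (fun p _ => fm_idx w p)]
    rfl
  have hgs : ∀ i, 0 ≤ ∑ p ∈ Qi w Q i, g p := fun i =>
    Finset.sum_nonneg fun p hp => (hgp p (hsubQ i p hp)).1
  have hi1 : ∀ i < m, ∑ p ∈ Qi w Q i, g p ≤ 7 / 10 ∧ Real.exp (-(7 / 10)) ≤ G i := by
    intro i hi
    have h2 := hw₀ i w (hwi i hi) Q hQ
    have e : Real.log 2 + (7 / 10 - Real.log 2) = 7 / 10 := by ring
    rw [e] at h2
    exact h2
  have hi2 : ∀ i, ∑ p ∈ Qi w Q i, g p ≤ C ∧ Real.exp (-C) ≤ G i := fun i => hBC w i Q hQ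
  have hGpos : ∀ i, 0 < G i := fun i => lt_of_lt_of_le (Real.exp_pos _) (hi2 i).2
  have hδ0 : ∀ i, 0 ≤ δ i := by
    intro i
    simp only [hδ]
    split_ifs <;> positivity
  have gen : ∀ (i : ℕ) (L : ℝ), 0 ≤ L → ∑ p ∈ Qi w Q i, g p ≤ L → Real.exp (-L) ≤ G i →
      E i ≤ Real.exp L * (L ^ (6 + 2 * i + 1) / ((6 + 2 * i + 1).factorial : ℝ)) * G i := by
    intro i L hL0 hL hLG
    have h2 := (pf_Esymm (6 + 2 * i + 1) (Qi w Q i) g
      (fun p hp => (hgp p (hsubQ i p hp)).1)).2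
    have h3 : (∑ p ∈ Qi w Q i, g p) ^ (6 + 2 * i + 1) ≤ L ^ (6 + 2 * i + 1) :=
      pow_le_pow_left₀ (hgs i) hL _
    have h4 : E i ≤ L ^ (6 + 2 * i + 1) / ((6 + 2 * i + 1).factorial : ℝ) :=
      h2.trans (by gcongr)
    have h5 : 1 ≤ Real.exp L * G i := by
      calc (1 : ℝ) = Real.exp L * Real.exp (-L) := by
            rw [← Real.exp_add]; simp
        _ ≤ Real.exp L * G i := mul_le_mul_of_nonneg_left hLG (Real.exp_pos _).le
    calc E i ≤ L ^ (6 + 2 * i + 1) / ((6 + 2 * i + 1).factorial : ℝ) := h4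
      _ ≤ (L ^ (6 + 2 * i + 1) / ((6 + 2 * i + 1).factorial : ℝ)) * (Real.exp L * G i) :=
          le_mul_of_one_le_right (by positivity) h5
      _ = _ := by ring
  have hEδ : ∀ i, E i ≤ δ i * G i := by
    intro i
    by_cases hi : i < m
    · simp only [hδ, if_pos hi]
      exact gen i (7 / 10) (by norm_num) (hi1 i hi).1 (hi1 i hi).2
    · simp only [hδ, if_neg hi]
      exact gen i C hC0 (hi2 i).1 (hi2 i).2
  have hsum : ∑ i ∈ range (w + 1), δ i ≤ 45 / 1000000 := by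
    set c : ℝ := Real.exp C * (C ^ (6 + 2 * m + 1) / ((6 + 2 * m + 1).factorial : ℝ)) with hc
    have hc0 : 0 ≤ c := by positivity
    have h2 : ∀ i ∈ range (w + 1), δ i ≤
        Real.exp (7 / 10) * ((7 / 10 : ℝ) ^ 7 / 5040) * (1 / 100) ^ i +
          (if i < m then 0 else c * (1 / 2 : ℝ) ^ (i - m)) := by
      intro i _
      have hA : 0 ≤ Real.exp (7 / 10) * ((7 / 10 : ℝ) ^ 7 / 5040) * (1 / 100) ^ i := by
        positivity
      by_cases hi : i < m
      · simp only [hδ, if_pos hi, add_zero]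
        rw [mul_assoc]
        exact mul_le_mul_of_nonneg_left (decay i) (Real.exp_pos _).le
      · simp only [hδ, if_neg hi]
        have h3 := fm_decay C hC0 (6 + 2 * m) hm2 (i - m)
        have e1 : 6 + 2 * m + 2 * (i - m) = 6 + 2 * i := by omega
        rw [e1] at h3
        have h4 := mul_le_mul_of_nonneg_left h3 (Real.exp_pos C).le
        rw [← mul_assoc, ← hc] at h4
        linarith
    refine (Finset.sum_le_sum h2).trans ?_
    rw [Finset.sum_add_distrib, ← Finset.mul_sum]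
    have h3 := tail m (w + 1) c hc0
    have h4 : Real.exp (7 / 10) * ((7 / 10 : ℝ) ^ 7 / 5040) *
        ∑ i ∈ range (w + 1), (1 / 100 : ℝ) ^ i ≤ 202 / 100 * ((7 / 10 : ℝ) ^ 7 / 5040) *
          (100 / 99) := by
      refine mul_le_mul (mul_le_mul_of_nonneg_right exp07 (by norm_num)) (geo _)
        (Finset.sum_nonneg fun i _ => by positivity) (by norm_num)
    have h5 : (202 / 100 * ((7 / 10 : ℝ) ^ 7 / 5040) * (100 / 99)) ≤ 35 / 1000000 := by norm_num
    linarith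
  have hexp : Real.exp (45 / 1000000) ≤ 1 + 1 / 20000 := by
    have h2 : (45 / 1000000 : ℝ) ≤ Real.log (1 + 1 / 20000) := by
      have h3 := Real.one_sub_inv_le_log_of_pos (show (0 : ℝ) < 1 + 1 / 20000 by norm_num)
      refine le_trans ?_ h3
      norm_num
    rwa [Real.le_log_iff_exp_le (by norm_num)] at h2
  have hY0 : ∀ i, G i ≤ Y i := fun i =>
    (pf_Sym (6 + 2 * i) (Qi w Q i) g (by
      rw [Nat.even_iff]; omega) (fun p hp => hgp p (hsubQ i p hp))).1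
  have hY1 : ∀ i, Y i ≤ G i + E i := fun i =>
    (pf_Sym (6 + 2 * i) (Qi w Q i) g (by
      rw [Nat.even_iff]; omega) (fun p hp => hgp p (hsubQ i p hp))).2
  have key := fm_prod (range (w + 1)) G Y E δ (45 / 1000000) (fun i _ => hGpos i)
    (fun i _ => hδ0 i) (fun i _ => hEδ i) (fun i _ => hY0 i) (fun i _ => hY1 i) hsum
  have hGp : 0 ≤ ∏ i ∈ range (w + 1), G i := Finset.prod_nonneg (fun i _ => (hGpos i).le)
  have f0 := pf_Fact0 w 6 Q g
  have f1 := pf_Fact1 w 6 Q g (by decide)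
  constructor
  · rw [f0, hGQ]
    exact key.1.trans (mul_le_mul_of_nonneg_right (by linarith) hGp)
  · rw [Finset.sum_union (fm_disj w 6 Q), f0, f1, hGQ]
    have h2 : (1 - 1 / 20000 - ε) * ∏ i ∈ range (w + 1), G i ≤
        (1 - 45 / 1000000 * Real.exp (45 / 1000000)) * ∏ i ∈ range (w + 1), G i := by
      refine mul_le_mul_of_nonneg_right ?_ hGp
      nlinarith
    refine h2.trans (key.2.trans (le_of_eq ?_))
    rw [sub_eq_add_neg]

end GPF3

theorem hFLm (h1 : StBlk) : StFLm := GPF3.main h1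

end Pool.Agent.Helper60.GP
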