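import Pool.Agent.Helper60.GP.St
import Pool.Agent.Helper18.TR.FS
import Pool.Agent.Helper30.TR.BO
import Pool.Agent.Helper96.TR.SB

/-! Project GP (MP_b454d1_nt), module F4 -/

set_option autoImplicit false

namespace Pool.Agent.Helper60.GP

open Finset ArithmeticFunction
open Pool.Agent.Helper18.TR (fam0 fam1 Qi)

noncomputable section

namespace F4

theorem memF {α : Type} {P : α → Prop} {i : DecidablePred P} {s : Finset α} {a : α}
    (h : a ∈ @Finset.filter α P i s) : a ∈ s := (Finset.mem_filter.1 h).1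

/-- the weights of a family -/
def lamF (F : Finset (Finset ℕ)) (m : ℕ) : ℝ :=
  if Squarefree m ∧ m.primeFactors ∈ F then (-1 : ℝ) ^ m.primeFactors.card else 0

theorem sq_prod (T : Finset ℕ) (hT : ∀ p ∈ T, p.Prime) : Squarefree (∏ p ∈ T, p) := by
  induction T using Finset.induction_on with
  | empty => simp
  | insert p T hp ih =>
    rw [Finset.prod_insert hp]
    have h1 := ih (fun q hq => hT q (Finset.mem_insert_of_mem hq))
    have h2 : Nat.Coprime p (∏ q ∈ T, q) := by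
      apply Nat.Coprime.prod_right
      intro q hq
      exact (Nat.coprime_primes (hT p (Finset.mem_insert_self _ _))
        (hT q (Finset.mem_insert_of_mem hq))).2 (fun h => hp (h ▸ hq))
    exact (Nat.squarefree_mul h2).2 ⟨(hT p (Finset.mem_insert_self _ _)).squarefree, h1⟩

theorem tot_prod (T : Finset ℕ) (hT : ∀ p ∈ T, p.Prime) :
    ((Nat.totient (∏ p ∈ T, p) : ℕ) : ℝ) = ∏ p ∈ T, ((p : ℝ) - 1) := by
  induction T using Finset.induction_on with
  | empty => simp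
  | insert p T hp ih =>
    rw [Finset.prod_insert hp, Finset.prod_insert hp]
    have h1 := ih (fun q hq => hT q (Finset.mem_insert_of_mem hq))
    have h2 : Nat.Coprime p (∏ q ∈ T, q) := by
      apply Nat.Coprime.prod_right
      intro q hq
      exact (Nat.coprime_primes (hT p (Finset.mem_insert_self _ _))
        (hT q (Finset.mem_insert_of_mem hq))).2 (fun h => hp (h ▸ hq))
    rw [Nat.totient_mul h2, Nat.cast_mul, h1, Nat.totient_prime (hT p (Finset.mem_insert_self _ _)),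
      Nat.cast_sub (hT p (Finset.mem_insert_self _ _)).one_lt.le, Nat.cast_one]

theorem sumT (F : Finset (Finset ℕ)) (hF : ∀ T ∈ F, ∀ p ∈ T, p.Prime) (M : Finset ℕ) (h : ℕ → ℝ)
    (hM : ∀ T ∈ F, h (∏ p ∈ T, p) ≠ 0 → ∏ p ∈ T, p ∈ M) :
    ∑ m ∈ M, lamF F m * h m = ∑ T ∈ F, (-1 : ℝ) ^ T.card * h (∏ p ∈ T, p) := by
  symm
  apply Finset.sum_bij_ne_zero (fun T _ _ => ∏ p ∈ T, p)
  · intro T hT h0
    exact hM T hT (fun h1 => h0 (by rw [h1, mul_zero]))
  · intro T hT _ T' hT' _ hTT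
    have h1 := Nat.primeFactors_prod (hF T hT)
    have h2 := Nat.primeFactors_prod (hF T' hT')
    rw [← h1, ← h2, hTT]
  · intro m hm h0
    have h3 : lamF F m ≠ 0 := fun h1 => h0 (by rw [h1, zero_mul])
    have h4 : Squarefree m ∧ m.primeFactors ∈ F := by
      by_contra h4
      exact h3 (by rw [lamF, if_neg h4])
    have h5 : ∏ p ∈ m.primeFactors, p = m := Nat.prod_primeFactors_of_squarefree h4.1
    refine ⟨m.primeFactors, h4.2, ?_, h5⟩
    rw [h5]
    rw [lamF, if_pos h4] at h0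
    exact h0
  · intro T hT _
    have h1 := Nat.primeFactors_prod (hF T hT)
    rw [lamF, if_pos ⟨sq_prod T (hF T hT), by rw [h1]; exact hT⟩, h1]

theorem sum_div (F : Finset (Finset ℕ)) (hF : ∀ T ∈ F, ∀ p ∈ T, p.Prime) (n : ℕ) (hn : 1 ≤ n) :
    ∑ m ∈ n.divisors, lamF F m =
      ∑ T ∈ F, (-1 : ℝ) ^ T.card * ∏ p ∈ T, (if p ∣ n then (1 : ℝ) else 0) := by
  have h1 := sumT F hF n.divisors (fun m => if m ∣ n then (1 : ℝ) else 0) (by
    intro T hT h0
    have h2 : ∏ p ∈ T, p ∣ n := by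
      by_contra h2
      exact h0 (by simp only [if_neg h2])
    exact Nat.mem_divisors.2 ⟨h2, by omega⟩)
  have h3 : ∑ m ∈ n.divisors, lamF F m =
      ∑ m ∈ n.divisors, lamF F m * (fun m => if m ∣ n then (1 : ℝ) else 0) m := by
    apply Finset.sum_congr rfl
    intro m hm
    simp only [if_pos (Nat.dvd_of_mem_divisors hm), mul_one]
  rw [h3, h1]
  apply Finset.sum_congr rfl
  intro T hT
  congr 1
  by_cases h2 : ∀ p ∈ T, p ∣ n
  · have h4 : ∏ p ∈ T, p ∣ n :=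
      Finset.prod_primes_dvd n (fun p hp => (hF T hT p hp).prime) h2
    simp only [if_pos h4]
    rw [Finset.prod_congr rfl (fun p hp => if_pos (h2 p hp)), Finset.prod_const_one]
  · push Not at h2
    obtain ⟨p, hp, hpn⟩ := h2
    have h4 : ¬ ∏ p ∈ T, p ∣ n := fun h => hpn ((Finset.dvd_prod_of_mem _ hp).trans h)
    simp only [if_neg h4]
    rw [Finset.prod_eq_zero hp (if_neg hpn)]

theorem sum_ms (F : Finset (Finset ℕ)) (hF : ∀ T ∈ F, ∀ p ∈ T, p.Prime) (D : ℝ)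
    (hD : ∀ T ∈ F, ((∏ p ∈ T, p : ℕ) : ℝ) ≤ D) :
    MS D (lamF F) = ∑ T ∈ F, (-1 : ℝ) ^ T.card * ∏ p ∈ T, 1 / ((p : ℝ) - 1) := by
  have h1 := sumT F hF (Icc 1 ⌊D⌋₊) (fun m => 1 / (Nat.totient m : ℝ)) (by
    intro T hT _
    rw [Finset.mem_Icc]
    exact ⟨Finset.prod_pos (fun p hp => (hF T hT p hp).pos), Nat.le_floor (hD T hT)⟩)
  have h3 : MS D (lamF F) =
      ∑ m ∈ Icc 1 ⌊D⌋₊, lamF F m * (fun m => 1 / (Nat.totient m : ℝ)) m := by
    unfold MS
    apply Finset.sum_congr rfl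
    intro m hm
    simp only [mul_one_div]
  rw [h3, h1]
  apply Finset.sum_congr rfl
  intro T hT
  rw [tot_prod T (hF T hT), one_div, ← Finset.prod_inv_distrib]
  congr 1
  exact Finset.prod_congr rfl (fun p _ => (one_div _).symm)

theorem rg_eq (N : ℕ) (z : ℝ) (n : ℕ) :
    rg N z n = ∏ p ∈ PP N z, (1 - (if p ∣ n then (1 : ℝ) else 0)) := by
  unfold rg
  by_cases h : ∀ p ∈ PP N z, ¬ p ∣ n
  · rw [if_pos h]
    symm
    apply Finset.prod_eq_one
    intro p hp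
    rw [if_neg (h p hp), sub_zero]
  · rw [if_neg h]
    push Not at h
    obtain ⟨p, hp, hpn⟩ := h
    symm
    apply Finset.prod_eq_zero hp
    rw [if_pos hpn, sub_self]

theorem isWt (N : ℕ) (z D : ℝ) (F : Finset (Finset ℕ)) (hF : ∀ T ∈ F, T ⊆ PP N z)
    (hD : ∀ T ∈ F, ((∏ p ∈ T, p : ℕ) : ℝ) ≤ D) : IsWt N z D (lamF F) := by
  constructor
  · intro m
    unfold lamF
    split_ifs
    · rw [abs_pow, abs_neg, abs_one, one_pow]
    · rw [abs_zero]; exact zero_le_one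
  · intro m hm
    have h4 : Squarefree m ∧ m.primeFactors ∈ F := by
      by_contra h4
      exact hm (by rw [lamF, if_neg h4])
    have h5 : ∏ p ∈ m.primeFactors, p = m := Nat.prod_primeFactors_of_squarefree h4.1
    refine ⟨h4.1, ?_, ?_⟩
    · have := hD _ h4.2
      rw [h5] at this
      exact this
    · intro p hp hpm
      exact hF _ h4.2 (Nat.mem_primeFactors.2 ⟨hp, hpm, h4.1.ne_zero⟩)

end F4

open F4

theorem hBase (h1 : StLev) (h2 : StFLm) : StBase := by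
  have bonf : Pool.Agent.Helper18.TR.StBonf :=
    Pool.Agent.Helper18.TR.pf_Bonf Pool.Agent.Helper18.TR.pf_Fact0 Pool.Agent.Helper18.TR.pf_Fact1
      Pool.Agent.Helper18.TR.pf_Sym Pool.Agent.Helper18.TR.pf_Esymm
  have key : ∀ (N : ℕ) (z : ℝ), Even N → 2 ≤ z → ∃ w : ℕ, 1 ≤ w ∧ z ≤ w + 1 ∧ (w : ℝ) ≤ z ∧
      ∀ p ∈ PP N z, p.Prime ∧ 3 ≤ p ∧ p ≤ w := by
    intro N z hN hz
    have hc : 2 ≤ ⌈z⌉₊ := by
      have : (2 : ℝ) ≤ ⌈z⌉₊ := hz.trans (Nat.le_ceil z)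
      exact_mod_cast this
    refine ⟨⌈z⌉₊ - 1, by omega, ?_, ?_, ?_⟩
    · have := Nat.le_ceil z
      rw [Nat.cast_sub (by omega)]
      push_cast
      linarith
    · have := Nat.ceil_lt_add_one (show (0 : ℝ) ≤ z by linarith)
      rw [Nat.cast_sub (by omega)]
      push_cast
      linarith
    · intro p hp
      rw [PP, Finset.mem_filter, Finset.mem_range] at hp
      obtain ⟨hp1, hp2, hp3⟩ := hp
      refine ⟨hp2, ?_, by omega⟩
      have h3 := hp2.two_le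
      rcases h3.lt_or_eq with h | h
      · omega
      · exfalso
        apply hp3
        rw [← h]
        exact hN.two_dvd
  have lev : ∀ (N : ℕ) (z D : ℝ) (w : ℕ), 1 ≤ w → (w : ℝ) ≤ z → z ^ (17 : ℝ) ≤ D →
      (∀ p ∈ PP N z, p.Prime ∧ 3 ≤ p ∧ p ≤ w) →
      ∀ T ∈ fam0 w 6 (PP N z) ∪ fam1 w 6 (PP N z), ((∏ p ∈ T, p : ℕ) : ℝ) ≤ D := by
    intro N z D w hw hwz hD hP T hT
    have h3 := h1 w (PP N z) T hw (fun p hp => ⟨(hP p hp).1, (hP p hp).2.2⟩) hT
    have h4 : ((∏ p ∈ T, p : ℕ) : ℝ) ≤ (w : ℝ) ^ 17 := by exact_mod_cast h3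
    have h5 : (w : ℝ) ^ 17 ≤ z ^ 17 := pow_le_pow_left₀ (Nat.cast_nonneg w) hwz 17
    have h6 : z ^ (17 : ℝ) = z ^ 17 := by
      rw [← Real.rpow_natCast]
      norm_num
    rw [h6] at hD
    exact h4.trans (h5.trans hD)
  have sub0 : ∀ (N : ℕ) (z : ℝ) (w : ℕ), ∀ T ∈ fam0 w 6 (PP N z), T ⊆ PP N z := by
    intro N z w T hT
    exact Finset.mem_powerset.1 (memF hT)
  have sub1 : ∀ (N : ℕ) (z : ℝ) (w : ℕ), ∀ T ∈ fam0 w 6 (PP N z) ∪ fam1 w 6 (PP N z),
      T ⊆ PP N z := by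
    intro N z w T hT
    rcases Finset.mem_union.1 hT with hT | hT
    · exact sub0 N z w T hT
    · exact Finset.mem_powerset.1 (memF hT)
  have hpr : ∀ (N : ℕ) (z : ℝ), ∀ p ∈ PP N z, p.Prime := by
    intro N z p hp
    rw [PP, Finset.mem_filter] at hp
    exact hp.2.1
  have g01 : ∀ (N : ℕ) (z : ℝ) (n : ℕ), ∀ p ∈ PP N z,
      0 ≤ (fun p : ℕ => if p ∣ n then (1 : ℝ) else 0) p ∧
      (fun p : ℕ => if p ∣ n then (1 : ℝ) else 0) p ≤ 1 := by
    intro N z n p _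
    simp only
    split_ifs <;> norm_num
  constructor
  · intro ε hε M
    obtain ⟨w₀, hw₀⟩ := h2 ε hε
    refine ⟨w₀ + 2, fun z hz N hN hN1 _ D hD => ?_⟩
    obtain ⟨w, hw1, hwz1, hwz2, hP⟩ := key N z hN (by
      have : (0 : ℝ) ≤ w₀ := Nat.cast_nonneg _
      linarith)
    have hww : w₀ ≤ w := by
      have : (w₀ : ℝ) ≤ w := by linarith
      exact_mod_cast this
    have hL := lev N z D w hw1 hwz2 hD hP
    have hL0 : ∀ T ∈ fam0 w 6 (PP N z), ((∏ p ∈ T, p : ℕ) : ℝ) ≤ D :=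
      fun T hT => hL T (Finset.mem_union_left _ hT)
    have hS := sub0 N z w
    have hSp : ∀ T ∈ fam0 w 6 (PP N z), ∀ p ∈ T, p.Prime :=
      fun T hT p hp => hpr N z p (hS T hT hp)
    refine ⟨lamF (fam0 w 6 (PP N z)), isWt N z D _ hS hL0, ?_, ?_⟩
    · intro n hn
      rw [rg_eq, sum_div _ hSp n hn]
      exact (bonf w 6 (PP N z)
        (fun p : ℕ => if p ∣ n then (1 : ℝ) else 0) (by decide) (g01 N z n)).2
    · rw [sum_ms _ hSp D hL0]
      exact (hw₀ w hww (PP N z) hP).1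
  · intro ε hε M
    obtain ⟨w₀, hw₀⟩ := h2 ε hε
    refine ⟨w₀ + 2, fun z hz N hN hN1 _ D hD => ?_⟩
    obtain ⟨w, hw1, hwz1, hwz2, hP⟩ := key N z hN (by
      have : (0 : ℝ) ≤ w₀ := Nat.cast_nonneg _
      linarith)
    have hww : w₀ ≤ w := by
      have : (w₀ : ℝ) ≤ w := by linarith
      exact_mod_cast this
    have hL := lev N z D w hw1 hwz2 hD hP
    have hS := sub1 N z w
    have hSp : ∀ T ∈ fam0 w 6 (PP N z) ∪ fam1 w 6 (PP N z), ∀ p ∈ T, p.Prime :=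
      fun T hT p hp => hpr N z p (hS T hT hp)
    refine ⟨lamF (fam0 w 6 (PP N z) ∪ fam1 w 6 (PP N z)), isWt N z D _ hS hL, ?_, ?_⟩
    · intro n hn
      rw [rg_eq, sum_div _ hSp n hn]
      exact (bonf w 6 (PP N z)
        (fun p : ℕ => if p ∣ n then (1 : ℝ) else 0) (by decide) (g01 N z n)).1
    · rw [sum_ms _ hSp D hL]
      exact (hw₀ w hww (PP N z) hP).2

end

end Pool.Agent.Helper60.GP
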