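import Pool.Agent.Helper60.GP.St

/-! Project GP (MP_b454d1_nt), module M2 -/

set_option autoImplicit false

namespace Pool.Agent.Helper60.GP

open Finset ArithmeticFunction Filter Topology

namespace GPM2

/-- `∑_{p ≤ n} log p / p` -/
noncomputable def A (n : ℕ) : ℝ := ∑ p ∈ (Icc 1 n).filter Nat.Prime, Real.log p / p

/-- `∑_{m < p ≤ n} 1 / p` -/
noncomputable def S (m n : ℕ) : ℝ := ∑ p ∈ (Ioc m n).filter Nat.Prime, (1 : ℝ) / p

lemma A_succ (n : ℕ) : A (n + 1) = A n + if (n + 1).Prime then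
    Real.log ((n + 1 : ℕ) : ℝ) / ((n + 1 : ℕ) : ℝ) else 0 := by
  unfold A
  rw [Finset.sum_filter, Finset.sum_Icc_succ_top (by omega), ← Finset.sum_filter]

lemma S_self (m : ℕ) : S m m = 0 := by simp [S]

lemma S_succ {m n : ℕ} (h : m ≤ n) : S m (n + 1) = S m n + if (n + 1).Prime then
    (1 : ℝ) / ((n + 1 : ℕ) : ℝ) else 0 := by
  unfold S
  rw [Finset.sum_filter, Finset.sum_Ioc_succ_top h, ← Finset.sum_filter]

lemma step {n : ℕ} (hn : 2 ≤ n) : (if (n + 1).Prime then (1 : ℝ) / ((n + 1 : ℕ) : ℝ) else 0) =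
    (A (n + 1) - A n) / Real.log ((n + 1 : ℕ) : ℝ) := by
  have h1 : 0 < Real.log ((n + 1 : ℕ) : ℝ) := Real.log_pos (by exact_mod_cast (by omega : 1 < n + 1))
  rw [A_succ, add_sub_cancel_left]
  split_ifs
  · field_simp
  · simp

lemma main (C : ℝ) (hC : ∀ n : ℕ, 1 ≤ n → |A n - Real.log n| ≤ C) {m n : ℕ} (hm : 2 ≤ m)
    (hmn : m ≤ n) :
    S m n ≤ Real.log (Real.log n) - Real.log (Real.log m) + (A n - Real.log n) / Real.log n -
      (A m - Real.log m) / Real.log m + C * (1 / Real.log m - 1 / Real.log n) ∧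
    Real.log (Real.log n) - Real.log (Real.log m) + (A n - Real.log n) / Real.log n -
      (A m - Real.log m) / Real.log m - (C + 1) * (1 / Real.log m - 1 / Real.log n) ≤ S m n := by
  induction n, hmn using Nat.le_induction with
  | base => rw [S_self]; constructor <;> linarith
  | succ n hmn ih =>
    have hn2 : 2 ≤ n := hm.trans hmn
    have ha : (1 : ℝ) < n := by exact_mod_cast (by omega : 1 < n)
    have hL : 0 < Real.log n := Real.log_pos ha
    have hcast : ((n + 1 : ℕ) : ℝ) = (n : ℝ) + 1 := by push_cast; ring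
    have hL1 : Real.log n < Real.log ((n + 1 : ℕ) : ℝ) := by
      rw [hcast]; exact Real.log_lt_log (by linarith) (by linarith)
    have hL2 : Real.log ((n + 1 : ℕ) : ℝ) ≤ Real.log n + 1 := by
      have h1 : Real.log (((n : ℝ) + 1) / n) ≤ ((n : ℝ) + 1) / n - 1 :=
        Real.log_le_sub_one_of_pos (by positivity)
      rw [Real.log_div (by positivity) (by positivity)] at h1
      have h2 : ((n : ℝ) + 1) / n - 1 ≤ 1 := by
        rw [tsub_le_iff_right, div_le_iff₀ (by linarith)]
        linarith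
      rw [hcast]
      linarith
    have hR := abs_le.1 (hC n (by omega))
    rw [S_succ hmn, step hn2]
    set u := Real.log n with hu
    set v := Real.log ((n + 1 : ℕ) : ℝ) with hv
    have hv0 : 0 < v := by linarith
    have e1 : 1 - u / v ≤ Real.log v - Real.log u := by
      have h := Real.one_sub_inv_le_log_of_pos (show 0 < v / u by positivity)
      rw [inv_div, Real.log_div hv0.ne' hL.ne'] at h
      exact h
    have e2 : Real.log v - Real.log u ≤ v / u - 1 := by
      rw [← Real.log_div hv0.ne' hL.ne']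
      exact Real.log_le_sub_one_of_pos (by positivity)
    have e3 : 0 ≤ 1 / u - 1 / v := by
      have := one_div_le_one_div_of_le hL hL1.le
      linarith
    have e4 : (A n - u) * (1 / u - 1 / v) ≤ C * (1 / u - 1 / v) :=
      mul_le_mul_of_nonneg_right hR.2 e3
    have e5 : -C * (1 / u - 1 / v) ≤ (A n - u) * (1 / u - 1 / v) :=
      mul_le_mul_of_nonneg_right hR.1 e3
    have e6 : (v - u) * (1 / u - 1 / v) ≤ 1 * (1 / u - 1 / v) :=
      mul_le_mul_of_nonneg_right (by linarith) e3
    have i1 : (A (n + 1) - A n) / v = (A (n + 1) - v) / v - (A n - u) / u +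
        (A n - u) * (1 / u - 1 / v) + (1 - u / v) := by
      field_simp
      ring
    have i2 : v / u - 1 = (1 - u / v) + (v - u) * (1 / u - 1 / v) := by
      field_simp
      ring
    rw [i1]
    constructor
    · have := ih.1
      linarith
    · have := ih.2
      linarith

lemma bound (C : ℝ) (hC : ∀ n : ℕ, 1 ≤ n → |A n - Real.log n| ≤ C) {m n : ℕ} (hm : 2 ≤ m)
    (hmn : m ≤ n) :
    |S m n - (Real.log (Real.log n) - Real.log (Real.log m))| ≤ (3 * C + 1) / Real.log m := by
  obtain ⟨h1, h2⟩ := main C hC hm hmn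
  have ha : (1 : ℝ) < m := by exact_mod_cast (by omega : 1 < m)
  have hL : 0 < Real.log m := Real.log_pos ha
  have hLn : Real.log m ≤ Real.log n := Real.log_le_log (by linarith) (by exact_mod_cast hmn)
  have hLn0 : 0 < Real.log n := by linarith
  have hC0 : 0 ≤ C := (abs_nonneg _).trans (hC 1 le_rfl)
  have b1 : |(A n - Real.log n) / Real.log n| ≤ C / Real.log m := by
    rw [abs_div, abs_of_pos hLn0]
    exact div_le_div₀ hC0 (hC n (by omega)) hL hLn
  have b2 : |(A m - Real.log m) / Real.log m| ≤ C / Real.log m := by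
    rw [abs_div, abs_of_pos hL]
    exact div_le_div_of_nonneg_right (hC m (by omega)) hL.le
  have b3 : 0 ≤ 1 / Real.log n := by positivity
  have b4 : (C + 1) * (1 / Real.log m - 1 / Real.log n) ≤ (C + 1) / Real.log m := by
    have : 0 ≤ (C + 1) * (1 / Real.log n) := by positivity
    have e : (C + 1) / Real.log m = (C + 1) * (1 / Real.log m) := by ring
    rw [e, mul_sub]
    linarith
  have b5 : C * (1 / Real.log m - 1 / Real.log n) ≤ (C + 1) / Real.log m := by
    have : 0 ≤ C * (1 / Real.log n) := by positivity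
    have h1 : 0 ≤ 1 / Real.log m := by positivity
    have e : (C + 1) / Real.log m = (C + 1) * (1 / Real.log m) := by ring
    rw [e, mul_sub, add_mul]
    linarith
  have e : (3 * C + 1) / Real.log m = C / Real.log m + C / Real.log m + (C + 1) / Real.log m := by
    ring
  rw [abs_le] at b1 b2 ⊢
  rw [e]
  constructor <;> linarith [b1.1, b1.2, b2.1, b2.2]

/-- the last natural number below `z ^ b` -/
noncomputable def nn (b z : ℝ) : ℕ := ⌈z ^ b⌉₊ - 1

lemma nn_bounds {b z : ℝ} (h : 2 ≤ z ^ b) : z ^ b / 2 ≤ (nn b z : ℝ) ∧ (nn b z : ℝ) ≤ z ^ b := by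
  have h1 : z ^ b ≤ ⌈z ^ b⌉₊ := Nat.le_ceil _
  have h2 : (⌈z ^ b⌉₊ : ℝ) < z ^ b + 1 := Nat.ceil_lt_add_one (by linarith)
  have h3 : 1 ≤ ⌈z ^ b⌉₊ := by
    have : (1 : ℝ) ≤ ⌈z ^ b⌉₊ := by linarith
    exact_mod_cast this
  have h4 : (nn b z : ℝ) = ⌈z ^ b⌉₊ - 1 := by
    rw [nn, Nat.cast_sub h3, Nat.cast_one]
  rw [h4]
  constructor <;> linarith

lemma tendsto_pow {b : ℝ} (hb : 0 < b) : Tendsto (fun z : ℝ => z ^ b) atTop atTop :=
  tendsto_rpow_atTop hb

lemma tendsto_T {b : ℝ} (hb : 0 < b) :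
    Tendsto (fun z : ℝ => Real.log (nn b z) / Real.log z) atTop (𝓝 b) := by
  have h1 : Tendsto (fun z : ℝ => b - Real.log 2 / Real.log z) atTop (𝓝 b) := by
    have h2 : Tendsto (fun z : ℝ => Real.log 2 / Real.log z) atTop (𝓝 0) :=
      tendsto_const_nhds.div_atTop Real.tendsto_log_atTop
    simpa using tendsto_const_nhds.sub h2
  have hev : ∀ᶠ z : ℝ in atTop, 2 ≤ z ^ b ∧ 2 ≤ z :=
    ((tendsto_pow hb).eventually_ge_atTop 2).and (eventually_ge_atTop 2)
  refine tendsto_of_tendsto_of_tendsto_of_le_of_le' h1 tendsto_const_nhds ?_ ?_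
  · filter_upwards [hev] with z hz
    have hz1 : 0 < Real.log z := Real.log_pos (by linarith [hz.2])
    have h3 := (nn_bounds hz.1).1
    have h4 : Real.log (z ^ b / 2) ≤ Real.log (nn b z) :=
      Real.log_le_log (by linarith [hz.1]) h3
    rw [Real.log_div (by linarith [hz.1]) (by norm_num), Real.log_rpow (by linarith [hz.2])] at h4
    rw [le_div_iff₀ hz1, sub_mul, div_mul_cancel₀ _ hz1.ne']
    exact h4
  · filter_upwards [hev] with z hz
    have hz1 : 0 < Real.log z := Real.log_pos (by linarith [hz.2])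
    have h3 := (nn_bounds hz.1).2
    have h3' := (nn_bounds hz.1).1
    have h4 : Real.log (nn b z) ≤ Real.log (z ^ b) :=
      Real.log_le_log (by linarith [hz.1]) h3
    rw [Real.log_rpow (by linarith [hz.2])] at h4
    rw [div_le_iff₀ hz1]
    exact h4

lemma tendsto_log_nn {b : ℝ} (hb : 0 < b) :
    Tendsto (fun z : ℝ => Real.log (nn b z)) atTop atTop := by
  have h1 : Tendsto (fun z : ℝ => (Real.log (nn b z) / Real.log z) * Real.log z) atTop atTop :=
    (tendsto_T hb).pos_mul_atTop hb Real.tendsto_log_atTop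
  refine h1.congr' ?_
  filter_upwards [eventually_ge_atTop (2 : ℝ)] with z hz
  have hz1 : 0 < Real.log z := Real.log_pos (by linarith)
  exact div_mul_cancel₀ _ hz1.ne'

lemma tendsto_nn {b : ℝ} (hb : 0 < b) : Tendsto (fun z : ℝ => (nn b z : ℝ)) atTop atTop := by
  refine tendsto_atTop_mono' atTop ?_ ((tendsto_pow hb).atTop_div_const (by norm_num : (0:ℝ) < 2))
  filter_upwards [(tendsto_pow hb).eventually_ge_atTop 2] with z hz
  exact (nn_bounds hz).1

lemma tendsto_loglog {a b : ℝ} (ha : 0 < a) (hb : 0 < b) :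
    Tendsto (fun z : ℝ => Real.log (Real.log (nn b z)) - Real.log (Real.log (nn a z))) atTop
      (𝓝 (Real.log (b / a))) := by
  have h1 : Tendsto (fun z : ℝ => Real.log ((Real.log (nn b z) / Real.log z) /
      (Real.log (nn a z) / Real.log z))) atTop (𝓝 (Real.log (b / a))) :=
    ((tendsto_T hb).div (tendsto_T ha) ha.ne').log (by positivity)
  refine h1.congr' ?_
  filter_upwards [eventually_ge_atTop (2 : ℝ), (tendsto_log_nn ha).eventually_ge_atTop 1,
    (tendsto_log_nn hb).eventually_ge_atTop 1] with z hz h2 h3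
  have hz1 : 0 < Real.log z := Real.log_pos (by linarith)
  rw [div_div_div_cancel_right₀ hz1.ne', Real.log_div (by linarith) (by linarith)]

end GPM2

open GPM2 in
theorem hM2 (h1 : StM1) : StM2 := by
  intro a b ha hab ε hε
  obtain ⟨C, hC⟩ := h1
  have hb : 0 < b := by linarith
  have hC' : ∀ n : ℕ, 1 ≤ n → |A n - Real.log n| ≤ C := by
    intro n hn
    have := hC n (by exact_mod_cast hn)
    rwa [Nat.floor_natCast] at this
  have hlim : Tendsto (fun z : ℝ => (3 * C + 1) / Real.log (nn a z)) atTop (𝓝 0) :=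
    tendsto_const_nhds.div_atTop (tendsto_log_nn ha)
  have ev : ∀ᶠ z : ℝ in atTop,
      |∑ p ∈ (range ⌈z ^ b⌉₊).filter (fun p : ℕ => p.Prime ∧ z ^ a ≤ p), (1 : ℝ) / p -
        Real.log (b / a)| ≤ ε := by
    filter_upwards [hlim.eventually (gt_mem_nhds (show 0 < ε / 2 by linarith)),
      (tendsto_loglog ha hb).eventually (Metric.ball_mem_nhds _ (show 0 < ε / 2 by linarith)),
      (tendsto_nn ha).eventually_ge_atTop 2, eventually_ge_atTop (2 : ℝ),
      (tendsto_pow ha).eventually_ge_atTop 2] with z e1 e2 e3 e4 e5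
    have hm2 : 2 ≤ nn a z := by exact_mod_cast e3
    have hpow : z ^ a ≤ z ^ b := Real.rpow_le_rpow_of_exponent_le (by linarith) hab
    have hmn : nn a z ≤ nn b z := by
      unfold nn
      have := Nat.ceil_mono hpow
      omega
    have hca : 1 ≤ ⌈z ^ a⌉₊ := by
      rw [Nat.one_le_ceil_iff]; linarith
    have hset : (range ⌈z ^ b⌉₊).filter (fun p : ℕ => p.Prime ∧ z ^ a ≤ p) =
        (Ioc (nn a z) (nn b z)).filter Nat.Prime := by
      ext p
      rw [Finset.mem_filter, Finset.mem_filter, Finset.mem_range, Finset.mem_Ioc]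
      have h1 : z ^ a ≤ p ↔ nn a z < p := by
        rw [← Nat.ceil_le]
        unfold nn
        omega
      rw [h1]
      unfold nn
      constructor
      · rintro ⟨h2, h3, h4⟩
        exact ⟨⟨h4, by omega⟩, h3⟩
      · rintro ⟨⟨h2, h3⟩, h4⟩
        exact ⟨by omega, h4, h2⟩
    rw [hset]
    have h3 := bound C hC' hm2 hmn
    rw [Real.dist_eq] at e2
    change |S (nn a z) (nn b z) - _| ≤ ε
    have h4 : S (nn a z) (nn b z) - Real.log (b / a) =
        (S (nn a z) (nn b z) - (Real.log (Real.log (nn b z)) - Real.log (Real.log (nn a z)))) +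
        (Real.log (Real.log (nn b z)) - Real.log (Real.log (nn a z)) - Real.log (b / a)) := by
      ring
    rw [h4]
    refine (abs_add_le _ _).trans ?_
    linarith
  obtain ⟨z₀, hz₀⟩ := Filter.eventually_atTop.1 ev
  exact ⟨z₀, hz₀⟩

end Pool.Agent.Helper60.GP
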