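import Pool.Agent.Helper60.GP.St

/-! Project GP (MP_b454d1_nt), module M3 -/

set_option autoImplicit false

namespace Pool.Agent.Helper60.GP

open Finset ArithmeticFunction Filter Topology

namespace GPM3

/-- the window sum -/
noncomputable def F (r z : ℝ) : ℝ :=
  ∑ p ∈ (range ⌈z ^ (1 : ℝ)⌉₊).filter (fun p : ℕ => p.Prime ∧ z ^ r ≤ p), (1 : ℝ) / p

lemma mem_PP {N : ℕ} {z : ℝ} {p : ℕ} : p ∈ PP N z ↔ (p : ℝ) < z ∧ p.Prime ∧ ¬ p ∣ N := by
  rw [PP, Finset.mem_filter, Finset.mem_range, Nat.lt_ceil]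

lemma three_le {N : ℕ} {z : ℝ} {p : ℕ} (hN : Even N) (hp : p ∈ PP N z) : (3 : ℝ) ≤ p := by
  rw [mem_PP] at hp
  have h1 : p ≠ 2 := fun h => hp.2.2 (by rw [h]; exact hN.two_dvd)
  have h2 := hp.2.1.two_le
  exact_mod_cast (by omega : 3 ≤ p)

lemma factor_pos {N : ℕ} {z : ℝ} {p : ℕ} (hN : Even N) (hp : p ∈ PP N z) :
    0 < 1 - 1 / ((p : ℝ) - 1) := by
  have h := three_le hN hp
  have : 1 / ((p : ℝ) - 1) ≤ 1 / 2 := one_div_le_one_div_of_le (by norm_num) (by linarith)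
  linarith

lemma VV_pos {N : ℕ} (hN : Even N) (z : ℝ) : 0 < VV N z :=
  Finset.prod_pos fun _ hp => factor_pos hN hp

lemma few (N : ℕ) (hN1 : 1 ≤ N) (r M z : ℝ) (hr : 0 < r) (hz : 1 < z) (hNz : (N : ℝ) ≤ z ^ M)
    (T : Finset ℕ) (hT : ∀ p ∈ T, p.Prime ∧ p ∣ N ∧ z ^ r ≤ p) : (T.card : ℝ) ≤ M / r := by
  have h1 : ∏ p ∈ T, p ∣ N :=
    Finset.prod_primes_dvd _ (fun p hp => (hT p hp).1.prime) (fun p hp => (hT p hp).2.1)
  have h2 : ∏ p ∈ T, p ≤ N := Nat.le_of_dvd (by omega) h1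
  have h3 : (z ^ r) ^ T.card ≤ ∏ p ∈ T, (p : ℝ) := by
    rw [← Finset.prod_const]
    exact Finset.prod_le_prod (fun _ _ => by positivity) fun p hp => (hT p hp).2.2
  have h4 : (z ^ r) ^ T.card ≤ z ^ M := by
    refine h3.trans (le_trans ?_ hNz)
    have h5 : ((∏ p ∈ T, p : ℕ) : ℝ) ≤ N := by exact_mod_cast h2
    rwa [Nat.cast_prod] at h5
  rw [← Real.rpow_natCast, ← Real.rpow_mul (by linarith), Real.rpow_le_rpow_left_iff hz] at h4
  rw [le_div_iff₀ hr]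
  linarith

lemma ratio (N : ℕ) (hN : Even N) (hN1 : 1 ≤ N) (r M z : ℝ) (hr : 0 < r) (hr1 : r ≤ 1)
    (hz : 1 < z) (hNz : (N : ℝ) ≤ z ^ M) :
    Real.exp (F r z - M / r / z ^ r) ≤ VV N (z ^ r) / VV N z ∧
      VV N (z ^ r) / VV N z ≤ Real.exp (F r z + 6 / z ^ r * F r z) := by
  classical
  have hzr : z ^ r ≤ z := by
    calc z ^ r ≤ z ^ (1 : ℝ) := Real.rpow_le_rpow_of_exponent_le hz.le hr1
      _ = z := Real.rpow_one z
  have hzr0 : 0 < z ^ r := by positivity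
  have hsub : PP N (z ^ r) ⊆ PP N z := by
    intro p hp
    rw [mem_PP] at hp ⊢
    exact ⟨hp.1.trans_le hzr, hp.2⟩
  set W := PP N z \ PP N (z ^ r) with hW
  have hWmem : ∀ p, p ∈ W ↔ (p : ℝ) < z ∧ p.Prime ∧ ¬ p ∣ N ∧ z ^ r ≤ p := by
    intro p
    rw [hW, Finset.mem_sdiff, mem_PP, mem_PP]
    constructor
    · rintro ⟨⟨h1, h2, h3⟩, h4⟩
      exact ⟨h1, h2, h3, not_lt.1 fun h => h4 ⟨h, h2, h3⟩⟩
    · rintro ⟨h1, h2, h3, h4⟩
      exact ⟨⟨h1, h2, h3⟩, fun h => absurd h.1 (not_lt.2 h4)⟩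
  have hWPP : ∀ p ∈ W, p ∈ PP N z := fun p hp => (Finset.mem_sdiff.1 hp).1
  set P := ∏ p ∈ W, (1 - 1 / ((p : ℝ) - 1)) with hP
  have hP0 : 0 < P := Finset.prod_pos fun p hp => factor_pos hN (hWPP p hp)
  have hV : VV N z = P * VV N (z ^ r) := by
    rw [VV, VV, hP, hW, Finset.prod_sdiff hsub]
  have hratio : VV N (z ^ r) / VV N z = Real.exp (- Real.log P) := by
    rw [Real.exp_neg, Real.exp_log hP0, hV]
    have h1 := VV_pos hN (z ^ r)
    field_simp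
  have hlog : - Real.log P = ∑ p ∈ W, - Real.log (1 - 1 / ((p : ℝ) - 1)) := by
    rw [hP, Real.log_prod fun p hp => (factor_pos hN (hWPP p hp)).ne', Finset.sum_neg_distrib]
  have hlo : ∑ p ∈ W, (1 : ℝ) / p ≤ - Real.log P := by
    rw [hlog]
    refine Finset.sum_le_sum fun p hp => ?_
    have h3 := three_le hN (hWPP p hp)
    have h1 := Real.log_le_sub_one_of_pos (factor_pos hN (hWPP p hp))
    have h2 : (1 : ℝ) / p ≤ 1 / ((p : ℝ) - 1) :=
      one_div_le_one_div_of_le (by linarith) (by linarith)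
    linarith
  have hup : - Real.log P ≤ ∑ p ∈ W, ((1 : ℝ) / p + 6 / z ^ r * (1 / p)) := by
    rw [hlog]
    refine Finset.sum_le_sum fun p hp => ?_
    have h3 := three_le hN (hWPP p hp)
    have h4 := ((hWmem p).1 hp).2.2.2
    have h1 := Real.one_sub_inv_le_log_of_pos (factor_pos hN (hWPP p hp))
    have h2 : (1 - 1 / ((p : ℝ) - 1))⁻¹ - 1 = 1 / ((p : ℝ) - 2) := by
      have ha : (p : ℝ) - 1 ≠ 0 := by linarith
      have hb : (p : ℝ) - 2 ≠ 0 := by linarith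
      have hc : (1 - 1 / ((p : ℝ) - 1)) = ((p : ℝ) - 2) / ((p : ℝ) - 1) := by
        field_simp
        ring
      rw [hc, inv_div]
      field_simp
      ring
    have h5 : 1 / ((p : ℝ) - 2) ≤ (1 : ℝ) / p + 6 / p * (1 / p) := by
      have hb : 0 < (p : ℝ) - 2 := by linarith
      have hp0 : 0 < (p : ℝ) := by linarith
      rw [div_mul_div_comm, div_add_div _ _ hp0.ne' (by positivity), div_le_div_iff₀ hb (by positivity)]
      nlinarith [mul_pos hp0 hp0, mul_nonneg (mul_nonneg hp0.le hp0.le) (by linarith : 0 ≤ (p : ℝ) - 3)]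
    have h6 : 6 / (p : ℝ) * (1 / p) ≤ 6 / z ^ r * (1 / p) := by
      refine mul_le_mul_of_nonneg_right ?_ (by positivity)
      exact div_le_div_of_nonneg_left (by norm_num) hzr0 h4
    linarith
  -- the window
  set Wi := (range ⌈z ^ (1 : ℝ)⌉₊).filter (fun p : ℕ => p.Prime ∧ z ^ r ≤ p) with hWi
  have hWimem : ∀ p, p ∈ Wi ↔ (p : ℝ) < z ∧ p.Prime ∧ z ^ r ≤ p := by
    intro p
    rw [hWi, Finset.mem_filter, Finset.mem_range, Nat.lt_ceil, Real.rpow_one]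
  have hF : F r z = ∑ p ∈ Wi, (1 : ℝ) / p := rfl
  have hsplit : F r z = ∑ p ∈ Wi.filter (fun p => p ∣ N), (1 : ℝ) / p + ∑ p ∈ W, (1 : ℝ) / p := by
    rw [hF, ← Finset.sum_filter_add_sum_filter_not Wi (fun p => p ∣ N)]
    congr 1
    refine Finset.sum_congr ?_ fun _ _ => rfl
    ext p
    rw [Finset.mem_filter, hWimem, hWmem]
    tauto
  have hT0 : 0 ≤ ∑ p ∈ Wi.filter (fun p => p ∣ N), (1 : ℝ) / p :=
    Finset.sum_nonneg fun _ _ => by positivity
  have hT1 : ∑ p ∈ Wi.filter (fun p => p ∣ N), (1 : ℝ) / p ≤ M / r / z ^ r := by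
    have hcard := few N hN1 r M z hr hz hNz (Wi.filter (fun p => p ∣ N)) (by
      intro p hp
      rw [Finset.mem_filter, hWimem] at hp
      exact ⟨hp.1.2.1, hp.2, hp.1.2.2⟩)
    calc ∑ p ∈ Wi.filter (fun p => p ∣ N), (1 : ℝ) / p
        ≤ ∑ _p ∈ Wi.filter (fun p => p ∣ N), 1 / z ^ r := by
          refine Finset.sum_le_sum fun p hp => ?_
          rw [Finset.mem_filter, hWimem] at hp
          exact one_div_le_one_div_of_le hzr0 hp.1.2.2
      _ = (Wi.filter (fun p => p ∣ N)).card * (1 / z ^ r) := by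
          rw [Finset.sum_const, nsmul_eq_mul]
      _ ≤ M / r * (1 / z ^ r) := mul_le_mul_of_nonneg_right hcard (by positivity)
      _ = M / r / z ^ r := by ring
  have hWF : ∑ p ∈ W, (1 : ℝ) / p ≤ F r z := by linarith
  rw [hratio]
  constructor
  · apply Real.exp_le_exp.2
    linarith
  · apply Real.exp_le_exp.2
    refine hup.trans ?_
    rw [Finset.sum_add_distrib, ← Finset.mul_sum]
    have : 6 / z ^ r * ∑ p ∈ W, (1 : ℝ) / p ≤ 6 / z ^ r * F r z :=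
      mul_le_mul_of_nonneg_left hWF (by positivity)
    linarith

end GPM3

open GPM3 in
theorem hRatio (h1 : StM2) : StRatio := by
  intro r hr hr1 ε hε M
  have hF : Tendsto (F r) atTop (𝓝 (Real.log (1 / r))) := by
    rw [Metric.tendsto_atTop]
    intro δ hδ
    obtain ⟨z₀, hz₀⟩ := h1 r 1 hr hr1 (δ / 2) (by linarith)
    refine ⟨z₀, fun z hz => ?_⟩
    rw [Real.dist_eq]
    have := hz₀ z hz
    have h3 : |F r z - Real.log (1 / r)| ≤ δ / 2 := this
    linarith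
  have hinv : Tendsto (fun z : ℝ => (z ^ r)⁻¹) atTop (𝓝 0) :=
    (tendsto_rpow_atTop hr).inv_tendsto_atTop
  have hl : Tendsto (fun z : ℝ => Real.exp (F r z - M / r / z ^ r)) atTop (𝓝 (1 / r)) := by
    have h1 : Tendsto (fun z : ℝ => F r z - M / r / z ^ r) atTop (𝓝 (Real.log (1 / r) - M / r * 0)) :=
      hF.sub (hinv.const_mul (M / r))
    rw [mul_zero, sub_zero] at h1
    have h3 := (Real.continuous_exp.tendsto _).comp h1
    rwa [Real.exp_log (by positivity)] at h3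
  have hu : Tendsto (fun z : ℝ => Real.exp (F r z + 6 / z ^ r * F r z)) atTop (𝓝 (1 / r)) := by
    have h1 : Tendsto (fun z : ℝ => F r z + 6 / z ^ r * F r z) atTop
        (𝓝 (Real.log (1 / r) + 6 * 0 * Real.log (1 / r))) :=
      hF.add ((hinv.const_mul 6).mul hF)
    rw [mul_zero, zero_mul, add_zero] at h1
    have h3 := (Real.continuous_exp.tendsto _).comp h1
    rwa [Real.exp_log (by positivity)] at h3
  have ev : ∀ᶠ z : ℝ in atTop, |Real.exp (F r z - M / r / z ^ r) - 1 / r| < ε ∧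
      |Real.exp (F r z + 6 / z ^ r * F r z) - 1 / r| < ε ∧ 1 < z := by
    refine (hl.eventually (Metric.ball_mem_nhds _ hε)).and
      ((hu.eventually (Metric.ball_mem_nhds _ hε)).and (eventually_gt_atTop 1)) |>.mono ?_
    intro z hz
    exact hz
  obtain ⟨z₀, hz₀⟩ := Filter.eventually_atTop.1 ev
  refine ⟨z₀, fun z hz N hN hN1 hNz => ?_⟩
  obtain ⟨e1, e2, e3⟩ := hz₀ z hz
  obtain ⟨f1, f2⟩ := ratio N hN hN1 r M z hr hr1 e3 hNz
  rw [abs_lt] at e1 e2
  rw [abs_le]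
  constructor <;> linarith [e1.1, e2.2]

end Pool.Agent.Helper60.GP
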