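import Pool.Agent.Helper60.GP.St

/-! Project GP (MP_b454d1_nt), module M4 -/

set_option autoImplicit false

namespace Pool.Agent.Helper60.GP

open Finset ArithmeticFunction

private theorem term_M4 (p : ℕ) (hp : p.Prime) :
    Real.log p / ((p : ℝ) - 1) ≤ Real.log p / p + 4 * (1 / (p : ℝ) ^ (3 / 2 : ℝ)) := by
  have h2 : (2 : ℝ) ≤ p := by exact_mod_cast hp.two_le
  have h0 : (0 : ℝ) < p := by linarith
  have h1 : (0 : ℝ) < (p : ℝ) - 1 := by linarith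
  have h3 : Real.log p ≤ (p : ℝ) ^ (1 / 2 : ℝ) / (1 / 2) :=
    Real.log_le_rpow_div h0.le (by norm_num)
  have h4 : Real.log p / ((p : ℝ) - 1) = Real.log p / p + Real.log p / (p * (p - 1)) := by
    field_simp
    ring
  have h5 : Real.log p / (p * (p - 1)) ≤ 4 * (1 / (p : ℝ) ^ (3 / 2 : ℝ)) := by
    have h6 : (p : ℝ) ^ (3 / 2 : ℝ) * (p : ℝ) ^ (1 / 2 : ℝ) = p * p := by
      rw [← Real.rpow_add h0, show (3 / 2 : ℝ) + 1 / 2 = 2 by norm_num, Real.rpow_two, sq]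
    have h7 : 0 < (p : ℝ) ^ (3 / 2 : ℝ) := Real.rpow_pos_of_pos h0 _
    rw [mul_one_div, div_le_div_iff₀ (mul_pos h0 h1) h7]
    have h8 : Real.log p ≤ 2 * (p : ℝ) ^ (1 / 2 : ℝ) := by linarith
    calc Real.log p * (p : ℝ) ^ (3 / 2 : ℝ)
        ≤ (2 * (p : ℝ) ^ (1 / 2 : ℝ)) * (p : ℝ) ^ (3 / 2 : ℝ) :=
          mul_le_mul_of_nonneg_right h8 h7.le
      _ = 2 * (p * p) := by rw [← h6]; ring
      _ ≤ 4 * (p * (p - 1)) := by nlinarith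
  rw [h4]
  linarith

theorem hLogSum (h1 : StM1) : StLogSum := by
  obtain ⟨C, hC⟩ := h1
  have hs : Summable (fun n : ℕ => 1 / (n : ℝ) ^ (3 / 2 : ℝ)) :=
    Real.summable_one_div_nat_rpow.2 (by norm_num)
  refine ⟨C + 4 * ∑' n : ℕ, 1 / (n : ℝ) ^ (3 / 2 : ℝ), fun N z hz => ?_⟩
  have hP : ∀ p ∈ PP N z, p.Prime ∧ (p : ℝ) < z := by
    intro p hp
    rw [PP, Finset.mem_filter, Finset.mem_range, Nat.lt_ceil] at hp
    exact ⟨hp.2.1, hp.1⟩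
  have e1 : ∑ p ∈ PP N z, Real.log p / ((p : ℝ) - 1) ≤
      ∑ p ∈ PP N z, (Real.log p / p + 4 * (1 / (p : ℝ) ^ (3 / 2 : ℝ))) :=
    Finset.sum_le_sum fun p hp => term_M4 p (hP p hp).1
  rw [Finset.sum_add_distrib, ← Finset.mul_sum] at e1
  have e2 : ∑ p ∈ PP N z, 1 / (p : ℝ) ^ (3 / 2 : ℝ) ≤ ∑' n : ℕ, 1 / (n : ℝ) ^ (3 / 2 : ℝ) :=
    hs.sum_le_tsum _ fun n _ => by positivity
  have e3 : ∑ p ∈ PP N z, Real.log p / p ≤
      ∑ p ∈ (Icc 1 ⌊z⌋₊).filter Nat.Prime, Real.log p / p := by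
    refine Finset.sum_le_sum_of_subset_of_nonneg ?_ ?_
    · intro p hp
      obtain ⟨h2, h3⟩ := hP p hp
      rw [Finset.mem_filter, Finset.mem_Icc]
      exact ⟨⟨h2.one_lt.le, Nat.le_floor h3.le⟩, h2⟩
    · intro p hp _
      rw [Finset.mem_filter] at hp
      exact div_nonneg (Real.log_nonneg (by exact_mod_cast hp.2.one_lt.le)) (Nat.cast_nonneg _)
  have e4 := (abs_le.1 (hC z hz)).2
  linarith

end Pool.Agent.Helper60.GP
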