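import Pool.Agent.Helper60.GP.M_M3
import Pool.Agent.Helper28.PC.Mert

/-! Project GP (MP_b454d1_nt), module M5 -/

set_option autoImplicit false

namespace Pool.Agent.Helper60.GP

open Finset ArithmeticFunction Filter Topology

namespace GPM5

open GPM3

/-- the odd primes below `z` -/
noncomputable def AA (z : ℝ) : Finset ℕ := (range ⌈z⌉₊).filter (fun p => p.Prime ∧ 2 < p)

lemma mem_AA {z : ℝ} {p : ℕ} : p ∈ AA z ↔ (p : ℝ) < z ∧ p.Prime ∧ 2 < p := by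
  rw [AA, Finset.mem_filter, Finset.mem_range, Nat.lt_ceil]

lemma fac_pos {p : ℕ} (hp : 2 < p) : 0 < 1 - 1 / ((p : ℝ) - 1) := by
  have h : (3 : ℝ) ≤ p := by exact_mod_cast hp
  have : 1 / ((p : ℝ) - 1) ≤ 1 / 2 := one_div_le_one_div_of_le (by norm_num) (by linarith)
  linarith

lemma fac_log {p : ℕ} (hp : 2 < p) :
    -((1 : ℝ) / p + 6 * ((p : ℝ) ^ 2)⁻¹) ≤ Real.log (1 - 1 / ((p : ℝ) - 1)) := by
  have h3 : (3 : ℝ) ≤ p := by exact_mod_cast hp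
  have h1 := Real.one_sub_inv_le_log_of_pos (fac_pos hp)
  have h2 : (1 - 1 / ((p : ℝ) - 1))⁻¹ - 1 = 1 / ((p : ℝ) - 2) := by
    have ha : (p : ℝ) - 1 ≠ 0 := by linarith
    have hb : (p : ℝ) - 2 ≠ 0 := by linarith
    have hc : (1 - 1 / ((p : ℝ) - 1)) = ((p : ℝ) - 2) / ((p : ℝ) - 1) := by
      field_simp
      ring
    rw [hc, inv_div]
    field_simp
    ring
  have h5 : 1 / ((p : ℝ) - 2) ≤ (1 : ℝ) / p + 6 * ((p : ℝ) ^ 2)⁻¹ := by
    have hb : 0 < (p : ℝ) - 2 := by linarith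
    have hp0 : 0 < (p : ℝ) := by linarith
    rw [← div_eq_mul_inv, div_add_div _ _ hp0.ne' (by positivity), div_le_div_iff₀ hb (by positivity)]
    nlinarith [mul_pos hp0 hp0, mul_nonneg (mul_nonneg hp0.le hp0.le) (by linarith : 0 ≤ (p : ℝ) - 3)]
  linarith

lemma AA_prod {z : ℝ} (hz : 2 ≤ z) :
    Real.exp (-11) / Real.log z ≤ ∏ p ∈ AA z, (1 - 1 / ((p : ℝ) - 1)) := by
  have hn : 2 ≤ ⌊z⌋₊ := Nat.le_floor (by exact_mod_cast hz)
  have hpos : 0 < ∏ p ∈ AA z, (1 - 1 / ((p : ℝ) - 1)) :=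
    Finset.prod_pos fun p hp => fac_pos (mem_AA.1 hp).2.2
  have h1 : -(∑ p ∈ AA z, (1 : ℝ) / p + 6 * ∑ p ∈ AA z, ((p : ℝ) ^ 2)⁻¹) ≤
      Real.log (∏ p ∈ AA z, (1 - 1 / ((p : ℝ) - 1))) := by
    rw [Real.log_prod fun p hp => (fac_pos (mem_AA.1 hp).2.2).ne', Finset.mul_sum,
      ← Finset.sum_add_distrib, ← Finset.sum_neg_distrib]
    exact Finset.sum_le_sum fun p hp => fac_log (mem_AA.1 hp).2.2
  have h2 : ∑ p ∈ AA z, (1 : ℝ) / p ≤ Real.log (Real.log ⌊z⌋₊) + 5 := by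
    refine (Finset.sum_le_sum_of_subset_of_nonneg ?_ fun _ _ _ => by positivity).trans
      (Pool.Agent.Helper28.PC.sum_inv_le hn)
    intro p hp
    rw [mem_AA] at hp
    rw [Nat.mem_primesLE]
    exact ⟨Nat.le_floor hp.1.le, hp.2.1⟩
  have h3 : ∑ p ∈ AA z, ((p : ℝ) ^ 2)⁻¹ ≤ 1 := by
    have h4 : ∑ p ∈ AA z, ((p : ℝ) ^ 2)⁻¹ ≤ ∑ p ∈ Ioc 1 ⌊z⌋₊, ((p : ℝ) ^ 2)⁻¹ := by
      refine Finset.sum_le_sum_of_subset_of_nonneg ?_ fun _ _ _ => by positivity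
      intro p hp
      rw [mem_AA] at hp
      rw [Finset.mem_Ioc]
      exact ⟨by omega, Nat.le_floor hp.1.le⟩
    have h5 := sum_Ioc_inv_sq_le_sub (α := ℝ) (k := 1) (n := ⌊z⌋₊) one_ne_zero (by omega)
    have h6 : (0 : ℝ) ≤ ((⌊z⌋₊ : ℕ) : ℝ)⁻¹ := by positivity
    rw [Nat.cast_one, inv_one] at h5
    linarith
  have hfl : (⌊z⌋₊ : ℝ) ≤ z := Nat.floor_le (by linarith)
  have hfl2 : (2 : ℝ) ≤ (⌊z⌋₊ : ℝ) := by exact_mod_cast hn
  have hL1 : 0 < Real.log (⌊z⌋₊ : ℝ) := Real.log_pos (by linarith)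
  have hL2 : Real.log (⌊z⌋₊ : ℝ) ≤ Real.log z := Real.log_le_log (by linarith) hfl
  have hL3 : Real.log (Real.log (⌊z⌋₊ : ℝ)) ≤ Real.log (Real.log z) := Real.log_le_log hL1 hL2
  have h7 : -11 - Real.log (Real.log z) ≤ Real.log (∏ p ∈ AA z, (1 - 1 / ((p : ℝ) - 1))) := by
    linarith
  have h8 := Real.exp_le_exp.2 h7
  rwa [Real.exp_log hpos, Real.exp_sub, Real.exp_log (by linarith)] at h8

/-- the odd prime factors of `N` -/
def OF (N : ℕ) : Finset ℕ := N.primeFactors.filter (fun p => 2 < p)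

lemma mem_OF {N : ℕ} (hN : N ≠ 0) {p : ℕ} : p ∈ OF N ↔ p.Prime ∧ p ∣ N ∧ 2 < p := by
  rw [OF, Finset.mem_filter, Nat.mem_primeFactors]
  tauto

lemma ratio_pos {p : ℕ} (hp : 2 < p) : 1 ≤ ((p : ℝ) - 1) / ((p : ℝ) - 2) := by
  have h : (3 : ℝ) ≤ p := by exact_mod_cast hp
  rw [le_div_iff₀ (by linarith)]
  linarith

lemma ratio_mul {p : ℕ} (hp : 2 < p) :
    (1 - 1 / ((p : ℝ) - 1)) * (((p : ℝ) - 1) / ((p : ℝ) - 2)) = 1 := by
  have h : (3 : ℝ) ≤ p := by exact_mod_cast hp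
  have ha : (p : ℝ) - 1 ≠ 0 := by linarith
  have hb : (p : ℝ) - 2 ≠ 0 := by linarith
  field_simp
  ring

lemma VV_eq {N : ℕ} (hN : Even N) (hN0 : N ≠ 0) (z : ℝ) :
    VV N z = (∏ p ∈ AA z, (1 - 1 / ((p : ℝ) - 1))) *
      ∏ p ∈ (OF N).filter (fun p : ℕ => (p : ℝ) < z), ((p : ℝ) - 1) / ((p : ℝ) - 2) := by
  classical
  have h1 : (AA z).filter (fun p => ¬ p ∣ N) = PP N z := by
    ext p
    rw [Finset.mem_filter, mem_AA, mem_PP]
    constructor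
    · rintro ⟨⟨a, b, c⟩, d⟩
      exact ⟨a, b, d⟩
    · rintro ⟨a, b, d⟩
      refine ⟨⟨a, b, ?_⟩, d⟩
      have h1 : p ≠ 2 := fun h => d (by rw [h]; exact hN.two_dvd)
      have h2 := b.two_le
      omega
  have h2 : (AA z).filter (fun p => p ∣ N) = (OF N).filter (fun p : ℕ => (p : ℝ) < z) := by
    ext p
    rw [Finset.mem_filter, mem_AA, Finset.mem_filter, mem_OF hN0]
    tauto
  rw [← Finset.prod_filter_mul_prod_filter_not (AA z) (fun p => p ∣ N), h1, h2, VV, mul_right_comm,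
    ← Finset.prod_mul_distrib]
  have key : ∏ p ∈ (OF N).filter (fun p : ℕ => (p : ℝ) < z),
      ((1 - 1 / ((p : ℝ) - 1)) * (((p : ℝ) - 1) / ((p : ℝ) - 2))) = 1 := by
    refine Finset.prod_eq_one fun p hp => ?_
    rw [Finset.mem_filter, mem_OF hN0] at hp
    exact ratio_mul hp.1.2.2
  rw [key, one_mul]

lemma SS_eq {N : ℕ} (z : ℝ) : SS N =
    (∏ p ∈ (OF N).filter (fun p : ℕ => (p : ℝ) < z), ((p : ℝ) - 1) / ((p : ℝ) - 2)) *
      ∏ p ∈ (OF N).filter (fun p : ℕ => ¬ (p : ℝ) < z), ((p : ℝ) - 1) / ((p : ℝ) - 2) := by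
  classical
  rw [Finset.prod_filter_mul_prod_filter_not]
  rfl

lemma big {N : ℕ} (hN0 : N ≠ 0) (u : ℝ) (hu : 0 < u) (hN1 : 1 < N) (hz : 3 ≤ (N : ℝ) ^ u) :
    ∏ p ∈ (OF N).filter (fun p : ℕ => ¬ (p : ℝ) < (N : ℝ) ^ u), ((p : ℝ) - 1) / ((p : ℝ) - 2) ≤
      Real.exp (1 / u / ((N : ℝ) ^ u - 2)) := by
  set z := (N : ℝ) ^ u with hzz
  set T := (OF N).filter (fun p : ℕ => ¬ (p : ℝ) < z) with hT
  have hcard := few N (by omega) u 1 N hu (by exact_mod_cast hN1) (by rw [Real.rpow_one]) T (by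
    intro p hp
    rw [hT, Finset.mem_filter, mem_OF hN0] at hp
    exact ⟨hp.1.1, hp.1.2.1, not_lt.1 hp.2⟩)
  have hz2 : 0 < z - 2 := by linarith
  calc ∏ p ∈ T, ((p : ℝ) - 1) / ((p : ℝ) - 2) ≤ ∏ _p ∈ T, Real.exp (1 / (z - 2)) := by
        refine Finset.prod_le_prod (fun p hp => ?_) fun p hp => ?_
        · rw [hT, Finset.mem_filter, mem_OF hN0] at hp
          exact zero_le_one.trans (ratio_pos hp.1.2.2)
        · rw [hT, Finset.mem_filter, mem_OF hN0] at hp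
          have h1 : z ≤ p := not_lt.1 hp.2
          have h2 : ((p : ℝ) - 1) / ((p : ℝ) - 2) = 1 / ((p : ℝ) - 2) + 1 := by
            have : (p : ℝ) - 2 ≠ 0 := by linarith
            field_simp
            ring
          rw [h2]
          have h3 : 1 / ((p : ℝ) - 2) ≤ 1 / (z - 2) :=
            one_div_le_one_div_of_le hz2 (by linarith)
          linarith [Real.add_one_le_exp (1 / (z - 2))]
    _ = Real.exp (T.card * (1 / (z - 2))) := by
        rw [Finset.prod_const, Real.exp_nat_mul]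
    _ ≤ Real.exp (1 / u / (z - 2)) := by
        apply Real.exp_le_exp.2
        calc (T.card : ℝ) * (1 / (z - 2)) ≤ 1 / u * (1 / (z - 2)) :=
              mul_le_mul_of_nonneg_right hcard (by positivity)
          _ = 1 / u / (z - 2) := by ring

end GPM5

open GPM3 GPM5 in
theorem hVlow (h1 : StM1) (h2 : StM2) : StVlow := by
  intro u hu
  refine ⟨Real.exp (-11) / (2 * u), by positivity, ?_⟩
  have hz : Tendsto (fun N : ℕ => (N : ℝ) ^ u) atTop atTop :=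
    (tendsto_rpow_atTop hu).comp tendsto_natCast_atTop_atTop
  have hlim : Tendsto (fun N : ℕ => Real.exp (1 / u / ((N : ℝ) ^ u - 2))) atTop (𝓝 1) := by
    clear h1 h2
    have h1 : Tendsto (fun N : ℕ => (N : ℝ) ^ u - 2) atTop atTop :=
      tendsto_atTop_add_const_right _ (-2) hz
    have h2 : Tendsto (fun N : ℕ => 1 / u / ((N : ℝ) ^ u - 2)) atTop (𝓝 0) :=
      tendsto_const_nhds.div_atTop h1
    have h3 := (Real.continuous_exp.tendsto _).comp h2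
    rwa [Real.exp_zero] at h3
  have ev : ∀ᶠ N : ℕ in atTop, Real.exp (1 / u / ((N : ℝ) ^ u - 2)) < 2 ∧ 3 ≤ (N : ℝ) ^ u ∧
      2 ≤ N :=
    (hlim.eventually (gt_mem_nhds (by norm_num : (1 : ℝ) < 2))).and
      ((hz.eventually_ge_atTop 3).and (eventually_ge_atTop 2))
  obtain ⟨N₀, hN₀⟩ := Filter.eventually_atTop.1 ev
  refine ⟨N₀, fun N hN hE => ?_⟩
  obtain ⟨e1, e2, e3⟩ := hN₀ N hN
  have hN0 : N ≠ 0 := by omega
  have hb := big hN0 u hu (by omega) e2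
  have hNr : (1 : ℝ) < N := by exact_mod_cast (by omega : 1 < N)
  have hlN : 0 < Real.log N := Real.log_pos hNr
  have hA := AA_prod (z := (N : ℝ) ^ u) (by linarith)
  rw [Real.log_rpow (by linarith)] at hA
  rw [VV_eq hE hN0, SS_eq ((N : ℝ) ^ u)]
  set a := ∏ p ∈ (OF N).filter (fun p : ℕ => (p : ℝ) < (N : ℝ) ^ u), ((p : ℝ) - 1) / ((p : ℝ) - 2)
    with ha
  set b := ∏ p ∈ (OF N).filter (fun p : ℕ => ¬ (p : ℝ) < (N : ℝ) ^ u),
    ((p : ℝ) - 1) / ((p : ℝ) - 2) with hbb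
  have ha0 : 0 ≤ a := Finset.prod_nonneg fun p hp => by
    rw [Finset.mem_filter, mem_OF hN0] at hp
    exact zero_le_one.trans (ratio_pos hp.1.2.2)
  have hb2 : b ≤ 2 := by linarith
  calc Real.exp (-11) / (2 * u) * (a * b) / Real.log N
      ≤ Real.exp (-11) / (2 * u) * (a * 2) / Real.log N := by
        gcongr
    _ = Real.exp (-11) / (u * Real.log N) * a := by
        field_simp
    _ ≤ _ := mul_le_mul_of_nonneg_right hA ha0

end Pool.Agent.Helper60.GP
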