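import Pool.Agent.Helper60.GP.St

/-! Project GP (MP_b454d1_nt), module R1 -/

set_option autoImplicit false

namespace Pool.Agent.Helper60.GP

open Finset ArithmeticFunction

theorem mem_PP_R1 {N : ℕ} {z : ℝ} {p : ℕ} :
    p ∈ PP N z ↔ (p : ℝ) < z ∧ p.Prime ∧ ¬ p ∣ N := by
  unfold PP
  rw [mem_filter, mem_range, Nat.lt_ceil]

theorem PP_mono_R1 {N : ℕ} {z₁ z : ℝ} (h : z₁ ≤ z) : PP N z₁ ⊆ PP N z := by
  intro p hp
  rw [mem_PP_R1] at hp ⊢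
  exact ⟨hp.1.trans_le h, hp.2⟩

theorem PP_filter_R1 {N : ℕ} {z : ℝ} {l : ℕ} (hl : l ∈ PP N z) :
    (PP N z).filter (fun j => j < l) = PP N (l : ℝ) := by
  ext p
  rw [mem_PP_R1] at hl
  rw [mem_filter, mem_PP_R1, mem_PP_R1]
  constructor
  · rintro ⟨⟨_, h2⟩, h3⟩
    exact ⟨by exact_mod_cast h3, h2⟩
  · rintro ⟨h1, h2⟩
    exact ⟨⟨h1.trans hl.1, h2⟩, by exact_mod_cast h1⟩

theorem prod_R1 (N : ℕ) (z : ℝ) (a : ℕ → ℝ) :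
    ∏ p ∈ PP N z, (1 - a p) = 1 - ∑ l ∈ PP N z, a l * ∏ p ∈ PP N l, (1 - a p) := by
  rw [prod_one_sub_ordered]
  congr 1
  refine sum_congr rfl fun l hl => ?_
  rw [PP_filter_R1 hl]

theorem hBu : StBu := by
  intro N z₁ z hz a
  rw [prod_R1 N z a, prod_R1 N z₁ a, ← sum_sdiff (PP_mono_R1 hz)]
  ring

end Pool.Agent.Helper60.GP
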