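import Pool.Agent.Helper60.GP.St
import Pool.Agent.Helper60.GP.M_R1

/-! Project GP (MP_b454d1_nt), module R2 -/

set_option autoImplicit false

namespace Pool.Agent.Helper60.GP

open Finset ArithmeticFunction

theorem dvd_div_R2 {l l' m : ℕ} (h1 : l.Prime) (h2 : l'.Prime) (hne : l ≠ l') (h3 : l ∣ m)
    (h4 : l' ∣ m) : l' ∣ m / l := by
  have h5 : Nat.Coprime l' l := (Nat.coprime_primes h2 h1).2 (Ne.symm hne)
  apply h5.dvd_of_dvd_mul_left
  rwa [Nat.mul_div_cancel' h3]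

theorem other_R2 {N : ℕ} {z₁ z D : ℝ} {laml : ℕ → ℕ → ℝ}
    (hl : ∀ l ∈ PP N z \ PP N z₁, IsWt N l (D / l) (laml l)) {l l' m : ℕ}
    (h1 : l ∈ PP N z \ PP N z₁) (h2 : l' ∈ PP N z \ PP N z₁) (h3 : l ∣ m) (h4 : l' ∣ m)
    (hne : l ≠ l') (h5 : laml l (m / l) ≠ 0) : laml l' (m / l') = 0 := by
  by_contra h6
  have p1 : l.Prime := (mem_PP_R1.1 (mem_sdiff.1 h1).1).2.1
  have p2 : l'.Prime := (mem_PP_R1.1 (mem_sdiff.1 h2).1).2.1
  have a1 := ((hl l h1).supp _ h5).2.2 l' p2 (dvd_div_R2 p1 p2 hne h3 h4)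
  have a2 := ((hl l' h2).supp _ h6).2.2 l p1 (dvd_div_R2 p2 p1 (Ne.symm hne) h4 h3)
  have b1 := (mem_PP_R1.1 a1).1
  have b2 := (mem_PP_R1.1 a2).1
  linarith

/-- the composed weights -/
noncomputable def lam_R2 (N : ℕ) (z₁ z : ℝ) (lam₀ : ℕ → ℝ) (laml : ℕ → ℕ → ℝ) (m : ℕ) : ℝ :=
  lam₀ m - ∑ l ∈ (PP N z \ PP N z₁).filter (fun l => l ∣ m), laml l (m / l)

theorem cases_R2 {N : ℕ} {z₁ z D : ℝ} {lam₀ : ℕ → ℝ} {laml : ℕ → ℕ → ℝ}
    (h0 : IsWt N z₁ D lam₀)
    (hl : ∀ l ∈ PP N z \ PP N z₁, IsWt N l (D / l) (laml l)) (m : ℕ) :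
    lam_R2 N z₁ z lam₀ laml m = lam₀ m ∨ ∃ l ∈ PP N z \ PP N z₁, l ∣ m ∧
      lam_R2 N z₁ z lam₀ laml m = -laml l (m / l) ∧ laml l (m / l) ≠ 0 := by
  by_cases h : ∀ l ∈ (PP N z \ PP N z₁).filter (fun l => l ∣ m), laml l (m / l) = 0
  · left
    unfold lam_R2
    rw [sum_eq_zero h, sub_zero]
  · right
    push Not at h
    obtain ⟨l, hlm, h1⟩ := h
    rw [mem_filter] at hlm
    obtain ⟨hL, hm⟩ := hlm
    refine ⟨l, hL, hm, ?_, h1⟩
    unfold lam_R2
    have h2 : ∑ l' ∈ (PP N z \ PP N z₁).filter (fun l => l ∣ m), laml l' (m / l') =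
        laml l (m / l) := by
      apply sum_eq_single_of_mem l (mem_filter.2 ⟨hL, hm⟩)
      intro l' hl' hne
      rw [mem_filter] at hl'
      exact other_R2 hl hL hl'.1 hm hl'.2 (Ne.symm hne) h1
    have h3 : lam₀ m = 0 := by
      by_contra h4
      have p1 : l.Prime := (mem_PP_R1.1 (mem_sdiff.1 hL).1).2.1
      exact (mem_sdiff.1 hL).2 ((h0.supp m h4).2.2 l p1 hm)
    rw [h2, h3, zero_sub]

theorem isWt_R2 {N : ℕ} {z₁ z D : ℝ} (hz : z₁ ≤ z) {lam₀ : ℕ → ℝ} {laml : ℕ → ℕ → ℝ}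
    (h0 : IsWt N z₁ D lam₀)
    (hl : ∀ l ∈ PP N z \ PP N z₁, IsWt N l (D / l) (laml l)) :
    IsWt N z D (lam_R2 N z₁ z lam₀ laml) := by
  constructor
  · intro m
    rcases cases_R2 h0 hl m with h | ⟨l, hL, -, h, -⟩
    · rw [h]; exact h0.bound m
    · rw [h, abs_neg]; exact (hl l hL).bound _
  · intro m hm
    rcases cases_R2 h0 hl m with h | ⟨l, hL, hlm, -, h⟩
    · rw [h] at hm
      obtain ⟨a1, a2, a3⟩ := h0.supp m hm
      exact ⟨a1, a2, fun p hp hpm => PP_mono_R1 hz (a3 p hp hpm)⟩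
    · obtain ⟨a1, a2, a3⟩ := (hl l hL).supp _ h
      have hp1 := mem_PP_R1.1 (mem_sdiff.1 hL).1
      have p1 : l.Prime := hp1.2.1
      have hl0 : (0 : ℝ) < l := by exact_mod_cast p1.pos
      have e : l * (m / l) = m := Nat.mul_div_cancel' hlm
      have hnd : ¬ l ∣ m / l := by
        intro h5
        have := (mem_PP_R1.1 (a3 l p1 h5)).1
        linarith
      refine ⟨?_, ?_, ?_⟩
      · rw [← e, Nat.squarefree_mul ((Nat.Prime.coprime_iff_not_dvd p1).2 hnd)]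
        exact ⟨p1.prime.squarefree, a1⟩
      · have e2 : (m : ℝ) = l * ((m / l : ℕ) : ℝ) := by exact_mod_cast e.symm
        rw [e2]
        rw [le_div_iff₀ hl0] at a2
        linarith
      · intro p hp hpm
        rw [← e] at hpm
        rcases (Nat.Prime.dvd_mul hp).1 hpm with h5 | h5
        · rw [(Nat.prime_dvd_prime_iff_eq hp p1).1 h5]
          exact (mem_sdiff.1 hL).1
        · exact PP_mono_R1 hp1.1.le (a3 p hp h5)

theorem coprime_R2 {N : ℕ} {D : ℝ} {l : ℕ} {w : ℕ → ℝ} (p1 : l.Prime) (hw : IsWt N l D w) {m : ℕ}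
    (h : w m ≠ 0) : Nat.Coprime l m := by
  rw [Nat.Prime.coprime_iff_not_dvd p1]
  intro h5
  have := (mem_PP_R1.1 ((hw.supp m h).2.2 l p1 h5)).1
  linarith

theorem div_R2 {N : ℕ} {D : ℝ} {l : ℕ} {w : ℕ → ℝ} (p1 : l.Prime) (hw : IsWt N l D w) (n : ℕ) :
    ∑ m ∈ n.divisors, (if l ∣ m then w (m / l) else 0) =
      if l ∣ n then ∑ m ∈ n.divisors, w m else 0 := by
  split_ifs with h
  · rw [← sum_filter]
    have h1 : ∑ m ∈ n.divisors, w m = ∑ m ∈ n.divisors.filter (fun m => l * m ∣ n), w m := by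
      symm
      apply sum_filter_of_ne
      intro m hm h2
      exact (coprime_R2 p1 hw h2).mul_dvd_of_dvd_of_dvd h (Nat.dvd_of_mem_divisors hm)
    rw [h1]
    refine sum_nbij' (fun m => m / l) (fun m => l * m) ?_ ?_ ?_ ?_ ?_
    · intro m hm
      rw [mem_filter, Nat.mem_divisors] at hm
      rw [mem_filter, Nat.mem_divisors]
      have e : l * (m / l) = m := Nat.mul_div_cancel' hm.2
      refine ⟨⟨(Nat.div_dvd_of_dvd hm.2).trans hm.1.1, hm.1.2⟩, ?_⟩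
      rw [e]
      exact hm.1.1
    · intro m hm
      rw [mem_filter, Nat.mem_divisors] at hm
      rw [mem_filter, Nat.mem_divisors]
      exact ⟨⟨hm.2, hm.1.2⟩, dvd_mul_right l m⟩
    · intro m hm
      rw [mem_filter] at hm
      exact Nat.mul_div_cancel' hm.2
    · intro m _
      exact Nat.mul_div_cancel_left m p1.pos
    · intro m _
      rfl
  · apply sum_eq_zero
    intro m hm
    rw [if_neg]
    intro h2
    exact h (h2.trans (Nat.dvd_of_mem_divisors hm))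

theorem ms_R2 {N : ℕ} {D : ℝ} {l : ℕ} {w : ℕ → ℝ} (p1 : l.Prime) (hw : IsWt N l (D / l) w) :
    ∑ m ∈ Icc 1 ⌊D⌋₊, (if l ∣ m then w (m / l) else 0) / (Nat.totient m : ℝ) =
      1 / ((l : ℝ) - 1) * MS (D / l) w := by
  have hl0 : (0 : ℝ) < l := by exact_mod_cast p1.pos
  unfold MS
  rw [mul_sum]
  have h1 : ∑ m ∈ Icc 1 ⌊D⌋₊, (if l ∣ m then w (m / l) else 0) / (Nat.totient m : ℝ) =
      ∑ m ∈ (Icc 1 ⌊D⌋₊).filter (fun m => l ∣ m), w (m / l) / (Nat.totient m : ℝ) := by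
    rw [sum_filter]
    refine sum_congr rfl fun m _ => ?_
    split_ifs <;> simp
  rw [h1]
  refine sum_nbij' (fun m => m / l) (fun m => l * m) ?_ ?_ ?_ ?_ ?_
  · intro m hm
    rw [mem_filter, mem_Icc] at hm
    obtain ⟨⟨a1, a2⟩, k, rfl⟩ := hm
    have hk : k ≠ 0 := by
      rintro rfl
      simp at a1
    simp only [Nat.mul_div_cancel_left k p1.pos]
    rw [mem_Icc]
    refine ⟨by omega, ?_⟩
    rw [Nat.le_floor_iff' (by omega)] at a2
    rw [Nat.le_floor_iff' hk, le_div_iff₀ hl0]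
    push_cast at a2
    linarith
  · intro m hm
    rw [mem_Icc] at hm
    obtain ⟨a1, a2⟩ := hm
    rw [mem_filter, mem_Icc]
    refine ⟨⟨?_, ?_⟩, dvd_mul_right l m⟩
    · have := p1.pos
      have : 0 < l * m := by positivity
      omega
    · have := p1.pos
      have h0 : l * m ≠ 0 := by positivity
      rw [Nat.le_floor_iff' (by omega), le_div_iff₀ hl0] at a2
      rw [Nat.le_floor_iff' h0]
      push_cast
      linarith
  · intro m hm
    rw [mem_filter] at hm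
    exact Nat.mul_div_cancel' hm.2
  · intro m _
    exact Nat.mul_div_cancel_left m p1.pos
  · intro m hm
    rw [mem_filter, mem_Icc] at hm
    obtain ⟨⟨a1, a2⟩, k, rfl⟩ := hm
    simp only [Nat.mul_div_cancel_left k p1.pos]
    by_cases h2 : w k = 0
    · rw [h2]; simp
    · rw [Nat.totient_mul (coprime_R2 p1 hw h2), Nat.totient_prime p1, Nat.cast_mul,
        Nat.cast_sub p1.one_lt.le, Nat.cast_one, div_mul_div_comm, one_mul]

theorem hComp : StComp := by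
  intro N z₁ z D lam₀ laml hz h0 hl
  have hP : ∀ l ∈ PP N z \ PP N z₁, l.Prime := fun l h => (mem_PP_R1.1 (mem_sdiff.1 h).1).2.1
  refine ⟨lam_R2 N z₁ z lam₀ laml, isWt_R2 hz h0 hl, ?_, ?_⟩
  · intro n _
    unfold lam_R2
    rw [sum_sub_distrib]
    congr 1
    have h1 : ∀ m ∈ n.divisors, ∑ l ∈ (PP N z \ PP N z₁).filter (fun l => l ∣ m), laml l (m / l) =
        ∑ l ∈ PP N z \ PP N z₁, if l ∣ m then laml l (m / l) else 0 := fun m _ => by
      rw [sum_filter]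
    rw [sum_congr rfl h1, sum_comm, sum_filter]
    exact sum_congr rfl fun l hL => div_R2 (hP l hL) (hl l hL) n
  · have h2 : MS D (lam_R2 N z₁ z lam₀ laml) = MS D lam₀ -
        ∑ m ∈ Icc 1 ⌊D⌋₊, (∑ l ∈ PP N z \ PP N z₁, if l ∣ m then laml l (m / l) else 0) /
          (Nat.totient m : ℝ) := by
      unfold MS lam_R2
      rw [← sum_sub_distrib]
      refine sum_congr rfl fun m _ => ?_
      rw [sum_filter, sub_div]
    rw [h2]
    congr 1
    simp_rw [sum_div]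
    rw [sum_comm]
    exact sum_congr rfl fun l hL => ms_R2 (hP l hL) (hl l hL)

end Pool.Agent.Helper60.GP
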