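import Pool.Agent.Helper60.GP.St
import Pool.Agent.Helper60.GP.M_R1

/-! Project GP (MP_b454d1_nt), module R3 -/

set_option autoImplicit false

namespace Pool.Agent.Helper60.GP

open Finset ArithmeticFunction

theorem rg_R3 (N : ℕ) (z : ℝ) (n : ℕ) :
    rg N z n = ∏ p ∈ PP N z, (1 - (if p ∣ n then (1 : ℝ) else 0)) := by
  classical
  unfold rg
  split_ifs with h
  · symm
    apply prod_eq_one
    intro p hp
    rw [if_neg (h p hp), sub_zero]
  · push Not at h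
    obtain ⟨p, hp, hpn⟩ := h
    symm
    apply prod_eq_zero hp
    rw [if_pos hpn, sub_self]

theorem split_R3 (h1 : StBu) {N : ℕ} {z₁ z : ℝ} (hz : z₁ ≤ z) (n : ℕ) :
    rg N z n = rg N z₁ n - ∑ l ∈ (PP N z \ PP N z₁).filter (fun l => l ∣ n), rg N l n := by
  rw [rg_R3, rg_R3, h1 N z₁ z hz, sum_filter]
  congr 1
  refine sum_congr rfl fun l _ => ?_
  rw [rg_R3]
  split_ifs <;> simp

theorem VV_split_R3 (h1 : StBu) {N : ℕ} {z₁ z : ℝ} (hz : z₁ ≤ z) :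
    ∑ l ∈ PP N z \ PP N z₁, 1 / ((l : ℝ) - 1) * VV N l = VV N z₁ - VV N z := by
  have := h1 N z₁ z hz (fun p => 1 / ((p : ℝ) - 1))
  unfold VV
  linarith

theorem VV_pos_R3 {N : ℕ} (hN : Even N) (z : ℝ) : 0 < VV N z := by
  apply prod_pos
  intro p hp
  rw [mem_PP_R1] at hp
  obtain ⟨-, hp, hpN⟩ := hp
  have h2 : p ≠ 2 := by
    rintro rfl
    exact hpN hN.two_dvd
  have h3 : 3 ≤ p := by
    have := hp.two_le
    omega
  have h4 : (3 : ℝ) ≤ p := by exact_mod_cast h3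
  have h5 : 1 / ((p : ℝ) - 1) ≤ 1 / 2 := one_div_le_one_div_of_le (by norm_num) (by linarith)
  linarith

/-- the set up for the two recursions -/
theorem setup_R3 (h3 : StRatio) {K i : ℕ} (hK : 1 ≤ K) (hi : 1 ≤ i) {M ε : ℝ} (hε : 0 < ε)
    {P Q : ℕ → ℝ → ℝ → Prop}
    (hP : ∀ M : ℝ, ∃ z₀ : ℝ, ∀ z : ℝ, z₀ ≤ z → ∀ N : ℕ, Even N → 1 ≤ N → (N : ℝ) ≤ z ^ M →
      ∀ D : ℝ, z ^ (((i : ℝ) + 1) / K) ≤ D → P N z D)
    (hQ : ∀ M : ℝ, ∃ z₀ : ℝ, ∀ z : ℝ, z₀ ≤ z → ∀ N : ℕ, Even N → 1 ≤ N → (N : ℝ) ≤ z ^ M →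
      ∀ D : ℝ, z ^ (((i : ℝ) - K) / K) ≤ D → Q N z D) :
    ∃ z₀ : ℝ, ∀ z : ℝ, z₀ ≤ z → ∀ N : ℕ, Even N → 1 ≤ N → (N : ℝ) ≤ z ^ M → ∀ D : ℝ,
      z ^ ((i : ℝ) / K) ≤ D → ∃ z₁ : ℝ, z₁ ≤ z ∧ P N z₁ D ∧
        (∀ l ∈ PP N z \ PP N z₁, Q N l (D / l)) ∧
        |VV N z₁ / VV N z - ((i : ℝ) + 1) / i| ≤ ε := by
  have hi0 : (0 : ℝ) < i := by exact_mod_cast hi
  have hK0 : (0 : ℝ) < K := by exact_mod_cast hK
  set r : ℝ := (i : ℝ) / (i + 1) with hr
  have hr0 : 0 < r := by positivity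
  have hr1 : r ≤ 1 := by
    rw [hr, div_le_one (by positivity)]
    linarith
  set M' : ℝ := max M 0 with hM'
  have hM0 : 0 ≤ M' := le_max_right _ _
  obtain ⟨za, ha⟩ := hP (M' / r)
  obtain ⟨zb, hb⟩ := hQ (M' / r)
  obtain ⟨zc, hc⟩ := h3 r hr0 hr1 ε hε M'
  set T : ℝ := max (max za zb) 1 with hT
  have hT1 : 1 ≤ T := le_max_right _ _
  refine ⟨max (max (T ^ (1 / r)) zc) 1, fun z hz N hN hN1 hNM D hD => ?_⟩
  have hz1 : 1 ≤ z := (le_max_right _ _).trans hz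
  have hzc : zc ≤ z := ((le_max_right _ _).trans (le_max_left _ _)).trans hz
  have hzT : T ^ (1 / r) ≤ z := ((le_max_left _ _).trans (le_max_left _ _)).trans hz
  have hz0 : 0 ≤ z := by linarith
  have hNM' : (N : ℝ) ≤ z ^ M' :=
    hNM.trans (Real.rpow_le_rpow_of_exponent_le hz1 (le_max_left _ _))
  have hTz : T ≤ z ^ r := by
    have h := Real.rpow_le_rpow (by positivity) hzT hr0.le
    rwa [← Real.rpow_mul (by positivity), one_div_mul_cancel hr0.ne', Real.rpow_one] at h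
  have hza : za ≤ z ^ r := ((le_max_left _ _).trans (le_max_left _ _)).trans hTz
  have hzb : zb ≤ z ^ r := ((le_max_right _ _).trans (le_max_left _ _)).trans hTz
  have hzr1 : 1 ≤ z ^ r := hT1.trans hTz
  have hNr : (N : ℝ) ≤ (z ^ r) ^ (M' / r) := by
    rw [← Real.rpow_mul hz0, mul_div_cancel₀ _ hr0.ne']
    exact hNM'
  have hzz : z ^ r ≤ z := by
    have := Real.rpow_le_rpow_of_exponent_le hz1 hr1
    rwa [Real.rpow_one] at this
  refine ⟨z ^ r, hzz, ?_, ?_, ?_⟩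
  · apply ha _ hza N hN hN1 hNr
    rw [← Real.rpow_mul hz0]
    have e : r * (((i : ℝ) + 1) / K) = i / K := by
      rw [hr]
      field_simp
    rw [e]
    exact hD
  · intro l hl
    rw [mem_sdiff, mem_PP_R1, mem_PP_R1] at hl
    obtain ⟨⟨a1, a2, a3⟩, a4⟩ := hl
    have a5 : z ^ r ≤ l := by
      by_contra h
      push Not at h
      exact a4 ⟨h, a2, a3⟩
    have hl0 : (0 : ℝ) < l := by exact_mod_cast a2.pos
    have hl1 : (1 : ℝ) ≤ l := hzr1.trans a5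
    apply hb _ (hzb.trans a5) N hN hN1
    · exact hNr.trans (Real.rpow_le_rpow (by positivity) a5 (by positivity))
    · have e : ((i : ℝ) - K) / K = i / K - 1 := by field_simp
      rw [e, Real.rpow_sub_one hl0.ne']
      apply div_le_div_of_nonneg_right _ hl0.le
      exact (Real.rpow_le_rpow hl0.le a1.le (by positivity)).trans hD
  · have h := hc z hzc N hN hN1 hNM'
    have e : 1 / r = ((i : ℝ) + 1) / i := by
      rw [hr, one_div_div]
    rwa [e] at h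

theorem inv_nonneg_R3 {N : ℕ} {z z₁ : ℝ} {l : ℕ} (hl : l ∈ PP N z \ PP N z₁) :
    0 ≤ 1 / ((l : ℝ) - 1) := by
  have h2 := (mem_PP_R1.1 (mem_sdiff.1 hl).1).2.1.two_le
  have h3 : (2 : ℝ) ≤ l := by exact_mod_cast h2
  apply div_nonneg zero_le_one
  linarith

/-- the final computation -/
theorem fin_R3 {i : ℕ} (hi : 1 ≤ i) {a b ε R : ℝ} (hε : 0 < ε)
    (hR : |R - ((i : ℝ) + 1) / i| ≤ min 1 (ε / (2 * (|a - b| + 1)))) :
    |(a - b) * R + b - (((i : ℝ) + 1) * a - b) / i| ≤ ε / 2 ∧ 0 ≤ R ∧ R ≤ 3 := by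
  have hi0 : (0 : ℝ) < i := by exact_mod_cast hi
  have hi1 : (1 : ℝ) ≤ i := by exact_mod_cast hi
  have h1 := hR.trans (min_le_left _ _)
  have h2 := hR.trans (min_le_right _ _)
  have hρ : ((i : ℝ) + 1) / i ≤ 2 := by
    rw [div_le_iff₀ hi0]
    linarith
  have hρ1 : 1 ≤ ((i : ℝ) + 1) / i := by
    rw [le_div_iff₀ hi0]
    linarith
  rw [abs_le] at h1
  refine ⟨?_, by linarith, by linarith⟩
  have e : (a - b) * R + b - (((i : ℝ) + 1) * a - b) / i = (a - b) * (R - ((i : ℝ) + 1) / i) := by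
    field_simp
    ring
  rw [e, abs_mul]
  have h3 : 0 ≤ |a - b| := abs_nonneg _
  have h4 : |a - b| * |R - ((i : ℝ) + 1) / i| ≤ |a - b| * (ε / (2 * (|a - b| + 1))) :=
    mul_le_mul_of_nonneg_left h2 h3
  refine h4.trans ?_
  rw [mul_div_assoc', div_le_div_iff₀ (by positivity) (by norm_num)]
  nlinarith

theorem hRecU (h1 : StBu) (h2 : StComp) (h3 : StRatio) : StRecU := by
  intro K i c l hK hi hU hL ε hε M
  obtain ⟨z₀, h⟩ := setup_R3 (K := K) (i := i) (M := M)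
    (ε := min 1 (ε / (2 * (|c - l| + 1)))) h3 hK hi (by positivity)
    (P := fun N z D => UpS N z D (c + ε / 12)) (Q := fun N z D => LoS N z D (l - ε / 12))
    (hU (ε / 12) (by positivity)) (hL (ε / 12) (by positivity))
  refine ⟨z₀, fun z hz N hN hN1 hNM D hD => ?_⟩
  obtain ⟨z₁, hz1, ⟨lam₀, w0, p0, m0⟩, hQ, hr⟩ := h z hz N hN hN1 hNM D hD
  choose! laml wl pl ml using hQ
  obtain ⟨lam, w, e1, e2⟩ := h2 N z₁ z D lam₀ laml hz1 w0 wl
  refine ⟨lam, w, ?_, ?_⟩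
  · intro n hn
    rw [split_R3 h1 hz1, e1 n hn]
    have a1 := p0 n hn
    have a2 : ∑ l ∈ (PP N z \ PP N z₁).filter (fun l => l ∣ n), ∑ m ∈ n.divisors, laml l m ≤
        ∑ l ∈ (PP N z \ PP N z₁).filter (fun l => l ∣ n), rg N l n :=
      sum_le_sum fun l hl => pl l (mem_filter.1 hl).1 n hn
    linarith
  · have hV := VV_pos_R3 hN z
    have a1 : ∑ j ∈ PP N z \ PP N z₁, 1 / ((j : ℝ) - 1) * ((l - ε / 12) * VV N j) ≤
        ∑ j ∈ PP N z \ PP N z₁, 1 / ((j : ℝ) - 1) * MS (D / j) (laml j) :=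
      sum_le_sum fun j hj => mul_le_mul_of_nonneg_left (ml j hj) (inv_nonneg_R3 hj)
    have a2 : ∑ j ∈ PP N z \ PP N z₁, 1 / ((j : ℝ) - 1) * ((l - ε / 12) * VV N j) =
        (l - ε / 12) * (VV N z₁ - VV N z) := by
      rw [← VV_split_R3 h1 hz1, mul_sum]
      exact sum_congr rfl fun j _ => by ring
    rw [a2] at a1
    obtain ⟨b1, b2, b3⟩ := fin_R3 hi hε hr
    set R := VV N z₁ / VV N z with hR
    have e3 : VV N z₁ = R * VV N z := by
      rw [hR, div_mul_cancel₀ _ hV.ne']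
    rw [e3] at a1 m0
    rw [e2]
    have b4 := (abs_le.1 b1).2
    have b5 : (c + ε / 12) * R - (l - ε / 12) * (R - 1) ≤ (((i : ℝ) + 1) * c - l) / i + ε := by
      nlinarith
    have b6 := mul_le_mul_of_nonneg_right b5 hV.le
    nlinarith

end Pool.Agent.Helper60.GP
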