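import Pool.Agent.Helper60.GP.St

/-! Project GP (MP_b454d1_nt), module S1 -/

set_option autoImplicit false

namespace Pool.Agent.Helper60.GP

open Finset ArithmeticFunction

namespace GPS1

/-- sum of signs over the sets between `L` and `M` -/
lemma sum_between (L M : Finset ℕ) :
    ∑ U ∈ M.powerset.filter (fun U => L ⊆ U), (-1 : ℝ) ^ U.card =
      if L = M then (-1) ^ L.card else 0 := by
  by_cases hLM : L ⊆ M
  · have h1 : ∑ U ∈ M.powerset.filter (fun U => L ⊆ U), (-1 : ℝ) ^ U.card =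
        ∑ W ∈ (M \ L).powerset, (-1 : ℝ) ^ L.card * (-1) ^ W.card := by
      refine Finset.sum_nbij' (fun U => U \ L) (fun W => L ∪ W) ?_ ?_ ?_ ?_ ?_
      · intro U hU
        rw [mem_filter, mem_powerset] at hU
        exact mem_powerset.2 (sdiff_subset_sdiff hU.1 (Finset.Subset.refl _))
      · intro W hW
        rw [mem_powerset] at hW
        rw [mem_filter, mem_powerset]
        exact ⟨union_subset hLM (hW.trans sdiff_subset), subset_union_left⟩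
      · intro U hU
        rw [mem_filter, mem_powerset] at hU
        exact union_sdiff_of_subset hU.2
      · intro W hW
        rw [mem_powerset] at hW
        ext p
        simp only [mem_sdiff, mem_union]
        constructor
        · rintro ⟨h | h, h2⟩
          · exact absurd h h2
          · exact h
        · intro h
          exact ⟨Or.inr h, (mem_sdiff.1 (hW h)).2⟩
      · intro U hU
        rw [mem_filter, mem_powerset] at hU
        rw [← pow_add]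
        congr 1
        rw [card_sdiff_of_subset hU.2]
        have := card_le_card hU.2
        omega
    have h2 : ∑ W ∈ (M \ L).powerset, (-1 : ℝ) ^ W.card = if M \ L = ∅ then 1 else 0 := by
      have h3 := Finset.sum_powerset_neg_one_pow_card (x := M \ L)
      exact_mod_cast congrArg (fun z : ℤ => (z : ℝ)) h3
    rw [h1, ← mul_sum, h2]
    by_cases hE : L = M
    · subst hE
      simp
    · rw [if_neg hE, if_neg, mul_zero]
      intro h
      exact hE (Finset.Subset.antisymm hLM (sdiff_eq_empty_iff_subset.1 h))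
  · rw [if_neg (fun h : L = M => hLM h.subset)]
    apply sum_eq_zero
    intro U hU
    rw [mem_filter, mem_powerset] at hU
    exact absurd (hU.2.trans hU.1) hLM

/-- the dual function -/
noncomputable def hh (g : ℕ → ℝ) (S : Finset ℕ) : ℝ := ∏ p ∈ S, g p / (1 - g p)

/-- sums over the supersets -/
noncomputable def AA (g : ℕ → ℝ) (𝒟 : Finset (Finset ℕ)) (S : Finset ℕ) : ℝ :=
  ∑ T ∈ 𝒟.filter (fun T => S ⊆ T), hh g T

/-- the weights -/
noncomputable def LL (g : ℕ → ℝ) (𝒟 : Finset (Finset ℕ)) (S : Finset ℕ) : ℝ :=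
  (-1) ^ S.card / (∏ p ∈ S, g p) * AA g 𝒟 S / AA g 𝒟 ∅

variable {g : ℕ → ℝ} {Q : Finset ℕ} {𝒟 : Finset (Finset ℕ)}

lemma hh_pos (hg : ∀ p ∈ Q, 0 < g p ∧ g p < 1) {S : Finset ℕ} (hS : S ⊆ Q) : 0 < hh g S := by
  apply prod_pos
  intro p hp
  have := hg p (hS hp)
  exact div_pos this.1 (by linarith)

lemma gp_pos (hg : ∀ p ∈ Q, 0 < g p ∧ g p < 1) {S : Finset ℕ} (hS : S ⊆ Q) :
    0 < ∏ p ∈ S, g p := by
  apply prod_pos
  intro p hp
  exact (hg p (hS hp)).1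

lemma AA_nonneg (hg : ∀ p ∈ Q, 0 < g p ∧ g p < 1) (hQ : ∀ T ∈ 𝒟, T ⊆ Q) (S : Finset ℕ) :
    0 ≤ AA g 𝒟 S := by
  apply sum_nonneg
  intro T hT
  exact (hh_pos hg (hQ T (mem_filter.1 hT).1)).le

lemma AA_empty : AA g 𝒟 ∅ = ∑ T ∈ 𝒟, hh g T := by
  unfold AA
  rw [filter_true_of_mem]
  intro T _
  exact empty_subset T

lemma AA_empty_pos (hg : ∀ p ∈ Q, 0 < g p ∧ g p < 1) (hQ : ∀ T ∈ 𝒟, T ⊆ Q) (h0 : ∅ ∈ 𝒟) :
    0 < AA g 𝒟 ∅ := by
  rw [AA_empty]
  exact sum_pos (fun T hT => hh_pos hg (hQ T hT)) ⟨∅, h0⟩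

/-- the upper bound for the weights -/
lemma AA_le (hg : ∀ p ∈ Q, 0 < g p ∧ g p < 1) (hQ : ∀ T ∈ 𝒟, T ⊆ Q)
    (hdc : ∀ S T, S ⊆ T → T ∈ 𝒟 → S ∈ 𝒟) {S : Finset ℕ} (hS : S ∈ 𝒟) :
    AA g 𝒟 S ≤ (∏ p ∈ S, g p) * AA g 𝒟 ∅ := by
  have hSQ := hQ S hS
  have hhS := hh_pos hg hSQ
  have hgS := gp_pos hg hSQ
  have h1 : (∑ K ∈ S.powerset, hh g K) * (AA g 𝒟 S / hh g S) ≤ AA g 𝒟 ∅ := by
    rw [AA, sum_div, sum_mul_sum, ← sum_product', AA_empty]
    have h2 : ∀ x ∈ S.powerset ×ˢ 𝒟.filter (fun T => S ⊆ T),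
        hh g x.1 * (hh g x.2 / hh g S) = hh g (x.1 ∪ (x.2 \ S)) := by
      intro x hx
      rw [mem_product, mem_powerset, mem_filter] at hx
      have hd : Disjoint x.1 (x.2 \ S) := by
        rw [disjoint_left]
        intro p hp hp2
        exact (mem_sdiff.1 hp2).2 (hx.1 hp)
      have h3 : hh g x.2 = hh g (x.2 \ S) * hh g S := by
        unfold hh
        exact (prod_sdiff hx.2.2).symm
      rw [h3, mul_div_cancel_right₀ _ hhS.ne']
      unfold hh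
      rw [prod_union hd]
    rw [sum_congr rfl h2]
    have hinj : Set.InjOn (fun x : Finset ℕ × Finset ℕ => x.1 ∪ (x.2 \ S))
        (S.powerset ×ˢ 𝒟.filter (fun T => S ⊆ T) : Finset (Finset ℕ × Finset ℕ)) := by
      intro x hx y hy hxy
      rw [mem_coe, mem_product, mem_powerset, mem_filter] at hx hy
      simp only at hxy
      have key : ∀ p, (p ∈ x.1 ∨ (p ∈ x.2 ∧ p ∉ S)) ↔ (p ∈ y.1 ∨ (p ∈ y.2 ∧ p ∉ S)) := by
        intro p
        have := Finset.ext_iff.1 hxy p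
        simpa only [mem_union, mem_sdiff] using this
      have e1 : x.1 = y.1 := by
        ext p
        constructor
        · intro hp
          rcases (key p).1 (Or.inl hp) with h | h
          · exact h
          · exact absurd (hx.1 hp) h.2
        · intro hp
          rcases (key p).2 (Or.inl hp) with h | h
          · exact h
          · exact absurd (hy.1 hp) h.2
      have e2 : x.2 = y.2 := by
        ext p
        by_cases hpS : p ∈ S
        · exact ⟨fun _ => hy.2.2 hpS, fun _ => hx.2.2 hpS⟩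
        · constructor
          · intro hp
            rcases (key p).1 (Or.inr ⟨hp, hpS⟩) with h | h
            · exact absurd (hy.1 h) hpS
            · exact h.1
          · intro hp
            rcases (key p).2 (Or.inr ⟨hp, hpS⟩) with h | h
            · exact absurd (hx.1 h) hpS
            · exact h.1
      exact Prod.ext e1 e2
    rw [← sum_image (f := hh g) hinj]
    apply sum_le_sum_of_subset_of_nonneg
    · intro T hT
      obtain ⟨x, hx, rfl⟩ := mem_image.1 hT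
      rw [mem_product, mem_powerset, mem_filter] at hx
      apply hdc _ x.2 _ hx.2.1
      exact union_subset (hx.1.trans hx.2.2) sdiff_subset
    · intro T hT _
      exact (hh_pos hg (hQ T hT)).le
  have h4 : ∑ K ∈ S.powerset, hh g K = hh g S / ∏ p ∈ S, g p := by
    unfold hh
    rw [← prod_one_add, ← prod_div_distrib]
    apply prod_congr rfl
    intro p hp
    have := hg p (hSQ hp)
    have h5 : 1 - g p ≠ 0 := by linarith
    have h6 : g p ≠ 0 := by linarith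
    field_simp
    ring
  rw [h4] at h1
  have h5 : hh g S / (∏ p ∈ S, g p) * (AA g 𝒟 S / hh g S) = AA g 𝒟 S / ∏ p ∈ S, g p := by
    field_simp
  rw [h5, div_le_iff₀ hgS] at h1
  linarith [h1, mul_comm (AA g 𝒟 ∅) (∏ p ∈ S, g p)]

lemma LL_bound (hg : ∀ p ∈ Q, 0 < g p ∧ g p < 1) (hQ : ∀ T ∈ 𝒟, T ⊆ Q)
    (hdc : ∀ S T, S ⊆ T → T ∈ 𝒟 → S ∈ 𝒟) (h0 : ∅ ∈ 𝒟) {S : Finset ℕ} (hS : S ∈ 𝒟) :
    |LL g 𝒟 S| ≤ 1 := by
  have hA := AA_le hg hQ hdc hS
  have hG := AA_empty_pos hg hQ h0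
  have hgS := gp_pos hg (hQ S hS)
  have hA0 := AA_nonneg hg hQ S
  unfold LL
  rw [abs_div, abs_mul, abs_div, abs_pow, abs_neg, abs_one, one_pow, abs_of_pos hgS,
    abs_of_nonneg hA0, abs_of_pos hG, div_le_one hG, one_div, inv_mul_le_iff₀ hgS]
  exact hA

lemma sum_X (hdc : ∀ S T, S ⊆ T → T ∈ 𝒟 → S ∈ 𝒟) {U : Finset ℕ} (hU : U ∈ 𝒟) :
    ∑ S ∈ 𝒟.filter (fun S => U ⊆ S), (-1 : ℝ) ^ S.card * AA g 𝒟 S =
      (-1) ^ U.card * hh g U := by
  have h1 : ∀ S ∈ 𝒟.filter (fun S => U ⊆ S), (-1 : ℝ) ^ S.card * AA g 𝒟 S =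
      ∑ T ∈ 𝒟, if S ⊆ T then (-1 : ℝ) ^ S.card * hh g T else 0 := by
    intro S _
    rw [AA, mul_sum, sum_filter]
  rw [sum_congr rfl h1, sum_comm]
  have h2 : ∀ T ∈ 𝒟, ∑ S ∈ 𝒟.filter (fun S => U ⊆ S),
      (if S ⊆ T then (-1 : ℝ) ^ S.card * hh g T else 0) =
      if U = T then (-1) ^ U.card * hh g T else 0 := by
    intro T hT
    rw [← sum_filter]
    have h3 : (𝒟.filter (fun S => U ⊆ S)).filter (fun S => S ⊆ T) =
        T.powerset.filter (fun S => U ⊆ S) := by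
      ext S
      simp only [mem_filter, mem_powerset]
      constructor
      · rintro ⟨⟨_, h2⟩, h3⟩
        exact ⟨h3, h2⟩
      · rintro ⟨h3, h2⟩
        exact ⟨⟨hdc S T h3 hT, h2⟩, h3⟩
    rw [h3, ← sum_mul, sum_between]
    split_ifs <;> simp
  rw [sum_congr rfl h2, sum_ite_eq, if_pos hU]

lemma form (hg : ∀ p ∈ Q, 0 < g p ∧ g p < 1) (hQ : ∀ T ∈ 𝒟, T ⊆ Q)
    (hdc : ∀ S T, S ⊆ T → T ∈ 𝒟 → S ∈ 𝒟) (h0 : ∅ ∈ 𝒟) :
    ∑ S ∈ 𝒟, ∑ T ∈ 𝒟, LL g 𝒟 S * LL g 𝒟 T * ∏ p ∈ S ∪ T, g p = 1 / AA g 𝒟 ∅ := by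
  have hG := AA_empty_pos hg hQ h0
  have h1 : ∀ S ∈ 𝒟, ∀ T ∈ 𝒟, LL g 𝒟 S * LL g 𝒟 T * ∏ p ∈ S ∪ T, g p =
      ∑ U ∈ 𝒟, if U ⊆ S ∧ U ⊆ T then (1 / hh g U) * ((((-1) ^ S.card * AA g 𝒟 S) *
        ((-1) ^ T.card * AA g 𝒟 T)) / AA g 𝒟 ∅ ^ 2) else 0 := by
    intro S hS T hT
    have hSg := gp_pos hg (hQ S hS)
    have hTg := gp_pos hg (hQ T hT)
    have hI : S ∩ T ⊆ Q := inter_subset_left.trans (hQ S hS)
    have hIg := gp_pos hg hI
    have h2 : ∏ p ∈ S ∪ T, g p = (∏ p ∈ S, g p) * (∏ p ∈ T, g p) / ∏ p ∈ S ∩ T, g p := by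
      rw [eq_div_iff hIg.ne']
      exact prod_union_inter
    have h3 : 1 / ∏ p ∈ S ∩ T, g p = ∑ U ∈ (S ∩ T).powerset, 1 / hh g U := by
      have h4 : ∀ U ∈ (S ∩ T).powerset, 1 / hh g U = ∏ p ∈ U, (1 - g p) / g p := by
        intro U _
        unfold hh
        rw [one_div, ← prod_inv_distrib]
        apply prod_congr rfl
        intro p _
        rw [inv_div]
      rw [sum_congr rfl h4, ← prod_one_add, one_div, ← prod_inv_distrib]
      apply prod_congr rfl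
      intro p hp
      have := (hg p (hI hp)).1
      field_simp
      ring
    rw [← sum_filter]
    have h5 : 𝒟.filter (fun U => U ⊆ S ∧ U ⊆ T) = (S ∩ T).powerset := by
      ext U
      rw [mem_filter, mem_powerset, subset_inter_iff]
      exact ⟨fun h => h.2, fun h => ⟨hdc U S h.1 hS, h⟩⟩
    rw [h5, ← sum_mul, ← h3, h2]
    unfold LL
    field_simp
  rw [sum_congr rfl (fun S hS => sum_congr rfl (h1 S hS))]
  have h6 : ∀ S ∈ 𝒟, ∑ T ∈ 𝒟, ∑ U ∈ 𝒟, (if U ⊆ S ∧ U ⊆ T then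
      (1 / hh g U) * ((((-1) ^ S.card * AA g 𝒟 S) *
        ((-1) ^ T.card * AA g 𝒟 T)) / AA g 𝒟 ∅ ^ 2) else 0) =
      ∑ U ∈ 𝒟, ∑ T ∈ 𝒟, (if U ⊆ S ∧ U ⊆ T then
      (1 / hh g U) * ((((-1) ^ S.card * AA g 𝒟 S) *
        ((-1) ^ T.card * AA g 𝒟 T)) / AA g 𝒟 ∅ ^ 2) else 0) := fun S _ => sum_comm
  rw [sum_congr rfl h6, sum_comm]
  have h7 : ∀ U ∈ 𝒟, ∑ S ∈ 𝒟, ∑ T ∈ 𝒟, (if U ⊆ S ∧ U ⊆ T then
      (1 / hh g U) * ((((-1) ^ S.card * AA g 𝒟 S) *
        ((-1) ^ T.card * AA g 𝒟 T)) / AA g 𝒟 ∅ ^ 2) else 0) = hh g U / AA g 𝒟 ∅ ^ 2 := by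
    intro U hU
    have hUp := hh_pos hg (hQ U hU)
    have h8 : ∀ S ∈ 𝒟, ∀ T ∈ 𝒟, (if U ⊆ S ∧ U ⊆ T then
      (1 / hh g U) * ((((-1) ^ S.card * AA g 𝒟 S) *
        ((-1) ^ T.card * AA g 𝒟 T)) / AA g 𝒟 ∅ ^ 2) else 0) =
        (1 / hh g U / AA g 𝒟 ∅ ^ 2) * ((if U ⊆ S then (-1) ^ S.card * AA g 𝒟 S else 0) *
          (if U ⊆ T then (-1) ^ T.card * AA g 𝒟 T else 0)) := by
      intro S _ T _
      by_cases hS : U ⊆ S
      · by_cases hT : U ⊆ T
        · rw [if_pos ⟨hS, hT⟩, if_pos hS, if_pos hT]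
          ring
        · rw [if_neg (fun h => hT h.2), if_neg hT]
          ring
      · rw [if_neg (fun h => hS h.1), if_neg hS]
        ring
    rw [sum_congr rfl (fun S hS => sum_congr rfl (h8 S hS))]
    rw [sum_congr rfl (fun S _ => (mul_sum _ _ _).symm), ← mul_sum, ← sum_mul_sum, ← sum_filter,
      sum_X hdc hU]
    have h9 : ((-1 : ℝ) ^ U.card) * (-1) ^ U.card = 1 := by
      rw [← mul_pow]
      norm_num
    have h10 : (1 / hh g U / AA g 𝒟 ∅ ^ 2) * (((-1) ^ U.card * hh g U) *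
        ((-1) ^ U.card * hh g U)) = ((-1 : ℝ) ^ U.card * (-1) ^ U.card) *
        (hh g U / AA g 𝒟 ∅ ^ 2) := by
      field_simp
    rw [h10, h9, one_mul]
  rw [sum_congr rfl h7, ← sum_div, ← AA_empty]
  field_simp

end GPS1

open GPS1

theorem hSel : StSel := by
  intro Q g ξ hQg hξ
  have hg : ∀ p ∈ Q, 0 < g p ∧ g p < 1 := fun p hp => (hQg p hp).2
  have hpr : ∀ p ∈ Q, p.Prime := fun p hp => (hQg p hp).1
  set 𝒟 : Finset (Finset ℕ) := (DD Q ξ).image Nat.primeFactors with h𝒟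
  have hsq : ∀ d ∈ DD Q ξ, Squarefree d := fun d hd => (mem_filter.1 hd).2.1
  have hinj : Set.InjOn Nat.primeFactors (DD Q ξ : Finset ℕ) := by
    intro d hd e he hde
    rw [← Nat.prod_primeFactors_of_squarefree (hsq d hd),
      ← Nat.prod_primeFactors_of_squarefree (hsq e he), hde]
  have hsub : ∀ T ∈ 𝒟, T ⊆ Q := by
    intro T hT
    obtain ⟨d, hd, rfl⟩ := mem_image.1 hT
    exact (mem_filter.1 hd).2.2
  have hdc : ∀ S T, S ⊆ T → T ∈ 𝒟 → S ∈ 𝒟 := by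
    intro S T hST hT
    obtain ⟨d, hd, rfl⟩ := mem_image.1 hT
    have hSp : ∀ p ∈ S, p.Prime := fun p hp => Nat.prime_of_mem_primeFactors (hST hp)
    have hdvd : ∏ p ∈ S, p ∣ d := by
      conv_rhs => rw [← Nat.prod_primeFactors_of_squarefree (hsq d hd)]
      exact prod_dvd_prod_of_subset _ _ _ hST
    have hd' := mem_filter.1 hd
    have hd1 := mem_Icc.1 hd'.1
    refine mem_image.2 ⟨∏ p ∈ S, p, ?_, Nat.primeFactors_prod hSp⟩
    refine mem_filter.2 ⟨mem_Icc.2 ⟨?_, ?_⟩, ?_, ?_⟩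
    · exact Nat.pos_of_dvd_of_pos hdvd hd1.1
    · exact (Nat.le_of_dvd hd1.1 hdvd).trans hd1.2
    · exact (hsq d hd).squarefree_of_dvd hdvd
    · rw [Nat.primeFactors_prod hSp]
      exact hST.trans hd'.2.2
  have h1D : 1 ∈ DD Q ξ := by
    refine mem_filter.2 ⟨mem_Icc.2 ⟨le_refl _, ?_⟩, squarefree_one, ?_⟩
    · exact Nat.le_floor (by simpa using hξ)
    · simp
  have h0 : ∅ ∈ 𝒟 := mem_image.2 ⟨1, h1D, by simp⟩
  have hG := AA_empty_pos hg hsub h0
  refine ⟨fun d => if d ∈ DD Q ξ then LL g 𝒟 d.primeFactors else 0, ?_, ?_, ?_⟩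
  · simp only [if_pos h1D, LL, Nat.primeFactors_one, card_empty, pow_zero, prod_empty, div_one,
      one_mul]
    exact div_self hG.ne'
  · intro d
    by_cases hd : d ∈ DD Q ξ
    · simp only [if_pos hd]
      exact LL_bound hg hsub hdc h0 (mem_image_of_mem _ hd)
    · simp only [if_neg hd]
      norm_num
  · have hR : ∑ d ∈ DD Q ξ, ∏ p ∈ d.primeFactors, g p / (1 - g p) = AA g 𝒟 ∅ := by
      rw [AA_empty, h𝒟, sum_image hinj]
      rfl
    rw [hR, ← form hg hsub hdc h0, h𝒟, sum_image hinj]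
    apply sum_congr rfl
    intro d hd
    rw [sum_image hinj]
    apply sum_congr rfl
    intro e he
    simp only [if_pos hd, if_pos he]
    rw [Nat.primeFactors_mul (hsq d hd).ne_zero (hsq e he).ne_zero]

end Pool.Agent.Helper60.GP
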