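import Pool.Agent.Helper60.GP.St

/-! Project GP (MP_b454d1_nt), module S2 -/

set_option autoImplicit false

namespace Pool.Agent.Helper60.GP

open Finset ArithmeticFunction

namespace GPS2

/-- the clipped logarithm -/
noncomputable def cl (x y : ℝ) : ℝ := min 1 (Real.log (max y x / x))

lemma one_le_max {x : ℝ} (hx : 0 < x) (y : ℝ) : 1 ≤ max y x / x := by
  rw [le_div_iff₀ hx, one_mul]
  exact le_max_right _ _

lemma cl_nonneg {x : ℝ} (hx : 0 < x) (y : ℝ) : 0 ≤ cl x y :=
  le_min zero_le_one (Real.log_nonneg (one_le_max hx y))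

lemma cl_le_one (x y : ℝ) : cl x y ≤ 1 := min_le_left _ _

lemma cl_mono {x : ℝ} (hx : 0 < x) : Monotone (cl x) := by
  intro u v huv
  refine min_le_min_left _ (Real.log_le_log (zero_lt_one.trans_le (one_le_max hx u)) ?_)
  exact div_le_div_of_nonneg_right (max_le_max_right x huv) hx.le

lemma cl_cont {x : ℝ} (hx : 0 < x) : Continuous (cl x) := by
  refine continuous_const.min (Continuous.log ?_ fun y => ?_)
  · exact (continuous_id.max continuous_const).div_const x
  · have := one_le_max hx y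
    exact (zero_lt_one.trans_le this).ne'

lemma cl_of_le {x y : ℝ} (hx : 0 < x) (h : y ≤ x) : cl x y = 0 := by
  rw [cl, max_eq_right h, div_self hx.ne', Real.log_one]
  exact min_eq_right zero_le_one

lemma cl_of_ge {x y : ℝ} (_hx : 0 < x) (h : x ≤ y) : cl x y = min 1 (Real.log (y / x)) := by
  rw [cl, max_eq_left h]

lemma om_zero {ω : ℝ → ℝ} (h : IsB ω) : ω 0 = 0 := by
  have hc : IsClosed {t | ω t = 0} := isClosed_eq h.smooth.continuous continuous_const
  have h1 : Set.Iio (0 : ℝ) ⊆ {t | ω t = 0} := by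
    intro t ht
    exact h.supp t fun h2 => absurd h2.1 (not_le.2 ht)
  have h2 := closure_minimal h1 hc
  rw [closure_Iio] at h2
  exact h2 (Set.mem_Iic.2 le_rfl)

lemma om_one {ω : ℝ → ℝ} (h : IsB ω) : ω 1 = 0 := by
  have hc : IsClosed {t | ω t = 0} := isClosed_eq h.smooth.continuous continuous_const
  have h1 : Set.Ioi (1 : ℝ) ⊆ {t | ω t = 0} := by
    intro t ht
    exact h.supp t fun h2 => absurd h2.2 (not_le.2 ht)
  have h2 := closure_minimal h1 hc
  rw [closure_Ioi] at h2
  exact h2 (Set.mem_Ici.2 le_rfl)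

/-- the smooth weight as a function on the line -/
noncomputable def ff (ω : ℝ → ℝ) (x y : ℝ) : ℝ := ω (cl x y)

lemma ff_eq {ω : ℝ → ℝ} (h : IsB ω) {x y : ℝ} (hx : 0 < x) (hy : 0 < y) :
    ω (Real.log (y / x)) = ff ω x y := by
  rw [ff]
  rcases le_total y x with hyx | hyx
  · rw [cl_of_le hx hyx, om_zero h]
    rcases hyx.eq_or_lt with rfl | hlt
    · rw [div_self hx.ne', Real.log_one, om_zero h]
    · refine h.supp _ fun h2 => absurd h2.1 (not_le.2 ?_)
      exact Real.log_neg (by positivity) ((div_lt_one hx).2 hlt)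
  · rw [cl_of_ge hx hyx]
    rcases le_total (Real.log (y / x)) 1 with h1 | h1
    · rw [min_eq_right h1]
    · rw [min_eq_left h1, om_one h]
      rcases h1.eq_or_lt with h2 | h2
      · rw [← h2, om_one h]
      · exact h.supp _ fun h3 => absurd h3.2 (not_le.2 h2)

lemma ff_cont {ω : ℝ → ℝ} (h : IsB ω) {x : ℝ} (hx : 0 < x) : Continuous (ff ω x) :=
  h.smooth.continuous.comp (cl_cont hx)

lemma lip {ω : ℝ → ℝ} (h : IsB ω) : ∃ K : ℝ, 0 ≤ K ∧ ∀ s t, |ω s - ω t| ≤ K * |s - t| := by
  have hcs : HasCompactSupport ω := HasCompactSupport.of_support_subset_isCompact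
    (K := Set.Icc (0 : ℝ) 1) isCompact_Icc (by
      intro t ht
      by_contra h2
      exact ht (h.supp t h2))
  obtain ⟨C, hC⟩ := ContDiff.lipschitzWith_of_hasCompactSupport (𝕂 := ℝ) hcs h.smooth (by norm_num)
  refine ⟨C, C.2, fun s t => ?_⟩
  have := hC.dist_le_mul s t
  rwa [Real.dist_eq, Real.dist_eq] at this

lemma tile {ω : ℝ → ℝ} (h : IsB ω) {K : ℝ} (hK0 : 0 ≤ K)
    (hK : ∀ s t, |ω s - ω t| ≤ K * |s - t|) {x u v : ℝ} (hx : 0 < x) (huv : u ≤ v) :
    |(v - u) * ff ω x v - ∫ y in u..v, ff ω x y| ≤ (v - u) * (K * (cl x v - cl x u)) := by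
  have e : (v - u) * ff ω x v - ∫ y in u..v, ff ω x y = ∫ y in u..v, (ff ω x v - ff ω x y) := by
    rw [intervalIntegral.integral_sub (by simp) ((ff_cont h hx).intervalIntegrable _ _),
      intervalIntegral.integral_const, smul_eq_mul]
  rw [e]
  have h1 : ‖∫ y in u..v, (ff ω x v - ff ω x y)‖ ≤ (K * (cl x v - cl x u)) * |v - u| := by
    refine intervalIntegral.norm_integral_le_of_norm_le_const fun y hy => ?_
    rw [Set.uIoc_of_le huv] at hy
    rw [Real.norm_eq_abs]
    refine (hK _ _).trans (mul_le_mul_of_nonneg_left ?_ hK0)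
    have h2 := cl_mono hx hy.1.le
    have h3 := cl_mono hx hy.2
    rw [abs_of_nonneg (by linarith)]
    linarith
  rw [Real.norm_eq_abs, abs_of_nonneg (by linarith : 0 ≤ v - u)] at h1
  linarith

lemma total {ω : ℝ → ℝ} (h : IsB ω) {K : ℝ} (hK0 : 0 ≤ K)
    (hK : ∀ s t, |ω s - ω t| ≤ K * |s - t|) {x : ℝ} (hx : 0 < x) (m : ℝ) (hm : 0 < m) (b : ℝ)
    (T : ℕ) :
    |m * ∑ k ∈ range T, ff ω x (b + m * (k + 1 : ℕ)) - ∫ y in b..(b + m * T), ff ω x y| ≤
      m * K := by
  set a : ℕ → ℝ := fun k => b + m * k with ha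
  have h1 : ∑ k ∈ range T, ∫ y in a k..a (k + 1), ff ω x y = ∫ y in a 0..a T, ff ω x y :=
    intervalIntegral.sum_integral_adjacent_intervals fun k _ =>
      (ff_cont h hx).intervalIntegrable _ _
  have ha0 : a 0 = b := by simp [ha]
  have haT : a T = b + m * T := rfl
  rw [ha0, haT] at h1
  rw [← h1, Finset.mul_sum, ← Finset.sum_sub_distrib]
  refine (Finset.abs_sum_le_sum_abs _ _).trans ?_
  have h2 : ∀ k ∈ range T, |m * ff ω x (b + m * (k + 1 : ℕ)) - ∫ y in a k..a (k + 1), ff ω x y| ≤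
      m * K * (cl x (a (k + 1)) - cl x (a k)) := by
    intro k _
    have h3 : a (k + 1) - a k = m := by simp only [ha]; push_cast; ring
    have h4 := tile h hK0 hK hx (show a k ≤ a (k + 1) by linarith)
    rw [h3] at h4
    calc _ ≤ _ := h4
      _ = _ := by ring
  refine (Finset.sum_le_sum h2).trans ?_
  rw [← Finset.mul_sum, Finset.sum_range_sub (fun k => cl x (a k))]
  have h5 := cl_le_one x (a T)
  have h6 := cl_nonneg hx (a 0)
  have h7 : cl x (a T) - cl x (a 0) ≤ 1 := by linarith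
  calc m * K * (cl x (a T) - cl x (a 0)) ≤ m * K * 1 :=
        mul_le_mul_of_nonneg_left h7 (by positivity)
    _ = m * K := mul_one _

lemma integral_ff {ω : ℝ → ℝ} (h : IsB ω) {x : ℝ} (hx : 0 < x) {u v : ℝ} (hu : u ≤ x)
    (hv : x * Real.exp 1 ≤ v) : ∫ y in u..v, ff ω x y = JJ ω * x := by
  have hint : ∀ a b : ℝ, IntervalIntegrable (ff ω x) MeasureTheory.volume a b := fun a b =>
    (ff_cont h hx).intervalIntegrable _ _
  have hxe : x ≤ x * Real.exp 1 := by
    have := Real.add_one_le_exp 1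
    nlinarith
  have h1 : ∫ y in u..x, ff ω x y = 0 := by
    rw [intervalIntegral.integral_congr (g := fun _ => (0 : ℝ)), intervalIntegral.integral_zero]
    intro y hy
    rw [Set.uIcc_of_le hu] at hy
    simp only [ff]
    rw [cl_of_le hx hy.2, om_zero h]
  have h2 : ∫ y in (x * Real.exp 1)..v, ff ω x y = 0 := by
    rw [intervalIntegral.integral_congr (g := fun _ => (0 : ℝ)), intervalIntegral.integral_zero]
    intro y hy
    rw [Set.uIcc_of_le hv] at hy
    simp only [ff]
    rw [cl_of_ge hx (hxe.trans hy.1)]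
    have h3 : 1 ≤ Real.log (y / x) := by
      rw [Real.le_log_iff_exp_le (div_pos (by linarith [hy.1]) hx), le_div_iff₀ hx]
      linarith [hy.1]
    rw [min_eq_left h3, om_one h]
  have h3 : ∫ y in x..(x * Real.exp 1), ff ω x y = JJ ω * x := by
    have h4 := intervalIntegral.integral_comp_mul_deriv (a := 0) (b := 1)
      (f := fun t => x * Real.exp t) (f' := fun t => x * Real.exp t) (g := ff ω x)
      (fun t _ => (Real.hasDerivAt_exp t).const_mul x)
      ((continuous_const.mul Real.continuous_exp).continuousOn) (ff_cont h hx)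
    simp only [Real.exp_zero, mul_one] at h4
    rw [← h4, JJ, ← intervalIntegral.integral_mul_const]
    refine intervalIntegral.integral_congr fun t ht => ?_
    rw [Set.uIcc_of_le zero_le_one] at ht
    simp only [Function.comp, ff]
    have h5 : cl x (x * Real.exp t) = t := by
      rw [cl_of_ge hx (by have := Real.one_le_exp ht.1; nlinarith), mul_div_cancel_left₀ _ hx.ne',
        Real.log_exp, min_eq_right ht.2]
    rw [h5]
    ring
  rw [← intervalIntegral.integral_add_adjacent_intervals (hint u x) (hint x v),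
    ← intervalIntegral.integral_add_adjacent_intervals (hint x (x * Real.exp 1))
      (hint (x * Real.exp 1) v), h1, h2, h3]
  ring

lemma class_set (m : ℕ) (hm : 1 ≤ m) (a : ℤ) (T : ℕ) : ∃ a₀ : ℕ, 1 ≤ a₀ ∧ a₀ ≤ m ∧
    (Icc 1 (m * T)).filter (fun n : ℕ => (m : ℤ) ∣ (n : ℤ) - a) =
      (range T).image (fun j => a₀ + m * j) := by
  have hm0 : (0 : ℤ) < m := by exact_mod_cast hm
  have hr0 := Int.emod_nonneg (a - 1) hm0.ne'
  have hr1 := Int.emod_lt_of_pos (a - 1) hm0
  obtain ⟨r, hr⟩ := Int.eq_ofNat_of_zero_le hr0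
  have hdvd : (m : ℤ) ∣ ((r : ℤ) + 1) - a := by
    have h1 : (m : ℤ) ∣ (a - 1) - (a - 1) % m := Int.dvd_self_sub_emod
    rw [hr] at h1
    have h2 := (dvd_neg (α := ℤ)).2 h1
    have e : ((r : ℤ) + 1) - a = -(a - 1 - Int.ofNat r) := by
      rw [Int.ofNat_eq_natCast]; ring
    rw [e]
    exact h2
  refine ⟨r + 1, by omega, by omega, ?_⟩
  ext n
  rw [Finset.mem_filter, Finset.mem_Icc, Finset.mem_image]
  constructor
  · rintro ⟨⟨h1, h2⟩, h3⟩
    have h4 : (m : ℤ) ∣ (n : ℤ) - (r + 1) := by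
      have h5 := dvd_sub h3 hdvd
      have e : (n : ℤ) - (r + 1) = (n : ℤ) - a - ((r : ℤ) + 1 - a) := by ring
      rw [e]
      exact h5
    obtain ⟨k, hk⟩ := h4
    have hk0 : 0 ≤ k := by
      by_contra hneg
      have : k ≤ -1 := by omega
      nlinarith
    obtain ⟨j, rfl⟩ := Int.eq_ofNat_of_zero_le hk0
    refine ⟨j, ?_, ?_⟩
    · rw [Finset.mem_range]
      by_contra hj
      have hj' : (T : ℤ) ≤ j := by exact_mod_cast not_lt.1 hj
      have h2' : (n : ℤ) ≤ m * T := by exact_mod_cast h2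
      nlinarith
    · have : ((r + 1 + m * j : ℕ) : ℤ) = n := by push_cast; linarith
      exact_mod_cast this
  · rintro ⟨j, hj, rfl⟩
    rw [Finset.mem_range] at hj
    have h5 : m * (j + 1) ≤ m * T := Nat.mul_le_mul_left m hj
    have h6 : m * (j + 1) = m * j + m := by ring
    refine ⟨⟨by omega, by omega⟩, ?_⟩
    have h7 : ((r + 1 + m * j : ℕ) : ℤ) - a = ((r : ℤ) + 1 - a) + m * j := by push_cast; ring
    rw [h7]
    exact dvd_add hdvd (dvd_mul_right _ _)

end GPS2

open GPS2 in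
theorem hAP : StAP := by
  classical
  intro ω h
  obtain ⟨K, hK0, hK⟩ := lip h
  refine ⟨K + 1, by linarith, fun x m a hx hm => ?_⟩
  have hx0 : 0 < x := by linarith
  have hm0 : (0 : ℝ) < m := by exact_mod_cast hm
  set T := ⌊3 * x⌋₊ + 1 with hT
  have hTx : 3 * x < T := by
    rw [hT]
    push_cast
    exact Nat.lt_floor_add_one _
  have hmT : (T : ℝ) ≤ m * T := by
    have : (1 : ℝ) ≤ m := by exact_mod_cast hm
    have hT0 : (0 : ℝ) ≤ T := Nat.cast_nonneg _
    nlinarith
  obtain ⟨a₀, ha1, ham, hset⟩ := class_set m hm a T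
  have he3 : Real.exp 1 < 3 := Real.exp_one_lt_three
  have hsum : ∑ n ∈ (II x).filter (fun n : ℕ => (m : ℤ) ∣ (n : ℤ) - a), ω (Real.log (n / x)) =
      ∑ k ∈ range T, ff ω x ((a₀ : ℝ) - m + m * (k + 1 : ℕ)) := by
    have h1 : ∑ n ∈ (II x).filter (fun n : ℕ => (m : ℤ) ∣ (n : ℤ) - a), ω (Real.log (n / x)) =
        ∑ n ∈ (Icc 1 (m * T)).filter (fun n : ℕ => (m : ℤ) ∣ (n : ℤ) - a), ω (Real.log (n / x)) := by
      refine Finset.sum_subset ?_ ?_
      · refine Finset.filter_subset_filter _ ?_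
        intro n hn
        rw [II, Finset.mem_Icc] at hn
        rw [Finset.mem_Icc]
        refine ⟨hn.1, ?_⟩
        have : T ≤ m * T := by exact_mod_cast hmT
        omega
      · intro n hn hn'
        rw [Finset.mem_filter, Finset.mem_Icc] at hn
        have h2 : ⌊3 * x⌋₊ < n := by
          by_contra hcon
          apply hn'
          rw [Finset.mem_filter, II, Finset.mem_Icc]
          exact ⟨⟨hn.1.1, not_lt.1 hcon⟩, hn.2⟩
        have h3 : 3 * x < n := (Nat.floor_lt (by linarith)).1 h2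
        refine h.supp _ fun h4 => absurd h4.2 (not_le.2 ?_)
        rw [Real.lt_log_iff_exp_lt (div_pos (by linarith) hx0), lt_div_iff₀ hx0]
        nlinarith
    rw [h1, hset, Finset.sum_image]
    · refine Finset.sum_congr rfl fun k _ => ?_
      have h2 : ((a₀ + m * k : ℕ) : ℝ) = (a₀ : ℝ) - m + m * (k + 1 : ℕ) := by
        push_cast
        ring
      rw [← h2]
      refine ff_eq h hx0 ?_
      have : 0 < a₀ + m * k := by omega
      exact_mod_cast this
    · intro i _ j _ hij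
      have h3 : m * i = m * j := by simpa using hij
      exact Nat.eq_of_mul_eq_mul_left (by omega) h3
  rw [hsum]
  have h2 := total h hK0 hK hx0 m hm0 ((a₀ : ℝ) - m) T
  have ha1' : (1 : ℝ) ≤ a₀ := by exact_mod_cast ha1
  have ham' : (a₀ : ℝ) ≤ m := by exact_mod_cast ham
  rw [integral_ff h hx0 (by linarith) (by
    have hT1 : (1 : ℝ) ≤ T := by rw [hT]; push_cast; linarith [Nat.cast_nonneg (α := ℝ) ⌊3 * x⌋₊]
    have hm1 : (1 : ℝ) ≤ m := by exact_mod_cast hm
    have h3 : (T : ℝ) ≤ (a₀ : ℝ) - m + m * T := by nlinarith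
    nlinarith)] at h2
  set S := ∑ k ∈ range T, ff ω x ((a₀ : ℝ) - m + m * (k + 1 : ℕ)) with hS
  have h3 : S - JJ ω * x / m = (m * S - JJ ω * x) / m := by
    field_simp
  rw [h3, abs_div, abs_of_pos hm0, div_le_iff₀ hm0]
  nlinarith

end Pool.Agent.Helper60.GP
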