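import Pool.Agent.Helper60.GP.St

/-! Project GP (MP_b454d1_nt), module S3 -/

set_option autoImplicit false

namespace Pool.Agent.Helper60.GP

open Finset ArithmeticFunction

namespace GPS3

/-- Chinese remainders -/
theorem crt {p M : ℕ} (h : Nat.Coprime p M) (a b : ℤ) :
    ∃ a' : ℤ, ∀ n : ℤ, ((p * M : ℕ) : ℤ) ∣ n - a' ↔ (M : ℤ) ∣ n - a ∧ (p : ℤ) ∣ n - b := by
  have hc : IsCoprime (p : ℤ) (M : ℤ) := Nat.isCoprime_iff_coprime.2 h
  obtain ⟨u, v, huv⟩ := hc
  refine ⟨a * (u * p) + b * (v * M), fun n => ?_⟩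
  have hc : IsCoprime (p : ℤ) (M : ℤ) := ⟨u, v, huv⟩
  have e1 : n - (a * (u * p) + b * (v * M)) = (n - a) + (a - b) * v * M := by
    linear_combination (-a) * huv
  have e2 : n - (a * (u * p) + b * (v * M)) = (n - b) - (a - b) * u * p := by
    linear_combination (-b) * huv
  have h1 : (M : ℤ) ∣ n - (a * (u * p) + b * (v * M)) ↔ (M : ℤ) ∣ n - a := by
    rw [e1]
    exact (dvd_add_left (Dvd.intro_left _ rfl))
  have h2 : (p : ℤ) ∣ n - (a * (u * p) + b * (v * M)) ↔ (p : ℤ) ∣ n - b := by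
    rw [e2]
    exact (dvd_sub_left (Dvd.intro_left _ rfl))
  rw [← h1, ← h2]
  push_cast
  constructor
  · intro h
    exact ⟨(Dvd.intro_left _ rfl).trans h, (Dvd.intro _ rfl).trans h⟩
  · rintro ⟨h3, h4⟩
    exact hc.mul_dvd h4 h3

open Classical in
theorem key {C J x z : ℝ} {W : ℕ → ℝ} {I : Finset ℕ} {N : ℕ}
    (hC : ∀ (m : ℕ) (a : ℤ), 1 ≤ m →
      |∑ n ∈ I.filter (fun n : ℕ => (m : ℤ) ∣ (n : ℤ) - a), W n - J * x / m| ≤ C) :
    ∀ S : Finset ℕ, (∀ p ∈ S, p.Prime) → ∀ (M : ℕ) (a : ℤ), 1 ≤ M →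
      (∀ p ∈ S, Nat.Coprime p M) →
      |∑ n ∈ I.filter (fun n : ℕ => (M : ℤ) ∣ (n : ℤ) - a ∧ ∀ p ∈ S, hit N z p n), W n -
        J * x / M * ∏ p ∈ S, (rho N z p / p)| ≤ C * ∏ p ∈ S, rho N z p := by
  intro S
  induction S using Finset.induction_on with
  | empty =>
    intro _ M a hM _
    simp only [notMem_empty, false_imp_iff, implies_true, and_true, prod_empty, mul_one]
    exact hC M a hM
  | insert p S hp ih =>
    intro hpr M a hM hcop
    have hpp : p.Prime := hpr p (mem_insert_self p S)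
    have hS : ∀ l ∈ S, l.Prime := fun l hl => hpr l (mem_insert_of_mem hl)
    have hpM : Nat.Coprime p M := hcop p (mem_insert_self p S)
    have hcop' : ∀ l ∈ S, Nat.Coprime l (p * M) := by
      intro l hl
      refine Nat.Coprime.mul_right ?_ (hcop l (mem_insert_of_mem hl))
      exact (Nat.coprime_primes (hS l hl) hpp).2 (fun h => hp (h ▸ hl))
    have hpM1 : 1 ≤ p * M := Nat.mul_pos hpp.pos hM
    have hp0 : (0 : ℝ) < p := by exact_mod_cast hpp.pos
    have hM0 : (0 : ℝ) < M := by exact_mod_cast hM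
    -- the sum over one class modulo `p`
    have hone : ∀ b : ℤ,
        |∑ n ∈ I.filter (fun n : ℕ => ((M : ℤ) ∣ (n : ℤ) - a ∧ (p : ℤ) ∣ (n : ℤ) - b) ∧
          ∀ l ∈ S, hit N z l n), W n - J * x / (p * M) * ∏ l ∈ S, (rho N z l / l)| ≤
        C * ∏ l ∈ S, rho N z l := by
      intro b
      obtain ⟨a', ha'⟩ := crt hpM a b
      have h := ih hS (p * M) a' hpM1 hcop'
      have e : I.filter (fun n : ℕ => ((p * M : ℕ) : ℤ) ∣ (n : ℤ) - a' ∧
          ∀ l ∈ S, hit N z l n) =
          I.filter (fun n : ℕ => ((M : ℤ) ∣ (n : ℤ) - a ∧ (p : ℤ) ∣ (n : ℤ) - b) ∧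
          ∀ l ∈ S, hit N z l n) := by
        refine filter_congr fun n _ => ?_
        rw [ha' n]
      rw [e] at h
      push_cast at h
      exact h
    rw [prod_insert hp, prod_insert hp]
    by_cases hz : (p : ℝ) < z ∧ ¬ p ∣ N
    · -- two classes
      have hrho : rho N z p = 2 := if_pos hz
      rw [hrho]
      have h0 := hone 0
      have hN := hone N
      have hdis : Disjoint (I.filter (fun n : ℕ => ((M : ℤ) ∣ (n : ℤ) - a ∧
          (p : ℤ) ∣ (n : ℤ) - 0) ∧ ∀ l ∈ S, hit N z l n))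
          (I.filter (fun n : ℕ => ((M : ℤ) ∣ (n : ℤ) - a ∧
          (p : ℤ) ∣ (n : ℤ) - (N : ℤ)) ∧ ∀ l ∈ S, hit N z l n)) := by
        rw [disjoint_filter]
        rintro n _ ⟨⟨_, h1⟩, _⟩ ⟨⟨_, h2⟩, _⟩
        apply hz.2
        have h3 : (p : ℤ) ∣ ((n : ℤ) - 0) - ((n : ℤ) - (N : ℤ)) := dvd_sub h1 h2
        have e : ((n : ℤ) - 0) - ((n : ℤ) - (N : ℤ)) = (N : ℤ) := by ring
        rw [e] at h3
        exact_mod_cast h3
      have hun : I.filter (fun n : ℕ => (M : ℤ) ∣ (n : ℤ) - a ∧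
          ∀ l ∈ insert p S, hit N z l n) =
          (I.filter (fun n : ℕ => ((M : ℤ) ∣ (n : ℤ) - a ∧
          (p : ℤ) ∣ (n : ℤ) - 0) ∧ ∀ l ∈ S, hit N z l n)) ∪
          (I.filter (fun n : ℕ => ((M : ℤ) ∣ (n : ℤ) - a ∧
          (p : ℤ) ∣ (n : ℤ) - (N : ℤ)) ∧ ∀ l ∈ S, hit N z l n)) := by
        rw [← filter_or]
        refine filter_congr fun n _ => ?_
        rw [forall_mem_insert]
        have hh : hit N z p n ↔ ((p : ℤ) ∣ (n : ℤ) - 0 ∨ (p : ℤ) ∣ (n : ℤ) - (N : ℤ)) := by
          unfold hit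
          rw [sub_zero, Int.natCast_dvd_natCast]
          constructor
          · rintro (h | ⟨_, h⟩)
            · exact Or.inl h
            · exact Or.inr ((dvd_sub_comm).1 h)
          · rintro (h | h)
            · exact Or.inl h
            · exact Or.inr ⟨hz.1, (dvd_sub_comm).1 h⟩
        rw [hh]
        tauto
      rw [hun, sum_union hdis]
      have e1 : J * x / M * (2 / p * ∏ l ∈ S, (rho N z l / l)) =
          J * x / (p * M) * ∏ l ∈ S, (rho N z l / l) +
          J * x / (p * M) * ∏ l ∈ S, (rho N z l / l) := by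
        field_simp
        ring
      have e2 : C * (2 * ∏ l ∈ S, rho N z l) = C * ∏ l ∈ S, rho N z l + C * ∏ l ∈ S, rho N z l := by
        ring
      rw [e1, e2, add_sub_add_comm]
      exact (abs_add_le _ _).trans (add_le_add h0 hN)
    · -- one class
      have hrho : rho N z p = 1 := if_neg hz
      rw [hrho]
      have h0 := hone 0
      have hun : I.filter (fun n : ℕ => (M : ℤ) ∣ (n : ℤ) - a ∧
          ∀ l ∈ insert p S, hit N z l n) =
          (I.filter (fun n : ℕ => ((M : ℤ) ∣ (n : ℤ) - a ∧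
          (p : ℤ) ∣ (n : ℤ) - 0) ∧ ∀ l ∈ S, hit N z l n)) := by
        refine filter_congr fun n _ => ?_
        rw [forall_mem_insert]
        have hh : hit N z p n ↔ (p : ℤ) ∣ (n : ℤ) - 0 := by
          unfold hit
          rw [sub_zero, Int.natCast_dvd_natCast]
          constructor
          · rintro (h | ⟨h1, h2⟩)
            · exact h
            · have hpN : p ∣ N := by
                by_contra hcon
                exact hz ⟨h1, hcon⟩
              have h3 : (p : ℤ) ∣ (N : ℤ) := by exact_mod_cast hpN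
              have h4 : (p : ℤ) ∣ (n : ℤ) := by
                have := dvd_sub h3 h2
                rwa [sub_sub_cancel] at this
              exact_mod_cast h4
          · exact Or.inl
        rw [hh]
        tauto
      rw [hun]
      have e1 : J * x / M * (1 / p * ∏ l ∈ S, (rho N z l / l)) =
          J * x / (p * M) * ∏ l ∈ S, (rho N z l / l) := by
        field_simp
      rw [e1, one_mul]
      exact h0

end GPS3

theorem hRes (h1 : StAP) : StRes := by
  classical
  intro ω hω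
  obtain ⟨C, hC, h⟩ := h1 ω hω
  refine ⟨C, hC, fun N q m z x hq hm hqm hx => ?_⟩
  have hk := GPS3.key (C := C) (J := JJ ω) (x := x) (z := z) (W := fun n => ω (Real.log (n / x)))
    (I := II x) (N := N) (fun m a hm => h x m a hx hm) m.primeFactors
    (fun p hp => Nat.prime_of_mem_primeFactors hp) q N hq.one_le (fun p hp => by
      refine (Nat.coprime_primes (Nat.prime_of_mem_primeFactors hp) hq).2 fun he => hqm ?_
      rw [← he]
      exact Nat.dvd_of_mem_primeFactors hp)
  have e : (II x).filter (fun n : ℕ => (q : ℤ) ∣ (N : ℤ) - n ∧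
      ∀ p ∈ m.primeFactors, hit N z p n) =
      (II x).filter (fun n : ℕ => (q : ℤ) ∣ (n : ℤ) - (N : ℤ) ∧
      ∀ p ∈ m.primeFactors, hit N z p n) := by
    refine filter_congr fun n _ => ?_
    rw [dvd_sub_comm]
  rw [e]
  exact hk

end Pool.Agent.Helper60.GP
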