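import Pool.Agent.Helper60.GP.St

/-! Project GP (MP_b454d1_nt), module S4 -/

set_option autoImplicit false

namespace Pool.Agent.Helper60.GP

open Finset ArithmeticFunction

noncomputable section

namespace S4

open Classical in
/-- indicator of a proposition -/
def ind (P : Prop) : ℝ := if P then 1 else 0

theorem ind_t {P : Prop} (h : P) : ind P = 1 := by rw [ind, if_pos h]

theorem ind_f {P : Prop} (h : ¬ P) : ind P = 0 := by rw [ind, if_neg h]

theorem ind_nonneg (P : Prop) : 0 ≤ ind P := by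
  by_cases h : P
  · rw [ind_t h]; exact zero_le_one
  · rw [ind_f h]

theorem sumF {α : Type} (s : Finset α) (P : α → Prop) {i : DecidablePred P} (f : α → ℝ) :
    ∑ n ∈ @Finset.filter α P i s, f n = ∑ n ∈ s, ind (P n) * f n := by
  rw [Finset.sum_filter]
  apply Finset.sum_congr rfl
  intro n _
  by_cases h : P n
  · rw [if_pos h, ind_t h, one_mul]
  · rw [if_neg h, ind_f h, zero_mul]

theorem sq_prod (T : Finset ℕ) (hT : ∀ p ∈ T, p.Prime) : Squarefree (∏ p ∈ T, p) := by
  induction T using Finset.induction_on with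
  | empty => simp
  | insert p T hp ih =>
    rw [Finset.prod_insert hp]
    have h1 := ih (fun q hq => hT q (Finset.mem_insert_of_mem hq))
    have h2 : Nat.Coprime p (∏ q ∈ T, q) := by
      apply Nat.Coprime.prod_right
      intro q hq
      exact (Nat.coprime_primes (hT p (Finset.mem_insert_self _ _))
        (hT q (Finset.mem_insert_of_mem hq))).2 (fun h => hp (h ▸ hq))
    exact (Nat.squarefree_mul h2).2 ⟨(hT p (Finset.mem_insert_self _ _)).squarefree, h1⟩

theorem one_le_prodR (s : Finset ℕ) (f : ℕ → ℝ) (h : ∀ p ∈ s, 1 ≤ f p) : 1 ≤ ∏ p ∈ s, f p := by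
  have h1 : ∏ p ∈ s, (1 : ℝ) ≤ ∏ p ∈ s, f p :=
    Finset.prod_le_prod (fun _ _ => zero_le_one) h
  rwa [Finset.prod_const_one] at h1

/-- the sum of the divisor function -/
theorem sum_tau (M : ℕ) :
    ∑ d ∈ Icc 1 M, (d.divisors.card : ℝ) ≤ M * (1 + Real.log M) := by
  have h1 : ∀ d ∈ Icc 1 M, (d.divisors.card : ℝ) =
      ∑ a ∈ Icc 1 M, (if a ∣ d then (1 : ℝ) else 0) := by
    intro d hd
    rw [Finset.mem_Icc] at hd
    rw [← Finset.sum_filter, Finset.sum_const, nsmul_eq_mul, mul_one]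
    congr 2
    ext a
    rw [Nat.mem_divisors, Finset.mem_filter, Finset.mem_Icc]
    constructor
    · intro ⟨h2, h3⟩
      exact ⟨⟨Nat.pos_of_dvd_of_pos h2 (by omega), (Nat.le_of_dvd (by omega) h2).trans hd.2⟩, h2⟩
    · intro ⟨_, h2⟩
      exact ⟨h2, by omega⟩
  rw [Finset.sum_congr rfl h1, Finset.sum_comm]
  have h2 : ∀ a ∈ Icc 1 M, ∑ d ∈ Icc 1 M, (if a ∣ d then (1 : ℝ) else 0) ≤ (M : ℝ) * (1 / a) := by
    intro a ha
    rw [Finset.mem_Icc] at ha
    rw [← Finset.sum_filter, Finset.sum_const, nsmul_eq_mul, mul_one]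
    have h3 : (Icc 1 M).filter (fun d => a ∣ d) = (Ioc 0 M).filter (fun d => a ∣ d) := rfl
    have h4 : ((Icc 1 M).filter (fun d => a ∣ d)).card = M / a := by
      rw [h3]
      exact Nat.Ioc_filter_dvd_card_eq_div M a
    rw [h4, mul_one_div]
    exact Nat.cast_div_le
  refine (Finset.sum_le_sum h2).trans ?_
  rw [← Finset.mul_sum]
  have h5 := harmonic_le_one_add_log M
  rw [harmonic_eq_sum_Icc] at h5
  push_cast at h5
  apply mul_le_mul_of_nonneg_left _ (Nat.cast_nonneg M)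
  refine le_trans (le_of_eq ?_) h5
  exact Finset.sum_congr rfl (fun a _ => one_div _)

end S4

open S4

theorem hUpM (h1 : StSel) (h2 : StRes) : StUpM := by
  intro ω hω
  obtain ⟨C, hC, hR⟩ := h2 ω hω
  refine ⟨C, hC, ?_⟩
  intro N q z ξ x hN hq hx hξ
  -- the density
  have hrho : ∀ p, 1 ≤ rho N z p ∧ rho N z p ≤ 2 := by
    intro p
    unfold rho
    split_ifs <;> norm_num
  have hg : ∀ p ∈ Qx q ξ, p.Prime ∧ 0 < rho N z p / p ∧ rho N z p / p < 1 := by
    intro p hp
    rw [Qx, Finset.mem_filter] at hp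
    have hpp := hp.2.1
    have hp0 : (0 : ℝ) < p := by exact_mod_cast hpp.pos
    refine ⟨hpp, div_pos (by linarith [(hrho p).1]) hp0, ?_⟩
    rw [div_lt_one hp0]
    rcases hpp.two_le.lt_or_eq with h | h
    · have : (3 : ℝ) ≤ p := by exact_mod_cast h
      linarith [(hrho p).2]
    · rw [← h, rho, if_neg (by
        intro hh
        exact hh.2 hN.two_dvd)]
      norm_num
  obtain ⟨lam, hl1, hlb, hls⟩ := h1 (Qx q ξ) (fun p => rho N z p / p) ξ hg hξ
  have hGG : ∑ d ∈ DD (Qx q ξ) ξ, ∏ p ∈ d.primeFactors,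
      (rho N z p / p) / (1 - rho N z p / p) = GG N q z ξ := by
    unfold GG
    apply Finset.sum_congr rfl
    intro d hd
    apply Finset.prod_congr rfl
    intro p hp
    have hp0 : (p : ℝ) ≠ 0 := by exact_mod_cast (Nat.prime_of_mem_primeFactors hp).ne_zero
    have h3 : 1 - rho N z p / p = (p - rho N z p) / p := by
      rw [sub_div, div_self hp0]
    rw [h3, div_div_div_cancel_right₀ hp0]
  -- hits
  set hits : ℕ → ℕ → Prop := fun d n => ∀ p ∈ d.primeFactors, hit N z p n with hhits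
  set W : ℕ → ℝ := fun n => ind ((q : ℤ) ∣ (N : ℤ) - n) * ω (Real.log (n / x)) with hW
  have hW0 : ∀ n, 0 ≤ W n := fun n => mul_nonneg (ind_nonneg _) (hω.nonneg _)
  have hD1 : (1 : ℕ) ∈ DD (Qx q ξ) ξ := by
    rw [DD, Finset.mem_filter, Finset.mem_Icc]
    refine ⟨⟨le_refl _, Nat.le_floor (by exact_mod_cast hξ)⟩, squarefree_one, ?_⟩
    rw [Nat.primeFactors_one]
    exact Finset.empty_subset _
  have step1 : ∑ n ∈ II x, ind ((q : ℤ) ∣ (N : ℤ) - n ∧ ∀ p ∈ Qx q ξ, ¬ hit N z p n) *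
      ω (Real.log (n / x)) ≤
      ∑ n ∈ II x, W n * (∑ d ∈ DD (Qx q ξ) ξ, ind (hits d n) * lam d) ^ 2 := by
    apply Finset.sum_le_sum
    intro n _
    by_cases h : (q : ℤ) ∣ (N : ℤ) - n ∧ ∀ p ∈ Qx q ξ, ¬ hit N z p n
    · have h3 : ∑ d ∈ DD (Qx q ξ) ξ, ind (hits d n) * lam d = 1 := by
        rw [Finset.sum_eq_single_of_mem 1 hD1]
        · rw [ind_t (by
            intro p hp
            simp at hp), one_mul, hl1]
        · intro d hd hd1
          rw [DD, Finset.mem_filter, Finset.mem_Icc] at hd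
          rw [ind_f, zero_mul]
          intro hh
          obtain ⟨p, hp⟩ : d.primeFactors.Nonempty := by
            rw [Nat.nonempty_primeFactors]
            omega
          exact h.2 p (hd.2.2 hp) (hh p hp)
      rw [h3, ind_t h, hW]
      simp only [ind_t h.1]
      norm_num
    · rw [ind_f h, zero_mul]
      exact mul_nonneg (hW0 n) (sq_nonneg _)
  -- the modulus of a pair
  set mm : ℕ → ℕ → ℕ := fun d e => ∏ p ∈ (d * e).primeFactors, p with hmm
  have hmf : ∀ d e, (mm d e).primeFactors = (d * e).primeFactors := fun d e =>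
    Nat.primeFactors_prod (fun p hp => Nat.prime_of_mem_primeFactors hp)
  have hmsq : ∀ d e, Squarefree (mm d e) := fun d e =>
    sq_prod _ (fun p hp => Nat.prime_of_mem_primeFactors hp)
  have hDne : ∀ d ∈ DD (Qx q ξ) ξ, d ≠ 0 := by
    intro d hd
    rw [DD, Finset.mem_filter, Finset.mem_Icc] at hd
    omega
  have hDsub : ∀ d ∈ DD (Qx q ξ) ξ, d.primeFactors ⊆ Qx q ξ := by
    intro d hd
    rw [DD, Finset.mem_filter, Finset.mem_Icc] at hd
    exact hd.2.2
  have hhit : ∀ d ∈ DD (Qx q ξ) ξ, ∀ e ∈ DD (Qx q ξ) ξ, ∀ n,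
      (hits (mm d e) n ↔ hits d n ∧ hits e n) := by
    intro d hd e he n
    simp only [hhits]
    rw [hmf, Nat.primeFactors_mul (hDne d hd) (hDne e he)]
    constructor
    · intro h
      exact ⟨fun p hp => h p (Finset.mem_union_left _ hp),
        fun p hp => h p (Finset.mem_union_right _ hp)⟩
    · intro h p hp
      rcases Finset.mem_union.1 hp with hp | hp
      · exact h.1 p hp
      · exact h.2 p hp
  set S : ℕ → ℝ := fun m => ∑ n ∈ II x,
    ind ((q : ℤ) ∣ (N : ℤ) - n ∧ ∀ p ∈ m.primeFactors, hit N z p n) * ω (Real.log (n / x)) with hS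
  have step2 : ∑ n ∈ II x, W n * (∑ d ∈ DD (Qx q ξ) ξ, ind (hits d n) * lam d) ^ 2 =
      ∑ d ∈ DD (Qx q ξ) ξ, ∑ e ∈ DD (Qx q ξ) ξ, lam d * lam e * S (mm d e) := by
    have h3 : ∀ n ∈ II x, W n * (∑ d ∈ DD (Qx q ξ) ξ, ind (hits d n) * lam d) ^ 2 =
        ∑ d ∈ DD (Qx q ξ) ξ, ∑ e ∈ DD (Qx q ξ) ξ, lam d * lam e *
          (ind ((q : ℤ) ∣ (N : ℤ) - n ∧ ∀ p ∈ (mm d e).primeFactors, hit N z p n) *
            ω (Real.log (n / x))) := by
      intro n _
      rw [sq, Finset.sum_mul_sum, Finset.mul_sum]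
      apply Finset.sum_congr rfl
      intro d hd
      rw [Finset.mul_sum]
      apply Finset.sum_congr rfl
      intro e he
      have h4 : ind ((q : ℤ) ∣ (N : ℤ) - n ∧ ∀ p ∈ (mm d e).primeFactors, hit N z p n) =
          ind ((q : ℤ) ∣ (N : ℤ) - n) * (ind (hits d n) * ind (hits e n)) := by
        by_cases ha : (q : ℤ) ∣ (N : ℤ) - n
        · by_cases hb : hits d n
          · by_cases hc : hits e n
            · rw [ind_t ha, ind_t hb, ind_t hc, ind_t ⟨ha, (hhit d hd e he n).2 ⟨hb, hc⟩⟩]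
              norm_num
            · rw [ind_f hc, ind_f (fun h => hc ((hhit d hd e he n).1 h.2).2)]
              norm_num
          · rw [ind_f hb, ind_f (fun h => hb ((hhit d hd e he n).1 h.2).1)]
            norm_num
        · rw [ind_f ha, ind_f (fun h => ha h.1)]
          norm_num
      rw [h4, hW]
      ring
    rw [Finset.sum_congr rfl h3, Finset.sum_comm]
    apply Finset.sum_congr rfl
    intro d hd
    rw [Finset.sum_comm]
    apply Finset.sum_congr rfl
    intro e he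
    rw [hS, Finset.mul_sum]
  have hqm : ∀ d ∈ DD (Qx q ξ) ξ, ∀ e ∈ DD (Qx q ξ) ξ, ¬ q ∣ mm d e := by
    intro d hd e he h
    have h3 : q ∈ (mm d e).primeFactors :=
      Nat.mem_primeFactors.2 ⟨hq, h, (hmsq d e).ne_zero⟩
    rw [hmf, Nat.primeFactors_mul (hDne d hd) (hDne e he), Finset.mem_union] at h3
    have h4 : q ∈ Qx q ξ := by
      rcases h3 with h3 | h3
      · exact hDsub d hd h3
      · exact hDsub e he h3
    rw [Qx, Finset.mem_filter] at h4
    exact h4.2.2 rfl
  have hSm : ∀ d ∈ DD (Qx q ξ) ξ, ∀ e ∈ DD (Qx q ξ) ξ,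
      |S (mm d e) - JJ ω * x / q * ∏ p ∈ (d * e).primeFactors, (rho N z p / p)| ≤
        C * ∏ p ∈ (d * e).primeFactors, rho N z p := by
    intro d hd e he
    have h3 := hR N q (mm d e) z x hq (hmsq d e) (hqm d hd e he) hx
    rw [sumF, hmf] at h3
    simp only [hS]
    rw [hmf]
    exact h3
  -- the sum of the products of the `rho`
  have hrt : ∀ d ∈ DD (Qx q ξ) ξ, ∀ e ∈ DD (Qx q ξ) ξ,
      ∏ p ∈ (d * e).primeFactors, rho N z p ≤ (d.divisors.card : ℝ) * e.divisors.card := by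
    intro d hd e he
    have h3 : ∀ d ∈ DD (Qx q ξ) ξ, ∏ p ∈ d.primeFactors, rho N z p ≤ (d.divisors.card : ℝ) := by
      intro d hd
      rw [Nat.card_divisors (hDne d hd)]
      push_cast
      apply Finset.prod_le_prod
      · intro p _
        linarith [(hrho p).1]
      · intro p hp
        have h4 : 1 ≤ d.factorization p :=
          (Nat.prime_of_mem_primeFactors hp).factorization_pos_of_dvd (hDne d hd)
            (Nat.dvd_of_mem_primeFactors hp)
        have h5 : (1 : ℝ) ≤ d.factorization p := by exact_mod_cast h4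
        linarith [(hrho p).2]
    have h5 : ∏ p ∈ (d * e).primeFactors, rho N z p ≤
        (∏ p ∈ d.primeFactors, rho N z p) * ∏ p ∈ e.primeFactors, rho N z p := by
      rw [Nat.primeFactors_mul (hDne d hd) (hDne e he), ← Finset.prod_union_inter]
      apply le_mul_of_one_le_right
      · exact Finset.prod_nonneg (fun p _ => by linarith [(hrho p).1])
      · exact one_le_prodR _ _ (fun p _ => (hrho p).1)
    refine h5.trans (mul_le_mul (h3 d hd) (h3 e he) ?_ (Nat.cast_nonneg _))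
    exact Finset.prod_nonneg (fun p _ => by linarith [(hrho p).1])
  have hDs : ∑ d ∈ DD (Qx q ξ) ξ, (d.divisors.card : ℝ) ≤ ξ * (1 + Real.log ξ) := by
    have hf1 : (1 : ℝ) ≤ ⌊ξ⌋₊ := by
      have : 1 ≤ ⌊ξ⌋₊ := Nat.le_floor (by exact_mod_cast hξ)
      exact_mod_cast this
    have hf2 : (⌊ξ⌋₊ : ℝ) ≤ ξ := Nat.floor_le (by linarith)
    calc ∑ d ∈ DD (Qx q ξ) ξ, (d.divisors.card : ℝ) ≤ ∑ d ∈ Icc 1 ⌊ξ⌋₊, (d.divisors.card : ℝ) :=
          Finset.sum_le_sum_of_subset_of_nonneg (Finset.filter_subset _ _)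
            (fun _ _ _ => Nat.cast_nonneg _)
      _ ≤ ⌊ξ⌋₊ * (1 + Real.log ⌊ξ⌋₊) := sum_tau _
      _ ≤ ξ * (1 + Real.log ξ) := by
          apply mul_le_mul hf2
          · linarith [Real.log_le_log (by linarith) hf2]
          · linarith [Real.log_nonneg hf1]
          · linarith
  -- conclusion
  have step3 : ∑ d ∈ DD (Qx q ξ) ξ, ∑ e ∈ DD (Qx q ξ) ξ, lam d * lam e * S (mm d e) ≤
      JJ ω * x / q * (1 / GG N q z ξ) + C * (ξ * (1 + Real.log ξ)) ^ 2 := by
    have h3 : ∀ d ∈ DD (Qx q ξ) ξ, ∀ e ∈ DD (Qx q ξ) ξ, lam d * lam e * S (mm d e) ≤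
        JJ ω * x / q * (lam d * lam e * ∏ p ∈ (d * e).primeFactors, (rho N z p / p)) +
          C * ((d.divisors.card : ℝ) * e.divisors.card) := by
      intro d hd e he
      have h4 := hSm d hd e he
      have h5 := hrt d hd e he
      set P := ∏ p ∈ (d * e).primeFactors, (rho N z p / p) with hP
      have h6 : |lam d * lam e * (S (mm d e) - JJ ω * x / q * P)| ≤
          C * ((d.divisors.card : ℝ) * e.divisors.card) := by
        rw [abs_mul, abs_mul]
        have h7 : |lam d| * |lam e| ≤ 1 :=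
          mul_le_one₀ (hlb d) (abs_nonneg _) (hlb e)
        have h8 : |S (mm d e) - JJ ω * x / q * P| ≤
            C * ((d.divisors.card : ℝ) * e.divisors.card) :=
          h4.trans (mul_le_mul_of_nonneg_left h5 hC.le)
        calc |lam d| * |lam e| * |S (mm d e) - JJ ω * x / q * P| ≤
            1 * |S (mm d e) - JJ ω * x / q * P| :=
              mul_le_mul_of_nonneg_right h7 (abs_nonneg _)
          _ = |S (mm d e) - JJ ω * x / q * P| := one_mul _
          _ ≤ _ := h8
      have h9 := (abs_le.1 h6).2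
      have h10 : lam d * lam e * (S (mm d e) - JJ ω * x / q * P) =
          lam d * lam e * S (mm d e) - JJ ω * x / q * (lam d * lam e * P) := by ring
      rw [h10] at h9
      linarith
    refine (Finset.sum_le_sum (fun d hd => Finset.sum_le_sum (h3 d hd))).trans ?_
    have h4 : ∑ d ∈ DD (Qx q ξ) ξ, ∑ e ∈ DD (Qx q ξ) ξ,
        (JJ ω * x / q * (lam d * lam e * ∏ p ∈ (d * e).primeFactors, (rho N z p / p)) +
          C * ((d.divisors.card : ℝ) * e.divisors.card)) =
        JJ ω * x / q * (∑ d ∈ DD (Qx q ξ) ξ, ∑ e ∈ DD (Qx q ξ) ξ,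
          lam d * lam e * ∏ p ∈ (d * e).primeFactors, (rho N z p / p)) +
        C * (∑ d ∈ DD (Qx q ξ) ξ, (d.divisors.card : ℝ)) ^ 2 := by
      rw [sq, Finset.sum_mul_sum, Finset.mul_sum, Finset.mul_sum, ← Finset.sum_add_distrib]
      apply Finset.sum_congr rfl
      intro d _
      rw [Finset.mul_sum, Finset.mul_sum, ← Finset.sum_add_distrib]
    rw [h4, hls, hGG]
    have h5 : (∑ d ∈ DD (Qx q ξ) ξ, (d.divisors.card : ℝ)) ^ 2 ≤
        (ξ * (1 + Real.log ξ)) ^ 2 :=
      pow_le_pow_left₀ (Finset.sum_nonneg (fun _ _ => Nat.cast_nonneg _)) hDs 2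
    linarith [mul_le_mul_of_nonneg_left h5 hC.le]
  rw [sumF]
  have h6 : JJ ω * x / (q * GG N q z ξ) = JJ ω * x / q * (1 / GG N q z ξ) := by
    rw [div_mul_div_comm, mul_one]
  rw [h6]
  exact step1.trans (step2.le.trans step3)

end

end Pool.Agent.Helper60.GP
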