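import Pool.Agent.Helper60.GP.St

/-! Project GP (MP_b454d1_nt), module S5 -/

set_option autoImplicit false

namespace Pool.Agent.Helper60.GP

open Finset ArithmeticFunction

private noncomputable def inv_S5 : ℕ →* ℝ where
  toFun n := (n : ℝ)⁻¹
  map_one' := by simp
  map_mul' := by
    intro a b
    push_cast
    rw [mul_inv]

/-- the sum of `1/n` over the `n ≤ N` with a given radical -/
private theorem fiber_S5 (N a : ℕ) (ha : Squarefree a) :
    ∑ n ∈ (Icc 1 N).filter (fun n => ∏ p ∈ n.primeFactors, p = a), (1 : ℝ) / n ≤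
      1 / (Nat.totient a : ℝ) := by
  have ha0 : a ≠ 0 := ha.ne_zero
  have ha1 : (0 : ℝ) < a := by exact_mod_cast Nat.pos_of_ne_zero ha0
  obtain ⟨hsum, hhas⟩ := EulerProduct.summable_and_hasSum_factoredNumbers_prod_filter_prime_geometric
    (f := inv_S5) (fun {p} hp => by
      show ‖((p : ℝ))⁻¹‖ < 1
      rw [norm_inv, Real.norm_natCast]
      exact inv_lt_one_of_one_lt₀ (by exact_mod_cast hp.one_lt)) a.primeFactors
  have hfilt : (a.primeFactors.filter fun p => p.Prime) = a.primeFactors :=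
    Finset.filter_true_of_mem fun p hp => Nat.prime_of_mem_primeFactors hp
  rw [hfilt] at hhas
  have htot : (1 : ℝ) / (Nat.totient a : ℝ) =
      1 / (a : ℝ) * ∏ p ∈ a.primeFactors, (1 - inv_S5 p)⁻¹ := by
    have h1 : ((Nat.totient a : ℚ) : ℝ) = ((a * ∏ p ∈ a.primeFactors, (1 - (p : ℚ)⁻¹) : ℚ) : ℝ) := by
      rw [Nat.totient_eq_mul_prod_factors]
    push_cast at h1
    rw [h1, Finset.prod_inv_distrib, one_div, one_div, mul_inv]
    rfl
  rw [htot]
  -- inject into the factored numbers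
  have h2 : ∑ n ∈ (Icc 1 N).filter (fun n => ∏ p ∈ n.primeFactors, p = a), (1 : ℝ) / n =
      1 / (a : ℝ) * ∑ n ∈ (Icc 1 N).filter (fun n => ∏ p ∈ n.primeFactors, p = a),
        inv_S5 (n / a) := by
    rw [Finset.mul_sum]
    refine Finset.sum_congr rfl fun n hn => ?_
    obtain ⟨hn1, hn2⟩ := mem_filter.1 hn
    have hd : a ∣ n := hn2 ▸ Nat.prod_primeFactors_dvd n
    obtain ⟨m, rfl⟩ := hd
    rw [Nat.mul_div_cancel_left _ (Nat.pos_of_ne_zero ha0)]
    show 1 / ((a * m : ℕ) : ℝ) = 1 / (a : ℝ) * ((m : ℝ))⁻¹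
    push_cast
    rw [one_div, one_div, mul_inv]
  rw [h2]
  refine mul_le_mul_of_nonneg_left ?_ (by positivity)
  have hmem : ∀ n ∈ (Icc 1 N).filter (fun n => ∏ p ∈ n.primeFactors, p = a),
      n / a ∈ Nat.factoredNumbers a.primeFactors := by
    intro n hn
    obtain ⟨hn1, hn2⟩ := mem_filter.1 hn
    have hn0 : n ≠ 0 := by
      have := (mem_Icc.1 hn1).1
      omega
    have hd : a ∣ n := hn2 ▸ Nat.prod_primeFactors_dvd n
    have hpf : a.primeFactors = n.primeFactors := by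
      rw [← hn2]
      exact Nat.primeFactors_prod_primeFactors n
    refine Nat.mem_factoredNumbers_of_primeFactors_subset ?_ ?_
    · exact (Nat.div_pos (Nat.le_of_dvd (Nat.pos_of_ne_zero hn0) hd)
        (Nat.pos_of_ne_zero ha0)).ne'
    · rw [hpf]
      exact Nat.primeFactors_mono (Nat.div_dvd_of_dvd hd) hn0
  have hinj : Set.InjOn (fun n => n / a)
      ((Icc 1 N).filter (fun n => ∏ p ∈ n.primeFactors, p = a) : Finset ℕ) := by
    intro n hn m hm hnm
    rw [Finset.mem_coe] at hn hm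
    have hdn : a ∣ n := (mem_filter.1 hn).2 ▸ Nat.prod_primeFactors_dvd n
    have hdm : a ∣ m := (mem_filter.1 hm).2 ▸ Nat.prod_primeFactors_dvd m
    have h3 : n / a = m / a := hnm
    rw [← Nat.div_mul_cancel hdn, ← Nat.div_mul_cancel hdm, h3]
  rw [← hhas.tsum_eq]
  have hs : Summable (fun m : Nat.factoredNumbers a.primeFactors => inv_S5 m) := hhas.summable
  set F := (Icc 1 N).filter (fun n => ∏ p ∈ n.primeFactors, p = a) with hF
  have h4 : ∑ n ∈ F, inv_S5 (n / a) =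
      ∑ m ∈ F.attach.image (fun n => (⟨n.1 / a, hmem n.1 n.2⟩ : Nat.factoredNumbers a.primeFactors)),
        inv_S5 m := by
    rw [Finset.sum_image, ← Finset.sum_attach F]
    intro n _ m _ hnm
    have h5 : n.1 / a = m.1 / a := congrArg Subtype.val hnm
    exact Subtype.ext (hinj n.2 m.2 h5)
  rw [h4]
  refine hs.sum_le_tsum _ fun m _ => ?_
  show 0 ≤ ((m : ℕ) : ℝ)⁻¹
  positivity

theorem hG1 : StG1 := by
  intro q y hq hy
  set N : ℕ := ⌊y⌋₊ with hN
  have hq1 : (1 : ℝ) < q := by exact_mod_cast hq.one_lt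
  -- the harmonic sum over `n` prime to `q`
  have h1 : ∑ n ∈ (Icc 1 N).filter (fun n => ¬ q ∣ n), (1 : ℝ) / n ≤
      ∑ a ∈ (Icc 1 N).filter (fun a => Squarefree a ∧ ¬ q ∣ a), 1 / (Nat.totient a : ℝ) := by
    have hmaps : ∀ n ∈ (Icc 1 N).filter (fun n => ¬ q ∣ n), ∏ p ∈ n.primeFactors, p ∈
        (Icc 1 N).filter (fun a => Squarefree a ∧ ¬ q ∣ a) := by
      intro n hn
      obtain ⟨hn1, hn2⟩ := mem_filter.1 hn
      obtain ⟨hn3, hn4⟩ := mem_Icc.1 hn1
      have hd := Nat.prod_primeFactors_dvd n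
      have hpos : 0 < ∏ p ∈ n.primeFactors, p :=
        Finset.prod_pos fun p hp => (Nat.prime_of_mem_primeFactors hp).pos
      refine mem_filter.2 ⟨mem_Icc.2 ⟨hpos, (Nat.le_of_dvd hn3 hd).trans hn4⟩, ?_,
        fun h => hn2 (h.trans hd)⟩
      rw [Nat.squarefree_iff_prime_squarefree]
      intro p hp hpp
      have hpd : p ∈ (∏ p ∈ n.primeFactors, p).primeFactors :=
        Nat.mem_primeFactors.2 ⟨hp, (Dvd.intro _ rfl).trans hpp, hpos.ne'⟩
      rw [Nat.primeFactors_prod_primeFactors] at hpd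
      rw [← Finset.mul_prod_erase _ _ hpd] at hpp
      have h2 : p ∣ ∏ p ∈ n.primeFactors.erase p, p :=
        (Nat.mul_dvd_mul_iff_left hp.pos).1 hpp
      obtain ⟨r, hr, hpr⟩ := (Nat.Prime.prime hp).exists_mem_finset_dvd h2
      obtain ⟨hr1, hr2⟩ := mem_erase.1 hr
      exact hr1 ((Nat.prime_dvd_prime_iff_eq hp (Nat.prime_of_mem_primeFactors hr2)).1 hpr).symm
    rw [← Finset.sum_fiberwise_of_maps_to hmaps]
    refine Finset.sum_le_sum fun a ha => ?_
    refine le_trans ?_ (fiber_S5 N a (mem_filter.1 ha).2.1)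
    refine Finset.sum_le_sum_of_subset_of_nonneg ?_ (fun _ _ _ => by positivity)
    intro n hn
    obtain ⟨hn1, hn2⟩ := mem_filter.1 hn
    exact mem_filter.2 ⟨(mem_filter.1 hn1).1, hn2⟩
  refine le_trans ?_ h1
  -- lower bound
  have hH : Real.log y ≤ ∑ n ∈ Icc 1 N, (1 : ℝ) / n := by
    have h2 := log_add_one_le_harmonic N
    rw [harmonic_eq_sum_Icc] at h2
    push_cast at h2
    have h3 : Real.log y ≤ Real.log ((N : ℝ) + 1) :=
      Real.log_le_log (by linarith) (Nat.lt_floor_add_one y).le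
    simp only [one_div]
    linarith
  have hH0 : 0 ≤ ∑ n ∈ Icc 1 N, (1 : ℝ) / n := Finset.sum_nonneg fun n _ => by positivity
  have h2 : ∑ n ∈ (Icc 1 N).filter (fun n => q ∣ n), (1 : ℝ) / n ≤
      1 / (q : ℝ) * ∑ n ∈ Icc 1 N, (1 : ℝ) / n := by
    have h3 : ∑ n ∈ (Icc 1 N).filter (fun n => q ∣ n), (1 : ℝ) / n =
        ∑ n ∈ (Icc 1 N).filter (fun n => q ∣ n), 1 / (q : ℝ) * (1 / ((n / q : ℕ) : ℝ)) := by
      refine Finset.sum_congr rfl fun n hn => ?_
      obtain ⟨m, rfl⟩ := (mem_filter.1 hn).2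
      rw [Nat.mul_div_cancel_left _ hq.pos]
      push_cast
      rw [one_div, one_div, one_div, mul_inv]
    rw [h3, ← Finset.mul_sum]
    refine mul_le_mul_of_nonneg_left ?_ (by positivity)
    have h4 : ∑ n ∈ (Icc 1 N).filter (fun n => q ∣ n), (1 / ((n / q : ℕ) : ℝ)) =
        ∑ m ∈ ((Icc 1 N).filter (fun n => q ∣ n)).image (fun n => n / q), (1 : ℝ) / m := by
      rw [Finset.sum_image]
      intro n hn m hm hnm
      rw [Finset.mem_coe] at hn hm
      have h5 : n / q = m / q := hnm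
      rw [← Nat.div_mul_cancel (mem_filter.1 hn).2, ← Nat.div_mul_cancel (mem_filter.1 hm).2, h5]
    rw [h4]
    refine Finset.sum_le_sum_of_subset_of_nonneg ?_ (fun _ _ _ => by positivity)
    intro m hm
    obtain ⟨n, hn, rfl⟩ := mem_image.1 hm
    obtain ⟨hn1, hn2⟩ := mem_filter.1 hn
    obtain ⟨hn3, hn4⟩ := mem_Icc.1 hn1
    refine mem_Icc.2 ⟨Nat.div_pos (Nat.le_of_dvd hn3 hn2) hq.pos, (Nat.div_le_self _ _).trans hn4⟩
  have h3 := Finset.sum_filter_add_sum_filter_not (Icc 1 N) (fun n => q ∣ n)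
    (fun n : ℕ => (1 : ℝ) / n)
  have h4 : 0 ≤ 1 - 1 / (q : ℝ) := by
    rw [sub_nonneg, div_le_one (by linarith)]
    linarith
  calc (1 - 1 / (q : ℝ)) * Real.log y ≤ (1 - 1 / (q : ℝ)) * ∑ n ∈ Icc 1 N, (1 : ℝ) / n :=
        mul_le_mul_of_nonneg_left hH h4
    _ ≤ _ := by
        have : (1 - 1 / (q : ℝ)) * ∑ n ∈ Icc 1 N, (1 : ℝ) / n =
          ∑ n ∈ Icc 1 N, (1 : ℝ) / n - 1 / (q : ℝ) * ∑ n ∈ Icc 1 N, (1 : ℝ) / n := by ring
        rw [this]
        linarith

end Pool.Agent.Helper60.GP
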