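import Pool.Agent.Helper60.GP.St

/-! Project GP (MP_b454d1_nt), module S6 -/

set_option autoImplicit false

namespace Pool.Agent.Helper60.GP

open Finset ArithmeticFunction

namespace GPS6

/-- the local factor -/
noncomputable def hh (Q : Finset ℕ) (p : ℕ) : ℝ := by
  classical exact if p ∈ Q then 2 / ((p : ℝ) - 2) else 1 / ((p : ℝ) - 1)

/-- the multiplicative function -/
noncomputable def HH (Q : Finset ℕ) (d : ℕ) : ℝ := ∏ p ∈ d.primeFactors, hh Q p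

/-- squarefree integers up to `y` prime to `q` -/
noncomputable def SS' (q : ℕ) (y : ℝ) : Finset ℕ := (Icc 1 ⌊y⌋₊).filter (fun d => Squarefree d ∧ ¬ q ∣ d)

/-- the sum -/
noncomputable def Gs (Q : Finset ℕ) (q : ℕ) (y : ℝ) : ℝ := ∑ d ∈ SS' q y, HH Q d

/-- the part prime to `l` -/
noncomputable def Us (Q : Finset ℕ) (q l : ℕ) (y : ℝ) : ℝ :=
  ∑ d ∈ (SS' q y).filter (fun d => ¬ l ∣ d), HH Q d

theorem hh_nonneg {Q : Finset ℕ} (hQ : ∀ p ∈ Q, 3 ≤ p) {p : ℕ} (hp : 2 ≤ p) : 0 ≤ hh Q p := by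
  unfold hh
  split_ifs with h
  · have h1 := hQ p h
    have : (3 : ℝ) ≤ p := by exact_mod_cast h1
    exact div_nonneg (by norm_num) (by linarith)
  · have : (2 : ℝ) ≤ p := by exact_mod_cast hp
    exact div_nonneg (by norm_num) (by linarith)

theorem HH_nonneg {Q : Finset ℕ} (hQ : ∀ p ∈ Q, 3 ≤ p) (d : ℕ) : 0 ≤ HH Q d :=
  prod_nonneg fun _ hp => hh_nonneg hQ (Nat.prime_of_mem_primeFactors hp).two_le

theorem mem_SS' {q d : ℕ} {y : ℝ} : d ∈ SS' q y ↔ (1 ≤ d ∧ d ≤ ⌊y⌋₊) ∧ Squarefree d ∧ ¬ q ∣ d := by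
  unfold SS'
  rw [mem_filter, mem_Icc]

theorem Us_nonneg {Q : Finset ℕ} (hQ : ∀ p ∈ Q, 3 ≤ p) (q l : ℕ) (y : ℝ) : 0 ≤ Us Q q l y :=
  sum_nonneg fun d _ => HH_nonneg hQ d

theorem Us_mono {Q : Finset ℕ} (hQ : ∀ p ∈ Q, 3 ≤ p) (q l : ℕ) {y y' : ℝ} (h : y ≤ y') :
    Us Q q l y ≤ Us Q q l y' := by
  refine sum_le_sum_of_subset_of_nonneg ?_ fun d _ _ => HH_nonneg hQ d
  intro d hd
  rw [mem_filter, mem_SS'] at hd ⊢
  exact ⟨⟨⟨hd.1.1.1, hd.1.1.2.trans (Nat.floor_mono h)⟩, hd.1.2⟩, hd.2⟩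

/-- the part divisible by `l` -/
theorem part_dvd {Q Q' : Finset ℕ} {q l : ℕ} (hl : l.Prime) (hq : q.Prime) (hlq : l ≠ q)
    (hQQ : ∀ p, p ≠ l → hh Q' p = hh Q p) {y : ℝ} (hy : 0 < y) :
    ∑ d ∈ (SS' q y).filter (fun d => l ∣ d), HH Q' d = hh Q' l * Us Q q l (y / l) := by
  have hl0 : (0 : ℝ) < l := by exact_mod_cast hl.pos
  rw [Us, mul_sum]
  symm
  refine sum_bij (fun d _ => l * d) ?_ ?_ ?_ ?_
  · intro d hd
    rw [mem_filter, mem_SS'] at hd
    obtain ⟨⟨⟨h1, h2⟩, h3, h4⟩, h5⟩ := hd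
    rw [mem_filter, mem_SS']
    have h6 : (d : ℝ) ≤ y / l := (Nat.le_floor_iff (by positivity)).1 h2
    refine ⟨⟨⟨Nat.mul_pos hl.pos h1, (Nat.le_floor_iff hy.le).2 ?_⟩, ?_, ?_⟩, dvd_mul_right _ _⟩
    · rw [Nat.cast_mul]
      rw [le_div_iff₀ hl0] at h6
      linarith
    · rw [Nat.squarefree_mul ((Nat.Prime.coprime_iff_not_dvd hl).2 h5)]
      exact ⟨hl.squarefree, h3⟩
    · intro h
      rcases (Nat.Prime.dvd_mul hq).1 h with h | h
      · exact hlq ((Nat.prime_dvd_prime_iff_eq hq hl).1 h).symm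
      · exact h4 h
  · intro a _ b _ hab
    exact Nat.eq_of_mul_eq_mul_left hl.pos hab
  · intro d hd
    rw [mem_filter, mem_SS'] at hd
    obtain ⟨⟨⟨h1, h2⟩, h3, h4⟩, d', rfl⟩ := hd
    have h5 : ¬ l ∣ d' := by
      intro h
      obtain ⟨c, rfl⟩ := h
      have := h3 l ⟨c, by ring⟩
      exact hl.one_lt.ne' (Nat.isUnit_iff.1 this)
    have hd' : 1 ≤ d' := by
      rcases Nat.eq_zero_or_pos d' with h | h
      · subst h; simp at h1
      · exact h
    refine ⟨d', ?_, rfl⟩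
    rw [mem_filter, mem_SS']
    refine ⟨⟨⟨hd', (Nat.le_floor_iff (by positivity)).2 ?_⟩, h3.squarefree_of_dvd
      (dvd_mul_left _ _), fun h => h4 (h.mul_left _)⟩, h5⟩
    have h6 : ((l * d' : ℕ) : ℝ) ≤ y := (Nat.le_floor_iff hy.le).1 h2
    rw [Nat.cast_mul] at h6
    rw [le_div_iff₀ hl0]
    linarith
  · intro d hd
    rw [mem_filter, mem_SS'] at hd
    obtain ⟨⟨⟨h1, h2⟩, h3, h4⟩, h5⟩ := hd
    rw [HH, HH, Nat.primeFactors_mul hl.ne_zero (by omega), hl.primeFactors]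
    have h6 : l ∉ d.primeFactors := fun h => h5 (Nat.dvd_of_mem_primeFactors h)
    rw [← insert_eq, prod_insert h6]
    congr 1
    exact (prod_congr rfl fun p hp => hQQ p (fun h => h6 (h ▸ hp))).symm

theorem split_l {Q Q' : Finset ℕ} {q l : ℕ} (hl : l.Prime) (hq : q.Prime) (hlq : l ≠ q)
    (hQQ : ∀ p, p ≠ l → hh Q' p = hh Q p) {y : ℝ} (hy : 0 < y) :
    Gs Q' q y = Us Q q l y + hh Q' l * Us Q q l (y / l) := by
  rw [Gs, ← sum_filter_add_sum_filter_not _ (fun d => l ∣ d), part_dvd hl hq hlq hQQ hy, add_comm]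
  congr 1
  refine sum_congr rfl fun d hd => ?_
  rw [mem_filter] at hd
  refine prod_congr rfl fun p hp => hQQ p ?_
  rintro rfl
  exact hd.2 (Nat.dvd_of_mem_primeFactors hp)

theorem step {Q : Finset ℕ} (hQ : ∀ p ∈ Q, 3 ≤ p) {q l : ℕ} (hl : l.Prime) (hl3 : 3 ≤ l)
    (hq : q.Prime) (hlq : l ≠ q) (hlQ : l ∉ Q) {y : ℝ} (hy : 0 < y) :
    Gs Q q y + 1 / ((l : ℝ) - 2) * Gs Q q (y / l) ≤ Gs (insert l Q) q y := by
  have hl0 : (3 : ℝ) ≤ l := by exact_mod_cast hl3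
  have hlp : (0 : ℝ) < l := by linarith
  have e1 := split_l (Q := Q) (Q' := insert l Q) hl hq hlq (fun p hp => by
    unfold hh
    simp only [mem_insert, hp, false_or]) hy
  have e2 := split_l (Q := Q) (Q' := Q) hl hq hlq (fun _ _ => rfl) hy
  have e3 := split_l (Q := Q) (Q' := Q) hl hq hlq (fun _ _ => rfl) (div_pos hy hlp)
  have f1 : hh (insert l Q) l = 2 / ((l : ℝ) - 2) := by
    unfold hh; rw [if_pos (mem_insert_self _ _)]
  have f2 : hh Q l = 1 / ((l : ℝ) - 1) := by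
    unfold hh; rw [if_neg hlQ]
  rw [e1, e2, e3, f1, f2]
  have hU := Us_nonneg hQ q l (y / l)
  have hU2 : Us Q q l (y / l / l) ≤ Us Q q l (y / l) :=
    Us_mono hQ q l (div_le_self (div_pos hy hlp).le (by linarith))
  have h1 : (0 : ℝ) < (l : ℝ) - 1 := by linarith
  have h2 : (0 : ℝ) < (l : ℝ) - 2 := by linarith
  have h3 : 1 / ((l : ℝ) - 2) * (Us Q q l (y / l) + 1 / ((l : ℝ) - 1) * Us Q q l (y / l / l)) ≤
      1 / ((l : ℝ) - 2) * (Us Q q l (y / l) + 1 / ((l : ℝ) - 1) * Us Q q l (y / l)) := by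
    gcongr
  have h4 : 1 / ((l : ℝ) - 1) * Us Q q l (y / l) +
      1 / ((l : ℝ) - 2) * (Us Q q l (y / l) + 1 / ((l : ℝ) - 1) * Us Q q l (y / l)) =
      2 / ((l : ℝ) - 2) * Us Q q l (y / l) := by
    field_simp
    ring
  linarith

theorem main (hG1 : StG1) {q : ℕ} (hq : q.Prime) (Q : Finset ℕ)
    (hQ : ∀ p ∈ Q, p.Prime ∧ 3 ≤ p ∧ p ≠ q) : ∀ y : ℝ, 0 < y →
    (1 - 1 / (q : ℝ)) * (∏ p ∈ Q, (1 + 1 / ((p : ℝ) - 2))) *
      (Real.log y - ∑ p ∈ Q, Real.log p / ((p : ℝ) - 1)) ≤ Gs Q q y := by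
  have hq2 : (2 : ℝ) ≤ q := by exact_mod_cast hq.two_le
  have hc : (0 : ℝ) ≤ 1 - 1 / (q : ℝ) := by
    have : 1 / (q : ℝ) ≤ 1 := by
      rw [div_le_one (by linarith)]; linarith
    linarith
  induction Q using Finset.induction_on with
  | empty =>
    intro y hy
    rw [prod_empty, sum_empty, mul_one, sub_zero]
    by_cases h1 : 1 ≤ y
    · refine (hG1 q y hq h1).trans (le_of_eq ?_)
      rw [Gs]
      refine sum_congr rfl fun d hd => ?_
      unfold SS' at hd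
      rw [mem_filter] at hd
      rw [HH, Nat.totient_eq_prod_factorization (by
        have := (mem_Icc.1 hd.1).1; omega)]
      have h2 : (d.factorization.prod fun p k => p ^ (k - 1) * (p - 1)) =
          ∏ p ∈ d.primeFactors, (p - 1) := by
        rw [Finsupp.prod, Nat.support_factorization]
        refine prod_congr rfl fun p hp => ?_
        have h3 : d.factorization p = 1 := by
          have h4 := hd.2.1.natFactorization_le_one p
          have h5 := (Nat.prime_of_mem_primeFactors hp).factorization_pos_of_dvd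
            (by have := (mem_Icc.1 hd.1).1; omega) (Nat.dvd_of_mem_primeFactors hp)
          omega
        rw [h3]; simp
      rw [h2, Nat.cast_prod, one_div, ← prod_inv_distrib]
      refine prod_congr rfl fun p hp => ?_
      unfold hh
      rw [if_neg (notMem_empty _), Nat.cast_sub (Nat.prime_of_mem_primeFactors hp).one_le,
        Nat.cast_one, one_div]
    · have h2 : Real.log y ≤ 0 := Real.log_nonpos hy.le (by linarith)
      refine (mul_nonpos_of_nonneg_of_nonpos hc h2).trans ?_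
      exact sum_nonneg fun d _ => HH_nonneg (by simp) d
  | insert l Q hl ih =>
    intro y hy
    obtain ⟨hlp, hl3, hlq⟩ := hQ l (mem_insert_self l Q)
    have hQ' : ∀ p ∈ Q, p.Prime ∧ 3 ≤ p ∧ p ≠ q := fun p hp => hQ p (mem_insert_of_mem hp)
    have hl0 : (3 : ℝ) ≤ l := by exact_mod_cast hl3
    have hlpos : (0 : ℝ) < l := by linarith
    have h1 := step (fun p hp => (hQ' p hp).2.1) hlp hl3 hq hlq hl hy
    have h2 := ih hQ' y hy
    have h3 := ih hQ' (y / l) (div_pos hy hlpos)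
    rw [Real.log_div hy.ne' hlpos.ne'] at h3
    rw [prod_insert hl, sum_insert hl]
    set K : ℝ := ∏ p ∈ Q, (1 + 1 / ((p : ℝ) - 2))
    set L : ℝ := ∑ p ∈ Q, Real.log p / ((p : ℝ) - 1)
    have h4 : (0 : ℝ) < (l : ℝ) - 2 := by linarith
    have h5 : (0 : ℝ) < (l : ℝ) - 1 := by linarith
    have h6 := mul_le_mul_of_nonneg_left h3 (by positivity : (0 : ℝ) ≤ 1 / ((l : ℝ) - 2))
    have h7 : (1 - 1 / (q : ℝ)) * ((1 + 1 / ((l : ℝ) - 2)) * K) *
        (Real.log y - (Real.log l / ((l : ℝ) - 1) + L)) =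
        (1 - 1 / (q : ℝ)) * K * (Real.log y - L) +
        1 / ((l : ℝ) - 2) * ((1 - 1 / (q : ℝ)) * K * (Real.log y - Real.log l - L)) := by
      generalize (1 - 1 / (q : ℝ)) = c
      field_simp
      ring
    linarith

theorem DD_eq {q : ℕ} (hq : q.Prime) (ξ : ℝ) : DD (Qx q ξ) ξ = SS' q ξ := by
  ext d
  unfold DD
  rw [mem_filter, mem_Icc, mem_SS']
  refine and_congr_right fun hd => and_congr_right fun _ => ?_
  constructor
  · intro h hqd
    have h1 : q ∈ d.primeFactors := Nat.mem_primeFactors.2 ⟨hq, hqd, by omega⟩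
    have h2 := h h1
    unfold Qx at h2
    rw [mem_filter] at h2
    exact h2.2.2 rfl
  · intro h p hp
    have hp1 := Nat.prime_of_mem_primeFactors hp
    have hp2 := Nat.dvd_of_mem_primeFactors hp
    unfold Qx
    rw [mem_filter, mem_Icc]
    refine ⟨⟨hp1.one_le, (Nat.le_of_dvd (by omega) hp2).trans hd.2⟩, hp1, ?_⟩
    rintro rfl
    exact h hp2

theorem mem_PP {N : ℕ} {z : ℝ} {p : ℕ} : p ∈ PP N z ↔ (p : ℝ) < z ∧ p.Prime ∧ ¬ p ∣ N := by
  unfold PP
  rw [mem_filter, mem_range, Nat.lt_ceil]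

theorem GG_eq {N q : ℕ} (hq : q.Prime) (z ξ : ℝ) :
    GG N q z ξ = Gs (PP N z) q ξ := by
  unfold GG Gs
  rw [DD_eq hq ξ]
  refine sum_congr rfl fun d _ => prod_congr rfl fun p hp => ?_
  have hp1 := Nat.prime_of_mem_primeFactors hp
  unfold rho hh
  by_cases h : (p : ℝ) < z ∧ ¬ p ∣ N
  · rw [if_pos h, if_pos (mem_PP.2 ⟨h.1, hp1, h.2⟩)]
  · rw [if_neg h, if_neg fun h1 => h ⟨(mem_PP.1 h1).1, (mem_PP.1 h1).2.2⟩]

end GPS6

open GPS6 in
theorem hG (h1 : StG1) (h2 : StLogSum) : StG := by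
  obtain ⟨C, hC⟩ := h2
  refine ⟨C, ?_⟩
  intro N q z ξ hN hq hz hzq hξ
  have hPP : ∀ p ∈ PP N z, p.Prime ∧ 3 ≤ p ∧ p ≠ q := by
    intro p hp
    obtain ⟨a, b, c⟩ := mem_PP.1 hp
    refine ⟨b, ?_, ?_⟩
    · have h2 := b.two_le
      rcases Nat.lt_or_ge p 3 with h | h
      · have : p = 2 := by omega
        subst this
        exact absurd hN.two_dvd c
      · exact h
    · rintro rfl
      linarith
  have hq2 : (2 : ℝ) ≤ q := hz.trans hzq
  have hc : (0 : ℝ) ≤ 1 - 1 / (q : ℝ) := by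
    have : 1 / (q : ℝ) ≤ 1 := by
      rw [div_le_one (by linarith)]; linarith
    linarith
  have h3 := main h1 hq (PP N z) hPP ξ (by linarith)
  have h4 := hC N z (by linarith)
  set K : ℝ := ∏ p ∈ PP N z, (1 + 1 / ((p : ℝ) - 2)) with hK
  set L : ℝ := ∑ p ∈ PP N z, Real.log p / ((p : ℝ) - 1)
  have hKV : K * VV N z = 1 := by
    rw [hK, VV, ← prod_mul_distrib]
    refine prod_eq_one fun p hp => ?_
    have h5 : (3 : ℝ) ≤ p := by exact_mod_cast (hPP p hp).2.1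
    have h6 : (p : ℝ) - 2 ≠ 0 := by linarith
    have h7 : (p : ℝ) - 1 ≠ 0 := by linarith
    field_simp
    ring
  have hV : 0 ≤ VV N z := by
    rw [VV]
    refine prod_nonneg fun p hp => ?_
    have h5 : (3 : ℝ) ≤ p := by exact_mod_cast (hPP p hp).2.1
    have : 1 / ((p : ℝ) - 1) ≤ 1 := by
      rw [div_le_one (by linarith)]; linarith
    linarith
  rw [GG_eq hq z ξ]
  have h5 := mul_le_mul_of_nonneg_right h3 hV
  have h6 : (1 - 1 / (q : ℝ)) * K * (Real.log ξ - L) * VV N z =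
      (1 - 1 / (q : ℝ)) * (Real.log ξ - L) := by
    calc _ = (1 - 1 / (q : ℝ)) * (Real.log ξ - L) * (K * VV N z) := by ring
      _ = _ := by rw [hKV, mul_one]
  rw [h6] at h5
  refine le_trans (mul_le_mul_of_nonneg_left ?_ hc) h5
  linarith

end Pool.Agent.Helper60.GP
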