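import Pool.Agent.Helper60.GP.M_M1
import Pool.Agent.Helper60.GP.M_M2
import Pool.Agent.Helper60.GP.M_M3
import Pool.Agent.Helper60.GP.M_M4
import Pool.Agent.Helper60.GP.M_M5
import Pool.Agent.Helper60.GP.M_M6
import Pool.Agent.Helper60.GP.M_F1
import Pool.Agent.Helper60.GP.M_F2
import Pool.Agent.Helper60.GP.M_F3
import Pool.Agent.Helper60.GP.M_F4
import Pool.Agent.Helper60.GP.M_R1
import Pool.Agent.Helper60.GP.M_R2
import Pool.Agent.Helper60.GP.M_R3
import Pool.Agent.Helper60.GP.M_R4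
import Pool.Agent.Helper60.GP.M_R5
import Pool.Agent.Helper60.GP.M_B0
import Pool.Agent.Helper60.GP.M_B1
import Pool.Agent.Helper60.GP.M_B2
import Pool.Agent.Helper60.GP.M_B3
import Pool.Agent.Helper60.GP.M_B4
import Pool.Agent.Helper60.GP.M_B5
import Pool.Agent.Helper60.GP.M_S1
import Pool.Agent.Helper60.GP.M_S2
import Pool.Agent.Helper60.GP.M_S3
import Pool.Agent.Helper60.GP.M_S4
import Pool.Agent.Helper60.GP.M_S5
import Pool.Agent.Helper60.GP.M_S6
import Pool.Agent.Helper60.GP.M_S7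
import Pool.Agent.Helper60.GP.M_E01
import Pool.Agent.Helper60.GP.M_E02
import Pool.Agent.Helper60.GP.M_E03
import Pool.Agent.Helper60.GP.M_E1
import Pool.Agent.Helper60.GP.M_E2
import Pool.Agent.Helper60.GP.M_E3
import Pool.Agent.Helper60.GP.M_E4
import Pool.Agent.Helper60.GP.M_E5
import Pool.Agent.Helper60.GP.M_E6
import Pool.Agent.Helper60.GP.M_E7
import Pool.Agent.Helper60.GP.M_E8
import Pool.Agent.Helper60.GP.M_E9
import Pool.Agent.Helper15.AB.All
import Pool.Agent.Helper48.BK.Top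

/-!
# Project GP (MP_b454d1_nt): assembly
-/

set_option autoImplicit false

namespace Pool.Agent.Helper60.GP

open Pool.Agent.Helper15.AB (aBL hPH hRG hNP hOR)
open Pool.Agent.Helper48.BK (tSW hTh)

theorem pM1 : StM1 := hM1 
theorem pM2 : StM2 := hM2 pM1
theorem pM3 : StRatio := hRatio pM2
theorem pM4 : StLogSum := hLogSum pM1
theorem pM5 : StVlow := hVlow pM1 pM2
theorem pM6 : StSumq := hSumq pM1 pM2
theorem pF1 : StLev := hLev 
theorem pF2 : StBlk := hBlk pM2
theorem pF3 : StFLm := hFLm pF2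
theorem pF4 : StBase := hBase pF1 pF3
theorem pR1 : StBu := hBu 
theorem pR2 : StComp := hComp 
theorem pR3 : StRecU := hRecU pR1 pR2 pM3
theorem pR4 : StRecL := hRecL pR1 pR2 pM3
theorem pR5 : StTab := hTab pF4 pR3 pR4
theorem pS2 : StAP := hAP 
theorem pB0 : StPSum := hPSum 
theorem pB1 : StSCc := hSCc pB0 tSW hTh
theorem pB2 : StBVw := hBVw pB1 aBL hPH hRG hNP hOR
theorem pB3 : StBVc := hBVc pB2
theorem pB4 : StPNT := hPNT pB0 pS2 tSW hTh
theorem pB5 : StBump := hBump 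
theorem pS1 : StSel := hSel 
theorem pS3 : StRes := hRes pS2
theorem pS4 : StUpM := hUpM pS1 pS3
theorem pS5 : StG1 := hG1 
theorem pS6 : StG := hG pS5 pM4
theorem pS7 : StMix := hMix pS4 pS6 pM5
theorem pE01 : StDist := hDist 
theorem pE02 : StPairs := hPairs 
theorem pE03 : StNPr := hNPr 
theorem pE1 : StMain := hMain pE01 pE03 pB3 pB4 pM5
theorem pE2 : StCellA := hCellA pE01 pE02 pB3 pB4 pM5 pM2
theorem pE3 : StCellB := hCellB pS7 pM2
theorem pE4 : StNum := hNum 
theorem pE5 : StSec := hSec pR5 pE2 pE3 pM6 pE4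
theorem pE6 : StSq := hSq 
theorem pE7 : StRich := hRich 
theorem pE8 : StRA := hRA pE6 pE7
theorem pE9 : StMT := hMT pR5 pE1 pE5 pE8 pM5 pB5

end Pool.Agent.Helper60.GP
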