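import Pool.Agent.Helper60.GP.Defs
import Pool.Agent.Helper15.AB.StBV
import Pool.Agent.Helper48.BK.StD
import Pool.Agent.Helper18.TR.St

/-!
# Project GP (MP_b454d1_nt): statements of the modules
-/

set_option autoImplicit false

noncomputable section

namespace Pool.Agent.Helper60.GP

open Finset ArithmeticFunction
open Pool.Agent.Helper18.TR (fam0 fam1 Qi)
open Pool.Agent.Helper15.AB (Th TT IsW)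

/-! ### M: Mertens -/

/-- M1: Mertens' first theorem -/
def StM1 : Prop := ∃ C : ℝ, ∀ x : ℝ, 1 ≤ x →
  |∑ p ∈ (Icc 1 ⌊x⌋₊).filter Nat.Prime, Real.log p / p - Real.log x| ≤ C

/-- M2: sums of `1/p` over windows -/
def StM2 : Prop := ∀ a b : ℝ, 0 < a → a ≤ b → ∀ ε : ℝ, 0 < ε → ∃ z₀ : ℝ, ∀ z : ℝ, z₀ ≤ z →
  |∑ p ∈ (range ⌈z ^ b⌉₊).filter (fun p : ℕ => p.Prime ∧ z ^ a ≤ p), (1 : ℝ) / p -
    Real.log (b / a)| ≤ ε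

/-- M3: ratios of `V` -/
def StRatio : Prop := ∀ r : ℝ, 0 < r → r ≤ 1 → ∀ ε : ℝ, 0 < ε → ∀ M : ℝ, ∃ z₀ : ℝ, ∀ z : ℝ,
  z₀ ≤ z → ∀ N : ℕ, Even N → 1 ≤ N → (N : ℝ) ≤ z ^ M → |VV N (z ^ r) / VV N z - 1 / r| ≤ ε

/-- M4 -/
def StLogSum : Prop := ∃ C : ℝ, ∀ (N : ℕ) (z : ℝ), 1 ≤ z →
  ∑ p ∈ PP N z, Real.log p / ((p : ℝ) - 1) ≤ Real.log z + C

/-- M5: `V` and the singular series -/
def StVlow : Prop := ∀ u : ℝ, 0 < u → ∃ c : ℝ, 0 < c ∧ ∃ N₀ : ℕ, ∀ N : ℕ, N₀ ≤ N → Even N →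
  c * SS N / Real.log N ≤ VV N ((N : ℝ) ^ u)

/-- M6: the sums over `q` -/
def StSumq : Prop := ∀ (s t v : ℝ), 0 < s → s < t → t ≤ v → ∀ ε : ℝ, 0 < ε → ∃ N₀ : ℕ, ∀ N : ℕ,
  N₀ ≤ N → ∑ q ∈ PR N s t, (1 - Real.log q / (v * Real.log N)) / ((q : ℝ) - 1) ≤
    Real.log (t / s) - (t - s) / v + ε

/-! ### F: fundamental lemma with level `z ^ 17` -/

/-- F1: the level -/
def StLev : Prop := ∀ (w : ℕ) (Q T : Finset ℕ), 1 ≤ w → (∀ p ∈ Q, p.Prime ∧ p ≤ w) →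
  T ∈ fam0 w 6 Q ∪ fam1 w 6 Q → ∏ p ∈ T, p ≤ w ^ 17

/-- F2: the ranges -/
def StBlk : Prop := (∀ (i : ℕ) (η : ℝ), 0 < η → ∃ w₀ : ℕ, ∀ w : ℕ, w₀ ≤ w → ∀ Q : Finset ℕ,
    (∀ p ∈ Q, p.Prime ∧ 3 ≤ p ∧ p ≤ w) →
    ∑ p ∈ Qi w Q i, 1 / ((p : ℝ) - 1) ≤ Real.log 2 + η ∧
    Real.exp (-(Real.log 2 + η)) ≤ ∏ p ∈ Qi w Q i, (1 - 1 / ((p : ℝ) - 1))) ∧
  ∃ C : ℝ, 1 ≤ C ∧ ∀ (w i : ℕ) (Q : Finset ℕ), (∀ p ∈ Q, p.Prime ∧ 3 ≤ p ∧ p ≤ w) →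
    ∑ p ∈ Qi w Q i, 1 / ((p : ℝ) - 1) ≤ C ∧
    Real.exp (-C) ≤ ∏ p ∈ Qi w Q i, (1 - 1 / ((p : ℝ) - 1))

/-- F3: the main terms -/
def StFLm : Prop := ∀ ε : ℝ, 0 < ε → ∃ w₀ : ℕ, ∀ w : ℕ, w₀ ≤ w → ∀ Q : Finset ℕ,
  (∀ p ∈ Q, p.Prime ∧ 3 ≤ p ∧ p ≤ w) →
  ∑ T ∈ fam0 w 6 Q, (-1 : ℝ) ^ T.card * ∏ p ∈ T, 1 / ((p : ℝ) - 1) ≤
    (1 + 1 / 20000 + ε) * ∏ p ∈ Q, (1 - 1 / ((p : ℝ) - 1)) ∧
  (1 - 1 / 20000 - ε) * ∏ p ∈ Q, (1 - 1 / ((p : ℝ) - 1)) ≤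
    ∑ T ∈ fam0 w 6 Q ∪ fam1 w 6 Q, (-1 : ℝ) ^ T.card * ∏ p ∈ T, 1 / ((p : ℝ) - 1)

/-- F4: the base -/
def StBase : Prop := VU 17 (1 + 1 / 20000) ∧ VL 17 (1 - 1 / 20000)

/-! ### R: Buchstab recursion -/

/-- R1: Buchstab's identity -/
def StBu : Prop := ∀ (N : ℕ) (z₁ z : ℝ), z₁ ≤ z → ∀ a : ℕ → ℝ,
  ∏ p ∈ PP N z, (1 - a p) = ∏ p ∈ PP N z₁, (1 - a p) -
    ∑ l ∈ PP N z \ PP N z₁, a l * ∏ p ∈ PP N l, (1 - a p)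

/-- R2: composition of sieve weights -/
def StComp : Prop := ∀ (N : ℕ) (z₁ z D : ℝ) (lam₀ : ℕ → ℝ) (laml : ℕ → ℕ → ℝ), z₁ ≤ z →
  IsWt N z₁ D lam₀ → (∀ l ∈ PP N z \ PP N z₁, IsWt N l (D / l) (laml l)) →
  ∃ lam : ℕ → ℝ, IsWt N z D lam ∧
    (∀ n : ℕ, 1 ≤ n → ∑ m ∈ n.divisors, lam m = ∑ m ∈ n.divisors, lam₀ m -
      ∑ l ∈ (PP N z \ PP N z₁).filter (fun l => l ∣ n), ∑ m ∈ n.divisors, laml l m) ∧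
    MS D lam = MS D lam₀ - ∑ l ∈ PP N z \ PP N z₁, 1 / ((l : ℝ) - 1) * MS (D / l) (laml l)

/-- R3: the recursion for upper bounds -/
def StRecU : Prop := ∀ (K i : ℕ) (c l : ℝ), 1 ≤ K → 1 ≤ i → VU (((i : ℝ) + 1) / K) c →
  VL (((i : ℝ) - K) / K) l → VU ((i : ℝ) / K) ((((i : ℝ) + 1) * c - l) / i)

/-- R4: the recursion for lower bounds -/
def StRecL : Prop := ∀ (K i : ℕ) (c u : ℝ), 1 ≤ K → 1 ≤ i → VL (((i : ℝ) + 1) / K) c →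
  VU (((i : ℝ) - K) / K) u → VL ((i : ℝ) / K) ((((i : ℝ) + 1) * c - u) / i)

/-- the table of upper bounds: `(i, 10^8 U)` with `s = i / 16` -/
def tabU : List (ℕ × ℕ) :=
  [(12, 493117919), (14, 422672501), (16, 369838438), (18, 328745277), (20, 295870749),
   (22, 268973407), (24, 246558956), (26, 227592881), (28, 211336246), (30, 197247162),
   (32, 184919214), (34, 174041612), (36, 164372633), (38, 155721441), (40, 147935368),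
   (42, 140890826), (44, 134486697), (46, 128639448), (48, 123279470), (50, 118348290),
   (52, 114280138), (54, 111122765), (56, 108662055), (58, 106738988), (60, 105233828),
   (62, 104055361), (64, 103133401), (66, 102413470), (68, 101852965), (70, 101418353),
   (72, 101083089), (74, 100826057), (76, 100630395), (78, 100482587), (80, 100371774),
   (82, 100289210)]

/-- R5: the table -/
def StTab : Prop := (∀ e ∈ tabU, VU ((e.1 : ℝ) / 16) ((e.2 : ℝ) / 10 ^ 8)) ∧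
  VL (25 / 4) (9993 / 10000)

/-! ### B: primes in arithmetic progressions -/

/-- B0: partial summation -/
def StPSum : Prop := ∀ w : ℝ → ℝ, ContDiff ℝ 1 w → (∀ t, t ∉ Set.Icc (0 : ℝ) 1 → w t = 0) →
  ∃ C : ℝ, 0 < C ∧ ∀ (x R : ℝ) (f : ℕ → ℂ), 1 ≤ x → 0 ≤ R →
  (∀ y ≤ ⌊3 * x⌋₊, ‖∑ n ∈ Icc 1 y, f n‖ ≤ R) →
  ‖∑ n ∈ II x, ((w (Real.log (n / x)) : ℝ) : ℂ) * f n‖ ≤ C * R

/-- B1: small conductors, no exception -/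
def StSCc : Prop := ∀ w : ℝ → ℝ, IsW w → ∀ A B : ℕ, ∃ x₀ : ℝ, ∀ x : ℝ, x₀ ≤ x →
  ∀ (r : ℕ) [NeZero r] (ψ : DirichletCharacter ℂ r), (r : ℝ) ≤ Real.log x ^ B →
    ψ.IsPrimitive → ψ ≠ 1 → ‖TT w x (fun n => ψ (n : ZMod r))‖ ≤ x / Real.log x ^ A

/-- B2: Bombieri-Vinogradov for the weights `IsW` -/
def StBVw : Prop := ∀ w : ℝ → ℝ, IsW w → ∀ A : ℕ, ∃ (B : ℕ) (x₀ : ℝ), ∀ x : ℝ, x₀ ≤ x →
  ∀ b : ℕ → ℤ, (∀ q : ℕ, 1 ≤ q → IsCoprime (b q) (q : ℤ)) →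
    ∑ q ∈ Icc 1 ⌊√x / Real.log x ^ B⌋₊, Err w x q (b q) ≤ x / Real.log x ^ A

/-- B3: Bombieri-Vinogradov for bumps, with level `x ^ θ` -/
def StBVc : Prop := ∀ ω : ℝ → ℝ, IsB ω → ∀ (A : ℕ) (θ : ℝ), θ < 1 / 2 → ∃ x₀ : ℝ, ∀ x : ℝ,
  x₀ ≤ x → ∀ b : ℕ → ℤ, (∀ q : ℕ, 1 ≤ q → IsCoprime (b q) (q : ℤ)) →
    ∑ q ∈ Icc 1 ⌊x ^ θ⌋₊, Err ω x q (b q) ≤ x / Real.log x ^ A

/-- B4: prime number theorem -/
def StPNT : Prop := ∀ ω : ℝ → ℝ, IsB ω → ∀ ε : ℝ, 0 < ε → ∃ x₀ : ℝ, ∀ x : ℝ, x₀ ≤ x →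
  |Th ω x - JJ ω * x| ≤ ε * x

/-- B5: existence of bumps -/
def StBump : Prop := ∀ L : ℝ, 0 < L → ∃ ω : ℝ → ℝ, IsB ω ∧ 0 < JJ ω ∧
  ∀ t, ω t ≠ 0 → 0 < t ∧ t < L

/-! ### S: the sieve of mixed dimension -/

/-- S1: Selberg's weights -/
def StSel : Prop := ∀ (Q : Finset ℕ) (g : ℕ → ℝ) (ξ : ℝ), (∀ p ∈ Q, p.Prime ∧ 0 < g p ∧ g p < 1) →
  1 ≤ ξ → ∃ lam : ℕ → ℝ, lam 1 = 1 ∧ (∀ d, |lam d| ≤ 1) ∧
    ∑ d ∈ DD Q ξ, ∑ e ∈ DD Q ξ, lam d * lam e * ∏ p ∈ (d * e).primeFactors, g p =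
      1 / ∑ d ∈ DD Q ξ, ∏ p ∈ d.primeFactors, g p / (1 - g p)

/-- S2: integers in a residue class -/
def StAP : Prop := ∀ ω : ℝ → ℝ, IsB ω → ∃ C : ℝ, 0 < C ∧ ∀ (x : ℝ) (m : ℕ) (a : ℤ), 1 ≤ x →
  1 ≤ m → |∑ n ∈ (II x).filter (fun n : ℕ => (m : ℤ) ∣ (n : ℤ) - a), ω (Real.log (n / x)) -
    JJ ω * x / m| ≤ C

open Classical in
/-- S3: integers with prescribed hits -/
def StRes : Prop := ∀ ω : ℝ → ℝ, IsB ω → ∃ C : ℝ, 0 < C ∧ ∀ (N q m : ℕ) (z x : ℝ), q.Prime →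
  Squarefree m → ¬ q ∣ m → 1 ≤ x →
  |∑ n ∈ (II x).filter (fun n : ℕ => (q : ℤ) ∣ (N : ℤ) - n ∧ ∀ p ∈ m.primeFactors, hit N z p n),
      ω (Real.log (n / x)) - JJ ω * x / q * ∏ p ∈ m.primeFactors, (rho N z p / p)| ≤
    C * ∏ p ∈ m.primeFactors, rho N z p

open Classical in
/-- S4: upper bound -/
def StUpM : Prop := ∀ ω : ℝ → ℝ, IsB ω → ∃ C : ℝ, 0 < C ∧ ∀ (N q : ℕ) (z ξ x : ℝ), Even N →
  q.Prime → 1 ≤ x → 1 ≤ ξ →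
  ∑ n ∈ (II x).filter (fun n : ℕ => (q : ℤ) ∣ (N : ℤ) - n ∧ ∀ p ∈ Qx q ξ, ¬ hit N z p n),
      ω (Real.log (n / x)) ≤ JJ ω * x / (q * GG N q z ξ) + C * (ξ * (1 + Real.log ξ)) ^ 2

/-- S5: the one dimensional sum -/
def StG1 : Prop := ∀ (q : ℕ) (y : ℝ), q.Prime → 1 ≤ y →
  (1 - 1 / (q : ℝ)) * Real.log y ≤
    ∑ a ∈ (Icc 1 ⌊y⌋₊).filter (fun a => Squarefree a ∧ ¬ q ∣ a), 1 / (Nat.totient a : ℝ)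

/-- S6: lower bound for the Selberg sum -/
def StG : Prop := ∃ C : ℝ, ∀ (N q : ℕ) (z ξ : ℝ), Even N → q.Prime → 2 ≤ z → z ≤ q → 1 ≤ ξ →
  (1 - 1 / (q : ℝ)) * (Real.log ξ - Real.log z - C) ≤ GG N q z ξ * VV N z

/-- S7: upper bound for `Tq`, large `q` -/
def StMix : Prop := ∀ ω : ℝ → ℝ, IsB ω → 0 < JJ ω → ∀ (α u t : ℝ), 0 < α → 0 < u → u ≤ t →
  2 * u + t < 1 / 2 → ∀ ε : ℝ, 0 < ε → ∃ N₀ : ℕ, ∀ N : ℕ, N₀ ≤ N → Even N → ∀ q : ℕ, q.Prime →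
  ¬ q ∣ N → (N : ℝ) ^ u ≤ q → (q : ℝ) ≤ (N : ℝ) ^ t →
  Tq ω (α * √N) N ((N : ℝ) ^ u) q ≤
    (1 / (1 / 2 - t - 2 * u) + ε) * VV N ((N : ℝ) ^ u) * (JJ ω * (α * √N)) / q

/-! ### E: endgame -/

/-- E01: sieve weights and primes in progressions -/
def StDist : Prop := ∀ (ω : ℝ → ℝ) (x : ℝ) (N q : ℕ) (z D : ℝ) (lam : ℕ → ℝ), IsWt N z D lam →
  0 ≤ x → 3 * x < N → 1 ≤ q → Nat.Coprime q N → (∀ p ∈ PP N z, ¬ p ∣ q) →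
  |(∑ n ∈ (II x).filter (fun n => q ∣ N - n),
      Λ n * ω (Real.log (n / x)) * ∑ m ∈ (N - n).divisors, lam m) -
    Th ω x / (Nat.totient q : ℝ) * MS D lam| ≤
  ∑ m ∈ (Icc 1 ⌊D⌋₊).filter (fun m => Nat.Coprime (q * m) N), Err ω x (q * m) N

/-- E02: regrouping -/
def StPairs : Prop := ∀ (N : ℕ) (s t D : ℝ) (F : ℕ → ℝ), 0 < s → 2 ≤ N → 1 ≤ D →
  (N : ℝ) ^ t * D ≤ N → (∀ n, 0 ≤ F n) →
  ∑ q ∈ PR N s t, ∑ m ∈ Icc 1 ⌊D⌋₊, F (q * m) ≤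
    1 / s * ∑ d ∈ Icc 1 ⌊(N : ℝ) ^ t * D⌋₊, F d

/-- E03: prime powers and prime factors of `N` -/
def StNPr : Prop := ∀ ω : ℝ → ℝ, IsB ω → ∀ α : ℝ, 0 < α → ∃ N₀ : ℕ, ∀ N : ℕ, N₀ ≤ N →
  ∑ n ∈ II (α * √N), (Λ n * ω (Real.log (n / (α * √N))) - an ω (α * √N) N n) ≤
    (N : ℝ) ^ ((2 : ℝ) / 5)

/-- E1: the first term -/
def StMain : Prop := ∀ (s c : ℝ), VL s c → ∀ ω : ℝ → ℝ, IsB ω → 0 < JJ ω → ∀ (α u : ℝ), 0 < α →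
  0 < u → 0 < s → u * s < 1 / 4 → ∀ ε : ℝ, 0 < ε → ∃ N₀ : ℕ, ∀ N : ℕ, N₀ ≤ N → Even N →
  (c - ε) * VV N ((N : ℝ) ^ u) * (JJ ω * (α * √N)) ≤ T0 ω (α * √N) N ((N : ℝ) ^ u)

/-- E2: the sums of `Tq` over a cell, small `q` -/
def StCellA : Prop := ∀ (σ c : ℝ), VU σ c → 0 ≤ c → ∀ ω : ℝ → ℝ, IsB ω → 0 < JJ ω →
  ∀ (α u s t : ℝ), 0 < α → 0 < u → u ≤ s → s < t → 0 < σ → t + u * σ < 1 / 4 →
  ∀ ε : ℝ, 0 < ε → ∃ N₀ : ℕ, ∀ N : ℕ, N₀ ≤ N → Even N → ∀ w : ℕ → ℝ,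
  (∀ q ∈ PR N s t, 0 ≤ w q ∧ w q ≤ 1) →
  ∑ q ∈ PR N s t, w q * Tq ω (α * √N) N ((N : ℝ) ^ u) q ≤
    (c * ∑ q ∈ PR N s t, w q / ((q : ℝ) - 1) + ε) *
      (VV N ((N : ℝ) ^ u) * (JJ ω * (α * √N)))

/-- E3: the sums of `Tq` over a cell, large `q` -/
def StCellB : Prop := ∀ ω : ℝ → ℝ, IsB ω → 0 < JJ ω →
  ∀ (α u s t : ℝ), 0 < α → 0 < u → u ≤ s → s < t → t + 2 * u < 1 / 2 →
  ∀ ε : ℝ, 0 < ε → ∃ N₀ : ℕ, ∀ N : ℕ, N₀ ≤ N → Even N → ∀ w : ℕ → ℝ,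
  (∀ q ∈ PR N s t, 0 ≤ w q ∧ w q ≤ 1) →
  ∑ q ∈ PR N s t, w q * Tq ω (α * √N) N ((N : ℝ) ^ u) q ≤
    (1 / (1 / 2 - t - 2 * u) * ∑ q ∈ PR N s t, w q / ((q : ℝ) - 1) + ε) *
      (VV N ((N : ℝ) ^ u) * (JJ ω * (α * √N)))

/-- the cells for small `q`: `(10^4 s, 10^4 t, 10^8 U)` -/
def cellsA : List (ℕ × ℕ × ℕ) :=
  [(399, 450, 100289210), (450, 500, 100371774), (500, 550, 100482587), (550, 600, 100630395),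
   (600, 650, 100826057), (650, 700, 101083089), (700, 750, 101418353), (750, 800, 101852965),
   (800, 850, 102413470), (850, 900, 103133401), (900, 950, 104055361), (950, 1000, 105233828),
   (1000, 1050, 106738988), (1050, 1100, 108662055), (1100, 1150, 111122765),
   (1150, 1200, 114280138), (1200, 1250, 118348290), (1250, 1300, 123279470),
   (1300, 1350, 128639448), (1350, 1400, 134486697), (1400, 1450, 140890826),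
   (1450, 1500, 147935368), (1500, 1550, 155721441), (1550, 1600, 164372633),
   (1600, 1650, 174041612), (1650, 1700, 184919214), (1700, 1750, 197247162),
   (1750, 1800, 211336246), (1800, 1850, 227592881), (1850, 1900, 246558956),
   (1900, 1950, 268973407), (1950, 2000, 295870749), (2000, 2050, 328745277),
   (2050, 2100, 369838438), (2100, 2150, 422672501), (2150, 2200, 493117919)]

/-- the cells for large `q`: `(10^4 s, 10^4 t)` -/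
def cellsB : List (ℕ × ℕ) :=
  [(2200, 2250), (2250, 2300), (2300, 2350), (2350, 2400), (2400, 2450), (2450, 2500),
   (2500, 2550), (2550, 2600), (2600, 2650), (2650, 2700), (2700, 2750), (2750, 2800),
   (2800, 2850), (2850, 2900), (2900, 2950), (2950, 3000), (3000, 3050), (3050, 3100),
   (3100, 3125)]

/-- the contribution of a cell -/
def cc (s t : ℕ) : ℝ := Real.log ((t : ℝ) / s) - ((t : ℝ) - s) / 3125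

/-- E4: numerical inequality -/
def StNum : Prop :=
  (cellsA.map (fun e => (e.2.2 : ℝ) / 10 ^ 8 * cc e.1 e.2.1)).sum +
    (cellsB.map (fun e => 1 / (1 / 2 - (e.2 : ℝ) / 10 ^ 4 - 2 * (399 / 10 ^ 4)) * cc e.1 e.2)).sum ≤
    176 / 100

/-- E5: the second term -/
def StSec : Prop := ∀ ω : ℝ → ℝ, IsB ω → 0 < JJ ω → ∀ α : ℝ, 0 < α → ∃ N₀ : ℕ, ∀ N : ℕ,
  N₀ ≤ N → Even N →
  ∑ q ∈ PR N (399 / 10 ^ 4) (5 / 16), (1 - Real.log q / (5 / 16 * Real.log N)) *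
      Tq ω (α * √N) N ((N : ℝ) ^ ((399 : ℝ) / 10 ^ 4)) q ≤
    1765 / 1000 * (VV N ((N : ℝ) ^ ((399 : ℝ) / 10 ^ 4)) * (JJ ω * (α * √N)))

open Classical in
/-- E6: squares -/
def StSq : Prop := ∀ (α u : ℝ), 0 < α → 0 < u → u ≤ 1 / 10 → ∃ N₀ : ℕ, ∀ N : ℕ, N₀ ≤ N →
  (((II (α * √N)).filter (fun n : ℕ => ∃ q : ℕ, q.Prime ∧ (N : ℝ) ^ u ≤ q ∧ q ^ 2 ∣ N - n)).card
    : ℝ) ≤ (N : ℝ) ^ (1 / 2 - u / 2)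

/-- E7: Richert's weights -/
def StRich : Prop := ∀ (N m : ℕ) (S : Finset ℕ), 2 ≤ N → 1 ≤ m → m < N → Squarefree m →
  (∀ q, q.Prime → q ∣ m → (q : ℝ) < (N : ℝ) ^ ((5 : ℝ) / 16) → q ∈ S) →
  (∀ q ∈ S, q.Prime ∧ q ∣ m ∧ (q : ℝ) < (N : ℝ) ^ ((5 : ℝ) / 16)) →
  0 < 1 - 5 / 9 * ∑ q ∈ S, (1 - Real.log q / (5 / 16 * Real.log N)) →
  m.primeFactors.card ≤ 4

open Classical in
/-- the good primes -/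
def Good (α β : ℝ) (N : ℕ) : Finset ℕ := (range N).filter (fun p => p.Prime ∧ α * √N < p ∧
  (p : ℝ) < β * √N ∧ Squarefree (N - p) ∧ (N - p).primeFactors.card ≤ 4 ∧
  ∀ q : ℕ, q.Prime → q ∣ N - p → (N : ℝ) ^ ((1 : ℝ) / 26) < q)

/-- E8: Richert's argument -/
def StRA : Prop := ∀ ω : ℝ → ℝ, IsB ω → 0 < JJ ω → ∀ α β : ℝ, 0 < α → α < β →
  (∀ t, ω t ≠ 0 → 0 < t ∧ t < Real.log (β / α)) → ∃ N₀ : ℕ, ∀ N : ℕ, N₀ ≤ N → Even N →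
  T0 ω (α * √N) N ((N : ℝ) ^ ((399 : ℝ) / 10 ^ 4)) -
    5 / 9 * ∑ q ∈ PR N (399 / 10 ^ 4) (5 / 16), (1 - Real.log q / (5 / 16 * Real.log N)) *
      Tq ω (α * √N) N ((N : ℝ) ^ ((399 : ℝ) / 10 ^ 4)) q ≤
    (Good α β N).card * Real.log N + (N : ℝ) ^ (1 / 2 - (1 : ℝ) / 100)

/-- E9: the theorem -/
def StMT : Prop := ∀ α β : ℝ, 0 < α → α < β → ∃ c : ℝ, 0 < c ∧ ∃ N₀ : ℕ, ∀ N : ℕ, N₀ ≤ N →
  Even N → c * SS N * √N / Real.log N ^ 2 ≤ (Good α β N).card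

end Pool.Agent.Helper60.GP
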