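import Pool.Agent.Helper15.AB.Defs

/-!
# Project GP (MP_b454d1_nt): every large even `N` is `p + P_4` with `p` of size `√N`

Definitions.
-/

set_option autoImplicit false

noncomputable section

namespace Pool.Agent.Helper60.GP

open Finset ArithmeticFunction

/-- the primes `p < z` not dividing `N` -/
def PP (N : ℕ) (z : ℝ) : Finset ℕ := (range ⌈z⌉₊).filter (fun p => p.Prime ∧ ¬ p ∣ N)

/-- `V(z) = ∏_{p < z, p ∤ N} (1 - 1/(p-1))` -/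
def VV (N : ℕ) (z : ℝ) : ℝ := ∏ p ∈ PP N z, (1 - 1 / ((p : ℝ) - 1))

open Classical in
/-- indicator function of the integers without prime factor in `PP N z` -/
def rg (N : ℕ) (z : ℝ) (n : ℕ) : ℝ := if ∀ p ∈ PP N z, ¬ p ∣ n then 1 else 0

/-- sieve weights of level `D` for the primes in `PP N z` -/
structure IsWt (N : ℕ) (z D : ℝ) (lam : ℕ → ℝ) : Prop where
  bound : ∀ m, |lam m| ≤ 1
  supp : ∀ m, lam m ≠ 0 → Squarefree m ∧ (m : ℝ) ≤ D ∧ ∀ p : ℕ, p.Prime → p ∣ m → p ∈ PP N z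

/-- main sum of sieve weights -/
def MS (D : ℝ) (lam : ℕ → ℝ) : ℝ := ∑ m ∈ Icc 1 ⌊D⌋₊, lam m / (Nat.totient m : ℝ)

/-- there are upper bound sieve weights with constant `c` -/
def UpS (N : ℕ) (z D c : ℝ) : Prop := ∃ lam : ℕ → ℝ, IsWt N z D lam ∧
  (∀ n : ℕ, 1 ≤ n → rg N z n ≤ ∑ m ∈ n.divisors, lam m) ∧ MS D lam ≤ c * VV N z

/-- there are lower bound sieve weights with constant `c` -/
def LoS (N : ℕ) (z D c : ℝ) : Prop := ∃ lam : ℕ → ℝ, IsWt N z D lam ∧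
  (∀ n : ℕ, 1 ≤ n → ∑ m ∈ n.divisors, lam m ≤ rg N z n) ∧ c * VV N z ≤ MS D lam

/-- the constant `c` is asymptotically valid for the upper bound sieve of level `z ^ s` -/
def VU (s c : ℝ) : Prop := ∀ ε : ℝ, 0 < ε → ∀ M : ℝ, ∃ z₀ : ℝ, ∀ z : ℝ, z₀ ≤ z → ∀ N : ℕ,
  Even N → 1 ≤ N → (N : ℝ) ≤ z ^ M → ∀ D : ℝ, z ^ s ≤ D → UpS N z D (c + ε)

/-- the constant `c` is asymptotically valid for the lower bound sieve of level `z ^ s` -/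
def VL (s c : ℝ) : Prop := ∀ ε : ℝ, 0 < ε → ∀ M : ℝ, ∃ z₀ : ℝ, ∀ z : ℝ, z₀ ≤ z → ∀ N : ℕ,
  Even N → 1 ≤ N → (N : ℝ) ≤ z ^ M → ∀ D : ℝ, z ^ s ≤ D → LoS N z D (c - ε)

/-- admissible bumps -/
structure IsB (ω : ℝ → ℝ) : Prop where
  smooth : ContDiff ℝ 4 ω
  nonneg : ∀ t, 0 ≤ ω t
  le_half : ∀ t, ω t ≤ 1 / 2
  supp : ∀ t, t ∉ Set.Icc (0 : ℝ) 1 → ω t = 0

/-- `∫_0^1 ω(t) e^t dt` -/
def JJ (ω : ℝ → ℝ) : ℝ := ∫ t in (0 : ℝ)..1, ω t * Real.exp t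

/-- the range of summation -/
def II (x : ℝ) : Finset ℕ := Icc 1 ⌊3 * x⌋₊

/-- error term in an arithmetic progression -/
def Err (ω : ℝ → ℝ) (x : ℝ) (q : ℕ) (b : ℤ) : ℝ :=
  |(∑ n ∈ (II x).filter (fun n : ℕ => (q : ℤ) ∣ (n : ℤ) - b), Λ n * ω (Real.log (n / x))) -
    Pool.Agent.Helper15.AB.Th ω x / (Nat.totient q : ℝ)|

open Classical in
/-- the weight of `n` -/
def an (ω : ℝ → ℝ) (x : ℝ) (N n : ℕ) : ℝ :=
  if n.Prime ∧ ¬ n ∣ N then Λ n * ω (Real.log (n / x)) else 0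

/-- the sifted sum -/
def T0 (ω : ℝ → ℝ) (x : ℝ) (N : ℕ) (z : ℝ) : ℝ := ∑ n ∈ II x, an ω x N n * rg N z (N - n)

/-- the sifted sum over the `n` with `q ∣ N - n` -/
def Tq (ω : ℝ → ℝ) (x : ℝ) (N : ℕ) (z : ℝ) (q : ℕ) : ℝ :=
  ∑ n ∈ (II x).filter (fun n => q ∣ N - n), an ω x N n * rg N z (N - n)

/-- the primes `q ∤ N` with `N ^ s ≤ q < N ^ t` -/
def PR (N : ℕ) (s t : ℝ) : Finset ℕ :=
  (range ⌈(N : ℝ) ^ t⌉₊).filter (fun q => q.Prime ∧ ¬ q ∣ N ∧ (N : ℝ) ^ s ≤ q)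

/-- the singular series (without the twin prime constant) -/
def SS (N : ℕ) : ℝ := ∏ p ∈ N.primeFactors.filter (fun p => 2 < p), ((p : ℝ) - 1) / ((p : ℝ) - 2)

/-! ### the sieve of mixed dimension -/

/-- the number of residue classes modulo `p` -/
def rho (N : ℕ) (z : ℝ) (p : ℕ) : ℝ := if (p : ℝ) < z ∧ ¬ p ∣ N then 2 else 1

/-- `n` is in one of these classes -/
def hit (N : ℕ) (z : ℝ) (p n : ℕ) : Prop := p ∣ n ∨ ((p : ℝ) < z ∧ (p : ℤ) ∣ (N : ℤ) - n)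

/-- squarefree integers `≤ ξ` composed of primes of `Q` -/
def DD (Q : Finset ℕ) (ξ : ℝ) : Finset ℕ :=
  (Icc 1 ⌊ξ⌋₊).filter (fun d => Squarefree d ∧ d.primeFactors ⊆ Q)

/-- the primes up to `ξ` different from `q` -/
def Qx (q : ℕ) (ξ : ℝ) : Finset ℕ := (Icc 1 ⌊ξ⌋₊).filter (fun p => p.Prime ∧ p ≠ q)

/-- the Selberg sum -/
def GG (N q : ℕ) (z ξ : ℝ) : ℝ :=
  ∑ d ∈ DD (Qx q ξ) ξ, ∏ p ∈ d.primeFactors, rho N z p / (p - rho N z p)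

end Pool.Agent.Helper60.GP
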