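import Pool.Agent.Helper60.GP.St
import Pool.Agent.Helper60.GP.M_R3

/-! Project GP (MP_b454d1_nt), module R4 -/

set_option autoImplicit false

namespace Pool.Agent.Helper60.GP

open Finset ArithmeticFunction

theorem hRecL (h1 : StBu) (h2 : StComp) (h3 : StRatio) : StRecL := by
  intro K i c u hK hi hL hU ε hε M
  obtain ⟨z₀, h⟩ := setup_R3 (K := K) (i := i) (M := M)
    (ε := min 1 (ε / (2 * (|c - u| + 1)))) h3 hK hi (by positivity)
    (P := fun N z D => LoS N z D (c - ε / 12)) (Q := fun N z D => UpS N z D (u + ε / 12))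
    (hL (ε / 12) (by positivity)) (hU (ε / 12) (by positivity))
  refine ⟨z₀, fun z hz N hN hN1 hNM D hD => ?_⟩
  obtain ⟨z₁, hz1, ⟨lam₀, w0, p0, m0⟩, hQ, hr⟩ := h z hz N hN hN1 hNM D hD
  choose! laml wl pl ml using hQ
  obtain ⟨lam, w, e1, e2⟩ := h2 N z₁ z D lam₀ laml hz1 w0 wl
  refine ⟨lam, w, ?_, ?_⟩
  · intro n hn
    rw [split_R3 h1 hz1, e1 n hn]
    have a1 := p0 n hn
    have a2 : ∑ l ∈ (PP N z \ PP N z₁).filter (fun l => l ∣ n), rg N l n ≤
        ∑ l ∈ (PP N z \ PP N z₁).filter (fun l => l ∣ n), ∑ m ∈ n.divisors, laml l m :=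
      sum_le_sum fun l hl => pl l (mem_filter.1 hl).1 n hn
    linarith
  · have hV := VV_pos_R3 hN z
    have a1 : ∑ j ∈ PP N z \ PP N z₁, 1 / ((j : ℝ) - 1) * MS (D / j) (laml j) ≤
        ∑ j ∈ PP N z \ PP N z₁, 1 / ((j : ℝ) - 1) * ((u + ε / 12) * VV N j) :=
      sum_le_sum fun j hj => mul_le_mul_of_nonneg_left (ml j hj) (inv_nonneg_R3 hj)
    have a2 : ∑ j ∈ PP N z \ PP N z₁, 1 / ((j : ℝ) - 1) * ((u + ε / 12) * VV N j) =
        (u + ε / 12) * (VV N z₁ - VV N z) := by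
      rw [← VV_split_R3 h1 hz1, mul_sum]
      exact sum_congr rfl fun j _ => by ring
    rw [a2] at a1
    obtain ⟨b1, b2, b3⟩ := fin_R3 hi hε hr
    set R := VV N z₁ / VV N z with hR
    have e3 : VV N z₁ = R * VV N z := by
      rw [hR, div_mul_cancel₀ _ hV.ne']
    rw [e3] at a1 m0
    rw [e2]
    have b4 := (abs_le.1 b1).1
    have b5 : (((i : ℝ) + 1) * c - u) / i - ε ≤ (c - ε / 12) * R - (u + ε / 12) * (R - 1) := by
      nlinarith
    have b6 := mul_le_mul_of_nonneg_right b5 hV.le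
    nlinarith

end Pool.Agent.Helper60.GP
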