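import Pool.Agent.Helper60.GP.St

/-! Project GP (MP_b454d1_nt), module S7 -/

set_option autoImplicit false

namespace Pool.Agent.Helper60.GP

open Finset ArithmeticFunction Filter

namespace GPS7

theorem ev (k : ℕ) (b c : ℝ) (hb : 0 < b) (hc : 0 < c) :
    ∀ᶠ L : ℝ in atTop, L ^ k ≤ c * Real.exp (b * L) := by
  filter_upwards [(isLittleO_pow_exp_pos_mul_atTop (k := k) hb).bound hc,
    eventually_ge_atTop (0 : ℝ)] with L h1 h2
  rwa [Real.norm_of_nonneg (pow_nonneg h2 k), Real.norm_of_nonneg (Real.exp_pos _).le] at h1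

open Classical in
theorem sumle {ω : ℝ → ℝ} (hω : IsB ω) {x z ξ : ℝ} {N q : ℕ} (hx : 0 < x) (h3x : 1 ≤ 3 * x)
    (hN : 3 * x < N) (hξ : ξ < x) :
    Tq ω x N z q ≤ Real.log (3 * x) *
      ∑ n ∈ (II x).filter (fun n : ℕ => (q : ℤ) ∣ (N : ℤ) - n ∧ ∀ p ∈ Qx q ξ, ¬ hit N z p n),
        ω (Real.log (n / x)) := by
  unfold Tq
  rw [← Finset.sum_filter_ne_zero, Finset.mul_sum]
  have key : ∀ n ∈ ((II x).filter (fun n => q ∣ N - n)).filter
      (fun n => an ω x N n * rg N z (N - n) ≠ 0),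
      n ∈ (II x).filter (fun n : ℕ => (q : ℤ) ∣ (N : ℤ) - n ∧ ∀ p ∈ Qx q ξ, ¬ hit N z p n) ∧
        an ω x N n * rg N z (N - n) ≤ Real.log (3 * x) * ω (Real.log (n / x)) := by
    intro n hn
    rw [Finset.mem_filter, Finset.mem_filter] at hn
    obtain ⟨⟨hn1, hn2⟩, hn3⟩ := hn
    have ha : an ω x N n ≠ 0 := left_ne_zero_of_mul hn3
    have hr : rg N z (N - n) ≠ 0 := right_ne_zero_of_mul hn3
    have hpr : n.Prime ∧ ¬ n ∣ N := by
      by_contra h
      exact ha (by unfold an; rw [if_neg h])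
    have hrg : ∀ p ∈ PP N z, ¬ p ∣ N - n := by
      by_contra h
      exact hr (by unfold rg; rw [if_neg h])
    have er : rg N z (N - n) = 1 := by unfold rg; rw [if_pos hrg]
    have ea : an ω x N n = Λ n * ω (Real.log (n / x)) := by unfold an; rw [if_pos hpr]
    have hw : ω (Real.log (n / x)) ≠ 0 := by
      intro h
      exact ha (by rw [ea, h, mul_zero])
    have hmem : Real.log (n / x) ∈ Set.Icc (0 : ℝ) 1 := by
      by_contra h
      exact hw (hω.supp _ h)
    have hn0 : (0 : ℝ) < n := by exact_mod_cast hpr.1.pos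
    have hnx : x ≤ n := by
      have h1 := (Real.log_nonneg_iff (div_pos hn0 hx)).1 hmem.1
      rwa [le_div_iff₀ hx, one_mul] at h1
    have hn3x : (n : ℝ) ≤ 3 * x := by
      unfold II at hn1
      rw [Finset.mem_Icc] at hn1
      exact (Nat.le_floor_iff (by positivity)).1 hn1.2
    have hnN : n ≤ N := by
      have h1 : (n : ℝ) ≤ N := by linarith
      exact_mod_cast h1
    have hcast : ((N - n : ℕ) : ℤ) = (N : ℤ) - n := by
      push_cast [Nat.cast_sub hnN]
      ring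
    refine ⟨?_, ?_⟩
    · rw [Finset.mem_filter]
      refine ⟨hn1, ?_, ?_⟩
      · rw [← hcast]
        exact_mod_cast hn2
      · intro p hp hh
        unfold Qx at hp
        rw [Finset.mem_filter, Finset.mem_Icc] at hp
        obtain ⟨⟨-, hp1⟩, hp2, hp3⟩ := hp
        have hpn : ¬ p ∣ n := by
          intro h
          have h1 : p = n := (Nat.prime_dvd_prime_iff_eq hp2 hpr.1).1 h
          have h2 : p ≠ 0 := hp2.ne_zero
          have h3 : (p : ℝ) ≤ ξ := (Nat.le_floor_iff' h2).1 hp1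
          rw [h1] at h3
          linarith
        rcases hh with hh | ⟨hh1, hh2⟩
        · exact hpn hh
        · have hh3 : p ∣ N - n := by
            rw [← hcast] at hh2
            exact_mod_cast hh2
          by_cases hpN : p ∣ N
          · exact hpn ((Nat.dvd_sub_iff_right hnN hpN).1 hh3)
          · refine hrg p ?_ hh3
            unfold PP
            rw [Finset.mem_filter, Finset.mem_range]
            exact ⟨Nat.lt_ceil.2 hh1, hp2, hpN⟩
    · rw [ea, er, mul_one]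
      refine mul_le_mul_of_nonneg_right ?_ (hω.nonneg _)
      exact vonMangoldt_le_log.trans (Real.log_le_log hn0 hn3x)
  refine (Finset.sum_le_sum fun n hn => (key n hn).2).trans ?_
  refine Finset.sum_le_sum_of_subset_of_nonneg (fun n hn => (key n hn).1) fun n _ _ => ?_
  exact mul_nonneg (Real.log_nonneg h3x) (hω.nonneg _)

theorem SS_ge (N : ℕ) : 1 ≤ SS N := by
  have h1 : ∏ p ∈ N.primeFactors.filter (fun p => 2 < p), (1 : ℝ) ≤ SS N := by
    refine Finset.prod_le_prod (fun p _ => zero_le_one) fun p hp => ?_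
    rw [Finset.mem_filter] at hp
    have h : (2 : ℝ) < p := by exact_mod_cast hp.2
    rw [le_div_iff₀ (by linarith)]
    linarith
  rwa [Finset.prod_const_one] at h1

theorem asym {α u e δ c J C C₂ R η ε : ℝ} (hα : 0 < α) (hu : 0 < u) (heu : 0 < e - u)
    (he12 : e < 1 / 2) (hδ0 : 0 < δ) (hc : 0 < c) (hJ : 0 < J) (hC : 0 < C) (hR0 : 0 < R)
    (hη0 : 0 < η) (hRe : R * (e - u) = 1 / 2 + η) (hε : 0 < ε) :
    ∀ᶠ L : ℝ in atTop, 1 ≤ L ∧ 3 * α * Real.exp (L / 2) < Real.exp L ∧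
      Real.exp (e * L) < α * Real.exp (L / 2) ∧ 2 ≤ Real.exp (u * L) ∧
      1 ≤ 3 * (α * Real.exp (L / 2)) ∧
      0 < (e - u) * L - C₂ ∧
      Real.log (3 * α) + L / 2 ≤ R * ((1 - 1 / Real.exp (u * L)) * ((e - u) * L - C₂)) ∧
      (Real.log (3 * α) + L / 2) * (C * (1 + e * L) ^ 2) * L ≤
        ε / 3 * c * J * α * Real.exp (δ * L) := by
  have he0 : 0 < e := by linarith
  have e1 := ev 0 (1 / 2) (1 / (3 * α) / 2) (by norm_num) (by positivity)
  have e2 := ev 0 (1 / 2 - e) (α / 2) (by linarith) (by positivity)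
  have e3 := ev 0 u (1 / 2) hu (by norm_num)
  have e4 := ev 0 (1 / 2) (3 * α) (by norm_num) (by positivity)
  have e5 := ev 1 u (1 / (R * (e - u) + R * |C₂| + 1)) hu (by positivity)
  have e6 := ev 4 δ (ε / 3 * c * J * α / ((|Real.log (3 * α)| + 1) * (C * (1 + e) ^ 2)))
    hδ0 (by positivity)
  filter_upwards [e1, e2, e3, e4, e5, e6, eventually_ge_atTop (1 : ℝ),
    eventually_gt_atTop (C₂ / (e - u)),
    eventually_ge_atTop ((R * C₂ + 1 + Real.log (3 * α)) / η)] with L l1 l2 l3 l4 l5 l6 l7 l8 l9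
  clear e1 e2 e3 e4 e5 e6
  rw [pow_zero] at l1 l2 l3 l4
  rw [pow_one] at l5
  have p1 := Real.exp_pos (L / 2)
  have p2 := Real.exp_pos (e * L)
  have p3 := Real.exp_pos (u * L)
  have h8 : 0 < (e - u) * L - C₂ := by
    rw [div_lt_iff₀ heu] at l8
    linarith
  refine ⟨l7, ?_, ?_, ?_, ?_, h8, ?_, ?_⟩
  · have hx2 : Real.exp L = Real.exp (1 / 2 * L) * Real.exp (L / 2) := by
      rw [← Real.exp_add]; ring_nf
    rw [hx2]
    have : 3 * α < Real.exp (1 / 2 * L) := by
      rw [div_div, mul_comm, ← div_eq_mul_one_div, le_div_iff₀ (by positivity)] at l1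
      linarith
    exact mul_lt_mul_of_pos_right this p1
  · have hx3 : α * Real.exp (L / 2) = (α * Real.exp ((1 / 2 - e) * L)) * Real.exp (e * L) := by
      rw [mul_assoc, ← Real.exp_add]; ring_nf
    rw [hx3]
    have : 1 < α * Real.exp ((1 / 2 - e) * L) := by linarith
    exact lt_mul_of_one_lt_left p2 this
  · linarith
  · have : Real.exp (1 / 2 * L) = Real.exp (L / 2) := by ring_nf
    rw [this] at l4
    linarith
  · have hX : R * ((e - u) * L - C₂) ≤ Real.exp (u * L) := by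
      have h9 : R * ((e - u) * L - C₂) ≤ (R * (e - u) + R * |C₂| + 1) * L := by
        have h10 : -C₂ ≤ |C₂| * L :=
          (neg_le_abs C₂).trans (le_mul_of_one_le_right (abs_nonneg _) l7)
        have h10' := mul_le_mul_of_nonneg_left h10 hR0.le
        linarith
      have h11 : (R * (e - u) + R * |C₂| + 1) * L ≤ Real.exp (u * L) := by
        rw [one_div, inv_mul_eq_div, le_div_iff₀ (by positivity)] at l5
        linarith
      linarith
    have h12 : R * ((1 - 1 / Real.exp (u * L)) * ((e - u) * L - C₂)) =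
        R * ((e - u) * L - C₂) - R * ((e - u) * L - C₂) / Real.exp (u * L) := by
      ring
    have h13 : R * ((e - u) * L - C₂) / Real.exp (u * L) ≤ 1 := by
      rw [div_le_one p3]
      exact hX
    rw [div_le_iff₀ hη0] at l9
    have h14 : R * ((e - u) * L - C₂) = (1 / 2 + η) * L - R * C₂ := by
      rw [← hRe]; ring
    rw [h12]
    rw [h14] at h13 ⊢
    linarith
  · have hL0 : 0 < L := by linarith
    have h1 : Real.log (3 * α) + L / 2 ≤ (|Real.log (3 * α)| + 1) * L := by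
      have h2 := le_abs_self (Real.log (3 * α))
      have h3 := le_mul_of_one_le_right (abs_nonneg (Real.log (3 * α))) l7
      linarith
    have h2 : (1 + e * L) ^ 2 ≤ ((1 + e) * L) ^ 2 := by
      apply pow_le_pow_left₀ (by positivity)
      linarith
    have h3 : (Real.log (3 * α) + L / 2) * (C * (1 + e * L) ^ 2) * L ≤
        ((|Real.log (3 * α)| + 1) * L) * (C * ((1 + e) * L) ^ 2) * L := by
      refine mul_le_mul_of_nonneg_right ?_ hL0.le
      exact mul_le_mul h1 (mul_le_mul_of_nonneg_left h2 hC.le) (by positivity) (by positivity)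
    have h4 : ((|Real.log (3 * α)| + 1) * L) * (C * ((1 + e) * L) ^ 2) * L =
        ((|Real.log (3 * α)| + 1) * (C * (1 + e) ^ 2)) * L ^ 4 := by ring
    rw [div_mul_eq_mul_div, le_div_iff₀ (by positivity)] at l6
    rw [h4] at h3
    linarith

/-- the final estimate -/
theorem fin {α e δ t c J C R ε L x ξ q V G lx : ℝ} (hL : 0 < L) (hC : 0 < C) (hJ : 0 < J)
    (hε : 0 < ε) (hx0 : 0 < x) (hξ1 : 1 ≤ ξ) (he0 : 0 < e)
    (hx : x = α * Real.exp (L / 2)) (hξ : ξ = Real.exp (e * L))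
    (he : e = (1 / 2 - t - δ) / 2) (hq : 0 < q) (hqt : q ≤ Real.exp (t * L)) (hG : 0 < G)
    (hV : c / L ≤ V) (hlx : lx = Real.log (3 * α) + L / 2) (hlx0 : 0 ≤ lx)
    (hB : lx ≤ R * (G * V))
    (a8 : (Real.log (3 * α) + L / 2) * (C * (1 + e * L) ^ 2) * L ≤
        ε / 3 * c * J * α * Real.exp (δ * L)) :
    lx * (J * x / (q * G) + C * (ξ * (1 + Real.log ξ)) ^ 2) ≤
      (R + ε / 3) * V * (J * x) / q := by
  have m1 : lx * (J * x / (q * G)) ≤ R * V * (J * x) / q := by
    refine (mul_le_mul_of_nonneg_right hB (by positivity)).trans (le_of_eq ?_)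
    field_simp
  have m2 : lx * (C * (ξ * (1 + Real.log ξ)) ^ 2) ≤ ε / 3 * V * (J * x) / q := by
    rw [show Real.log ξ = e * L by rw [hξ, Real.log_exp], le_div_iff₀ hq]
    have k1 : lx * (C * (ξ * (1 + e * L)) ^ 2) * q ≤
        lx * (C * (ξ * (1 + e * L)) ^ 2) * Real.exp (t * L) :=
      mul_le_mul_of_nonneg_left hqt (by positivity)
    refine k1.trans ?_
    have k2 : lx * (C * (ξ * (1 + e * L)) ^ 2) * Real.exp (t * L) =
        ((Real.log (3 * α) + L / 2) * (C * (1 + e * L) ^ 2) * L) *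
          (Real.exp ((1 / 2 - δ) * L) / L) := by
      have : ξ ^ 2 * Real.exp (t * L) = Real.exp ((1 / 2 - δ) * L) := by
        rw [hξ, ← Real.exp_nat_mul, ← Real.exp_add]
        congr 1
        rw [he]
        push_cast
        ring
      rw [← this, hlx]
      field_simp
    rw [k2]
    have k3 : (ε / 3 * c * J * α * Real.exp (δ * L)) * (Real.exp ((1 / 2 - δ) * L) / L) =
        ε / 3 * (c / L) * (J * x) := by
      have : Real.exp ((1 / 2 - δ) * L) * Real.exp (δ * L) = Real.exp (L / 2) := by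
        rw [← Real.exp_add]
        ring_nf
      rw [hx, ← this]
      ring
    refine (mul_le_mul_of_nonneg_right a8 (by positivity)).trans ?_
    rw [k3]
    refine mul_le_mul_of_nonneg_right ?_ (by positivity)
    exact mul_le_mul_of_nonneg_left hV (by positivity)
  rw [mul_add]
  refine (add_le_add m1 m2).trans (le_of_eq ?_)
  ring

end GPS7

theorem hMix (h1 : StUpM) (h2 : StG) (h3 : StVlow) : StMix := by
  classical
  intro ω hω hJ α u t hα hu hut htu ε hε
  obtain ⟨C, hC, hup⟩ := h1 ω hω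
  obtain ⟨C₂, hG⟩ := h2
  obtain ⟨c, hc, N₁, hV⟩ := h3 u hu
  obtain ⟨a, ha⟩ : ∃ a : ℝ, a = 1 / 2 - t - 2 * u := ⟨_, rfl⟩
  have ha0 : 0 < a := by rw [ha]; linarith
  obtain ⟨δ, hδ⟩ : ∃ δ : ℝ, δ = a * (ε * a / 3) / (1 + ε * a / 3) := ⟨_, rfl⟩
  have hδ0 : 0 < δ := by rw [hδ]; positivity
  have haδ : a - δ = a / (1 + ε * a / 3) := by
    rw [hδ]
    field_simp
    ring
  have haδ0 : 0 < a - δ := by rw [haδ]; positivity
  have hinv : 1 / (a - δ) = 1 / a + ε / 3 := by
    rw [haδ]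
    field_simp
  obtain ⟨e, he⟩ : ∃ e : ℝ, e = (1 / 2 - t - δ) / 2 := ⟨_, rfl⟩
  have he2 : 2 * (e - u) = a - δ := by rw [he, ha]; ring
  have heu : 0 < e - u := by linarith
  have he0 : 0 < e := by linarith
  have he12 : e < 1 / 2 := by rw [he]; linarith
  obtain ⟨R, hR⟩ : ∃ R : ℝ, R = 1 / a + ε / 3 + ε / 3 := ⟨_, rfl⟩
  have hR0 : 0 < R := by rw [hR]; positivity
  have hRe : R * (e - u) = 1 / 2 + ε / 3 * (e - u) := by
    rw [hR, ← hinv, ← he2]
    field_simp
  have hE := GPS7.asym (C₂ := C₂) hα hu heu he12 hδ0 hc hJ hC hR0 (by positivity) hRe hε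
  have hT : Tendsto (fun N : ℕ => Real.log (N : ℝ)) atTop atTop :=
    Real.tendsto_log_atTop.comp tendsto_natCast_atTop_atTop
  obtain ⟨N₂, hN₂⟩ := eventually_atTop.1 (hT.eventually hE)
  refine ⟨max N₁ (max N₂ 1), fun N hN hev q hq hqN hq1 hq2 => ?_⟩
  have hN1 : N₁ ≤ N := (le_max_left _ _).trans hN
  have hN2 : N₂ ≤ N := ((le_max_left _ _).trans (le_max_right _ _)).trans hN
  have hN3 : 1 ≤ N := ((le_max_right _ _).trans (le_max_right _ _)).trans hN
  have hNpos : (0 : ℝ) < N := by exact_mod_cast hN3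
  obtain ⟨L, hL⟩ : ∃ L : ℝ, L = Real.log (N : ℝ) := ⟨_, rfl⟩
  have hN₂' := hN₂ N hN2
  rw [← hL] at hN₂'
  obtain ⟨a1, a2, a3, a4, a5, a6, a7, a8⟩ := hN₂'
  have hpow : ∀ b : ℝ, (N : ℝ) ^ b = Real.exp (b * L) := fun b => by
    rw [Real.rpow_def_of_pos hNpos, mul_comm, hL]
  have hsq : √(N : ℝ) = Real.exp (L / 2) := by
    rw [Real.sqrt_eq_rpow, hpow]
    ring_nf
  have hNL : (N : ℝ) = Real.exp L := by rw [hL]; exact (Real.exp_log hNpos).symm
  obtain ⟨x, hx⟩ : ∃ x : ℝ, x = α * √(N : ℝ) := ⟨_, rfl⟩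
  have hx' : x = α * Real.exp (L / 2) := by rw [hx, hsq]
  have hx0 : 0 < x := by rw [hx']; positivity
  obtain ⟨z, hz⟩ : ∃ z : ℝ, z = (N : ℝ) ^ u := ⟨_, rfl⟩
  have hz' : z = Real.exp (u * L) := by rw [hz, hpow u]
  obtain ⟨ξ, hξ⟩ : ∃ ξ : ℝ, ξ = Real.exp (e * L) := ⟨_, rfl⟩
  have hL0 : 0 < L := by linarith
  have hξ1 : 1 ≤ ξ := by rw [hξ]; exact Real.one_le_exp (by positivity)
  have hlx : Real.log (3 * x) = Real.log (3 * α) + L / 2 := by
    rw [hx', ← mul_assoc, Real.log_mul (by positivity) (Real.exp_pos _).ne', Real.log_exp]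
  have h3x : 1 ≤ 3 * x := by rw [hx']; exact a5
  have hlx0 : 0 ≤ Real.log (3 * x) := Real.log_nonneg h3x
  have hlξ : Real.log ξ = e * L := by rw [hξ]; exact Real.log_exp _
  have hlz : Real.log z = u * L := by rw [hz', Real.log_exp]
  have hqp : (0 : ℝ) < q := by exact_mod_cast hq.pos
  rw [← hx, ← hz]
  rw [← hz] at hq1
  have hVV : c / L ≤ VV N z := by
    rw [hz]
    refine le_trans ?_ (hV N hN1 hev)
    rw [← hL]
    exact div_le_div_of_nonneg_right (le_mul_of_one_le_right hc.le (GPS7.SS_ge N)) hL0.le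
  have hVV0 : 0 < VV N z := lt_of_lt_of_le (by positivity) hVV
  -- the Selberg sum
  have hz2 : 2 ≤ z := by rw [hz']; exact a4
  have hGG := hG N q z ξ hev hq hz2 hq1 hξ1
  have hfac : (1 - 1 / z) ≤ 1 - 1 / (q : ℝ) := by
    have h5 : 1 / (q : ℝ) ≤ 1 / z := one_div_le_one_div_of_le (by linarith) hq1
    linarith
  have hfac0 : 0 < 1 - 1 / z := by
    have : 1 / z ≤ 1 / 2 := one_div_le_one_div_of_le (by norm_num) hz2
    linarith
  rw [← hz'] at a7
  have e1 : Real.log ξ - Real.log z - C₂ = (e - u) * L - C₂ := by rw [hlξ, hlz]; ring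
  rw [e1] at hGG
  have hB : Real.log (3 * x) ≤ R * (GG N q z ξ * VV N z) := by
    rw [hlx]
    refine a7.trans (mul_le_mul_of_nonneg_left ?_ hR0.le)
    exact (mul_le_mul_of_nonneg_right hfac a6.le).trans hGG
  have hGG0 : 0 < GG N q z ξ := by
    have h5 : 0 < (1 - 1 / (q : ℝ)) * ((e - u) * L - C₂) := mul_pos (hfac0.trans_le hfac) a6
    exact (pos_iff_pos_of_mul_pos (h5.trans_le hGG)).2 hVV0
  have hξx : ξ < x := by rw [hx', hξ]; exact a3
  have hup' := hup N q z ξ x hev hq (hξ1.trans hξx.le) hξ1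
  have h3N : 3 * x < N := by rw [hx', hNL, ← mul_assoc]; exact a2
  have hsum := GPS7.sumle (z := z) (ξ := ξ) (q := q) hω hx0 h3x h3N hξx
  refine hsum.trans ((mul_le_mul_of_nonneg_left hup' hlx0).trans ?_)
  have hqt : (q : ℝ) ≤ Real.exp (t * L) := by rw [← hpow]; exact hq2
  refine (GPS7.fin hL0 hC hJ hε hx0 hξ1 he0 hx' hξ he hqp hqt hGG0 hVV hlx hlx0 hB a8).trans
    (le_of_eq ?_)
  rw [hR, ← ha]
  ring

end Pool.Agent.Helper60.GP
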